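import Mathlib

namespace Pool.Agent.Helper431.PN

/-- Entry conditions defining the group P_n(Z/p^m): diagonal entries congruent to 1 mod p,
entries below the diagonal congruent to 0 mod p. -/
def IsP (p m n : ℕ) (A : Matrix (Fin n) (Fin n) (ZMod (p ^ m))) : Prop :=
  (∀ i, (p : ZMod (p ^ m)) ∣ A i i - 1) ∧ ∀ i j, j < i → (p : ZMod (p ^ m)) ∣ A i j

/-- Entries on and below the diagonal are divisible by p. -/
def IsJ (p m n : ℕ) (A : Matrix (Fin n) (Fin n) (ZMod (p ^ m))) : Prop :=
  ∀ i j, j ≤ i → (p : ZMod (p ^ m)) ∣ A i j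

theorem isP_iff (p m n : ℕ) (A : Matrix (Fin n) (Fin n) (ZMod (p ^ m))) :
    IsP p m n A ↔ IsJ p m n (A - 1) := by
  constructor
  · rintro ⟨h1, h2⟩ i j hij
    rcases hij.eq_or_lt with h | h
    · subst h
      simpa using h1 j
    · have : (1 : Matrix (Fin n) (Fin n) (ZMod (p ^ m))) i j = 0 :=
        Matrix.one_apply_ne (ne_of_gt h)
      simpa [Matrix.sub_apply, this] using h2 i j h
  · intro h
    refine ⟨fun i => by simpa using h i i le_rfl, fun i j hij => ?_⟩
    have h0 : (1 : Matrix (Fin n) (Fin n) (ZMod (p ^ m))) i j = 0 :=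
      Matrix.one_apply_ne (ne_of_gt hij)
    simpa [Matrix.sub_apply, h0] using h i j hij.le

theorem IsP.one (p m n : ℕ) : IsP p m n 1 := by
  refine ⟨fun i => by simp, fun i j hij => ?_⟩
  rw [Matrix.one_apply_ne (ne_of_gt hij)]
  exact dvd_zero _

theorem IsP.mul {p m n : ℕ} {A B : Matrix (Fin n) (Fin n) (ZMod (p ^ m))}
    (hA : IsP p m n A) (hB : IsP p m n B) : IsP p m n (A * B) := by
  have key : ∀ i j k, j ≤ i → k ≠ i → (p : ZMod (p ^ m)) ∣ A i k * B k j := by
    intro i j k hji hki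
    rcases lt_or_gt_of_ne hki with h | h
    · exact Dvd.dvd.mul_right (hA.2 i k h) _
    · exact Dvd.dvd.mul_left (hB.2 k j (lt_of_le_of_lt hji h)) _
  constructor
  · intro i
    rw [Matrix.mul_apply, ← Finset.add_sum_erase _ _ (Finset.mem_univ i)]
    have h1 : (p : ZMod (p ^ m)) ∣ ∑ k ∈ Finset.univ.erase i, A i k * B k i :=
      Finset.dvd_sum fun k hk => key i i k le_rfl (Finset.ne_of_mem_erase hk)
    have h2 : (p : ZMod (p ^ m)) ∣ A i i * B i i - 1 := by
      have : A i i * B i i - 1 = (A i i - 1) * B i i + (B i i - 1) := by ring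
      rw [this]
      exact dvd_add (Dvd.dvd.mul_right (hA.1 i) _) (hB.1 i)
    have : A i i * B i i + ∑ k ∈ Finset.univ.erase i, A i k * B k i - 1
        = (A i i * B i i - 1) + ∑ k ∈ Finset.univ.erase i, A i k * B k i := by ring
    rw [this]
    exact dvd_add h2 h1
  · intro i j hij
    rw [Matrix.mul_apply, ← Finset.add_sum_erase _ _ (Finset.mem_univ i)]
    refine dvd_add (Dvd.dvd.mul_left (hB.2 i j hij) _) ?_
    exact Finset.dvd_sum fun k hk => key i j k hij.le (Finset.ne_of_mem_erase hk)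

/-- The group P_n(Z/p^m) inside GL_n(Z/p^m). (For a prime p and m ≥ 1 every matrix
satisfying IsP is invertible and its inverse satisfies IsP as well, see mem_of_isP.) -/
def PGroup (p m n : ℕ) : Subgroup (Matrix (Fin n) (Fin n) (ZMod (p ^ m)))ˣ where
  carrier := {g | IsP p m n (g : Matrix (Fin n) (Fin n) (ZMod (p ^ m))) ∧
    IsP p m n ((g⁻¹ : (Matrix (Fin n) (Fin n) (ZMod (p ^ m)))ˣ) :
      Matrix (Fin n) (Fin n) (ZMod (p ^ m)))}
  one_mem' := by
    constructor
    · simpa using IsP.one p m n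
    · simpa using IsP.one p m n
  mul_mem' := by
    rintro a b ⟨ha, ha'⟩ ⟨hb, hb'⟩
    refine ⟨by simpa using ha.mul hb, ?_⟩
    simpa [mul_inv_rev] using hb'.mul ha'
  inv_mem' := by
    rintro a ⟨ha, ha'⟩
    exact ⟨ha', by simpa using ha⟩

/-- The pair x, y satisfies the identity required in P. Hall's definition of regularity. -/
def GoodPair (p : ℕ) {G : Type*} [Group G] (x y : G) : Prop :=
  ∃ l : List G,
    (∀ c ∈ l, c ∈ ⁅Subgroup.closure ({x, y} : Set G), Subgroup.closure ({x, y} : Set G)⁆) ∧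
    (x * y) ^ p = x ^ p * y ^ p * (l.map (fun c => c ^ p)).prod

/-- P. Hall regularity of a group with respect to the prime p. -/
def IsRegular (p : ℕ) (G : Type*) [Group G] : Prop :=
  ∀ x y : G, GoodPair p x y

end Pool.Agent.Helper431.PN
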