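import Mathlib
import Pool.Agent.Helper431.PN.Base

namespace Pool.Agent.Helper431.PN



/-- TARGET -/
theorem J_pow {p m n : ℕ} (hp : p.Prime) (hm : 1 ≤ m)
    (T : Matrix (Fin n) (Fin n) (ZMod (p ^ m))) (hT : IsJ p m n T) :
    ∃ T' : Matrix (Fin n) (Fin n) (ZMod (p ^ m)),
      T ^ n = (p : ZMod (p ^ m)) • T' ∧ Commute T T' := by
  have : NeZero (p ^ m) := ⟨pow_ne_zero _ hp.ne_zero⟩
  let Z : Matrix (Fin n) (Fin n) ℤ := fun i j => ((T i j).val : ℤ)
  let φ : ℤ →+* ZMod (p ^ m) := Int.castRingHom (ZMod (p ^ m))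
  have hZT : φ.mapMatrix Z = T := by
    ext i j
    change ((((T i j).val : ℕ) : ℤ) : ZMod (p ^ m)) = T i j
    rw [Int.cast_natCast, ZMod.natCast_zmod_val]
  have hpm : p ∣ p ^ m := dvd_pow_self p (by omega)
  have hZJ : ∀ i j, j ≤ i → (p : ℤ) ∣ Z i j := by
    intro i j hij
    obtain ⟨c, hc⟩ := hT i j hij
    have h1 : (((T i j).val : ℕ) : ZMod (p ^ m)) = ((p * c.val : ℕ) : ZMod (p ^ m)) := by
      rw [ZMod.natCast_zmod_val, hc]
      push_cast
      rw [ZMod.natCast_zmod_val]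
    rw [ZMod.natCast_eq_natCast_iff] at h1
    have h2 : (T i j).val ≡ p * c.val [MOD p] := h1.of_dvd hpm
    have h3 : p ∣ (T i j).val := (h2.dvd_iff (dvd_refl p)).mpr (Dvd.intro _ rfl)
    change (p : ℤ) ∣ (((T i j).val : ℕ) : ℤ)
    exact Int.natCast_dvd_natCast.mpr h3
  have hpow : ∀ k : ℕ, ∀ i j : Fin n, (j : ℕ) < i + k → (p : ℤ) ∣ (Z ^ k) i j := by
    intro k
    induction k with
    | zero =>
      intro i j hij
      rw [pow_zero, Matrix.one_apply_ne]
      · exact dvd_zero _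
      · intro h
        rw [h] at hij
        omega
    | succ k ih =>
      intro i j hij
      rw [pow_succ', Matrix.mul_apply]
      apply Finset.dvd_sum
      intro l _
      by_cases hl : l ≤ i
      · exact dvd_mul_of_dvd_left (hZJ i l hl) _
      · refine dvd_mul_of_dvd_right (ih l j ?_) _
        have : (i : ℕ) < l := by
          rw [not_le] at hl
          exact hl
        omega
  have hall : ∀ i j : Fin n, ∃ c : ℤ, (Z ^ n) i j = (p : ℤ) * c := by
    intro i j
    exact hpow n i j (by have := j.2; omega)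
  choose Z' hZ' using hall
  have hp0 : (p : ℤ) ≠ 0 := by exact_mod_cast hp.ne_zero
  have hZn : Z ^ n = (p : ℤ) • (Matrix.of Z') := by
    ext i j
    rw [hZ' i j]
    simp
  have hcomm : Z * Matrix.of Z' = Matrix.of Z' * Z := by
    have h1 : (p : ℤ) • (Z * Matrix.of Z') = (p : ℤ) • (Matrix.of Z' * Z) := by
      rw [← Matrix.mul_smul, ← Matrix.smul_mul, ← hZn, ← pow_succ, ← pow_succ']
    ext i j
    have h2 := congrFun (congrFun h1 i) j
    simp only [Matrix.smul_apply, smul_eq_mul] at h2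
    exact mul_left_cancel₀ hp0 h2
  refine ⟨φ.mapMatrix (Matrix.of Z'), ?_, ?_⟩
  · rw [← hZT, ← map_pow, hZn]
    ext i j
    simp [φ]
  · change T * _ = _ * T
    rw [← hZT, ← map_mul, ← map_mul, hcomm]

end Pool.Agent.Helper431.PN
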