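import Mathlib
import Pool.Agent.Helper431.PN.Base
import Pool.Agent.Helper431.PN.M1

namespace Pool.Agent.Helper431.PN






theorem IsP.pow {p m n : ℕ} {A : Matrix (Fin n) (Fin n) (ZMod (p ^ m))}
    (hA : IsP p m n A) (k : ℕ) : IsP p m n (A ^ k) := by
  induction k with
  | zero => rw [pow_zero]; exact IsP.one p m n
  | succ k ih => rw [pow_succ]; exact ih.mul hA

/-- TARGET -/
theorem mem_of_isP {p m n : ℕ} (hp : p.Prime) (hm : 1 ≤ m)
    (A : Matrix (Fin n) (Fin n) (ZMod (p ^ m))) (hA : IsP p m n A) :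
    ∃ g ∈ PGroup p m n, (g : Matrix (Fin n) (Fin n) (ZMod (p ^ m))) = A := by
  haveI : NeZero (p ^ m) := ⟨pow_ne_zero _ hp.ne_zero⟩
  obtain ⟨T, hT⟩ : ∃ T, T = A - 1 := ⟨_, rfl⟩
  have hJ : IsJ p m n T := by rw [hT]; exact (isP_iff p m n A).1 hA
  obtain ⟨T', hT', _⟩ := J_pow hp hm T hJ
  have hnil : IsNilpotent T := by
    refine ⟨n * m, ?_⟩
    rw [pow_mul, hT', smul_pow]
    have h0 : (p : ZMod (p ^ m)) ^ m = 0 := by
      rw [← Nat.cast_pow]
      exact ZMod.natCast_self _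
    rw [h0, zero_smul]
  have hu : IsUnit A := by
    have h1 := hnil.isUnit_one_add
    rwa [hT, add_sub_cancel] at h1
  obtain ⟨g, hg⟩ := hu
  have hgP : IsP p m n (g : Matrix (Fin n) (Fin n) (ZMod (p ^ m))) := by rw [hg]; exact hA
  refine ⟨g, ⟨hgP, ?_⟩, hg⟩
  haveI : Finite (Matrix (Fin n) (Fin n) (ZMod (p ^ m))) := inferInstance
  haveI : Finite (Matrix (Fin n) (Fin n) (ZMod (p ^ m)))ˣ := inferInstance
  have hpos : 0 < orderOf g := orderOf_pos g
  have h2 : g⁻¹ = g ^ (orderOf g - 1) := by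
    rw [inv_eq_iff_mul_eq_one, ← pow_succ']
    have : orderOf g - 1 + 1 = orderOf g := by omega
    rw [this, pow_orderOf_eq_one]
  rw [h2, Units.val_pow_eq_pow_val]
  exact hgP.pow _

end Pool.Agent.Helper431.PN
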