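import Mathlib
import Pool.Agent.Helper431.PN.Base

namespace Pool.Agent.Helper431.PN

section aux

open scoped commutatorElement

theorem lcs_hom_mulr {Q : Type} [Group Q] (g h k : Q) (hc : ∀ q : Q, Commute ⁅g, k⁆ q) :
    ⁅g, h * k⁆ = ⁅g, h⁆ * ⁅g, k⁆ := by
  have h1 : ⁅g, h * k⁆ = g * h * g⁻¹ * (⁅g, k⁆ * h⁻¹) := by
    simp only [commutatorElement_def]; group
  rw [h1, (hc h⁻¹).eq]
  simp only [commutatorElement_def]; group

theorem lcs_hom_mull {Q : Type} [Group Q] (g k h : Q) (hc : ∀ q : Q, Commute ⁅k, h⁆ q) :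
    ⁅g * k, h⁆ = ⁅g, h⁆ * ⁅k, h⁆ := by
  have h1 : ⁅g * k, h⁆ = g * (⁅k, h⁆ * (h * g⁻¹ * h⁻¹)) := by
    simp only [commutatorElement_def]; group
  rw [h1, (hc (h * g⁻¹ * h⁻¹)).eq]
  simp only [commutatorElement_def]; group

theorem lcs_hom_powl {Q : Type} [Group Q] (g h : Q) (hc : ∀ q : Q, Commute ⁅g, h⁆ q) (n : ℕ) :
    ⁅g ^ n, h⁆ = ⁅g, h⁆ ^ n := by
  induction n with
  | zero => simp
  | succ n ih => rw [pow_succ, lcs_hom_mull _ _ _ hc, ih, pow_succ]

theorem lcs_hom_powr {Q : Type} [Group Q] (g h : Q) (hc : ∀ q : Q, Commute ⁅g, h⁆ q) (n : ℕ) :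
    ⁅g, h ^ n⁆ = ⁅g, h⁆ ^ n := by
  induction n with
  | zero => simp
  | succ n ih => rw [pow_succ, lcs_hom_mulr _ _ _ hc, ih, pow_succ]

theorem lcs_hom_mem {F : Type} [Group F] (k : ℕ) {s : F}
    (hs : s ∈ (⊤ : Subgroup F).lowerCentralSeries k) (t : F) :
    ⁅s, t⁆ ∈ (⊤ : Subgroup F).lowerCentralSeries (k + 1) := by
  rw [Subgroup.lowerCentralSeries_succ]
  exact Subgroup.commutator_mem_commutator hs (Subgroup.mem_top t)

theorem lcs_hom_central {F : Type} [Group F] (k : ℕ) {s : F}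
    (hs : s ∈ (⊤ : Subgroup F).lowerCentralSeries k)
    (q : F ⧸ (⊤ : Subgroup F).lowerCentralSeries (k + 1)) :
    Commute ((QuotientGroup.mk' ((⊤ : Subgroup F).lowerCentralSeries (k + 1))) s) q := by
  obtain ⟨t, rfl⟩ := QuotientGroup.mk'_surjective _ q
  rw [← commutatorElement_eq_one_iff_commute, ← map_commutatorElement,
    QuotientGroup.mk'_apply, QuotientGroup.eq_one_iff]
  exact lcs_hom_mem k hs t

theorem lcs_hom_map {F : Type} [Group F] (φ : F →* F) (j : ℕ) {g : F}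
    (hg : g ∈ (⊤ : Subgroup F).lowerCentralSeries j) :
    φ g ∈ (⊤ : Subgroup F).lowerCentralSeries j := by
  have h1 : φ g ∈ ((⊤ : Subgroup F).lowerCentralSeries j).map φ := Subgroup.mem_map_of_mem _ hg
  rw [Subgroup.map_lowerCentralSeries] at h1
  exact Subgroup.lowerCentralSeries_mono j le_top h1

theorem lcs_hom_main {F : Type} [Group F] (x y : F) (hgen : Subgroup.closure ({x, y} : Set F) = ⊤)
    (φ : F →* F) (a : ℕ) (hx : φ x = x ^ a) (hy : φ y = y ^ a) (j : ℕ) (g : F)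
    (hg : g ∈ (⊤ : Subgroup F).lowerCentralSeries j) :
    φ g * (g ^ (a ^ (j + 1)))⁻¹ ∈ (⊤ : Subgroup F).lowerCentralSeries (j + 1) := by
  induction j generalizing g with
  | zero =>
    set π := QuotientGroup.mk' ((⊤ : Subgroup F).lowerCentralSeries (0 + 1)) with hπ
    have hc : ∀ (s : F) (q : F ⧸ (⊤ : Subgroup F).lowerCentralSeries (0 + 1)),
        Commute (π s) q := fun s q => lcs_hom_central 0 (Subgroup.mem_top s) q
    let f2 : F →* (F ⧸ (⊤ : Subgroup F).lowerCentralSeries (0 + 1)) :=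
      MonoidHom.mk' (fun g => (π g) ^ a) (fun g h => by
        rw [map_mul, (hc g (π h)).mul_pow])
    have h1 : π.comp φ = f2 := by
      refine MonoidHom.eq_of_eqOn_dense hgen ?_
      intro z hz
      rcases hz with rfl | hz
      · show π (φ z) = (π z) ^ a
        rw [hx, map_pow]
      · rw [Set.mem_singleton_iff] at hz
        subst hz
        show π (φ z) = (π z) ^ a
        rw [hy, map_pow]
    have h2 : π (φ g) = (π g) ^ a := DFunLike.congr_fun h1 g
    rw [← QuotientGroup.eq_one_iff, ← QuotientGroup.mk'_apply, ← hπ, map_mul, map_inv, map_pow,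
      h2, show a ^ (0 + 1) = a by simp, mul_inv_cancel]
  | succ j ih =>
    set π := QuotientGroup.mk' ((⊤ : Subgroup F).lowerCentralSeries (j + 1 + 1)) with hπ
    have hc : ∀ s ∈ (⊤ : Subgroup F).lowerCentralSeries (j + 1),
        ∀ q : F ⧸ (⊤ : Subgroup F).lowerCentralSeries (j + 1 + 1), Commute (π s) q :=
      fun s hs q => lcs_hom_central (j + 1) hs q
    have hcc : ∀ s ∈ (⊤ : Subgroup F).lowerCentralSeries j, ∀ t : F,
        ∀ q : F ⧸ (⊤ : Subgroup F).lowerCentralSeries (j + 1 + 1), Commute ⁅π s, π t⁆ q := by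
      intro s hs t q
      rw [← map_commutatorElement]
      exact hc _ (lcs_hom_mem j hs t) q
    -- the basic commutators
    have hkey : ∀ g ∈ (⊤ : Subgroup F).lowerCentralSeries j, ∀ h : F,
        ⁅π (φ g), π (φ h)⁆ = ⁅π g, π h⁆ ^ (a ^ (j + 1 + 1)) := by
      intro g hg
      have hφg := lcs_hom_map φ j hg
      let f1 : F →* (F ⧸ (⊤ : Subgroup F).lowerCentralSeries (j + 1 + 1)) :=
        MonoidHom.mk' (fun h => ⁅π (φ g), π (φ h)⁆) (fun h k => by
          rw [map_mul, map_mul, lcs_hom_mulr _ _ _ (hcc _ hφg _)])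
      let f2 : F →* (F ⧸ (⊤ : Subgroup F).lowerCentralSeries (j + 1 + 1)) :=
        MonoidHom.mk' (fun h => ⁅π g, π h⁆ ^ (a ^ (j + 1 + 1))) (fun h k => by
          rw [map_mul, lcs_hom_mulr _ _ _ (hcc _ hg _), (hcc _ hg h _).mul_pow])
      have hz : ∀ z : F, φ z = z ^ a → f1 z = f2 z := by
        intro z hz
        show ⁅π (φ g), π (φ z)⁆ = ⁅π g, π z⁆ ^ (a ^ (j + 1 + 1))
        have h1 : π (φ g) = π (φ g * (g ^ (a ^ (j + 1)))⁻¹) * π (g ^ (a ^ (j + 1))) := by
          rw [← map_mul]; congr 1; group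
        have hgA : g ^ (a ^ (j + 1)) ∈ (⊤ : Subgroup F).lowerCentralSeries j := pow_mem hg _
        have h2 : ⁅π (g ^ (a ^ (j + 1))), π (z ^ a)⁆ = ⁅π g, π z⁆ ^ (a ^ (j + 1 + 1)) := by
          rw [map_pow π z, lcs_hom_powr _ _ (hcc _ hgA z), map_pow,
            lcs_hom_powl _ _ (hcc _ hg z), ← pow_mul, ← pow_succ]
        rw [h1, hz, lcs_hom_mull _ _ _ (hcc _ hgA _), h2,
          commutatorElement_eq_one_iff_commute.2 (hc _ (ih g hg) _), one_mul]
      have h3 : f1 = f2 := by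
        refine MonoidHom.eq_of_eqOn_dense hgen ?_
        intro z hzz
        rcases hzz with rfl | hzz
        · exact hz _ hx
        · rw [Set.mem_singleton_iff] at hzz
          subst hzz
          exact hz _ hy
      intro h
      exact DFunLike.congr_fun h3 h
    have hfin : π (φ g) = (π g) ^ (a ^ (j + 1 + 1)) ∧
        ∀ q : F ⧸ (⊤ : Subgroup F).lowerCentralSeries (j + 1 + 1), Commute (π g) q := by
      rw [Subgroup.mem_lowerCentralSeries_succ_iff] at hg
      refine Subgroup.closure_induction (p := fun u _ => π (φ u) = (π u) ^ (a ^ (j + 1 + 1)) ∧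
        ∀ q : F ⧸ (⊤ : Subgroup F).lowerCentralSeries (j + 1 + 1), Commute (π u) q)
        ?_ ?_ ?_ ?_ hg
      · rintro u ⟨p, hp, q, _, rfl⟩
        refine ⟨?_, fun r => hc _ (lcs_hom_mem j hp q) r⟩
        rw [map_commutatorElement, map_commutatorElement, map_commutatorElement, hkey p hp q]
      · refine ⟨by rw [map_one, map_one, one_pow], fun q => by
          rw [map_one]; exact Commute.one_left q⟩
      · rintro u v _ _ ⟨hu1, hu2⟩ ⟨hv1, hv2⟩
        refine ⟨?_, fun q => by rw [map_mul]; exact (hu2 q).mul_left (hv2 q)⟩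
        rw [map_mul, map_mul, map_mul, hu1, hv1, (hu2 _).mul_pow]
      · rintro u _ ⟨hu1, hu2⟩
        refine ⟨?_, fun q => by rw [map_inv]; exact (hu2 q).inv_left⟩
        rw [map_inv, map_inv, map_inv, hu1, inv_pow]
    rw [← QuotientGroup.eq_one_iff, ← QuotientGroup.mk'_apply, ← hπ, map_mul, map_inv, map_pow,
      hfin.1, mul_inv_cancel]

end aux

/-- TARGET -/
theorem lcs_hom {F : Type} [Group F] (x y : F) (hgen : Subgroup.closure ({x, y} : Set F) = ⊤)
    (φ : F →* F) (a : ℕ) (hx : φ x = x ^ a) (hy : φ y = y ^ a) (j : ℕ) (g : F)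
    (hg : g ∈ (⊤ : Subgroup F).lowerCentralSeries j) :
    φ g * (g ^ (a ^ (j + 1)))⁻¹ ∈ (⊤ : Subgroup F).lowerCentralSeries (j + 1) :=
  lcs_hom_main x y hgen φ a hx hy j g hg

end Pool.Agent.Helper431.PN
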