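import Mathlib
import Pool.Agent.Helper431.PN.Base

namespace Pool.Agent.Helper431.PN

/-- the words killed in the relatively free group -/
def relWords (p : ℕ) : Set (FreeGroup (Fin 2)) :=
  {w | ∃ g ∈ commutator (FreeGroup (Fin 2)), g ^ p = w}

/-- the verbal subgroup -/
def relN (p c : ℕ) : Subgroup (FreeGroup (Fin 2)) :=
  (⊤ : Subgroup (FreeGroup (Fin 2))).lowerCentralSeries c ⊔ Subgroup.normalClosure (relWords p)

instance relN_normal (p c : ℕ) : (relN p c).Normal := by
  unfold relN
  infer_instance

/-- TARGET -/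
theorem exists_relfree (p c : ℕ) : ∃ (F : Type) (_ : Group F) (x y : F),
    Subgroup.closure ({x, y} : Set F) = ⊤ ∧ (⊤ : Subgroup F).lowerCentralSeries c = ⊥ ∧
    (∀ g ∈ commutator F, g ^ p = 1) ∧
    ∀ (Q : Type) [Group Q], (⊤ : Subgroup Q).lowerCentralSeries c = ⊥ →
      (∀ g ∈ commutator Q, g ^ p = 1) → ∀ u v : Q, ∃ f : F →* Q, f x = u ∧ f y = v := by
  have hsurj := QuotientGroup.mk'_surjective (relN p c)
  have htop : (⊤ : Subgroup (FreeGroup (Fin 2))).map (QuotientGroup.mk' (relN p c)) = ⊤ :=
    Subgroup.map_top_of_surjective _ hsurj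
  refine ⟨FreeGroup (Fin 2) ⧸ relN p c, inferInstance,
    QuotientGroup.mk' (relN p c) (FreeGroup.of 0), QuotientGroup.mk' (relN p c) (FreeGroup.of 1),
    ?_, ?_, ?_, ?_⟩
  · have h1 : Subgroup.closure ({FreeGroup.of 0, FreeGroup.of 1} : Set (FreeGroup (Fin 2))) = ⊤ := by
      rw [← FreeGroup.closure_range_of (Fin 2)]
      congr 1
      ext w
      simp only [Set.mem_insert_iff, Set.mem_singleton_iff, Set.mem_range, Fin.exists_fin_two]
      constructor
      · rintro (h | h)
        · exact Or.inl h.symm
        · exact Or.inr h.symm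
      · rintro (h | h)
        · exact Or.inl h.symm
        · exact Or.inr h.symm
    have h2 := congrArg (Subgroup.map (QuotientGroup.mk' (relN p c))) h1
    rw [MonoidHom.map_closure, htop, Set.image_pair] at h2
    exact h2
  · rw [← htop, ← Subgroup.map_lowerCentralSeries, Subgroup.map_eq_bot_iff,
      QuotientGroup.ker_mk']
    exact le_sup_left
  · intro g hg
    rw [commutator_def, ← htop, ← Subgroup.map_commutator] at hg
    obtain ⟨w, hw, rfl⟩ := hg
    rw [← map_pow]
    have h3 : w ^ p ∈ relN p c := by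
      apply Subgroup.mem_sup_right
      exact Subgroup.subset_normalClosure ⟨w, hw, rfl⟩
    exact (QuotientGroup.eq_one_iff _).mpr h3
  · intro Q _ hQ1 hQ2 u v
    let φ : FreeGroup (Fin 2) →* Q := FreeGroup.lift ![u, v]
    have hker : relN p c ≤ φ.ker := by
      unfold relN
      rw [sup_le_iff]
      constructor
      · intro w hw
        have h4 : φ w ∈ ((⊤ : Subgroup (FreeGroup (Fin 2))).lowerCentralSeries c).map φ :=
          Subgroup.mem_map_of_mem φ hw
        rw [Subgroup.map_lowerCentralSeries] at h4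
        have h5 := Subgroup.lowerCentralSeries_mono c (le_top : (⊤ : Subgroup _).map φ ≤ ⊤) h4
        have h6 : φ w ∈ (⊤ : Subgroup Q).lowerCentralSeries c := h5
        rw [hQ1] at h6
        exact Subgroup.mem_bot.mp h6
      · haveI : φ.ker.Normal := inferInstance
        refine Subgroup.normalClosure_le_normal ?_
        rintro w ⟨g, hg, rfl⟩
        show g ^ p ∈ φ.ker
        rw [MonoidHom.mem_ker, map_pow]
        apply hQ2
        have h4 : φ g ∈ (commutator (FreeGroup (Fin 2))).map φ := Subgroup.mem_map_of_mem φ hg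
        rw [commutator_def, Subgroup.map_commutator] at h4
        exact Subgroup.commutator_mono le_top le_top h4
    refine ⟨QuotientGroup.lift (relN p c) φ (fun w hw => hker hw), ?_, ?_⟩
    · show QuotientGroup.lift (relN p c) φ _ (QuotientGroup.mk (FreeGroup.of 0)) = u
      rw [QuotientGroup.lift_mk]
      simp [φ]
    · show QuotientGroup.lift (relN p c) φ _ (QuotientGroup.mk (FreeGroup.of 1)) = v
      rw [QuotientGroup.lift_mk]
      simp [φ]

end Pool.Agent.Helper431.PN
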