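import Mathlib
import Pool.Agent.Helper431.PN.Base

namespace Pool.Agent.Helper431.PN

open scoped commutatorElement in
theorem lcs_closure_pair_base {Q : Type} [Group Q] (u v : Q) (hv : v ∈ commutator Q) :
    ⁅Subgroup.closure ({u, v} : Set Q), Subgroup.closure ({u, v} : Set Q)⁆ ≤
      (⊤ : Subgroup Q).lowerCentralSeries 2 := by
  haveI : ((⊤ : Subgroup Q).lowerCentralSeries 2).Normal := inferInstance
  have hmem : ∀ g h : Q, ⁅g, h⁆ ∈ (⊤ : Subgroup Q).lowerCentralSeries 2 ↔
      Commute (QuotientGroup.mk' ((⊤ : Subgroup Q).lowerCentralSeries 2) g)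
        (QuotientGroup.mk' ((⊤ : Subgroup Q).lowerCentralSeries 2) h) := by
    intro g h
    rw [← commutatorElement_eq_one_iff_commute, ← map_commutatorElement,
      QuotientGroup.mk'_apply, QuotientGroup.eq_one_iff]
  have hvu : ⁅v, u⁆ ∈ (⊤ : Subgroup Q).lowerCentralSeries 2 := by
    rw [Subgroup.lowerCentralSeries_succ]
    refine Subgroup.commutator_mem_commutator ?_ (Subgroup.mem_top u)
    rw [Subgroup.top_lowerCentralSeries_one]
    exact hv
  have c1 := (hmem v u).1 hvu
  have h1 : ∀ g ∈ Subgroup.closure ({u, v} : Set Q),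
      Commute (QuotientGroup.mk' ((⊤ : Subgroup Q).lowerCentralSeries 2) g)
        (QuotientGroup.mk' ((⊤ : Subgroup Q).lowerCentralSeries 2) u) ∧
      Commute (QuotientGroup.mk' ((⊤ : Subgroup Q).lowerCentralSeries 2) g)
        (QuotientGroup.mk' ((⊤ : Subgroup Q).lowerCentralSeries 2) v) := by
    intro g hg
    induction hg using Subgroup.closure_induction with
    | mem x hx =>
      rcases hx with rfl | hx
      · exact ⟨Commute.refl _, c1.symm⟩
      · rw [Set.mem_singleton_iff] at hx
        subst hx
        exact ⟨c1, Commute.refl _⟩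
    | one => rw [map_one]; exact ⟨Commute.one_left _, Commute.one_left _⟩
    | mul x y _ _ hx hy => rw [map_mul]; exact ⟨hx.1.mul_left hy.1, hx.2.mul_left hy.2⟩
    | inv x _ hx => rw [map_inv]; exact ⟨hx.1.inv_left, hx.2.inv_left⟩
  rw [Subgroup.commutator_le]
  intro g hg h hh
  rw [hmem]
  induction hh using Subgroup.closure_induction with
  | mem x hx =>
    rcases hx with rfl | hx
    · exact (h1 g hg).1
    · rw [Set.mem_singleton_iff] at hx
      subst hx
      exact (h1 g hg).2
  | one => rw [map_one]; exact Commute.one_right _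
  | mul x y _ _ hx hy => rw [map_mul]; exact hx.mul_right hy
  | inv x _ hx => rw [map_inv]; exact hx.inv_right

/-- TARGET -/
theorem lcs_closure_pair {Q : Type} [Group Q] (u v : Q) (hv : v ∈ commutator Q) (c : ℕ)
    (hc : 1 ≤ c) :
    (Subgroup.closure ({u, v} : Set Q)).lowerCentralSeries c ≤
      (⊤ : Subgroup Q).lowerCentralSeries (c + 1) := by
  have base := lcs_closure_pair_base u v hv
  induction c, hc using Nat.le_induction with
  | base => exact base
  | succ c hc ih =>
    rw [Subgroup.lowerCentralSeries_succ, Subgroup.lowerCentralSeries_succ ⊤ (c + 1)]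
    exact Subgroup.commutator_mono ih le_top

end Pool.Agent.Helper431.PN
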