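import Mathlib
import Pool.Agent.Helper431.PN.Base

namespace Pool.Agent.Helper431.PN

/-- TARGET -/
theorem exists_pow_ne {p c : ℕ} (hp : p.Prime) (hc1 : 1 ≤ c) (hc2 : c + 2 ≤ p) :
    ∃ a : ℕ, ¬ (a ^ (c + 1) ≡ a [MOD p]) := by
  haveI : Fact p.Prime := ⟨hp⟩
  obtain ⟨g, hg⟩ := IsCyclic.exists_generator (α := (ZMod p)ˣ)
  refine ⟨(g : ZMod p).val, fun h => ?_⟩
  rw [← ZMod.natCast_eq_natCast_iff] at h
  push_cast at h
  rw [ZMod.natCast_zmod_val] at h
  have h1 : g ^ (c + 1) = g := by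
    ext
    push_cast
    exact h
  have h2 : g ^ c = 1 := by
    rw [pow_succ] at h1
    exact mul_eq_right.1 h1
  have h3 : orderOf g = p - 1 := by
    rw [orderOf_eq_card_of_forall_mem_zpowers hg, Nat.card_eq_fintype_card, ZMod.card_units]
  have h4 := orderOf_dvd_of_pow_eq_one h2
  rw [h3] at h4
  have := Nat.le_of_dvd (by omega) h4
  omega

end Pool.Agent.Helper431.PN
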