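import Mathlib
import Pool.Agent.Helper431.PN.Base
import Pool.Agent.Helper431.PN.G1a
import Pool.Agent.Helper431.PN.G1b
import Pool.Agent.Helper431.PN.G1c
import Pool.Agent.Helper431.PN.G1d

namespace Pool.Agent.Helper431.PN






section
open scoped commutatorElement

/-- the statement proved by induction -/
def STh (p c : ℕ) : Prop := ∀ (Q : Type) [Group Q], (⊤ : Subgroup Q).lowerCentralSeries c = ⊥ →
  (∀ g ∈ commutator Q, g ^ p = 1) → ∀ x y : Q, (x * y) ^ p = x ^ p * y ^ p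

theorem st_comm_mem {Q : Type} [Group Q] (S : Subgroup Q) (g : S) (hg : g ∈ commutator S) :
    (g : Q) ∈ commutator Q := by
  have h1 : (g:Q) ∈ ((⊤ : Subgroup S).lowerCentralSeries 1).map S.subtype := ⟨g, hg, rfl⟩
  rw [Subgroup.top_subtype_lowerCentralSeries] at h1
  exact Subgroup.lowerCentralSeries_mono 1 le_top h1

theorem st_i {p c : ℕ} (hc : 1 ≤ c) (IH : STh p c) {Q : Type} [Group Q]
    (hL : (⊤ : Subgroup Q).lowerCentralSeries (c + 1) = ⊥) (hexp : ∀ g ∈ commutator Q, g ^ p = 1)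
    (u v : Q) (hv : v ∈ commutator Q) : (u * v) ^ p = u ^ p := by
  have hu' : u ∈ Subgroup.closure ({u, v} : Set Q) := Subgroup.subset_closure (by simp)
  have hv' : v ∈ Subgroup.closure ({u, v} : Set Q) := Subgroup.subset_closure (by simp)
  have h1 : (⊤ : Subgroup (Subgroup.closure ({u, v} : Set Q))).lowerCentralSeries c = ⊥ := by
    rw [eq_bot_iff]
    intro g hg
    have h2 : (g:Q) ∈ ((⊤ : Subgroup (Subgroup.closure ({u, v} : Set Q))).lowerCentralSeries c).map
      (Subgroup.closure ({u, v} : Set Q)).subtype := ⟨g, hg, rfl⟩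
    rw [Subgroup.top_subtype_lowerCentralSeries] at h2
    have h3 := lcs_closure_pair u v hv c hc h2
    rw [hL, Subgroup.mem_bot] at h3
    rw [Subgroup.mem_bot]
    exact Subtype.ext h3
  have h2 := IH (Subgroup.closure ({u, v} : Set Q)) h1 (fun g hg => Subtype.ext (by
    rw [Subgroup.coe_pow, Subgroup.coe_one]
    exact hexp g (st_comm_mem _ g hg))) ⟨u, hu'⟩ ⟨v, hv'⟩
  have h3 : (u * v) ^ p = u ^ p * v ^ p := congrArg Subtype.val h2
  rw [h3, hexp v hv, mul_one]

theorem st_ii {p c : ℕ} (hc : 1 ≤ c) (IH : STh p c) {Q : Type} [Group Q]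
    (hL : (⊤ : Subgroup Q).lowerCentralSeries (c + 1) = ⊥) (hexp : ∀ g ∈ commutator Q, g ^ p = 1)
    (u w : Q) : u ^ p * w = w * u ^ p := by
  have h1 : (w⁻¹ * u * w⁻¹⁻¹) ^ p = w⁻¹ * u ^ p * w⁻¹⁻¹ := conj_pow
  have h2 : w⁻¹ * u * w⁻¹⁻¹ = u * ⁅u⁻¹, w⁻¹⁆ := by
    rw [commutatorElement_def]; group
  have h3 : ⁅u⁻¹, w⁻¹⁆ ∈ commutator Q :=
    Subgroup.commutator_mem_commutator (Subgroup.mem_top _) (Subgroup.mem_top _)
  rw [h2, st_i hc IH hL hexp u _ h3, inv_inv] at h1
  have h4 : w * u ^ p = w * (w⁻¹ * u ^ p * w) := congrArg (fun t => w * t) h1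
  rw [h4]
  group

theorem st_iii {p c : ℕ} (IH : STh p c) {Q : Type} [Group Q]
    (hexp : ∀ g ∈ commutator Q, g ^ p = 1)
    (x y : Q) : (x ^ p * y ^ p)⁻¹ * (x * y) ^ p ∈ (⊤ : Subgroup Q).lowerCentralSeries c := by
  have hsurj : Function.Surjective (QuotientGroup.mk' ((⊤ : Subgroup Q).lowerCentralSeries c)) :=
    QuotientGroup.mk'_surjective _
  have hmap : ∀ n, ((⊤ : Subgroup Q).lowerCentralSeries n).map
      (QuotientGroup.mk' ((⊤ : Subgroup Q).lowerCentralSeries c)) =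
      (⊤ : Subgroup (Q ⧸ (⊤ : Subgroup Q).lowerCentralSeries c)).lowerCentralSeries n := by
    intro n
    rw [Subgroup.map_lowerCentralSeries, Subgroup.map_top_of_surjective _ hsurj]
  have h1 : (⊤ : Subgroup (Q ⧸ (⊤ : Subgroup Q).lowerCentralSeries c)).lowerCentralSeries c = ⊥ := by
    rw [← hmap, QuotientGroup.map_mk'_self]
  have h2 : ∀ g ∈ commutator (Q ⧸ (⊤ : Subgroup Q).lowerCentralSeries c), g ^ p = 1 := by
    intro g hg
    have hg' : g ∈ ((⊤ : Subgroup Q).lowerCentralSeries 1).map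
      (QuotientGroup.mk' ((⊤ : Subgroup Q).lowerCentralSeries c)) := by
      rw [hmap]
      exact hg
    obtain ⟨h, hh, rfl⟩ := hg'
    rw [← map_pow, hexp h hh, map_one]
  have h3 := IH _ h1 h2 (QuotientGroup.mk' _ x) (QuotientGroup.mk' _ y)
  rw [← map_mul, ← map_pow, ← map_pow, ← map_pow, ← map_mul] at h3
  exact QuotientGroup.eq.1 h3.symm

theorem st_step {p c : ℕ} (hp : p.Prime) (hc : 1 ≤ c) (hcp : c + 2 ≤ p) (IH : STh p c) :
    STh p (c + 1) := by
  obtain ⟨F, _, x, y, hgen, hL, hexp, huniv⟩ := exists_relfree p (c + 1)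
  obtain ⟨a, ha⟩ := exists_pow_ne hp hc hcp
  obtain ⟨φ, hφx, hφy⟩ := huniv F hL hexp (x ^ a) (y ^ a)
  obtain ⟨W, hW⟩ : ∃ W, W = (x ^ p * y ^ p)⁻¹ * (x * y) ^ p := ⟨_, rfl⟩
  have hWL : W ∈ (⊤ : Subgroup F).lowerCentralSeries c := by
    rw [hW]
    exact st_iii IH hexp x y
  have hWp : W ^ p = 1 := by
    apply hexp
    exact Subgroup.lowerCentralSeries_antitone ⊤ hc hWL
  have hWc : ∀ g : F, W * g = g * W := by
    intro g
    have h1 : ⁅W, g⁆ ∈ (⊤ : Subgroup F).lowerCentralSeries (c + 1) :=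
      Subgroup.commutator_mem_commutator hWL (Subgroup.mem_top _)
    rw [hL, Subgroup.mem_bot, commutatorElement_eq_one_iff_mul_comm] at h1
    exact h1
  have hcen : ∀ u w : F, u ^ p * w = w * u ^ p := st_ii hc IH hL hexp
  have hφW : φ W = W ^ (a ^ (c + 1)) := by
    have h1 := lcs_hom x y hgen φ a hφx hφy c W hWL
    rw [hL, Subgroup.mem_bot] at h1
    exact mul_inv_eq_one.1 h1
  have hw : ((x * y) ^ a)⁻¹ * (x ^ a * y ^ a) ∈ commutator F := by
    rw [← Abelianization.ker_of, MonoidHom.mem_ker, map_mul, map_inv, map_mul, map_pow, map_pow,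
      map_pow, map_mul, mul_pow, inv_mul_cancel]
  have h1 : (x ^ a * y ^ a) ^ p = ((x * y) ^ p) ^ a := by
    have h2 := st_i hc IH hL hexp ((x * y) ^ a) _ hw
    rw [mul_inv_cancel_left] at h2
    rw [h2, ← pow_mul, ← pow_mul, mul_comm]
  have hxy : (x * y) ^ p = (x ^ p * y ^ p) * W := by
    rw [hW, mul_inv_cancel_left]
  have hφW' : φ W = W ^ a := by
    have h3 : φ W = ((x ^ a) ^ p * (y ^ a) ^ p)⁻¹ * (x ^ a * y ^ a) ^ p := by
      rw [hW, map_mul, map_inv, map_mul, map_pow, map_pow, map_pow, map_mul, hφx, hφy]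
    have hc1 : Commute (x ^ p * y ^ p) W := (hWc _).symm
    have hc2 : Commute (x ^ p) (y ^ p) := hcen x _
    rw [h3, h1, hxy, hc1.mul_pow, hc2.mul_pow, ← pow_mul, ← pow_mul, ← pow_mul, ← pow_mul,
      mul_comm a p, inv_mul_cancel_left]
  have hWW : W ^ (a ^ (c + 1)) = W ^ a := by rw [← hφW, hφW']
  have hW1 : W = 1 := by
    have hd : orderOf W ∣ p := orderOf_dvd_of_pow_eq_one hWp
    rcases (Nat.dvd_prime hp).1 hd with h | h
    · exact orderOf_eq_one_iff.1 h
    · exfalso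
      apply ha
      have h5 := pow_eq_pow_iff_modEq.1 hWW
      rw [h] at h5
      exact h5
  rw [hW1, mul_one] at hxy
  intro Q _ hLQ hexpQ u v
  obtain ⟨f, hfx, hfy⟩ := huniv Q hLQ hexpQ u v
  have := congrArg f hxy
  rw [map_pow, map_mul, map_mul, map_pow, map_pow, hfx, hfy] at this
  exact this

theorem st_all {p : ℕ} (hp : p.Prime) (c : ℕ) (hc : c + 1 ≤ p) : STh p c := by
  induction c with
  | zero =>
    intro Q _ hL _ x y
    have h1 : ∀ g : Q, g = 1 := by
      intro g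
      have : g ∈ (⊤ : Subgroup Q) := Subgroup.mem_top _
      rw [Subgroup.lowerCentralSeries_zero] at hL
      rw [hL] at this
      exact Subgroup.mem_bot.1 this
    rw [h1 x, h1 y]
    simp
  | succ c ih =>
    rcases Nat.eq_zero_or_pos c with h | h
    · subst h
      intro Q _ hL _ x y
      have h1 : ⁅x, y⁆ ∈ (⊤ : Subgroup Q).lowerCentralSeries (0 + 1) :=
        Subgroup.commutator_mem_commutator (Subgroup.mem_top _) (Subgroup.mem_top _)
      rw [hL, Subgroup.mem_bot, commutatorElement_eq_one_iff_mul_comm] at h1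
      exact Commute.mul_pow h1 p
    · exact st_step hp h hc (ih (by omega))

end

/-- TARGET -/
theorem hall_class_lt {p : ℕ} (hp : p.Prime) {Q : Type} [Group Q]
    (hcl : (⊤ : Subgroup Q).lowerCentralSeries (p - 1) = ⊥)
    (hexp : ∀ c ∈ commutator Q, c ^ p = 1) (x y : Q) :
    (x * y) ^ p = x ^ p * y ^ p := by
  exact st_all hp (p - 1) (by have := hp.one_lt; omega) Q hcl hexp x y

end Pool.Agent.Helper431.PN
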