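import Mathlib
import Pool.Agent.Helper431.PN.Base

namespace Pool.Agent.Helper431.PN



/-- the commutator subgroup of a finite nilpotent group consists of nongenerators -/
theorem nongen {K : Type} [Group K] [Finite K] [Group.IsNilpotent K] (U : Subgroup K)
    (h : U ⊔ commutator K = ⊤) : U = ⊤ := by
  by_contra hne
  obtain ⟨M, hM, hUM⟩ := (eq_top_or_exists_le_coatom U).resolve_left hne
  haveI hMn : M.Normal :=
    Subgroup.NormalizerCondition.normal_of_coatom M Group.normalizerCondition_of_isNilpotent hM
  have hcM : commutator K ≤ M := by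
    by_contra hnot
    have hlt : M < M ⊔ commutator K := by
      rw [lt_iff_le_and_ne]
      refine ⟨le_sup_left, ?_⟩
      intro heq
      apply hnot
      rw [heq]
      exact le_sup_right
    have htop : M ⊔ commutator K = ⊤ := hM.2 _ hlt
    have h1 : (commutator K).map (QuotientGroup.mk' M) = ⊤ := by
      have h2 : (M ⊔ commutator K).map (QuotientGroup.mk' M) = ⊤ := by
        rw [htop]
        exact Subgroup.map_top_of_surjective _ (QuotientGroup.mk'_surjective M)
      rw [Subgroup.map_sup, QuotientGroup.map_mk'_self, bot_sup_eq] at h2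
      exact h2
    have h3 : commutator (K ⧸ M) = ⊤ := by
      rw [_root_.commutator_def, ← Subgroup.map_top_of_surjective _ (QuotientGroup.mk'_surjective M),
        ← Subgroup.map_commutator, ← _root_.commutator_def, h1,
        Subgroup.map_top_of_surjective _ (QuotientGroup.mk'_surjective M)]
    haveI : Nontrivial (K ⧸ M) := by
      by_contra hnt
      rw [not_nontrivial_iff_subsingleton] at hnt
      exact hM.1 (QuotientGroup.subsingleton_iff.1 hnt)
    haveI : Group.IsSolvable (K ⧸ M) := inferInstance
    exact (Group.IsSolvable.commutator_lt_top_of_nontrivial (K ⧸ M)).ne h3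
  apply hM.1
  rw [eq_top_iff, ← h]
  exact sup_le hUM hcM

/-- the same in a subgroup -/
theorem nongen_sub {G : Type} [Group G] [Finite G] [Group.IsNilpotent G] (H U : Subgroup G)
    (hUH : U ≤ H) (h : H ≤ U ⊔ ⁅H, H⁆) : U = H := by
  have hN : Group.IsNilpotent H := inferInstance
  have h1 : U.subgroupOf H ⊔ commutator H = ⊤ := by
    apply Subgroup.map_injective H.subtype_injective
    rw [Subgroup.map_sup, Subgroup.map_subtype_commutator, Subgroup.map_subgroupOf_eq_of_le hUH]
    rw [← MonoidHom.range_eq_map, H.range_subtype]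
    apply le_antisymm _ h
    exact sup_le hUH (Subgroup.commutator_le_self H)
  have h2 := nongen _ h1
  exact le_antisymm hUH (Subgroup.subgroupOf_eq_top.1 h2)

theorem comm_closure_single {G : Type} [Group G] (g : G) :
    ⁅Subgroup.closure ({g} : Set G), Subgroup.closure ({g} : Set G)⁆ = ⊥ := by
  rw [Subgroup.commutator_eq_bot_iff_le_centralizer, ← Subgroup.zpowers_eq_closure]
  intro x hx
  rw [Subgroup.mem_centralizer_iff]
  intro y hy
  obtain ⟨m, rfl⟩ := Subgroup.mem_zpowers_iff.1 hx
  obtain ⟨n, rfl⟩ := Subgroup.mem_zpowers_iff.1 (show y ∈ Subgroup.zpowers g from hy)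
  rw [← zpow_add, ← zpow_add, add_comm]

theorem card_lt_aux {G : Type} [Group G] [Finite G] {A B : Subgroup G} (h : A < B) :
    Nat.card A < Nat.card B := by
  by_contra hcon
  exact h.ne (Subgroup.eq_of_le_of_card_ge h.le (not_lt.1 hcon))

theorem main_aux {p : ℕ} (hp : p.Prime) {G : Type} [Group G] [Finite G] (hG : IsPGroup p G)
    (hreg : ∀ x y : G, GoodPair p x y) (N : ℕ) : ∀ a b : G,
    Nat.card (Subgroup.closure ({a, b} : Set G)) = N →
    ∃ c : G, c ∈ Subgroup.closure ({a, b} : Set G) ∧ a ^ p * b ^ p = c ^ p := by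
  haveI : Fact p.Prime := ⟨hp⟩
  haveI hnil : Group.IsNilpotent G := hG.isNilpotent
  induction N using Nat.strong_induction_on with
  | _ N ih =>
    intro a b hN
    obtain ⟨H, hH⟩ : ∃ H, H = Subgroup.closure ({a, b} : Set G) := ⟨_, rfl⟩
    rw [← hH] at hN ⊢
    have haH : a ∈ H := by rw [hH]; exact Subgroup.subset_closure (by simp)
    have hbH : b ∈ H := by rw [hH]; exact Subgroup.subset_closure (by simp)
    have habH : a * b ∈ H := H.mul_mem haH hbH
    have hDH : ⁅H, H⁆ ≤ H := Subgroup.commutator_le_self H
    obtain ⟨l, hl, hprod⟩ := hreg a b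
    rw [← hH] at hl
    by_cases hD : ⁅H, H⁆ = ⊥
    · refine ⟨a * b, habH, ?_⟩
      rw [hprod]
      have h1 : (l.map (fun c => c ^ p)).prod = 1 := by
        apply List.prod_eq_one
        intro x hx
        obtain ⟨c, hc, rfl⟩ := List.mem_map.1 hx
        have := hl c hc
        rw [hD, Subgroup.mem_bot] at this
        rw [this, one_pow]
      rw [h1, mul_one]
    · have hHne : H ≠ ⊥ := by
        intro h0
        apply hD
        rw [eq_bot_iff, ← h0]
        exact hDH
      haveI : Group.IsSolvable G := inferInstance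
      have hlt : ⁅H, H⁆ < H := Group.IsSolvable.commutator_lt_of_ne_bot hHne
      have hpair : ∀ u ∈ ⁅H, H⁆, ∀ v ∈ ⁅H, H⁆, ∃ w ∈ ⁅H, H⁆, u ^ p * v ^ p = w ^ p := by
        intro u hu v hv
        have hle : Subgroup.closure ({u, v} : Set G) ≤ ⁅H, H⁆ := by
          rw [Subgroup.closure_le]
          rintro x (rfl | rfl)
          · exact hu
          · exact hv
        have hcard : Nat.card (Subgroup.closure ({u, v} : Set G)) < N := by
          rw [← hN]
          exact card_lt_aux (lt_of_le_of_lt hle hlt)
        obtain ⟨w, hw1, hw2⟩ := ih _ hcard u v rfl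
        exact ⟨w, hle hw1, hw2⟩
      have hlist : ∀ l : List G, (∀ c ∈ l, c ∈ ⁅H, H⁆) →
          ∃ d ∈ ⁅H, H⁆, (l.map (fun c => c ^ p)).prod = d ^ p := by
        intro l
        induction l with
        | nil =>
          intro _
          exact ⟨1, Subgroup.one_mem _, by simp⟩
        | cons c l ihl =>
          intro h
          obtain ⟨d, hd, hd2⟩ := ihl (fun x hx => h x (List.mem_cons_of_mem _ hx))
          obtain ⟨w, hw, hw2⟩ := hpair c (h c List.mem_cons_self) d hd
          refine ⟨w, hw, ?_⟩
          rw [List.map_cons, List.prod_cons, hd2, hw2]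
      obtain ⟨d, hd, hd2⟩ := hlist l hl
      rw [hd2] at hprod
      have hab : a ^ p * b ^ p = (a * b) ^ p * (d⁻¹) ^ p := by
        rw [hprod, inv_pow, mul_inv_cancel_right]
      have hd' : d⁻¹ ∈ ⁅H, H⁆ := Subgroup.inv_mem _ hd
      have hle : Subgroup.closure ({a * b, d⁻¹} : Set G) ≤ H := by
        rw [Subgroup.closure_le]
        rintro x (rfl | rfl)
        · exact habH
        · exact hDH hd'
      rcases hle.lt_or_eq with hlt2 | heq
      · obtain ⟨c, hc1, hc2⟩ := ih _ (by rw [← hN]; exact card_lt_aux hlt2) (a * b) d⁻¹ rfl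
        exact ⟨c, hle hc1, by rw [hab, hc2]⟩
      · exfalso
        apply hD
        have h1 : Subgroup.closure ({a * b} : Set G) = H := by
          apply nongen_sub H
          · rw [Subgroup.closure_le]
            rintro x rfl
            exact habH
          · conv_lhs => rw [← heq]
            rw [Subgroup.closure_le]
            rintro x (rfl | rfl)
            · exact Subgroup.mem_sup_left (Subgroup.subset_closure rfl)
            · exact Subgroup.mem_sup_right hd'
        rw [← h1]
        exact comm_closure_single _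

/-- TARGET -/
theorem pow_mul_pow {p : ℕ} (hp : p.Prime) {G : Type} [Group G] [Finite G] (hG : IsPGroup p G)
    (hreg : ∀ x y : G, GoodPair p x y) (a b : G) :
    ∃ c : G, c ∈ Subgroup.closure ({a, b} : Set G) ∧ a ^ p * b ^ p = c ^ p := by
  exact main_aux hp hG hreg _ a b rfl
end Pool.Agent.Helper431.PN
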