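import Mathlib
import Pool.Agent.Helper431.PN.Base

namespace Pool.Agent.Helper431.PN

section exists_far_section

open scoped commutatorElement

/-- elements commuting with `K` modulo `N` -/
def exists_far_B {Q : Type} [Group Q] (K N : Subgroup Q) [hN : N.Normal] : Subgroup Q where
  carrier := {z | ∀ m ∈ K, ⁅m, z⁆ ∈ N}
  one_mem' := by
    intro m _
    rw [commutatorElement_one_right]
    exact N.one_mem
  mul_mem' := by
    intro a b ha hb m hm
    have h1 := ha m hm
    have h2 := hN.conj_mem _ (hb m hm) a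
    have : ⁅m, a * b⁆ = ⁅m, a⁆ * (a * ⁅m, b⁆ * a⁻¹) := by
      simp only [commutatorElement_def]
      group
    rw [this]
    exact N.mul_mem h1 h2
  inv_mem' := by
    intro a ha m hm
    have h1 := hN.conj_mem _ (N.inv_mem (ha m hm)) a⁻¹
    have : ⁅m, a⁻¹⁆ = a⁻¹ * ⁅m, a⁆⁻¹ * a⁻¹⁻¹ := by
      simp only [commutatorElement_def]
      group
    rw [this]
    exact h1

theorem exists_far_mem_B {Q : Type} [Group Q] (K N : Subgroup Q) [hN : N.Normal] (z : Q) :
    z ∈ exists_far_B K N ↔ ∀ m ∈ K, ⁅m, z⁆ ∈ N := Iff.rfl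

theorem exists_far_B_top {Q : Type} [Group Q] (K N : Subgroup Q) [hN : N.Normal]
    (h : exists_far_B K N = ⊤) : ⁅K, (⊤ : Subgroup Q)⁆ ≤ N := by
  rw [Subgroup.commutator_le]
  intro m hm z _
  have : z ∈ exists_far_B K N := by rw [h]; exact Subgroup.mem_top z
  exact this m hm

theorem exists_far_stab {Q : Type} [Group Q] (j : ℕ)
    (h : (⊤ : Subgroup Q).lowerCentralSeries j ≤ (⊤ : Subgroup Q).lowerCentralSeries (j + 1)) (k : ℕ) :
    (⊤ : Subgroup Q).lowerCentralSeries j ≤ (⊤ : Subgroup Q).lowerCentralSeries (j + k) := by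
  induction k with
  | zero => exact le_refl _
  | succ k ih =>
    refine h.trans ?_
    rw [Subgroup.lowerCentralSeries_succ, ← add_assoc, Subgroup.lowerCentralSeries_succ]
    exact Subgroup.commutator_mono ih le_rfl

theorem exists_far_stab' {Q : Type} [Group Q] [Group.IsNilpotent Q] (j : ℕ)
    (h : (⊤ : Subgroup Q).lowerCentralSeries j ≤ (⊤ : Subgroup Q).lowerCentralSeries (j + 1)) :
    (⊤ : Subgroup Q).lowerCentralSeries j = ⊥ := by
  obtain ⟨n, hn⟩ := Subgroup.nilpotent_iff_lowerCentralSeries.mp (inferInstance : Group.IsNilpotent Q)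
  rw [eq_bot_iff, ← hn]
  refine (exists_far_stab j h n).trans ?_
  exact Subgroup.lowerCentralSeries_antitone _ (Nat.le_add_left n j)

theorem exists_far_y {p : ℕ} (hp : p.Prime) {Q : Type} [Group Q] (hQ : IsPGroup p Q)
    (B : Subgroup Q) (y : Q) (d : ℕ) (h0 : 0 < d) (hd : d < p) (h : y ^ d ∈ B) : y ∈ B := by
  have : Fact p.Prime := ⟨hp⟩
  obtain ⟨k, hk⟩ := (IsPGroup.iff_orderOf.mp hQ) y
  have hcop : d.Coprime (orderOf y) := by
    rw [hk]
    apply Nat.Coprime.pow_right
    exact (Nat.coprime_of_lt_prime (by omega) hd hp).symm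
  obtain ⟨m, hm⟩ := exists_pow_eq_self_of_coprime hcop
  rw [← hm]
  exact B.pow_mem h m

theorem exists_far_two {p : ℕ} (hp : p.Prime) {Q : Type} [Group Q] (hQ : IsPGroup p Q)
    (x y : Q) (hgen : Subgroup.closure ({x, y} : Set Q) = ⊤) (B : Subgroup Q) (s t : ℕ)
    (hst : s < t) (ht : t < p) (h1 : x * y ^ s ∈ B) (h2 : x * y ^ t ∈ B) : B = ⊤ := by
  have h3 : y ^ (t - s) ∈ B := by
    have : y ^ (t - s) = (x * y ^ s)⁻¹ * (x * y ^ t) := by
      obtain ⟨d, rfl⟩ : ∃ d, t = s + d := ⟨t - s, by omega⟩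
      rw [Nat.add_sub_cancel_left, pow_add]
      group
    rw [this]
    exact B.mul_mem (B.inv_mem h1) h2
  have hy := exists_far_y hp hQ B y (t - s) (by omega) (by omega) h3
  have hx : x ∈ B := by
    have : x = (x * y ^ s) * (y ^ s)⁻¹ := by group
    rw [this]
    exact B.mul_mem h1 (B.inv_mem (B.pow_mem hy s))
  rw [eq_top_iff, ← hgen, Subgroup.closure_le]
  rintro z (rfl | rfl)
  · exact hx
  · exact hy

theorem exists_far_one {Q : Type} [Group Q]
    (x y : Q) (hgen : Subgroup.closure ({x, y} : Set Q) = ⊤) (B : Subgroup Q) (s : ℕ)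
    (h1 : x * y ^ s ∈ B) (hy : y ∈ B) : B = ⊤ := by
  have hx : x ∈ B := by
    have : x = (x * y ^ s) * (y ^ s)⁻¹ := by group
    rw [this]
    exact B.mul_mem h1 (B.inv_mem (B.pow_mem hy s))
  rw [eq_top_iff, ← hgen, Subgroup.closure_le]
  rintro z (rfl | rfl)
  · exact hx
  · exact hy

/-- the candidates -/
def exists_far_cand {Q : Type} [Group Q] (p : ℕ) (x y : Q) : Option (Fin p) → Q
  | none => y
  | some t => x * y ^ (t : ℕ)

theorem exists_far_cands {p : ℕ} (hp : p.Prime) {Q : Type} [Group Q] (hQ : IsPGroup p Q)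
    (x y : Q) (hgen : Subgroup.closure ({x, y} : Set Q) = ⊤) (B : Subgroup Q)
    (c d : Option (Fin p)) (hcd : c ≠ d) (hc : exists_far_cand p x y c ∈ B)
    (hd : exists_far_cand p x y d ∈ B) : B = ⊤ := by
  match c, d, hcd, hc, hd with
  | none, none, hcd, _, _ => exact absurd rfl hcd
  | none, some t, _, hc, hd => exact exists_far_one x y hgen B t hd hc
  | some t, none, _, hc, hd => exact exists_far_one x y hgen B t hc hd
  | some s, some t, hcd, hc, hd =>
    have hne : (s : ℕ) ≠ t := fun h => hcd (by rw [Fin.ext h])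
    rcases lt_or_gt_of_ne hne with h | h
    · exact exists_far_two hp hQ x y hgen B s t h t.2 hc hd
    · exact exists_far_two hp hQ x y hgen B t s h s.2 hd hc

theorem exists_far_ne {Q : Type} [Group Q] [Finite Q] (H K : Subgroup Q) : H.relIndex K ≠ 0 := by
  intro h
  have h1 := H.relIndex_dvd_card K
  rw [h, zero_dvd_iff] at h1
  exact Nat.card_pos.ne' h1

theorem exists_far_relIndex {p : ℕ} (hp : p.Prime) {Q : Type} [Group Q] [Finite Q] (hQ : IsPGroup p Q)
    (H K : Subgroup Q) (h : ¬ K ≤ H) : p ≤ H.relIndex K := by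
  have : Fact p.Prime := ⟨hp⟩
  obtain ⟨n, hn⟩ := (hQ.to_subgroup K).index (H.subgroupOf K)
  have hn' : H.relIndex K = p ^ n := hn
  rw [hn']
  rcases Nat.eq_zero_or_pos n with h0 | h0
  · exfalso
    apply h
    rw [← Subgroup.relIndex_eq_one, hn', h0, pow_zero]
  · exact Nat.le_self_pow (by omega) p

theorem exists_far_main {p : ℕ} (hp : p.Prime) {Q : Type} [Group Q] [Finite Q] (hQ : IsPGroup p Q)
    (x y : Q) (hgen : Subgroup.closure ({x, y} : Set Q) = ⊤)
    (hcl : (⊤ : Subgroup Q).lowerCentralSeries (p - 1) ≠ ⊥) :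
    ∃ z : Q, p ^ (p - 2) ≤ (Subgroup.centralizer ({z} : Set Q)).relIndex (commutator Q) := by
  have : Fact p.Prime := ⟨hp⟩
  have : Group.IsNilpotent Q := hQ.isNilpotent
  have hp2 := hp.two_le
  -- choose z
  have hz : ∃ z : Q, ∀ j, 1 ≤ j → j ≤ p - 2 →
      z ∉ exists_far_B ((⊤ : Subgroup Q).lowerCentralSeries j) ((⊤ : Subgroup Q).lowerCentralSeries (j + 2)) := by
    by_contra hcon
    push Not at hcon
    choose g hg1 hg2 hg3 using fun c : Option (Fin p) => hcon (exists_far_cand p x y c)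
    have hcard : (Finset.Icc 1 (p - 2)).card < (Finset.univ : Finset (Option (Fin p))).card := by
      rw [Nat.card_Icc, Finset.card_univ, Fintype.card_option, Fintype.card_fin]
      omega
    obtain ⟨c, _, d, _, hcd, hgcd⟩ := Finset.exists_ne_map_eq_of_card_lt_of_maps_to hcard
      (f := g) (fun c _ => by
        rw [Finset.coe_Icc, Set.mem_Icc]
        exact ⟨hg1 c, hg2 c⟩)
    have hc := hg3 c
    have hd := hg3 d
    rw [← hgcd] at hd
    have htop := exists_far_cands hp hQ x y hgen _ c d hcd hc hd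
    have hle := exists_far_B_top _ _ htop
    have hbot := exists_far_stab' (g c + 1) hle
    apply hcl
    rw [eq_bot_iff, ← hbot]
    apply Subgroup.lowerCentralSeries_antitone
    have := hg2 c
    have := hg1 c
    omega
  obtain ⟨z, hz⟩ := hz
  refine ⟨z, ?_⟩
  rw [← Subgroup.top_lowerCentralSeries_one]
  obtain ⟨C, hC⟩ : ∃ C : Subgroup Q, C = Subgroup.centralizer ({z} : Set Q) ⊓ (⊤ : Subgroup Q).lowerCentralSeries 1 :=
    ⟨_, rfl⟩
  have hCz : ∀ c ∈ C, z * c = c * z := by
    intro c hc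
    rw [hC] at hc
    have := (Subgroup.mem_centralizer_iff.mp hc.1) z (Set.mem_singleton z)
    exact this
  have hC1 : C ≤ (⊤ : Subgroup Q).lowerCentralSeries 1 := by
    rw [hC]
    exact inf_le_right
  have hmain : ∀ i, i ≤ p - 2 → p ^ i ≤ (C ⊔ (⊤ : Subgroup Q).lowerCentralSeries (i + 1)).relIndex
      ((⊤ : Subgroup Q).lowerCentralSeries 1) := by
    intro i
    induction i with
    | zero =>
      intro _
      rw [pow_zero]
      exact Nat.one_le_iff_ne_zero.mpr (exists_far_ne _ _)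
    | succ i ih =>
      intro hi
      have hmono : (C ⊔ (⊤ : Subgroup Q).lowerCentralSeries (i + 1 + 1)) ≤
          (C ⊔ (⊤ : Subgroup Q).lowerCentralSeries (i + 1)) :=
        sup_le_sup_left (Subgroup.lowerCentralSeries_antitone _ (Nat.le_succ _)) C
      have hle1 : (C ⊔ (⊤ : Subgroup Q).lowerCentralSeries (i + 1)) ≤ (⊤ : Subgroup Q).lowerCentralSeries 1 :=
        sup_le hC1 (Subgroup.lowerCentralSeries_antitone _ (by omega))
      rw [← Subgroup.relIndex_mul_relIndex _ _ _ hmono hle1, pow_succ']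
      refine Nat.mul_le_mul ?_ (ih (by omega))
      apply exists_far_relIndex hp hQ
      intro hle
      apply hz (i + 1) (by omega) hi
      rw [exists_far_mem_B]
      intro m hm
      have hmem : m ∈ C ⊔ (⊤ : Subgroup Q).lowerCentralSeries (i + 1 + 1) :=
        hle ((le_sup_right : _ ≤ C ⊔ (⊤ : Subgroup Q).lowerCentralSeries (i + 1)) hm)
      have hmem' : m ∈ ((C ⊔ (⊤ : Subgroup Q).lowerCentralSeries (i + 1 + 1) : Subgroup Q) : Set Q) := hmem
      rw [Subgroup.mul_normal] at hmem'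
      obtain ⟨c, hc, u, hu, hcu⟩ := Set.mem_mul.mp hmem'
      have hu2 : ⁅u, z⁆ ∈ (⊤ : Subgroup Q).lowerCentralSeries (i + 1 + 2) := by
        show ⁅u, z⁆ ∈ (⊤ : Subgroup Q).lowerCentralSeries (i + 1 + 1 + 1)
        rw [Subgroup.lowerCentralSeries_succ]
        exact Subgroup.commutator_mem_commutator hu (Subgroup.mem_top z)
      have hconj := (inferInstance : ((⊤ : Subgroup Q).lowerCentralSeries (i + 1 + 2)).Normal).conj_mem _ hu2 c
      have heq : ⁅m, z⁆ = c * ⁅u, z⁆ * c⁻¹ := by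
        have hzc : z * c⁻¹ * z⁻¹ = c⁻¹ := by
          have := hCz c hc
          rw [mul_inv_eq_iff_eq_mul, eq_comm, inv_mul_eq_iff_eq_mul, ← mul_assoc, ← this, mul_assoc,
            mul_inv_cancel, mul_one]
        rw [← hcu]
        simp only [commutatorElement_def]
        calc c * u * z * (c * u)⁻¹ * z⁻¹ = c * (u * z * u⁻¹ * z⁻¹) * (z * c⁻¹ * z⁻¹) := by group
          _ = c * (u * z * u⁻¹ * z⁻¹) * c⁻¹ := by rw [hzc]
      rw [heq]
      exact hconj
  have hfin := hmain (p - 2) le_rfl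
  refine hfin.trans ?_
  have hCrel : C.relIndex ((⊤ : Subgroup Q).lowerCentralSeries 1) =
      (Subgroup.centralizer ({z} : Set Q)).relIndex ((⊤ : Subgroup Q).lowerCentralSeries 1) := by
    rw [hC, Subgroup.inf_relIndex_right]
  rw [← hCrel]
  exact Subgroup.relIndex_le_of_le_left le_sup_left (exists_far_ne _ _)

end exists_far_section

/-- TARGET -/
theorem exists_far {p : ℕ} (hp : p.Prime) {Q : Type} [Group Q] [Finite Q] (hQ : IsPGroup p Q)
    (x y : Q) (hgen : Subgroup.closure ({x, y} : Set Q) = ⊤)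
    (hcl : (⊤ : Subgroup Q).lowerCentralSeries (p - 1) ≠ ⊥) :
    ∃ z : Q, p ^ (p - 2) ≤ (Subgroup.centralizer ({z} : Set Q)).relIndex (commutator Q) := by
  exact exists_far_main hp hQ x y hgen hcl

end Pool.Agent.Helper431.PN
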