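import Mathlib
import Pool.Agent.Helper431.PN.Base
import Pool.Agent.Helper431.PN.G1
import Pool.Agent.Helper431.PN.G2
import Pool.Agent.Helper431.PN.G3

namespace Pool.Agent.Helper431.PN






theorem lift_list_20931 {P : Type} [Group P] (K0 A : Subgroup P) (B : Subgroup K0)
    (hAB : B.map K0.subtype = A) (l : List P) (hl : ∀ c ∈ l, c ∈ A) :
    ∃ l' : List K0, (∀ c ∈ l', c ∈ B) ∧ List.map (fun c : K0 => (c : P)) l' = l := by
  induction l with
  | nil => exact ⟨[], by simp, rfl⟩
  | cons c l ih =>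
    obtain ⟨l', h1, h2⟩ := ih (fun d hd => hl d (List.mem_cons_of_mem _ hd))
    have hc := hl c (List.mem_cons_self ..)
    rw [← hAB] at hc
    obtain ⟨c', hc1, hc2⟩ := hc
    refine ⟨c' :: l', ?_, ?_⟩
    · intro d hd
      rcases List.mem_cons.1 hd with h | h
      · rw [h]; exact hc1
      · exact h1 d h
    · rw [List.map_cons, h2]
      show (c' : P) :: l = c :: l
      have h3 : (c' : P) = c := hc2
      rw [h3]

theorem good_sub_20931 {p : ℕ} {P : Type} [Group P] (K0 : Subgroup P) (a b : K0)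
    (h : GoodPair p (a : P) (b : P)) : GoodPair p a b := by
  obtain ⟨l, hl, he⟩ := h
  have hcl : (Subgroup.closure ({a, b} : Set K0)).map K0.subtype =
      Subgroup.closure ({(a : P), (b : P)} : Set P) := by
    rw [MonoidHom.map_closure, Set.image_pair]
    rfl
  have hAB : (⁅Subgroup.closure ({a, b} : Set K0), Subgroup.closure ({a, b} : Set K0)⁆).map
      K0.subtype = ⁅Subgroup.closure ({(a : P), (b : P)} : Set P),
        Subgroup.closure ({(a : P), (b : P)} : Set P)⁆ := by
    rw [Subgroup.map_commutator, hcl]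
  obtain ⟨l', h1, h2⟩ := lift_list_20931 K0 _ _ hAB l hl
  refine ⟨l', h1, ?_⟩
  apply Subtype.ext
  have h3 : K0.subtype ((List.map (fun c : K0 => c ^ p) l').prod) =
      (List.map (fun c : P => c ^ p) l).prod := by
    rw [← h2, map_list_prod, List.map_map, List.map_map]
    rfl
  show ((a : P) * b) ^ p = (a : P) ^ p * (b : P) ^ p *
    K0.subtype ((List.map (fun c : K0 => c ^ p) l').prod)
  rw [h3]
  exact he

theorem step_20931 {p : ℕ} (hp : p.Prime) {P : Type} [Group P] [Finite P]
    (hP : IsPGroup p P)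
    (hb : ∀ (K U : Subgroup P) (z : P), (∀ u : P, u ∈ U ↔ ∃ k ∈ K, k ^ p = u) →
      ((Subgroup.centralizer ({z} : Set P) ⊓ K) ⊔ U).relIndex K < p ^ (p - 2))
    (x y : P) (H K0 U : Subgroup P) (hH : H = Subgroup.closure ({x, y} : Set P)) (hK0 : K0 = ⁅H, H⁆)
    (hU : ∀ u : P, u ∈ U ↔ ∃ k ∈ K0, k ^ p = u) : GoodPair p x y := by
  have hK0H : K0 ≤ H := by
    rw [hK0]
    exact Subgroup.commutator_le_self H
  have hUK0 : U ≤ K0 := by
    intro u hu
    obtain ⟨k, hk, rfl⟩ := (hU u).1 hu
    exact K0.pow_mem hk p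
  have hUH : U ≤ H := hUK0.trans hK0H
  have hconj : ∀ h ∈ H, ∀ k ∈ K0, h * k * h⁻¹ ∈ K0 := by
    intro h hh k hk
    have h1 : h * k * h⁻¹ = (h * k * h⁻¹ * k⁻¹) * k := by
      group
    rw [h1]
    refine K0.mul_mem ?_ hk
    have h2 := Subgroup.commutator_mem_commutator hh (hK0H hk)
    rw [commutatorElement_def, ← hK0] at h2
    exact h2
  have hnorm : (U.subgroupOf H).Normal := by
    refine ⟨?_⟩
    intro n hn g
    rw [Subgroup.mem_subgroupOf] at hn ⊢
    obtain ⟨k, hk, hkn⟩ := (hU _).1 hn
    rw [hU]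
    refine ⟨(g : P) * k * (g : P)⁻¹, hconj g g.2 k hk, ?_⟩
    rw [conj_pow, hkn]
    rfl
  have hx : x ∈ H := by
    rw [hH]
    exact Subgroup.subset_closure (by simp)
  have hy : y ∈ H := by
    rw [hH]
    exact Subgroup.subset_closure (by simp)
  obtain ⟨x1, hx1⟩ : ∃ x1 : H, (x1 : P) = x := ⟨⟨x, hx⟩, rfl⟩
  obtain ⟨y1, hy1⟩ : ∃ y1 : H, (y1 : P) = y := ⟨⟨y, hy⟩, rfl⟩
  have hgenH : Subgroup.closure ({x1, y1} : Set H) = ⊤ := by
    have h1 : (Subgroup.closure ({x1, y1} : Set H)).map H.subtype = (⊤ : Subgroup H).map H.subtype := by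
      rw [MonoidHom.map_closure, Set.image_pair]
      show Subgroup.closure ({(x1 : P), (y1 : P)} : Set P) = _
      rw [hx1, hy1, ← hH, ← MonoidHom.range_eq_map, Subgroup.range_subtype]
    exact Subgroup.map_injective H.subtype_injective h1
  have hcomH : (commutator H).map H.subtype = K0 := by
    rw [hK0]
    exact Subgroup.map_subtype_commutator H
  let Q : Type := H ⧸ (U.subgroupOf H)
  let π : H →* Q := QuotientGroup.mk' (U.subgroupOf H)
  have hπs : Function.Surjective π := QuotientGroup.mk'_surjective _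
  have hQ : IsPGroup p Q := (hP.to_subgroup H).to_quotient _
  have hgenQ : Subgroup.closure ({π x1, π y1} : Set Q) = ⊤ := by
    have h1 : (Subgroup.closure ({x1, y1} : Set H)).map π = (⊤ : Subgroup H).map π := by
      rw [hgenH]
    rw [MonoidHom.map_closure, Set.image_pair] at h1
    rw [h1, ← MonoidHom.range_eq_map, MonoidHom.range_eq_top]
    exact hπs
  have hcomQ : commutator Q = (commutator H).map π := by
    rw [commutator_def, commutator_def, Subgroup.map_commutator, ← MonoidHom.range_eq_map,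
      MonoidHom.range_eq_top.2 hπs]
  have hexp : ∀ c ∈ commutator Q, c ^ p = 1 := by
    intro c hc
    rw [hcomQ] at hc
    obtain ⟨h, hh, rfl⟩ := hc
    rw [← map_pow]
    show π (h ^ p) = 1
    have h2 : h ^ p ∈ U.subgroupOf H := by
      rw [Subgroup.mem_subgroupOf, hU]
      refine ⟨(h : P), ?_, rfl⟩
      rw [← hcomH]
      exact ⟨h, hh, rfl⟩
    exact (QuotientGroup.eq_one_iff _).2 h2
  by_cases hcl : (⊤ : Subgroup Q).lowerCentralSeries (p - 1) = ⊥
  · have h1 := hall_class_lt hp hcl hexp (π x1) (π y1)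
    rw [← map_mul, ← map_pow, ← map_pow, ← map_pow, ← map_mul] at h1
    have h2 : (x1 ^ p * y1 ^ p)⁻¹ * (x1 * y1) ^ p ∈ U.subgroupOf H :=
      QuotientGroup.eq.1 h1.symm
    rw [Subgroup.mem_subgroupOf, hU] at h2
    obtain ⟨k, hk, hk2⟩ := h2
    refine ⟨[k], ?_, ?_⟩
    · intro c hc
      rw [List.mem_singleton] at hc
      rw [hc, ← hH, ← hK0]
      exact hk
    · rw [List.map_singleton, List.prod_singleton, hk2]
      have h3 : (((x1 ^ p * y1 ^ p)⁻¹ * (x1 * y1) ^ p : H) : P) =
          (x ^ p * y ^ p)⁻¹ * (x * y) ^ p := by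
        rw [← hx1, ← hy1]
        rfl
      rw [h3]
      group
  · exfalso
    obtain ⟨z', hz'⟩ := exists_far hp hQ (π x1) (π y1) hgenQ hcl
    obtain ⟨z, rfl⟩ := hπs z'
    have h1 := hb K0 U (z : P) hU
    have hle : (Subgroup.centralizer ({(z : P)} : Set P) ⊓ K0) ⊔ U ≤
        ((Subgroup.centralizer ({π z} : Set Q)).comap π).map H.subtype := by
      apply sup_le
      · intro g hg
        obtain ⟨hg1, hg2⟩ := Subgroup.mem_inf.1 hg
        refine ⟨⟨g, hK0H hg2⟩, ?_, rfl⟩
        show π ⟨g, hK0H hg2⟩ ∈ Subgroup.centralizer ({π z} : Set Q)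
        rw [Subgroup.mem_centralizer_singleton_iff]
        rw [← map_mul, ← map_mul]
        congr 1
        apply Subtype.ext
        rw [Subgroup.mem_centralizer_singleton_iff] at hg1
        exact hg1
      · intro u hu
        refine ⟨⟨u, hUH hu⟩, ?_, rfl⟩
        show π ⟨u, hUH hu⟩ ∈ Subgroup.centralizer ({π z} : Set Q)
        have h2 : π ⟨u, hUH hu⟩ = 1 := by
          apply (QuotientGroup.eq_one_iff _).2
          rw [Subgroup.mem_subgroupOf]
          exact hu
        rw [h2]
        exact Subgroup.one_mem _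
    have hle2 : ((Subgroup.centralizer ({(z : P)} : Set P) ⊓ K0) ⊔ U).comap H.subtype ≤
        (Subgroup.centralizer ({π z} : Set Q)).comap π := by
      have h3 := Subgroup.comap_mono (f := H.subtype) hle
      rw [Subgroup.comap_map_eq_self_of_injective H.subtype_injective] at h3
      exact h3
    have h4 : ((Subgroup.centralizer ({(z : P)} : Set P) ⊓ K0) ⊔ U).relIndex K0 =
        (((Subgroup.centralizer ({(z : P)} : Set P) ⊓ K0) ⊔ U).comap H.subtype).relIndex
          (commutator H) := by
      rw [Subgroup.relIndex_comap, hcomH]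
    have h5 : (Subgroup.centralizer ({π z} : Set Q)).relIndex (commutator Q) =
        ((Subgroup.centralizer ({π z} : Set Q)).comap π).relIndex (commutator H) := by
      rw [Subgroup.relIndex_comap, hcomQ]
    rw [h4] at h1
    rw [h5] at hz'
    have h6 := Subgroup.relIndex_le_of_le_left (L := commutator H) hle2 (by
      exact Subgroup.index_ne_zero_of_finite)
    omega

/-- TARGET -/
theorem regular_of_bound {p : ℕ} (hp : p.Prime) {P : Type} [Group P] [Finite P]
    (hP : IsPGroup p P)
    (hb : ∀ (K U : Subgroup P) (z : P), (∀ u : P, u ∈ U ↔ ∃ k ∈ K, k ^ p = u) →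
      ((Subgroup.centralizer ({z} : Set P) ⊓ K) ⊔ U).relIndex K < p ^ (p - 2)) :
    IsRegular p P := by
  intro x y
  induction hN : Nat.card (Subgroup.closure ({x, y} : Set P)) using Nat.strong_induction_on
    generalizing x y with
  | _ N ih =>
    subst hN
    by_cases hbot : Subgroup.closure ({x, y} : Set P) = ⊥
    · have hx : x = 1 := by
        have : x ∈ Subgroup.closure ({x, y} : Set P) := Subgroup.subset_closure (by simp)
        rw [hbot] at this
        exact Subgroup.mem_bot.1 this
      have hy : y = 1 := by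
        have : y ∈ Subgroup.closure ({x, y} : Set P) := Subgroup.subset_closure (by simp)
        rw [hbot] at this
        exact Subgroup.mem_bot.1 this
      refine ⟨[], by simp, ?_⟩
      rw [hx, hy]
      simp
    · have : Fact p.Prime := ⟨hp⟩
      have : Group.IsNilpotent P := hP.isNilpotent
      have hlt : ⁅Subgroup.closure ({x, y} : Set P), Subgroup.closure ({x, y} : Set P)⁆ <
          Subgroup.closure ({x, y} : Set P) := Group.IsSolvable.commutator_lt_of_ne_bot hbot
      obtain ⟨K0, hK0⟩ : ∃ K0, K0 = ⁅Subgroup.closure ({x, y} : Set P),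
        Subgroup.closure ({x, y} : Set P)⁆ := ⟨_, rfl⟩
      rw [← hK0] at hlt
      have hcard : Nat.card K0 < Nat.card (Subgroup.closure ({x, y} : Set P)) := by
        by_contra hc
        push Not at hc
        exact hlt.ne (Subgroup.eq_of_le_of_card_ge hlt.le hc)
      have hreg : ∀ a b : K0, GoodPair p a b := by
        intro a b
        apply good_sub_20931
        apply ih _ _ _ _ rfl
        refine lt_of_le_of_lt (Subgroup.card_le_of_le ?_) hcard
        rw [Subgroup.closure_le]
        intro c hc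
        rcases hc with h | h
        · rw [h]; exact a.2
        · rw [Set.mem_singleton_iff] at h
          rw [h]; exact b.2
      have hpm := fun a b : K0 => pow_mul_pow hp (hP.to_subgroup K0) hreg a b
      let U : Subgroup P :=
        { carrier := {u | ∃ k ∈ K0, k ^ p = u}
          mul_mem' := by
            rintro _ _ ⟨k, hk, rfl⟩ ⟨k', hk', rfl⟩
            obtain ⟨c, -, hc⟩ := hpm ⟨k, hk⟩ ⟨k', hk'⟩
            exact ⟨c, c.2, (congrArg Subtype.val hc).symm⟩
          one_mem' := ⟨1, K0.one_mem, one_pow _⟩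
          inv_mem' := by
            rintro _ ⟨k, hk, rfl⟩
            exact ⟨k⁻¹, K0.inv_mem hk, inv_pow _ _⟩ }
      exact step_20931 hp hP hb x y _ K0 U rfl hK0 (fun u => Iff.rfl)

end Pool.Agent.Helper431.PN
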