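import Mathlib
import Pool.Agent.Helper431.PN.Base

namespace Pool.Agent.Helper431.PN

theorem sum_id833 {C : Type*} [CommRing C] (p : ℕ) (v d : C) :
    ∑ i ∈ Finset.range p, (v + d) ^ i * v ^ (p - 1 - i)
      = ∑ k ∈ Finset.range p, (p.choose (k + 1) : C) * v ^ (p - 1 - k) * d ^ k := by
  have key : ∑ i ∈ Finset.range p, (Polynomial.C v + Polynomial.X) ^ i * Polynomial.C v ^ (p - 1 - i)
      = ∑ k ∈ Finset.range p, (p.choose (k + 1) : Polynomial C) * Polynomial.C v ^ (p - 1 - k)
        * Polynomial.X ^ k := by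
    have hreg : IsLeftRegular (Polynomial.X : Polynomial C) := Polynomial.monic_X.isRegular.left
    apply hreg
    show Polynomial.X * _ = Polynomial.X * _
    have h1 : Polynomial.X * ∑ i ∈ Finset.range p,
        (Polynomial.C v + Polynomial.X) ^ i * Polynomial.C v ^ (p - 1 - i)
        = (Polynomial.C v + Polynomial.X) ^ p - Polynomial.C v ^ p := by
      have h2 := (Commute.all (Polynomial.C v + Polynomial.X) (Polynomial.C v)).mul_geom_sum₂ p
      rw [add_sub_cancel_left] at h2
      exact h2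
    rw [h1, add_comm (Polynomial.C v) Polynomial.X, add_pow, Finset.sum_range_succ', Finset.mul_sum]
    simp only [pow_zero, one_mul, Nat.choose_zero_right, Nat.cast_one, mul_one, Nat.sub_zero,
      add_sub_cancel_right]
    refine Finset.sum_congr rfl fun k hk => ?_
    have hk' := Finset.mem_range.1 hk
    have e : p - (k + 1) = p - 1 - k := by omega
    rw [e, pow_succ]
    ring
  have h3 := congrArg (Polynomial.eval d) key
  simpa only [Polynomial.eval_finsetSum, Polynomial.eval_mul, Polynomial.eval_pow,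
    Polynomial.eval_add, Polynomial.eval_C, Polynomial.eval_X, Polynomial.eval_natCast] using h3

/-- TARGET -/
theorem sum_unit {C : Type*} [CommRing C] {p n m : ℕ} (hp : p.Prime) (hn : 1 ≤ n)
    (hpn : 2 * n + 1 ≤ p)
    (A A' B B' : C) (hA : A ^ n = p * A') (hB : B ^ n = p * B') (hpm : (p : C) ^ m = 0) :
    ∃ W : Cˣ, ∑ i ∈ Finset.range p, (1 + A) ^ i * (1 + B) ^ (p - 1 - i) = p * W := by
  classical
  obtain ⟨d, hd⟩ : ∃ d, d = A + -B := ⟨_, rfl⟩
  obtain ⟨v, hv⟩ : ∃ v, v = 1 + B := ⟨_, rfl⟩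
  have huv : 1 + A = v + d := by rw [hd, hv]; ring
  rw [huv, ← hv, sum_id833]
  have hpnil : IsNilpotent (p : C) := ⟨m, hpm⟩
  -- divisibility of powers of d
  obtain ⟨e, he⟩ : ∃ e, d ^ (2 * n - 1) = p * e := by
    have h1 : (A + -B) ^ (2 * n - 1) ∈ Ideal.span {(p : C)} := by
      apply Ideal.add_pow_mem_of_pow_mem_of_le (m := n) (n := n)
      · rw [Ideal.mem_span_singleton]; exact ⟨A', hA⟩
      · rw [Ideal.mem_span_singleton, neg_pow, hB]
        exact ⟨(-1) ^ n * B', by ring⟩
      · omega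
    rw [← hd, Ideal.mem_span_singleton] at h1
    exact h1
  have hdnil : IsNilpotent d := by
    have h1 : IsNilpotent (d ^ (2 * n - 1)) := by
      rw [he]
      exact (Commute.all (p : C) e).isNilpotent_mul_right hpnil
    exact (IsNilpotent.pow_iff_pos (by omega)).1 h1
  have hBnil : IsNilpotent B := by
    have h1 : IsNilpotent (B ^ n) := by
      rw [hB]
      exact (Commute.all (p : C) B').isNilpotent_mul_right hpnil
    exact (IsNilpotent.pow_iff_pos (by omega)).1 h1
  have hvu : IsUnit v := by rw [hv]; exact hBnil.isUnit_one_add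
  -- the terms
  obtain ⟨q, hq⟩ : ∃ q, p = q + 1 := ⟨p - 1, by omega⟩
  have hterm : ∀ k ∈ Finset.range q, ∃ w : C,
      (p.choose (k + 1 + 1) : C) * v ^ (p - 1 - (k + 1)) * d ^ (k + 1) = p * (d * w) := by
    intro k hk
    have hk' := Finset.mem_range.1 hk
    by_cases h1 : k + 1 + 1 < p
    · obtain ⟨c, hc⟩ := hp.dvd_choose_self (by omega : k + 1 + 1 ≠ 0) h1
      refine ⟨c * v ^ (p - 1 - (k + 1)) * d ^ k, ?_⟩
      rw [hc]
      push_cast
      ring
    · have h2 : k + 1 + 1 = p := by omega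
      refine ⟨e * d ^ (p - 2 * n - 1), ?_⟩
      rw [h2, Nat.choose_self]
      have h3 : p - 1 - (k + 1) = 0 := by omega
      have h4 : k + 1 = (2 * n - 1) + (p - 2 * n - 1 + 1) := by omega
      rw [h3, h4, pow_add d, he, pow_succ]
      push_cast
      ring
  choose! w hw using hterm
  have hS : ∑ k ∈ Finset.range p, (p.choose (k + 1) : C) * v ^ (p - 1 - k) * d ^ k
      = p * (v ^ q + d * ∑ k ∈ Finset.range q, w k) := by
    conv_lhs => rw [show Finset.range p = Finset.range (q + 1) by rw [hq]]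
    rw [Finset.sum_range_succ', Finset.sum_congr rfl hw]
    have h5 : p - 1 - 0 = q := by omega
    rw [h5, zero_add, Nat.choose_one_right, pow_zero, mul_one, Finset.mul_sum, mul_add,
      Finset.mul_sum]
    ring
  have hU : IsUnit (v ^ q + d * ∑ k ∈ Finset.range q, w k) := by
    have h6 : IsNilpotent (d * ∑ k ∈ Finset.range q, w k) :=
      (Commute.all d _).isNilpotent_mul_right hdnil
    exact h6.isUnit_add_left_of_commute (hvu.pow q) (Commute.all _ _)
  obtain ⟨W, hW⟩ := hU
  exact ⟨W, by rw [hS, hW]⟩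

end Pool.Agent.Helper431.PN
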