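import Mathlib
import Pool.Agent.Helper431.PN.Base
import Pool.Agent.Helper431.PN.M1
import Pool.Agent.Helper431.PN.M2

namespace Pool.Agent.Helper431.PN





theorem pei_left {p m n : ℕ}
    (S S' : Matrix (Fin n) (Fin n) (ZMod (p ^ m))) (h : S ^ n = (p : ZMod (p ^ m)) • S') :
    (LinearMap.mulLeft (ZMod (p ^ m)) S) ^ n =
      (p : Module.End (ZMod (p ^ m)) (Matrix (Fin n) (Fin n) (ZMod (p ^ m)))) *
        LinearMap.mulLeft (ZMod (p ^ m)) S' := by
  rw [LinearMap.pow_mulLeft, h]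
  apply LinearMap.ext
  intro x
  simp only [LinearMap.mulLeft_apply, Module.End.mul_apply, Module.End.natCast_apply]
  rw [Matrix.smul_mul, Nat.cast_smul_eq_nsmul]

theorem pei_right {p m n : ℕ}
    (S S' : Matrix (Fin n) (Fin n) (ZMod (p ^ m))) (h : S ^ n = (p : ZMod (p ^ m)) • S') :
    (LinearMap.mulRight (ZMod (p ^ m)) S) ^ n =
      (p : Module.End (ZMod (p ^ m)) (Matrix (Fin n) (Fin n) (ZMod (p ^ m)))) *
        LinearMap.mulRight (ZMod (p ^ m)) S' := by
  rw [LinearMap.pow_mulRight, h]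
  apply LinearMap.ext
  intro x
  simp only [LinearMap.mulRight_apply, Module.End.mul_apply, Module.End.natCast_apply]
  rw [Matrix.mul_smul, Nat.cast_smul_eq_nsmul]

theorem pei_sum {R E : Type*} [CommRing R] [Ring E] [Algebra R E] {p n m : ℕ} (hp : p.Prime)
    (hn : 1 ≤ n) (hpn : 2 * n + 1 ≤ p) (A A' B B' : E) (hA : A ^ n = p * A')
    (hB : B ^ n = p * B') (hpm : (p : E) ^ m = 0) (h1 : Commute A A') (h2 : Commute B B')
    (h3 : Commute A B) (h4 : Commute A B') (h5 : Commute A' B) (h6 : Commute A' B') :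
    ∃ W W' : E, W' * W = 1 ∧
      ∑ i ∈ Finset.range p, (1 + A) ^ i * (1 + B) ^ (p - 1 - i) = p * W := by
  have hcomm : ∀ a ∈ ({A, A', B, B'} : Set E), ∀ b ∈ ({A, A', B, B'} : Set E),
      a * b = b * a := by
    intro a ha b hb
    simp only [Set.mem_insert_iff, Set.mem_singleton_iff] at ha hb
    rcases ha with rfl | rfl | rfl | rfl <;> rcases hb with rfl | rfl | rfl | rfl <;>
      first
        | rfl
        | exact h1.eq
        | exact h1.eq.symm
        | exact h2.eq
        | exact h2.eq.symm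
        | exact h3.eq
        | exact h3.eq.symm
        | exact h4.eq
        | exact h4.eq.symm
        | exact h5.eq
        | exact h5.eq.symm
        | exact h6.eq
        | exact h6.eq.symm
  letI : CommRing (Algebra.adjoin R ({A, A', B, B'} : Set E)) :=
    Algebra.adjoinCommRingOfComm R hcomm
  let ι : (Algebra.adjoin R ({A, A', B, B'} : Set E)) →+* E :=
    { toFun := Subtype.val
      map_one' := rfl
      map_mul' := fun _ _ => rfl
      map_zero' := rfl
      map_add' := fun _ _ => rfl }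
  have hι : Function.Injective ι := Subtype.val_injective
  have m1 : A ∈ Algebra.adjoin R ({A, A', B, B'} : Set E) := Algebra.subset_adjoin (by simp)
  have m2 : A' ∈ Algebra.adjoin R ({A, A', B, B'} : Set E) := Algebra.subset_adjoin (by simp)
  have m3 : B ∈ Algebra.adjoin R ({A, A', B, B'} : Set E) := Algebra.subset_adjoin (by simp)
  have m4 : B' ∈ Algebra.adjoin R ({A, A', B, B'} : Set E) := Algebra.subset_adjoin (by simp)
  have i1 : ι ⟨A, m1⟩ = A := rfl
  have i2 : ι ⟨A', m2⟩ = A' := rfl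
  have i3 : ι ⟨B, m3⟩ = B := rfl
  have i4 : ι ⟨B', m4⟩ = B' := rfl
  obtain ⟨W, hW⟩ := sum_unit (m := m) hp hn hpn
    (⟨A, m1⟩ : Algebra.adjoin R ({A, A', B, B'} : Set E)) ⟨A', m2⟩ ⟨B, m3⟩ ⟨B', m4⟩
    (by
      apply hι
      rw [map_pow, map_mul, map_natCast, i1, i2, hA])
    (by
      apply hι
      rw [map_pow, map_mul, map_natCast, i3, i4, hB])
    (by
      apply hι
      rw [map_pow, map_natCast, map_zero, hpm])
  refine ⟨ι (W : Algebra.adjoin R ({A, A', B, B'} : Set E)),
    ι ((W⁻¹ : (Algebra.adjoin R ({A, A', B, B'} : Set E))ˣ) :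
      Algebra.adjoin R ({A, A', B, B'} : Set E)), ?_, ?_⟩
  · rw [← map_mul, Units.inv_mul, map_one]
  · have h := congrArg ι hW
    rw [map_sum, map_mul, map_natCast] at h
    rw [← h]
    apply Finset.sum_congr rfl
    intro i _
    rw [map_mul, map_pow, map_pow, map_add, map_add, map_one, i1, i3]

/-- TARGET -/
theorem pow_eq_iff {p m n : ℕ} (hp : p.Prime) (hm : 1 ≤ m) (hn : 1 ≤ n) (hpn : 2 * n + 1 ≤ p)
    (S T : Matrix (Fin n) (Fin n) (ZMod (p ^ m))) (hS : IsJ p m n S) (hT : IsJ p m n T) :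
    (1 + S) ^ p = (1 + T) ^ p ↔ (p : ZMod (p ^ m)) • (S - T) = 0 := by
  obtain ⟨S', hS1, hS2⟩ := J_pow hp hm S hS
  obtain ⟨T', hT1, hT2⟩ := J_pow hp hm T hT
  have hcl : ∀ X Y : Matrix (Fin n) (Fin n) (ZMod (p ^ m)), Commute X Y →
      Commute (LinearMap.mulLeft (ZMod (p ^ m)) X) (LinearMap.mulLeft (ZMod (p ^ m)) Y) := by
    intro X Y h
    apply LinearMap.ext
    intro x
    simp only [Module.End.mul_apply, LinearMap.mulLeft_apply]
    rw [← mul_assoc, ← mul_assoc, h.eq]
  have hcr : ∀ X Y : Matrix (Fin n) (Fin n) (ZMod (p ^ m)), Commute X Y →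
      Commute (LinearMap.mulRight (ZMod (p ^ m)) X) (LinearMap.mulRight (ZMod (p ^ m)) Y) := by
    intro X Y h
    apply LinearMap.ext
    intro x
    simp only [Module.End.mul_apply, LinearMap.mulRight_apply]
    rw [mul_assoc, mul_assoc, h.eq]
  have hclr : ∀ X Y : Matrix (Fin n) (Fin n) (ZMod (p ^ m)),
      Commute (LinearMap.mulLeft (ZMod (p ^ m)) X) (LinearMap.mulRight (ZMod (p ^ m)) Y) := by
    intro X Y
    apply LinearMap.ext
    intro x
    simp only [Module.End.mul_apply, LinearMap.mulRight_apply, LinearMap.mulLeft_apply]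
    rw [mul_assoc]
  have hpm : (p : Module.End (ZMod (p ^ m)) (Matrix (Fin n) (Fin n) (ZMod (p ^ m)))) ^ m = 0 := by
    apply LinearMap.ext
    intro x
    rw [← Nat.cast_pow, Module.End.natCast_apply, ← Nat.cast_smul_eq_nsmul (ZMod (p ^ m)),
      ZMod.natCast_self, zero_smul, LinearMap.zero_apply]
  obtain ⟨W, W', hWW, hsum⟩ := pei_sum (R := ZMod (p ^ m)) hp hn hpn
    (LinearMap.mulLeft (ZMod (p ^ m)) S) (LinearMap.mulLeft (ZMod (p ^ m)) S')
    (LinearMap.mulRight (ZMod (p ^ m)) T) (LinearMap.mulRight (ZMod (p ^ m)) T')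
    (pei_left S S' hS1) (pei_right T T' hT1) hpm (hcl _ _ hS2) (hcr _ _ hT2)
    (hclr _ _) (hclr _ _) (hclr _ _) (hclr _ _)
  have hu : (1 : Module.End (ZMod (p ^ m)) (Matrix (Fin n) (Fin n) (ZMod (p ^ m)))) +
      LinearMap.mulLeft (ZMod (p ^ m)) S = LinearMap.mulLeft (ZMod (p ^ m)) (1 + S) := by
    apply LinearMap.ext
    intro x
    simp [add_mul]
  have hv : (1 : Module.End (ZMod (p ^ m)) (Matrix (Fin n) (Fin n) (ZMod (p ^ m)))) +
      LinearMap.mulRight (ZMod (p ^ m)) T = LinearMap.mulRight (ZMod (p ^ m)) (1 + T) := by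
    apply LinearMap.ext
    intro x
    simp [mul_add]
  rw [hu, hv] at hsum
  have hgeom := (hclr (1 + S) (1 + T)).geom_sum₂_mul p
  rw [hsum] at hgeom
  have hkey : (1 + S) ^ p - (1 + T) ^ p = W ((p : ZMod (p ^ m)) • (S - T)) := by
    have h := congrArg (fun f : Module.End (ZMod (p ^ m)) (Matrix (Fin n) (Fin n) (ZMod (p ^ m))) =>
      f 1) hgeom
    simp only [LinearMap.pow_mulLeft, LinearMap.pow_mulRight, LinearMap.sub_apply,
      LinearMap.mulLeft_apply, LinearMap.mulRight_apply, Module.End.mul_apply, mul_one, one_mul,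
      Module.End.natCast_apply] at h
    rw [← h, map_smul, Nat.cast_smul_eq_nsmul, add_sub_add_left_eq_sub]
  constructor
  · intro h
    rw [h, sub_self] at hkey
    have h2 := congrArg W' hkey.symm
    rw [← Module.End.mul_apply, hWW, map_zero, Module.End.one_apply] at h2
    exact h2
  · intro h
    rw [h, map_zero] at hkey
    exact sub_eq_zero.1 hkey

end Pool.Agent.Helper431.PN
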