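import Mathlib
import Pool.Agent.Helper431.PN.Base
import Pool.Agent.Helper431.PN.M1
import Pool.Agent.Helper431.PN.M5a

namespace Pool.Agent.Helper431.PN







/-- the additive group of the matrices `IsJ` -/
def isPGroup_PGroup_J (p m n : ℕ) : AddSubgroup (Matrix (Fin n) (Fin n) (ZMod (p ^ m))) where
  carrier := {T | IsJ p m n T}
  add_mem' := by
    intro a b ha hb i j hij
    exact dvd_add (ha i j hij) (hb i j hij)
  zero_mem' := by
    intro i j _
    exact dvd_zero _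
  neg_mem' := by
    intro a ha i j hij
    rw [Matrix.neg_apply]
    exact (dvd_neg).2 (ha i j hij)

theorem isPGroup_PGroup_card_mat (p m n : ℕ) :
    Nat.card (Matrix (Fin n) (Fin n) (ZMod (p ^ m))) = p ^ (m * n * n) := by
  have h1 : Nat.card (Matrix (Fin n) (Fin n) (ZMod (p ^ m))) =
      Nat.card (Fin n → Fin n → ZMod (p ^ m)) := rfl
  rw [h1, Nat.card_fun, Nat.card_fun, Nat.card_zmod, Nat.card_fin, ← pow_mul, ← pow_mul,
    mul_assoc]

theorem isPGroup_PGroup_card {p m n : ℕ} (hp : p.Prime) (hm : 1 ≤ m) :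
    Nat.card (PGroup p m n) = Nat.card (isPGroup_PGroup_J p m n) := by
  refine Nat.card_congr (Equiv.ofBijective
    (fun g : PGroup p m n => (⟨((g : (Matrix (Fin n) (Fin n) (ZMod (p ^ m)))ˣ) :
      Matrix (Fin n) (Fin n) (ZMod (p ^ m))) - 1, (isP_iff p m n _).1 g.2.1⟩ :
        isPGroup_PGroup_J p m n)) ⟨?_, ?_⟩)
  · intro a b hab
    have h1 := congrArg Subtype.val hab
    have h2 : ((a : (Matrix (Fin n) (Fin n) (ZMod (p ^ m)))ˣ) :
        Matrix (Fin n) (Fin n) (ZMod (p ^ m))) =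
        ((b : (Matrix (Fin n) (Fin n) (ZMod (p ^ m)))ˣ) :
        Matrix (Fin n) (Fin n) (ZMod (p ^ m))) := sub_left_injective h1
    exact Subtype.ext (Units.ext h2)
  · rintro ⟨T, hT⟩
    have h1 : IsP p m n (T + 1) := by
      rw [isP_iff, add_sub_cancel_right]
      exact hT
    obtain ⟨g, hg, hgT⟩ := mem_of_isP hp hm (T + 1) h1
    refine ⟨⟨g, hg⟩, Subtype.ext ?_⟩
    show (g : Matrix (Fin n) (Fin n) (ZMod (p ^ m))) - 1 = T
    rw [hgT, add_sub_cancel_right]

/-- TARGET -/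
theorem isPGroup_PGroup {p m n : ℕ} (hp : p.Prime) (hm : 1 ≤ m) :
    IsPGroup p (PGroup p m n) := by
  have h1 : Nat.card (isPGroup_PGroup_J p m n) ∣ p ^ (m * n * n) := by
    rw [← isPGroup_PGroup_card_mat p m n]
    exact AddSubgroup.card_addSubgroup_dvd_card _
  obtain ⟨k, _, hk⟩ := (Nat.dvd_prime_pow hp).1 h1
  exact IsPGroup.of_card (n := k) (by rw [isPGroup_PGroup_card hp hm, hk])

end Pool.Agent.Helper431.PN
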