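import Mathlib
import Pool.Agent.Helper431.PN.Base

namespace Pool.Agent.Helper431.PN

theorem relIndex_bound_card {G : Type} [Group G] [Finite G] (H K : Subgroup G) :
    Nat.card (H ⊓ K : Subgroup G) * H.relIndex K = Nat.card K := by
  have h := Subgroup.relIndex_mul_relIndex ⊥ (H ⊓ K) K bot_le inf_le_right
  rw [Subgroup.relIndex_bot_left, Subgroup.relIndex_bot_left, Subgroup.inf_relIndex_right] at h
  exact h

theorem relIndex_bound_img {G : Type} [Group G] [Finite G] (p : ℕ) (E K' V : Subgroup G)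
    (hE : ∀ a b : G, a ^ p = b ^ p ↔ a⁻¹ * b ∈ E)
    (hV : ∀ v : G, v ∈ V ↔ ∃ k ∈ K', k ^ p = v) : Nat.card V = E.relIndex K' := by
  let φ : K' → V := fun k => ⟨(k : G) ^ p, (hV _).2 ⟨k, k.2, rfl⟩⟩
  have hφ : ∀ a b : K', φ a = φ b ↔ a⁻¹ * b ∈ E.subgroupOf K' := by
    intro a b
    rw [Subgroup.mem_subgroupOf]
    change (⟨(a : G) ^ p, _⟩ : V) = ⟨(b : G) ^ p, _⟩ ↔ ((a : G))⁻¹ * (b : G) ∈ E
    rw [Subtype.mk_eq_mk]
    exact hE a b
  let g : K' ⧸ E.subgroupOf K' → V := Quotient.lift φ fun a b h =>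
    (hφ a b).2 (QuotientGroup.leftRel_apply.1 h)
  have hg : Function.Bijective g := by
    constructor
    · rintro ⟨a⟩ ⟨b⟩ h
      exact Quotient.sound (QuotientGroup.leftRel_apply.2 ((hφ a b).1 h))
    · rintro ⟨v, hv⟩
      obtain ⟨k, hk, hkv⟩ := (hV v).1 hv
      exact ⟨Quotient.mk _ ⟨k, hk⟩, Subtype.ext hkv⟩
  exact (Nat.card_congr (Equiv.ofBijective g hg)).symm

/-- TARGET -/
theorem relIndex_bound {G : Type} [Group G] [Finite G] (p : ℕ) (E C1 K U : Subgroup G) (z : G)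
    (hE : ∀ a b : G, a ^ p = b ^ p ↔ a⁻¹ * b ∈ E)
    (hC1 : ∀ g : G, g ∈ C1 ↔ z * g ^ p = g ^ p * z)
    (hU : ∀ u : G, u ∈ U ↔ ∃ k ∈ K, k ^ p = u) :
    ((Subgroup.centralizer ({z} : Set G) ⊓ K) ⊔ U).relIndex K ≤
      (Subgroup.centralizer ({z} : Set G)).relIndex C1 := by
  obtain ⟨C, hCdef⟩ : ∃ C, C = Subgroup.centralizer ({z} : Set G) := ⟨_, rfl⟩
  rw [← hCdef]
  have hC : ∀ g : G, g ∈ C ↔ z * g = g * z := by
    intro g
    rw [hCdef, Subgroup.mem_centralizer_iff]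
    constructor
    · intro h
      exact h z (Set.mem_singleton z)
    · intro h y hy
      rw [Set.mem_singleton_iff.1 hy]
      exact h
  have hUK : U ≤ K := by
    intro u hu
    obtain ⟨k, hk, rfl⟩ := (hU u).1 hu
    exact K.pow_mem hk p
  have hCC1 : C ≤ C1 := by
    intro g hg
    rw [hC1]
    exact (hC _).1 (C.pow_mem hg p)
  have hEC1 : E ≤ C1 := by
    intro g hg
    rw [hC1]
    have h1 : (1 : G) ^ p = g ^ p := (hE 1 g).2 (by simpa using hg)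
    rw [← h1, one_pow, mul_one, one_mul]
  obtain ⟨A, hA⟩ : ∃ A, A = C ⊓ K := ⟨_, rfl⟩
  rw [← hA]
  have hAK : A ≤ K := hA ▸ inf_le_right
  have hSK : A ⊔ U ≤ K := sup_le hAK hUK
  -- `C ⊓ U` is the set of `p`-th powers of `K ⊓ C1`
  have hV : ∀ v : G, v ∈ A ⊓ U ↔ ∃ k ∈ K ⊓ C1, k ^ p = v := by
    intro v
    constructor
    · rintro ⟨h1, h2⟩
      obtain ⟨k, hk, rfl⟩ := (hU v).1 h2
      rw [hA] at h1
      exact ⟨k, ⟨hk, (hC1 k).2 ((hC _).1 h1.1)⟩, rfl⟩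
    · rintro ⟨k, ⟨hk, hk1⟩, rfl⟩
      refine ⟨?_, (hU _).2 ⟨k, hk, rfl⟩⟩
      rw [hA]
      exact ⟨(hC _).2 ((hC1 k).1 hk1), K.pow_mem hk p⟩
  have e1 : Nat.card U = E.relIndex K := relIndex_bound_img p E K U hE hU
  have e2 : Nat.card (A ⊓ U : Subgroup G) = E.relIndex (K ⊓ C1) :=
    relIndex_bound_img p E (K ⊓ C1) (A ⊓ U) hE hV
  have c1 := relIndex_bound_card E K
  have c2 := relIndex_bound_card E (K ⊓ C1)
  have hEK : E ⊓ (K ⊓ C1) = E ⊓ K := by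
    rw [← inf_assoc, inf_eq_left]
    exact inf_le_left.trans hEC1
  rw [hEK, ← e2] at c2
  rw [← e1] at c1
  have c3 := relIndex_bound_card (A ⊔ U) K
  rw [inf_eq_left.2 hSK] at c3
  have c4 := relIndex_bound_card U A
  have c5 := relIndex_bound_card U (A ⊔ U)
  rw [inf_eq_left.2 (le_sup_right : U ≤ A ⊔ U)] at c5
  have c6 : U.relIndex A ≤ U.relIndex (A ⊔ U) :=
    Subgroup.relIndex_le_of_le_right le_sup_left (by
      intro h0
      rw [h0, mul_zero] at c5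
      exact Nat.card_pos.ne c5)
  have c7 := relIndex_bound_card C (K ⊓ C1)
  have hCK : C ⊓ (K ⊓ C1) = A := by
    rw [hA, ← inf_assoc, inf_eq_left]
    exact inf_le_left.trans hCC1
  rw [hCK] at c7
  have c8 : C.relIndex (K ⊓ C1) ≤ C.relIndex C1 :=
    Subgroup.relIndex_le_of_le_right inf_le_right (by
      intro h0
      have c9 := relIndex_bound_card C C1
      rw [h0, mul_zero] at c9
      exact Nat.card_pos.ne c9)
  refine le_trans ?_ c8
  rw [inf_comm U A] at c4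
  have p1 : 0 < Nat.card (A ⊔ U : Subgroup G) := Nat.card_pos
  have p2 : 0 < Nat.card (A ⊓ U : Subgroup G) := Nat.card_pos
  obtain ⟨s, hs⟩ : ∃ s, s = Nat.card (A ⊔ U : Subgroup G) := ⟨_, rfl⟩
  obtain ⟨i, hi⟩ : ∃ i, i = Nat.card (A ⊓ U : Subgroup G) := ⟨_, rfl⟩
  obtain ⟨u, hu⟩ : ∃ u, u = Nat.card U := ⟨_, rfl⟩
  obtain ⟨a, ha⟩ : ∃ a, a = Nat.card A := ⟨_, rfl⟩
  obtain ⟨e, he⟩ : ∃ e, e = Nat.card (E ⊓ K : Subgroup G) := ⟨_, rfl⟩
  rw [← hs] at p1 c3 c5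
  rw [← hi] at p2 c2 c4
  rw [← hu] at c1 c5
  rw [← ha] at c4 c7
  rw [← he] at c1 c2
  have q1 : a * u ≤ s * i := by
    rw [← c4, ← c5]
    calc i * U.relIndex A * u = U.relIndex A * (i * u) := by ring
      _ ≤ U.relIndex (A ⊔ U) * (i * u) := Nat.mul_le_mul_right _ c6
      _ = u * U.relIndex (A ⊔ U) * i := by ring
  have q2 : (s * i) * (A ⊔ U).relIndex K ≤ (s * i) * C.relIndex (K ⊓ C1) := by
    calc (s * i) * (A ⊔ U).relIndex K = i * (s * (A ⊔ U).relIndex K) := by ring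
      _ = i * (e * u) := by rw [c3, c1]
      _ = (e * i) * u := by ring
      _ = (a * C.relIndex (K ⊓ C1)) * u := by rw [c2, c7]
      _ = (a * u) * C.relIndex (K ⊓ C1) := by ring
      _ ≤ (s * i) * C.relIndex (K ⊓ C1) := Nat.mul_le_mul_right _ q1
  exact Nat.le_of_mul_le_mul_left q2 (Nat.mul_pos p1 p2)

end Pool.Agent.Helper431.PN
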