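import Mathlib
import Pool.Agent.Helper431.PN.Base

namespace Pool.Agent.Helper431.PN

/-- the shift matrix -/
private def shiftN (R : Type) [Zero R] [One R] (n : ℕ) : Matrix (Fin n) (Fin n) R :=
  fun i j => if (j : ℕ) = (i : ℕ) + 1 then 1 else 0

private theorem shiftN_pow (n k : ℕ) (i j : Fin n) :
    ((shiftN ℝ n) ^ k) i j = if (j : ℕ) = (i : ℕ) + k then 1 else 0 := by
  induction k generalizing j with
  | zero =>
    rw [pow_zero, Matrix.one_apply, add_zero]
    by_cases h : i = j
    · rw [if_pos h, if_pos (by rw [h])]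
    · rw [if_neg h, if_neg (fun h2 => h (Fin.ext h2.symm))]
  | succ k ih =>
    rw [pow_succ, Matrix.mul_apply]
    simp only [ih]
    by_cases hlt : (i : ℕ) + k < n
    · rw [Finset.sum_eq_single (⟨(i : ℕ) + k, hlt⟩ : Fin n)]
      · simp only [shiftN, if_true, one_mul]
        rw [add_assoc]
      · intro b _ hb
        rw [if_neg (fun h => hb (Fin.ext h)), zero_mul]
      · intro h
        exact absurd (Finset.mem_univ _) h
    · have hj := j.2
      rw [if_neg (by omega)]
      refine Finset.sum_eq_zero fun b _ => ?_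
      have hb := b.2
      rw [if_neg (by omega), zero_mul]

open Matrix in
private theorem exists_lift_aux {q n : ℕ} (hq0 : 0 < q) (hn : 1 ≤ n)
    (z : Matrix (Fin n) (Fin n) (ZMod q)) :
    ∃ Z : Matrix (Fin n) (Fin n) ℤ, Z.map (Int.castRingHom (ZMod q)) = z ∧
      LinearIndependent ℤ (fun k : Fin n => Z ^ (k : ℕ)) := by
  classical
  choose Z0 hZ0 using fun i j => ZMod.intCast_surjective (n := q) (z i j)
  let i0 : Fin n := ⟨0, hn⟩
  set Zr : Matrix (Fin n) (Fin n) ℝ := fun i j => (Z0 i j : ℝ) with hZr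
  let W : ℝ → Matrix (Fin n) (Fin n) ℝ := fun ε k j => ((shiftN ℝ n + ε • Zr) ^ (k : ℕ)) i0 j
  have hW0 : (W 0).det = 1 := by
    have : W 0 = 1 := by
      funext k j
      show ((shiftN ℝ n + (0 : ℝ) • Zr) ^ (k : ℕ)) i0 j = _
      rw [zero_smul, add_zero, shiftN_pow, Matrix.one_apply]
      by_cases h : k = j
      · rw [if_pos h, if_pos]
        rw [h]
        simp [i0]
      · rw [if_neg h, if_neg]
        intro h2
        apply h
        apply Fin.ext
        simp only [i0, zero_add] at h2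
        exact h2.symm
    rw [this, Matrix.det_one]
  have hcont : Continuous fun ε : ℝ => (W ε).det := by
    apply Continuous.matrix_det
    apply continuous_matrix
    intro k j
    have h1 : Continuous fun ε : ℝ => (shiftN ℝ n + ε • Zr) ^ (k : ℕ) := by
      apply Continuous.pow
      fun_prop
    exact h1.matrix_elem i0 j
  have hev : ∀ᶠ ε in nhds (0 : ℝ), (W ε).det ≠ 0 := by
    have := hcont.tendsto 0
    rw [hW0] at this
    exact this.eventually (isOpen_ne.mem_nhds one_ne_zero)
  have htend : Filter.Tendsto (fun t : ℕ => 1 / (((t + 1 : ℕ) * q : ℕ) : ℝ)) Filter.atTop (nhds 0) := by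
    have h1 : Filter.Tendsto (fun t : ℕ => (((t + 1 : ℕ) * q : ℕ) : ℝ)) Filter.atTop Filter.atTop := by
      apply tendsto_natCast_atTop_atTop.comp
      apply Filter.tendsto_atTop_mono (f := fun t : ℕ => t)
      · intro t
        nlinarith
      · exact Filter.tendsto_id
    refine h1.inv_tendsto_atTop.congr fun t => ?_
    simp only [Pi.inv_apply, one_div]
  obtain ⟨t, ht⟩ := (htend.eventually hev).exists
  set s : ℕ := (t + 1) * q with hs
  have hs0 : 0 < s := by positivity
  have hsr : (0 : ℝ) < s := by exact_mod_cast hs0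
  let Z : Matrix (Fin n) (Fin n) ℤ := fun i j => Z0 i j + (s : ℤ) * (if (j : ℕ) = (i : ℕ) + 1 then 1 else 0)
  refine ⟨Z, ?_, ?_⟩
  · ext i j
    show ((Z0 i j + (s : ℤ) * (if (j : ℕ) = (i : ℕ) + 1 then 1 else 0) : ℤ) : ZMod q) = z i j
    have hsz : ((s : ℤ) : ZMod q) = 0 := by
      rw [Int.cast_natCast, hs, Nat.cast_mul, ZMod.natCast_self, mul_zero]
    rw [Int.cast_add, Int.cast_mul, hsz, zero_mul, add_zero]
    exact hZ0 i j
  · have hZmap : Z.map (Int.castRingHom ℝ) = (s : ℝ) • (shiftN ℝ n + (1 / (s : ℝ)) • Zr) := by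
      ext i j
      simp only [Matrix.map_apply, Matrix.smul_apply, Matrix.add_apply, smul_eq_mul]
      show ((Z0 i j + (s : ℤ) * (if (j : ℕ) = (i : ℕ) + 1 then 1 else 0) : ℤ) : ℝ) =
        (s : ℝ) * ((if (j : ℕ) = (i : ℕ) + 1 then 1 else 0) + 1 / (s : ℝ) * (Z0 i j : ℝ))
      push_cast
      field_simp
      ring
    rw [Fintype.linearIndependent_iff]
    intro g hg
    have h1 : ∑ k : Fin n, (g k : ℝ) • (Z.map (Int.castRingHom ℝ)) ^ (k : ℕ) = 0 := by
      have h2 := congrArg (fun M : Matrix (Fin n) (Fin n) ℤ => (Int.castRingHom ℝ).mapMatrix M) hg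
      simp only [map_sum, map_zero] at h2
      rw [← h2]
      refine Finset.sum_congr rfl fun k _ => ?_
      rw [zsmul_eq_mul, map_mul, map_intCast, map_pow]
      rw [← zsmul_eq_mul]
      ext i j
      simp [Matrix.smul_apply]
    have h3 : (fun k : Fin n => (g k : ℝ) * (s : ℝ) ^ (k : ℕ)) ᵥ* (W (1 / (s : ℝ))) = 0 := by
      funext j
      have h4 := congrFun (congrFun h1 i0) j
      rw [Matrix.sum_apply] at h4
      rw [Matrix.vecMul, dotProduct]
      rw [Pi.zero_apply]
      rw [Matrix.zero_apply] at h4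
      rw [← h4]
      refine Finset.sum_congr rfl fun k _ => ?_
      rw [hZmap, smul_pow, Matrix.smul_apply, Matrix.smul_apply, smul_eq_mul, smul_eq_mul]
      show (g k : ℝ) * (s : ℝ) ^ (k : ℕ) * ((shiftN ℝ n + (1 / (s : ℝ)) • Zr) ^ (k : ℕ)) i0 j = _
      ring
    have h5 := Matrix.eq_zero_of_vecMul_eq_zero ht h3
    intro k
    have h6 := congrFun h5 k
    rw [Pi.zero_apply] at h6
    have h7 : (g k : ℝ) = 0 := by
      rcases mul_eq_zero.1 h6 with h | h
      · exact h
      · exact absurd h (pow_pos hsr _).ne'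
    exact_mod_cast h7

/-- TARGET -/
theorem exists_lift {p m n : ℕ} (hp : p.Prime) (hm : 1 ≤ m) (hn : 1 ≤ n)
    (z : Matrix (Fin n) (Fin n) (ZMod (p ^ m))) :
    ∃ Z : Matrix (Fin n) (Fin n) ℤ, Z.map (Int.castRingHom (ZMod (p ^ m))) = z ∧
      LinearIndependent ℤ (fun k : Fin n => Z ^ (k : ℕ)) :=
  exists_lift_aux (pow_pos hp.pos m) hn z

end Pool.Agent.Helper431.PN
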