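import Mathlib
import Pool.Agent.Helper431.PN.Base

namespace Pool.Agent.Helper431.PN

/-- TARGET -/
theorem exists_basis {n : ℕ} (Z : Matrix (Fin n) (Fin n) ℤ)
    (hZ : LinearIndependent ℤ (fun k : Fin n => Z ^ (k : ℕ))) :
    ∃ (b : Module.Basis (Fin n × Fin n) ℤ (Matrix (Fin n) (Fin n) ℤ))
      (f : Fin n ↪ Fin n × Fin n), ∀ k, Z * b (f k) = b (f k) * Z := by
  obtain ⟨r, snf⟩ := Submodule.smithNormalForm (Matrix.stdBasis ℤ (Fin n) (Fin n))
    (Submodule.span ℤ (Set.range (fun k : Fin n => Z ^ (k : ℕ))))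
  have hr : r = n := by
    have h1 := Module.finrank_eq_card_basis snf.bN
    have h2 := finrank_span_eq_card hZ
    rw [Fintype.card_fin] at h1 h2
    rw [h1] at h2
    exact h2
  subst hr
  refine ⟨snf.bM, snf.f, fun k => ?_⟩
  have hcomm : ∀ x ∈ Submodule.span ℤ (Set.range (fun k : Fin r => Z ^ (k : ℕ))),
      Z * x = x * Z := by
    intro x hx
    induction hx using Submodule.span_induction with
    | mem x hx =>
      obtain ⟨j, rfl⟩ := hx
      exact (pow_succ' Z (j : ℕ)).symm.trans (pow_succ Z (j : ℕ))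
    | zero => rw [mul_zero, zero_mul]
    | add x y _ _ hx hy => rw [mul_add, add_mul, hx, hy]
    | smul a x _ hx => rw [mul_smul_comm, smul_mul_assoc, hx]
  have hk := hcomm _ (snf.bN k).2
  rw [snf.snf k, mul_smul_comm, smul_mul_assoc] at hk
  have ha : snf.a k ≠ 0 := by
    intro h0
    have h1 := snf.snf k
    rw [h0, zero_smul] at h1
    have h2 : snf.bN k = 0 := Subtype.ext h1
    exact snf.bN.ne_zero k h2
  exact smul_right_injective _ ha hk

end Pool.Agent.Helper431.PN
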