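import Mathlib
import Pool.Agent.Helper431.PN.Base
import Pool.Agent.Helper431.PN.M4a
import Pool.Agent.Helper431.PN.M4b

namespace Pool.Agent.Helper431.PN



/-- TARGET -/
theorem centralizer_count {p m n : ℕ} (hp : p.Prime) (hm : 1 ≤ m) (hn : 1 ≤ n)
    (z : Matrix (Fin n) (Fin n) (ZMod (p ^ m))) :
    Nat.card {T : Matrix (Fin n) (Fin n) (ZMod (p ^ m)) //
        (p : ZMod (p ^ m)) • (z * T - T * z) = 0} ≤
      p ^ (n ^ 2 - n) *
      Nat.card {T : Matrix (Fin n) (Fin n) (ZMod (p ^ m)) // z * T = T * z} := by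
  classical
  have hne : NeZero (p ^ m) := ⟨pow_ne_zero _ hp.ne_zero⟩
  have hp0 : 0 < p := hp.pos
  obtain ⟨Z, hZz, hZ⟩ := exists_lift hp hm hn z
  obtain ⟨b, f, hf⟩ := exists_basis Z hZ
  let φ : Matrix (Fin n) (Fin n) (ZMod (p ^ m)) →+ Matrix (Fin n) (Fin n) (ZMod (p ^ m)) :=
    AddMonoidHom.mk' (fun T => z * T - T * z) (fun a c => by rw [mul_add, add_mul]; abel)
  let ψ : Matrix (Fin n) (Fin n) (ZMod (p ^ m)) →+ Matrix (Fin n) (Fin n) (ZMod (p ^ m)) :=
    AddMonoidHom.mk' (fun T => (p : ZMod (p ^ m)) • (z * T - T * z)) (fun a c => by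
      rw [← smul_add]; congr 1; rw [mul_add, add_mul]; abel)
  have hφ : ∀ T, φ T = z * T - T * z := fun T => rfl
  have hψ : ∀ T, ψ T = (p : ZMod (p ^ m)) • φ T := fun T => rfl
  let red : Matrix (Fin n) (Fin n) ℤ →+ Matrix (Fin n) (Fin n) (ZMod (p ^ m)) :=
    ((Int.castRingHom (ZMod (p ^ m))).mapMatrix : Matrix (Fin n) (Fin n) ℤ →+*
      Matrix (Fin n) (Fin n) (ZMod (p ^ m))).toAddMonoidHom
  have hredmul : ∀ A B : Matrix (Fin n) (Fin n) ℤ, red (A * B) = red A * red B := fun A B =>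
    map_mul ((Int.castRingHom (ZMod (p ^ m))).mapMatrix : Matrix (Fin n) (Fin n) ℤ →+*
      Matrix (Fin n) (Fin n) (ZMod (p ^ m))) A B
  have hredZ : red Z = z := hZz
  have hf0 : ∀ k, φ (red (b (f k))) = 0 := by
    intro k
    rw [hφ, ← hredZ, ← hredmul, ← hredmul, hf k, sub_self]
  have hredsurj : Function.Surjective red := by
    intro T
    refine ⟨T.map (fun x => (x.val : ℤ)), ?_⟩
    ext i j
    show ((((T i j).val : ℕ) : ℤ) : ZMod (p ^ m)) = T i j
    rw [Int.cast_natCast, ZMod.natCast_zmod_val]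
  let J := {i : Fin n × Fin n // ¬ (i ∈ Set.range f)}
  have hJcard : Fintype.card J = n ^ 2 - n := by
    have h1 : Fintype.card {i : Fin n × Fin n // ¬ (i ∈ Set.range f)} =
        Fintype.card (Fin n × Fin n) - Fintype.card {i : Fin n × Fin n // i ∈ Set.range f} :=
      Fintype.card_subtype_compl _
    have h2 : Fintype.card {i : Fin n × Fin n // i ∈ Set.range f} = n := by
      have := Fintype.card_congr (Equiv.ofInjective f f.injective)
      rw [Fintype.card_fin] at this
      exact this.symm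
    show Fintype.card {i : Fin n × Fin n // ¬ (i ∈ Set.range f)} = n ^ 2 - n
    rw [h1, h2, Fintype.card_prod, Fintype.card_fin, sq]
  -- the key surjection
  have hkey : ∀ y : φ.range, ∃ sc : (J → Fin p) × ψ.range,
      (y : Matrix (Fin n) (Fin n) (ZMod (p ^ m))) =
        ∑ i : J, ((sc.1 i : ℕ) : ℤ) • φ (red (b i.1)) + sc.2 := by
    rintro ⟨y, T, rfl⟩
    obtain ⟨T', rfl⟩ := hredsurj T
    have h1 : φ (red T') = ∑ i : Fin n × Fin n, (b.repr T' i) • φ (red (b i)) := by
      conv_lhs => rw [← b.sum_repr T']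
      rw [map_sum, map_sum]
      apply Finset.sum_congr rfl
      intro i _
      rw [map_zsmul, map_zsmul]
    have h2 : ∑ i : Fin n × Fin n, (b.repr T' i) • φ (red (b i)) =
        ∑ i : J, (b.repr T' i.1) • φ (red (b i.1)) := by
      rw [← Fintype.sum_subtype_add_sum_subtype (fun i => i ∈ Set.range f)
        (fun i => (b.repr T' i) • φ (red (b i)))]
      refine (congrArg₂ (· + ·) (Finset.sum_eq_zero ?_) rfl).trans (zero_add _)
      rintro ⟨i, k, rfl⟩ _
      rw [hf0, smul_zero]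
    have hpz : (0 : ℤ) < p := by exact_mod_cast hp0
    refine ⟨(fun i => ⟨((b.repr T' i.1) % p).toNat, ?_⟩,
      ⟨ψ (∑ i : J, (b.repr T' i.1 / (p : ℤ)) • red (b i.1)), _, rfl⟩), ?_⟩
    · have h4 := Int.emod_lt_of_pos (b.repr T' i.1) hpz
      have h5 := Int.emod_nonneg (b.repr T' i.1) hpz.ne'
      omega
    · show φ (red T') = ∑ i : J, ((((b.repr T' i.1) % p).toNat : ℕ) : ℤ) • φ (red (b i.1)) +
        ψ (∑ i : J, (b.repr T' i.1 / (p : ℤ)) • red (b i.1))
      rw [h1, h2, hψ, map_sum, Finset.smul_sum, ← Finset.sum_add_distrib]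
      apply Finset.sum_congr rfl
      intro i _
      have h5 := Int.emod_nonneg (b.repr T' i.1) hpz.ne'
      rw [Int.toNat_of_nonneg h5, map_zsmul]
      have h6 : (p : ZMod (p ^ m)) • ((b.repr T' i.1 / (p : ℤ)) • φ (red (b i.1))) =
          ((p : ℤ) * (b.repr T' i.1 / (p : ℤ))) • φ (red (b i.1)) := by
        rw [mul_smul]
        generalize (b.repr T' i.1 / (p : ℤ)) • φ (red (b i.1)) = w
        rw [← Int.cast_smul_eq_zsmul (ZMod (p ^ m)) (p : ℤ) w, Int.cast_natCast]
      rw [h6, ← add_smul, Int.emod_add_mul_ediv]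
  choose G hG using hkey
  have hGinj : Function.Injective G := by
    intro y y' h
    apply Subtype.ext
    rw [hG y, hG y', h]
  have hcard : Nat.card φ.range ≤ p ^ (n ^ 2 - n) * Nat.card ψ.range := by
    have h1 := Nat.card_le_card_of_injective G hGinj
    rw [Nat.card_prod, Nat.card_fun, Nat.card_eq_fintype_card (α := Fin p), Fintype.card_fin,
      Nat.card_eq_fintype_card (α := J), hJcard] at h1
    exact h1
  have hk1 : Nat.card φ.ker * Nat.card φ.range =
      Nat.card (Matrix (Fin n) (Fin n) (ZMod (p ^ m))) := by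
    rw [← AddSubgroup.index_ker, AddSubgroup.card_mul_index]
  have hk2 : Nat.card ψ.ker * Nat.card ψ.range =
      Nat.card (Matrix (Fin n) (Fin n) (ZMod (p ^ m))) := by
    rw [← AddSubgroup.index_ker, AddSubgroup.card_mul_index]
  have hpos : 0 < Nat.card ψ.range := Nat.card_pos
  have hmain : Nat.card ψ.ker ≤ p ^ (n ^ 2 - n) * Nat.card φ.ker := by
    apply Nat.le_of_mul_le_mul_right _ hpos
    rw [hk2, ← hk1]
    calc Nat.card φ.ker * Nat.card φ.range ≤
        Nat.card φ.ker * (p ^ (n ^ 2 - n) * Nat.card ψ.range) := Nat.mul_le_mul_left _ hcard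
      _ = p ^ (n ^ 2 - n) * Nat.card φ.ker * Nat.card ψ.range := by ring
  have e1 : Nat.card {T : Matrix (Fin n) (Fin n) (ZMod (p ^ m)) //
        (p : ZMod (p ^ m)) • (z * T - T * z) = 0} = Nat.card ψ.ker := rfl
  have e2 : Nat.card {T : Matrix (Fin n) (Fin n) (ZMod (p ^ m)) // z * T = T * z} =
      Nat.card φ.ker := by
    apply Nat.card_congr
    apply Equiv.subtypeEquivRight
    intro T
    rw [AddMonoidHom.mem_ker, hφ, sub_eq_zero]
  rw [e1, e2]
  exact hmain

end Pool.Agent.Helper431.PN
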