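import Mathlib
import Pool.Agent.Helper431.PN.Base
import Pool.Agent.Helper431.PN.M4
import Pool.Agent.Helper431.PN.M5a

namespace Pool.Agent.Helper431.PN







/-- the additive subgroup of the matrices satisfying IsJ -/
def relIndex_C1_J (p m n : ℕ) : AddSubgroup (Matrix (Fin n) (Fin n) (ZMod (p ^ m))) where
  carrier := {T | IsJ p m n T}
  zero_mem' := fun i j _ => by simp
  add_mem' := by
    intro a b ha hb i j hij
    rw [Matrix.add_apply]
    exact dvd_add (ha i j hij) (hb i j hij)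
  neg_mem' := by
    intro a ha i j hij
    rw [Matrix.neg_apply]
    exact (dvd_neg).2 (ha i j hij)

theorem relIndex_C1_card {p m n : ℕ} (hp : p.Prime) (hm : 1 ≤ m)
    (S : Subgroup (PGroup p m n)) (T : AddSubgroup (Matrix (Fin n) (Fin n) (ZMod (p ^ m))))
    (h : ∀ g : PGroup p m n, g ∈ S ↔
      ((g : (Matrix (Fin n) (Fin n) (ZMod (p ^ m)))ˣ) : Matrix (Fin n) (Fin n) (ZMod (p ^ m))) - 1
        ∈ T) :
    Nat.card S = Nat.card (relIndex_C1_J p m n ⊓ T : AddSubgroup _) := by
  refine Nat.card_congr (Equiv.ofBijective (fun g : S =>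
    (⟨(((g : PGroup p m n) : (Matrix (Fin n) (Fin n) (ZMod (p ^ m)))ˣ) :
      Matrix (Fin n) (Fin n) (ZMod (p ^ m))) - 1, ?_, (h g).1 g.2⟩ :
      (relIndex_C1_J p m n ⊓ T : AddSubgroup _))) ⟨?_, ?_⟩)
  · exact (isP_iff p m n _).1 (g : PGroup p m n).2.1
  · intro g g' hgg
    have h1 := congrArg Subtype.val hgg
    simp only [sub_left_inj] at h1
    exact Subtype.ext (Subtype.ext (Units.ext h1))
  · rintro ⟨A, hA1, hA2⟩
    have hA3 : IsP p m n (A + 1) := by
      rw [isP_iff, add_sub_cancel_right]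
      exact hA1
    obtain ⟨g, hg, hgA⟩ := mem_of_isP hp hm (A + 1) hA3
    refine ⟨⟨⟨g, hg⟩, ?_⟩, ?_⟩
    · rw [h]
      show (g : Matrix (Fin n) (Fin n) (ZMod (p ^ m))) - 1 ∈ T
      rw [hgA, add_sub_cancel_right]
      exact hA2
    · apply Subtype.ext
      show (g : Matrix (Fin n) (Fin n) (ZMod (p ^ m))) - 1 = A
      rw [hgA, add_sub_cancel_right]

/-- TARGET -/
theorem relIndex_C1 {p m n : ℕ} (hp : p.Prime) (hm : 1 ≤ m) (hn : 1 ≤ n)
    (z : PGroup p m n) (C1 : Subgroup (PGroup p m n))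
    (hC1 : ∀ g : PGroup p m n, g ∈ C1 ↔ (p : ZMod (p ^ m)) •
      (((z : (Matrix (Fin n) (Fin n) (ZMod (p ^ m)))ˣ) : Matrix (Fin n) (Fin n) (ZMod (p ^ m))) *
        ((g : (Matrix (Fin n) (Fin n) (ZMod (p ^ m)))ˣ) : Matrix (Fin n) (Fin n) (ZMod (p ^ m))) -
       ((g : (Matrix (Fin n) (Fin n) (ZMod (p ^ m)))ˣ) : Matrix (Fin n) (Fin n) (ZMod (p ^ m))) *
        ((z : (Matrix (Fin n) (Fin n) (ZMod (p ^ m)))ˣ) : Matrix (Fin n) (Fin n) (ZMod (p ^ m)))) = 0) :
    (Subgroup.centralizer ({z} : Set (PGroup p m n))).relIndex C1 ≤ p ^ (n ^ 2 - n) := by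
  have : NeZero (p ^ m) := ⟨pow_ne_zero _ hp.ne_zero⟩
  obtain ⟨zm, hzm⟩ : ∃ zm : Matrix (Fin n) (Fin n) (ZMod (p ^ m)),
    zm = ((z : (Matrix (Fin n) (Fin n) (ZMod (p ^ m)))ˣ) : Matrix (Fin n) (Fin n) (ZMod (p ^ m))) :=
    ⟨_, rfl⟩
  let Z1 : AddSubgroup (Matrix (Fin n) (Fin n) (ZMod (p ^ m))) :=
    { carrier := {T | (p : ZMod (p ^ m)) • (zm * T - T * zm) = 0}
      zero_mem' := by simp
      add_mem' := by
        intro a b ha hb
        have ha' : (p : ZMod (p ^ m)) • (zm * a - a * zm) = 0 := ha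
        have hb' : (p : ZMod (p ^ m)) • (zm * b - b * zm) = 0 := hb
        show (p : ZMod (p ^ m)) • (zm * (a + b) - (a + b) * zm) = 0
        have : zm * (a + b) - (a + b) * zm = (zm * a - a * zm) + (zm * b - b * zm) := by
          rw [mul_add, add_mul]; abel
        rw [this, smul_add, ha', hb', add_zero]
      neg_mem' := by
        intro a ha
        have ha' : (p : ZMod (p ^ m)) • (zm * a - a * zm) = 0 := ha
        show (p : ZMod (p ^ m)) • (zm * (-a) - (-a) * zm) = 0
        have : zm * (-a) - (-a) * zm = -(zm * a - a * zm) := by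
          rw [mul_neg, neg_mul]; abel
        rw [this, smul_neg, ha', neg_zero] }
  let Z0 : AddSubgroup (Matrix (Fin n) (Fin n) (ZMod (p ^ m))) :=
    { carrier := {T | zm * T = T * zm}
      zero_mem' := by simp
      add_mem' := by
        intro a b ha hb
        have ha' : zm * a = a * zm := ha
        have hb' : zm * b = b * zm := hb
        show zm * (a + b) = (a + b) * zm
        rw [mul_add, add_mul, ha', hb']
      neg_mem' := by
        intro a ha
        have ha' : zm * a = a * zm := ha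
        show zm * (-a) = (-a) * zm
        rw [mul_neg, neg_mul, ha'] }
  have hZ01 : Z0 ≤ Z1 := by
    intro a ha
    have ha' : zm * a = a * zm := ha
    show (p : ZMod (p ^ m)) • (zm * a - a * zm) = 0
    rw [ha', sub_self, smul_zero]
  have hsub : ∀ A : Matrix (Fin n) (Fin n) (ZMod (p ^ m)),
      zm * (A - 1) - (A - 1) * zm = zm * A - A * zm := by
    intro A
    rw [mul_sub, sub_mul, mul_one, one_mul]; abel
  have hc1 := relIndex_C1_card hp hm C1 Z1 (fun g => by
    rw [hC1 g, ← hzm, ← hsub]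
    rfl)
  have hc0 := relIndex_C1_card hp hm (Subgroup.centralizer ({z} : Set (PGroup p m n))) Z0
    (fun g => by
      rw [Subgroup.mem_centralizer_singleton_iff]
      constructor
      · intro hg
        show zm * (_ - 1) = (_ - 1) * zm
        rw [← sub_eq_zero, hsub, hzm, sub_eq_zero]
        have := congrArg (fun x : PGroup p m n =>
          ((x : (Matrix (Fin n) (Fin n) (ZMod (p ^ m)))ˣ) :
            Matrix (Fin n) (Fin n) (ZMod (p ^ m)))) hg
        simpa using this.symm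
      · intro hg
        have hg' : zm * (((g : (Matrix (Fin n) (Fin n) (ZMod (p ^ m)))ˣ) :
            Matrix (Fin n) (Fin n) (ZMod (p ^ m))) - 1) =
            (((g : (Matrix (Fin n) (Fin n) (ZMod (p ^ m)))ˣ) :
            Matrix (Fin n) (Fin n) (ZMod (p ^ m))) - 1) * zm := hg
        rw [← sub_eq_zero, hsub, hzm, sub_eq_zero] at hg'
        apply Subtype.ext
        apply Units.ext
        simpa using hg'.symm)
  have hCC : Subgroup.centralizer ({z} : Set (PGroup p m n)) ≤ C1 := by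
    intro g hg
    rw [Subgroup.mem_centralizer_singleton_iff] at hg
    rw [hC1]
    have := congrArg (fun x : PGroup p m n =>
          ((x : (Matrix (Fin n) (Fin n) (ZMod (p ^ m)))ˣ) :
            Matrix (Fin n) (Fin n) (ZMod (p ^ m)))) hg
    simp only [Subgroup.coe_mul, Units.val_mul] at this
    rw [← this, sub_self, smul_zero]
  have e1 : Nat.card (Subgroup.centralizer ({z} : Set (PGroup p m n))) *
      (Subgroup.centralizer ({z} : Set (PGroup p m n))).relIndex C1 = Nat.card C1 := by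
    rw [← Subgroup.relIndex_bot_left, ← Subgroup.relIndex_bot_left]
    exact Subgroup.relIndex_mul_relIndex _ _ _ bot_le hCC
  set J := relIndex_C1_J p m n with hJ
  have hJle : J ⊓ Z0 ≤ J ⊓ Z1 := inf_le_inf_left _ hZ01
  have e2 : Nat.card (J ⊓ Z0 : AddSubgroup _) * (J ⊓ Z0).relIndex (J ⊓ Z1)
      = Nat.card (J ⊓ Z1 : AddSubgroup _) := by
    rw [← AddSubgroup.relIndex_bot_left, ← AddSubgroup.relIndex_bot_left]
    exact AddSubgroup.relIndex_mul_relIndex _ _ _ bot_le hJle
  have e3 : Nat.card Z0 * Z0.relIndex Z1 = Nat.card Z1 := by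
    rw [← AddSubgroup.relIndex_bot_left, ← AddSubgroup.relIndex_bot_left]
    exact AddSubgroup.relIndex_mul_relIndex _ _ _ bot_le hZ01
  have hpos : ∀ H : AddSubgroup (Matrix (Fin n) (Fin n) (ZMod (p ^ m))), 0 < Nat.card H :=
    fun H => Nat.card_pos
  have e4 : Z0.relIndex Z1 ≤ p ^ (n ^ 2 - n) := by
    have h1 : Nat.card Z1 ≤ p ^ (n ^ 2 - n) * Nat.card Z0 := centralizer_count hp hm hn zm
    rw [← e3, mul_comm] at h1
    exact Nat.le_of_mul_le_mul_right h1 (hpos Z0)
  have hne : Z0.relIndex Z1 ≠ 0 := by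
    intro h0
    rw [h0, mul_zero] at e3
    exact (hpos Z1).ne e3
  have e5 : (J ⊓ Z0).relIndex (J ⊓ Z1) ≤ Z0.relIndex Z1 := by
    have h1 : (J ⊓ Z0).relIndex (J ⊓ Z1) = Z0.relIndex (J ⊓ Z1) := by
      rw [← AddSubgroup.inf_relIndex_right (J ⊓ Z0), ← AddSubgroup.inf_relIndex_right Z0]
      congr 1
      ext x
      simp only [AddSubgroup.mem_inf]
      tauto
    rw [h1]
    exact AddSubgroup.relIndex_le_of_le_right inf_le_right hne
  have e6 : (Subgroup.centralizer ({z} : Set (PGroup p m n))).relIndex C1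
      = (J ⊓ Z0).relIndex (J ⊓ Z1) := by
    rw [hc0, hc1, ← e2] at e1
    exact Nat.eq_of_mul_eq_mul_left (hpos _) e1
  rw [e6]
  exact e5.trans e4

end Pool.Agent.Helper431.PN
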