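import Mathlib
import Pool.Agent.Helper431.PN.Base
import Pool.Agent.Helper431.PN.G4
import Pool.Agent.Helper431.PN.N1
import Pool.Agent.Helper431.PN.M3
import Pool.Agent.Helper431.PN.M5a
import Pool.Agent.Helper431.PN.M5b
import Pool.Agent.Helper431.PN.N2

namespace Pool.Agent.Helper431.PN

/-- matrix of a group element -/
def mt {p m n : ℕ} (g : PGroup p m n) : Matrix (Fin n) (Fin n) (ZMod (p ^ m)) :=
  ((g : (Matrix (Fin n) (Fin n) (ZMod (p ^ m)))ˣ) : Matrix (Fin n) (Fin n) (ZMod (p ^ m)))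

theorem mt_mul {p m n : ℕ} (g h : PGroup p m n) : mt (g * h) = mt g * mt h := by
  simp [mt]

theorem mt_one {p m n : ℕ} : mt (1 : PGroup p m n) = 1 := by
  simp [mt]

theorem mt_pow {p m n : ℕ} (g : PGroup p m n) (k : ℕ) : mt (g ^ k) = mt g ^ k := by
  simp [mt]

theorem mt_inj {p m n : ℕ} {g h : PGroup p m n} (e : mt g = mt h) : g = h := by
  apply Subtype.ext
  apply Units.ext
  exact e

theorem mt_inv_mul {p m n : ℕ} (g : PGroup p m n) : mt g⁻¹ * mt g = 1 := by
  rw [← mt_mul, inv_mul_cancel, mt_one]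

theorem mt_mul_inv {p m n : ℕ} (g : PGroup p m n) : mt g * mt g⁻¹ = 1 := by
  rw [← mt_mul, mul_inv_cancel, mt_one]

theorem isP_mt {p m n : ℕ} (g : PGroup p m n) : IsP p m n (mt g) := g.2.1

theorem isJ_mt {p m n : ℕ} (g : PGroup p m n) : IsJ p m n (mt g - 1) :=
  (isP_iff _ _ _ _).1 (isP_mt g)

/-- pow_eq_iff for group elements -/
theorem gpow_eq_iff {p m n : ℕ} (hp : p.Prime) (hm : 1 ≤ m) (hn : 1 ≤ n) (hpn : 2 * n + 1 ≤ p)
    (g h : PGroup p m n) : g ^ p = h ^ p ↔ (p : ZMod (p ^ m)) • (mt g - mt h) = 0 := by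
  have key := pow_eq_iff hp hm hn hpn (mt g - 1) (mt h - 1) (isJ_mt g) (isJ_mt h)
  have e1 : (1 + (mt g - 1)) = mt g := by abel
  have e2 : (1 + (mt h - 1)) = mt h := by abel
  have e3 : (mt g - 1 - (mt h - 1)) = mt g - mt h := by abel
  rw [e1, e2, e3] at key
  rw [← key]
  constructor
  · intro e
    rw [← mt_pow, ← mt_pow, e]
  · intro e
    apply mt_inj
    rw [mt_pow, mt_pow, e]

/-- the p-torsion subgroup -/
def Esub (p m n : ℕ) : Subgroup (PGroup p m n) where
  carrier := {g | (p : ZMod (p ^ m)) • (mt g - 1) = 0}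
  one_mem' := by simp [mt_one]
  mul_mem' := by
    intro a b ha hb
    have ha' : (p : ZMod (p ^ m)) • (mt a - 1) = 0 := ha
    have hb' : (p : ZMod (p ^ m)) • (mt b - 1) = 0 := hb
    change (p : ZMod (p ^ m)) • (mt (a * b) - 1) = 0
    have : mt (a * b) - 1 = (mt a - 1) * mt b + (mt b - 1) := by
      rw [mt_mul, sub_mul, one_mul]; abel
    rw [this, smul_add, ← smul_mul_assoc, ha', hb', zero_mul, add_zero]
  inv_mem' := by
    intro a ha
    have ha' : (p : ZMod (p ^ m)) • (mt a - 1) = 0 := ha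
    change (p : ZMod (p ^ m)) • (mt a⁻¹ - 1) = 0
    have : mt a⁻¹ - 1 = - ((mt a - 1) * mt a⁻¹) := by
      rw [sub_mul, mt_mul_inv, one_mul]; abel
    rw [this, smul_neg, ← smul_mul_assoc, ha', zero_mul, neg_zero]

/-- the elements commuting with z modulo p-torsion -/
def C1sub (p m n : ℕ) (z : PGroup p m n) : Subgroup (PGroup p m n) where
  carrier := {g | (p : ZMod (p ^ m)) • (mt z * mt g - mt g * mt z) = 0}
  one_mem' := by simp [mt_one]
  mul_mem' := by
    intro a b ha hb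
    have ha' : (p : ZMod (p ^ m)) • (mt z * mt a - mt a * mt z) = 0 := ha
    have hb' : (p : ZMod (p ^ m)) • (mt z * mt b - mt b * mt z) = 0 := hb
    change (p : ZMod (p ^ m)) • (mt z * mt (a * b) - mt (a * b) * mt z) = 0
    have : mt z * mt (a * b) - mt (a * b) * mt z =
        (mt z * mt a - mt a * mt z) * mt b + mt a * (mt z * mt b - mt b * mt z) := by
      rw [mt_mul]; noncomm_ring
    rw [this, smul_add, ← smul_mul_assoc, ← mul_smul_comm, ha', hb', zero_mul, mul_zero, add_zero]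
  inv_mem' := by
    intro a ha
    have ha' : (p : ZMod (p ^ m)) • (mt z * mt a - mt a * mt z) = 0 := ha
    change (p : ZMod (p ^ m)) • (mt z * mt a⁻¹ - mt a⁻¹ * mt z) = 0
    have : mt z * mt a⁻¹ - mt a⁻¹ * mt z =
        - (mt a⁻¹ * (mt z * mt a - mt a * mt z) * mt a⁻¹) := by
      rw [mul_sub, sub_mul]
      have h1 : mt a⁻¹ * (mt z * mt a) * mt a⁻¹ = mt a⁻¹ * mt z := by
        rw [mul_assoc, mul_assoc, mt_mul_inv, mul_one]
      have h2 : mt a⁻¹ * (mt a * mt z) * mt a⁻¹ = mt z * mt a⁻¹ := by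
        rw [← mul_assoc (mt a⁻¹), mt_inv_mul, one_mul]
      rw [h1, h2]; abel
    rw [this, smul_neg, ← smul_mul_assoc, ← mul_smul_comm, ha', mul_zero, zero_mul, neg_zero]

theorem arith {p n : ℕ} (hp : p.Prime) (hn : 2 ≤ n) (hpn : n ^ 2 - n + 1 < p) :
    2 * n + 1 ≤ p ∧ n ^ 2 - n < p - 2 := by
  obtain ⟨k, rfl⟩ : ∃ k, n = k + 2 := ⟨n - 2, by omega⟩
  have e : (k + 2) ^ 2 - (k + 2) = (k + 2) * (k + 1) := by
    have : (k + 2) ^ 2 = (k + 2) * (k + 1) + (k + 2) := by ring
    omega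
  rw [e] at hpn ⊢
  have hev : Even ((k + 2) * (k + 1)) := by
    rw [mul_comm]; exact Nat.even_mul_succ_self (k + 1)
  obtain ⟨r, hr⟩ := hev
  have h2 : (k + 2) * (k + 1) = k * k + 3 * k + 2 := by ring
  have hne : p ≠ (k + 2) * (k + 1) + 2 := by
    intro h
    have hd : 2 ∣ p := by omega
    have := (Nat.prime_dvd_prime_iff_eq Nat.prime_two hp).1 hd
    omega
  refine ⟨?_, by omega⟩
  rcases Nat.eq_zero_or_pos k with h | h
  · subst h; omega
  · nlinarith

/-- N3: regular direction -/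
theorem regular_dir {p m n : ℕ} (hp : p.Prime) (hm : 1 ≤ m) (hn : 1 ≤ n)
    (hpn : n ^ 2 - n + 1 < p) : IsRegular p (PGroup p m n) := by
  haveI : NeZero (p ^ m) := ⟨pow_ne_zero _ hp.ne_zero⟩
  haveI : Finite (PGroup p m n) := inferInstance
  rcases Nat.lt_or_ge 1 n with h2 | h2
  · obtain ⟨h3, h4⟩ := arith hp h2 hpn
    refine regular_of_bound hp (isPGroup_PGroup hp hm) ?_
    intro K U z hU
    have hE : ∀ a b : PGroup p m n, a ^ p = b ^ p ↔ a⁻¹ * b ∈ Esub p m n := by
      intro a b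
      rw [gpow_eq_iff hp hm hn h3]
      change _ ↔ (p : ZMod (p ^ m)) • (mt (a⁻¹ * b) - 1) = 0
      have e1 : mt a - mt b = - (mt a * (mt (a⁻¹ * b) - 1)) := by
        rw [mt_mul, mul_sub, ← mul_assoc, mt_mul_inv, one_mul, mul_one]; abel
      have e2 : mt (a⁻¹ * b) - 1 = - (mt a⁻¹ * (mt a - mt b)) := by
        rw [mt_mul, mul_sub, mt_inv_mul]; abel
      constructor
      · intro h
        rw [e2, smul_neg, ← mul_smul_comm, h, mul_zero, neg_zero]
      · intro h
        rw [e1, smul_neg, ← mul_smul_comm, h, mul_zero, neg_zero]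
    have hC1 : ∀ g : PGroup p m n, g ∈ C1sub p m n z ↔ z * g ^ p = g ^ p * z := by
      intro g
      have e0 : z * g ^ p = g ^ p * z ↔ (z * g * z⁻¹) ^ p = g ^ p := by
        rw [conj_pow]
        constructor
        · intro h; rw [h, mul_assoc, mul_inv_cancel, mul_one]
        · intro h
          calc z * g ^ p = z * g ^ p * z⁻¹ * z := by rw [mul_assoc (z * g ^ p), inv_mul_cancel, mul_one]
            _ = g ^ p * z := by rw [h]
      rw [e0, gpow_eq_iff hp hm hn h3]
      change (p : ZMod (p ^ m)) • (mt z * mt g - mt g * mt z) = 0 ↔ _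
      have e1 : mt z * mt g - mt g * mt z = (mt (z * g * z⁻¹) - mt g) * mt z := by
        rw [sub_mul, ← mt_mul (z * g * z⁻¹), mul_assoc (z * g), inv_mul_cancel, mul_one, mt_mul]
      have e2 : mt (z * g * z⁻¹) - mt g = (mt z * mt g - mt g * mt z) * mt z⁻¹ := by
        rw [sub_mul, mt_mul, mt_mul, mul_assoc (mt g), mt_mul_inv, mul_one]
      constructor
      · intro h
        rw [e2, ← smul_mul_assoc, h, zero_mul]
      · intro h
        rw [e1, ← smul_mul_assoc, h, zero_mul]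
    have hb := relIndex_bound p (Esub p m n) (C1sub p m n z) K U z hE hC1 hU
    have hc := relIndex_C1 hp hm hn z (C1sub p m n z) (fun g => Iff.rfl)
    exact lt_of_le_of_lt (hb.trans hc) (Nat.pow_lt_pow_right hp.one_lt h4)
  · have h1 : n = 1 := le_antisymm h2 hn
    subst h1
    intro x y
    refine ⟨[], by simp, ?_⟩
    have hc : Commute x y := by
      apply mt_inj
      rw [mt_mul, mt_mul]
      ext i j
      have hi : i = 0 := Subsingleton.elim _ _
      have hj : j = 0 := Subsingleton.elim _ _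
      subst hi; subst hj
      simp [Matrix.mul_apply, mul_comm]
    simp [hc.mul_pow]

end Pool.Agent.Helper431.PN
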