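import Mathlib
import Pool.Agent.Helper431.PN.Base
import Pool.Agent.Helper431.PN.N3

namespace Pool.Agent.Helper431.PN

theorem regular_of_surj {p : ℕ} {G H : Type*} [Group G] [Group H] (f : G →* H)
    (hf : Function.Surjective f) (h : IsRegular p G) : IsRegular p H := by
  intro x y
  obtain ⟨x', rfl⟩ := hf x
  obtain ⟨y', rfl⟩ := hf y
  obtain ⟨l, hl, he⟩ := h x' y'
  refine ⟨l.map f, ?_, ?_⟩
  · intro c hc
    rw [List.mem_map] at hc
    obtain ⟨d, hd, rfl⟩ := hc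
    have h1 := hl d hd
    have h2 : f d ∈ (⁅Subgroup.closure ({x', y'} : Set G), Subgroup.closure ({x', y'} : Set G)⁆).map f :=
      Subgroup.mem_map_of_mem f h1
    rw [Subgroup.map_commutator, MonoidHom.map_closure, Set.image_pair] at h2
    exact h2
  · rw [← map_mul, ← map_pow, he, map_mul, map_mul, map_pow, map_pow, map_list_prod, List.map_map,
      List.map_map]
    have e : (⇑f ∘ fun c => c ^ p) = (fun c => c ^ p) ∘ ⇑f := by
      funext a
      simp
    rw [e]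

/-- divisibility by p in ZMod (p^m) -/
theorem dvd_zmod_iff {p m : ℕ} (hm : 1 ≤ m) (a : ℤ) :
    (p : ZMod (p ^ m)) ∣ (a : ZMod (p ^ m)) ↔ (p : ℤ) ∣ a := by
  constructor
  · rintro ⟨c, hc⟩
    obtain ⟨c', rfl⟩ := ZMod.intCast_surjective c
    have h1 : ((a - p * c' : ℤ) : ZMod (p ^ m)) = 0 := by
      push_cast; rw [hc]; simp
    rw [ZMod.intCast_zmod_eq_zero_iff_dvd] at h1
    have h2 : (p : ℤ) ∣ ((p ^ m : ℕ) : ℤ) := by
      push_cast
      exact dvd_pow_self _ (by omega)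
    have h3 := h2.trans h1
    have h4 := dvd_add h3 (Dvd.intro c' rfl : (p : ℤ) ∣ p * c')
    simpa using h4
  · rintro ⟨c, hc⟩
    refine ⟨(c : ZMod (p ^ m)), ?_⟩
    rw [hc]; push_cast; rfl

theorem isRegular_mono {p m m' n : ℕ} (hp : p.Prime) (hm : 1 ≤ m) (hmm : m ≤ m')
    (h : IsRegular p (PGroup p m' n)) : IsRegular p (PGroup p m n) := by
  haveI : NeZero (p ^ m) := ⟨pow_ne_zero _ hp.ne_zero⟩
  haveI : NeZero (p ^ m') := ⟨pow_ne_zero _ hp.ne_zero⟩
  let φ : ZMod (p ^ m') →+* ZMod (p ^ m) := ZMod.castHom (pow_dvd_pow p hmm) (ZMod (p ^ m))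
  let Φ : Matrix (Fin n) (Fin n) (ZMod (p ^ m')) →+* Matrix (Fin n) (Fin n) (ZMod (p ^ m)) :=
    φ.mapMatrix
  have hφp : φ (p : ZMod (p ^ m')) = p := map_natCast φ p
  have hIsP : ∀ A, IsP p m' n A → IsP p m n (Φ A) := by
    rintro A ⟨h1, h2⟩
    refine ⟨fun i => ?_, fun i j hij => ?_⟩
    · have := map_dvd φ (h1 i)
      rw [hφp, map_sub, map_one] at this
      exact this
    · have := map_dvd φ (h2 i j hij)
      rw [hφp] at this
      exact this
  let ψ : (Matrix (Fin n) (Fin n) (ZMod (p ^ m')))ˣ →* (Matrix (Fin n) (Fin n) (ZMod (p ^ m)))ˣ :=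
    Units.map Φ.toMonoidHom
  have hψ : ∀ g ∈ PGroup p m' n, ψ g ∈ PGroup p m n := by
    rintro g ⟨h1, h2⟩
    refine ⟨hIsP _ h1, ?_⟩
    have : ((ψ g)⁻¹ : (Matrix (Fin n) (Fin n) (ZMod (p ^ m)))ˣ) = ψ g⁻¹ := (map_inv ψ g).symm
    rw [this]
    exact hIsP _ h2
  let f : PGroup p m' n →* PGroup p m n :=
    (ψ.comp (PGroup p m' n).subtype).codRestrict (PGroup p m n) (fun g => hψ g g.2)
  apply regular_of_surj f _ h
  rintro ⟨g, hg⟩
  let A : Matrix (Fin n) (Fin n) (ZMod (p ^ m)) := g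
  let A' : Matrix (Fin n) (Fin n) (ZMod (p ^ m')) := fun i j => ((A i j).val : ZMod (p ^ m'))
  have hA : IsP p m n A := hg.1
  have hAv : ∀ i j, ((((A i j).val : ℤ)) : ZMod (p ^ m)) = A i j := by
    intro i j
    simp
  have hA' : IsP p m' n A' := by
    refine ⟨fun i => ?_, fun i j hij => ?_⟩
    · have h1 := hA.1 i
      rw [← hAv i i] at h1
      have h2 : (p : ZMod (p ^ m)) ∣ ((((A i i).val : ℤ) - 1 : ℤ) : ZMod (p ^ m)) := by
        push_cast at h1 ⊢
        exact h1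
      rw [dvd_zmod_iff hm] at h2
      have h3 := (dvd_zmod_iff (m := m') (by omega) _).2 h2
      push_cast at h3
      simpa [A'] using h3
    · have h1 := hA.2 i j hij
      rw [← hAv i j, dvd_zmod_iff hm] at h1
      have h3 := (dvd_zmod_iff (m := m') (by omega) _).2 h1
      push_cast at h3
      simpa [A'] using h3
  obtain ⟨g', hg', he⟩ := mem_of_isP hp (by omega : 1 ≤ m') A' hA'
  refine ⟨⟨g', hg'⟩, ?_⟩
  apply Subtype.ext
  apply Units.ext
  change Φ (g' : Matrix (Fin n) (Fin n) (ZMod (p ^ m'))) = A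
  rw [he]
  ext i j
  change φ (A' i j) = A i j
  simp [A', φ]

end Pool.Agent.Helper431.PN
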