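import Mathlib
import Pool.Agent.Helper431.PN.Base
import Pool.Agent.Helper431.PN.M5a

namespace Pool.Agent.Helper431.PN

section gq
open Polynomial Matrix

variable {n : ℕ} {R : Type*} [CommRing R]

/-- conjugation by a unit as an additive endomorphism -/
def gqs (u : (Matrix (Fin n) (Fin n) R)ˣ) : Module.End ℤ (Matrix (Fin n) (Fin n) R) where
  toFun A := (u⁻¹ : (Matrix (Fin n) (Fin n) R)ˣ) * A * u
  map_add' A B := by rw [mul_add, add_mul]
  map_smul' c A := by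
    rw [RingHom.id_apply, mul_smul_comm, smul_mul_assoc]

/-- matrix of a polynomial -/
noncomputable def gqT (u : (Matrix (Fin n) (Fin n) R)ˣ) (E : Matrix (Fin n) (Fin n) R) (f : ℤ[X]) :
    Matrix (Fin n) (Fin n) R := (aeval (gqs u) f) E

theorem gqT_add (u : (Matrix (Fin n) (Fin n) R)ˣ) (E : Matrix (Fin n) (Fin n) R) (f g : ℤ[X]) :
    gqT u E (f + g) = gqT u E f + gqT u E g := by
  simp [gqT]

theorem gqT_zero (u : (Matrix (Fin n) (Fin n) R)ˣ) (E : Matrix (Fin n) (Fin n) R) :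
    gqT u E (0 : ℤ[X]) = 0 := by
  simp [gqT]

theorem gqT_X (u : (Matrix (Fin n) (Fin n) R)ˣ) (E : Matrix (Fin n) (Fin n) R) (f : ℤ[X]) :
    gqT u E (X * f) = (u⁻¹ : (Matrix (Fin n) (Fin n) R)ˣ) * gqT u E f * u := by
  simp only [gqT, map_mul, aeval_X, Module.End.mul_apply]
  rfl

theorem gq_form (u : (Matrix (Fin n) (Fin n) R)ˣ) (E : Matrix (Fin n) (Fin n) R) (q : R)
    (hq : q * q = 0) (f g : ℤ[X]) :
    (1 + q • gqT u E f) * (1 + q • gqT u E g) = 1 + q • gqT u E (f + g) := by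
  have h1 : (q • gqT u E f) * (q • gqT u E g) = 0 := by
    rw [Matrix.smul_mul, Matrix.mul_smul, smul_smul, hq, zero_smul]
  have h2 : (1 + q • gqT u E f) * (1 + q • gqT u E g) =
      1 + q • gqT u E f + q • gqT u E g + (q • gqT u E f) * (q • gqT u E g) := by
    generalize q • gqT u E f = A
    generalize q • gqT u E g = B
    noncomm_ring
  rw [h2, h1, gqT_add, smul_add, add_zero, add_assoc]

/-- the unit of a polynomial -/
noncomputable def gqu (u : (Matrix (Fin n) (Fin n) R)ˣ) (E : Matrix (Fin n) (Fin n) R) (q : R)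
    (hq : q * q = 0) (f : ℤ[X]) : (Matrix (Fin n) (Fin n) R)ˣ where
  val := 1 + q • gqT u E f
  inv := 1 + q • gqT u E (-f)
  val_inv := by rw [gq_form u E q hq, add_neg_cancel, gqT_zero, smul_zero, add_zero]
  inv_val := by rw [gq_form u E q hq, neg_add_cancel, gqT_zero, smul_zero, add_zero]

theorem gqu_mul (u : (Matrix (Fin n) (Fin n) R)ˣ) (E : Matrix (Fin n) (Fin n) R) (q : R)
    (hq : q * q = 0) (f g : ℤ[X]) :
    gqu u E q hq f * gqu u E q hq g = gqu u E q hq (f + g) := Units.ext (gq_form u E q hq f g)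

theorem gqu_zero (u : (Matrix (Fin n) (Fin n) R)ˣ) (E : Matrix (Fin n) (Fin n) R) (q : R)
    (hq : q * q = 0) : gqu u E q hq 0 = 1 := by
  apply Units.ext
  change 1 + q • gqT u E 0 = 1
  rw [gqT_zero, smul_zero, add_zero]

theorem gqu_inv (u : (Matrix (Fin n) (Fin n) R)ˣ) (E : Matrix (Fin n) (Fin n) R) (q : R)
    (hq : q * q = 0) (f : ℤ[X]) :
    (gqu u E q hq f)⁻¹ = gqu u E q hq (-f) := by
  rw [inv_eq_iff_mul_eq_one, gqu_mul, add_neg_cancel, gqu_zero]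

theorem gqu_pow (u : (Matrix (Fin n) (Fin n) R)ˣ) (E : Matrix (Fin n) (Fin n) R) (q : R)
    (hq : q * q = 0) (f : ℤ[X]) (l : ℕ) :
    (gqu u E q hq f) ^ l = gqu u E q hq (l * f) := by
  induction l with
  | zero => rw [pow_zero, Nat.cast_zero, zero_mul, gqu_zero]
  | succ l ih =>
    rw [pow_succ, ih, gqu_mul]
    congr 1
    push_cast
    ring

theorem gqx_conj (u : (Matrix (Fin n) (Fin n) R)ˣ) (E : Matrix (Fin n) (Fin n) R) (q : R)
    (hq : q * q = 0) (f : ℤ[X]) :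
    gqu u E q hq f * u = u * gqu u E q hq (X * f) := by
  apply Units.ext
  change (1 + q • gqT u E f) * (u : Matrix (Fin n) (Fin n) R) =
    (u : Matrix (Fin n) (Fin n) R) * (1 + q • gqT u E (X * f))
  rw [gqT_X, add_mul, mul_add, one_mul, mul_one, Matrix.smul_mul, Matrix.mul_smul]
  congr 2
  rw [← mul_assoc, ← mul_assoc, Units.mul_inv, one_mul]

theorem gqx_conj_pow (u : (Matrix (Fin n) (Fin n) R)ˣ) (E : Matrix (Fin n) (Fin n) R) (q : R)
    (hq : q * q = 0) (f : ℤ[X]) (a : ℕ) :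
    gqu u E q hq f * u ^ a = u ^ a * gqu u E q hq (X ^ a * f) := by
  induction a generalizing f with
  | zero => rw [pow_zero, pow_zero, one_mul, one_mul, mul_one]
  | succ a ih =>
    rw [pow_succ', ← mul_assoc, gqx_conj, mul_assoc, ih, ← mul_assoc, ← pow_succ', ← mul_assoc,
      ← pow_succ]

theorem gqT_pow (u : (Matrix (Fin n) (Fin n) R)ˣ) (E : Matrix (Fin n) (Fin n) R) (f : ℤ[X])
    (a : ℕ) : gqT u E (X ^ a * f) =
      ((u⁻¹ : (Matrix (Fin n) (Fin n) R)ˣ) : Matrix (Fin n) (Fin n) R) ^ a * gqT u E f *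
        (u : Matrix (Fin n) (Fin n) R) ^ a := by
  induction a with
  | zero => simp
  | succ a ih =>
    have e : (X ^ (a + 1) * f : ℤ[X]) = X * (X ^ a * f) := by ring
    rw [e, gqT_X, ih, pow_succ', pow_succ]
    simp only [mul_assoc]

theorem gqu_per (u : (Matrix (Fin n) (Fin n) R)ˣ) (E : Matrix (Fin n) (Fin n) R) (q : R)
    (hq : q * q = 0) (N : ℕ) (hN : u ^ N = 1)
    (f : ℤ[X]) (c : ℕ) : gqu u E q hq (X ^ (N * c) * f) = gqu u E q hq f := by
  apply Units.ext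
  change 1 + q • gqT u E (X ^ (N * c) * f) = 1 + q • gqT u E f
  have h1 : ((u⁻¹ : (Matrix (Fin n) (Fin n) R)ˣ) : Matrix (Fin n) (Fin n) R) ^ (N * c) = 1 := by
    rw [← Units.val_pow_eq_pow_val, inv_pow, pow_mul, hN, one_pow, inv_one, Units.val_one]
  have h2 : (u : Matrix (Fin n) (Fin n) R) ^ (N * c) = 1 := by
    rw [← Units.val_pow_eq_pow_val, pow_mul, hN, one_pow, Units.val_one]
  rw [gqT_pow, h1, h2, one_mul, mul_one]

theorem gqx_conj' (u : (Matrix (Fin n) (Fin n) R)ˣ) (E : Matrix (Fin n) (Fin n) R) (q : R)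
    (hq : q * q = 0) (N : ℕ) (hN0 : 0 < N)
    (hN : u ^ N = 1) (f : ℤ[X]) (c : ℕ) :
    u ^ c * gqu u E q hq f * (u ^ c)⁻¹ = gqu u E q hq (X ^ ((N - 1) * c) * f) := by
  rw [mul_inv_eq_iff_eq_mul, gqx_conj_pow, ← mul_assoc, ← pow_add]
  have : c + (N - 1) * c = N * c := by
    obtain ⟨M, rfl⟩ : ∃ M, N = M + 1 := ⟨N - 1, by omega⟩
    rw [Nat.add_sub_cancel]; ring
  rw [this, gqu_per u E q hq N hN]

/-- normal form -/
def gqNF (u : (Matrix (Fin n) (Fin n) R)ˣ) (E : Matrix (Fin n) (Fin n) R) (q : R)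
    (hq : q * q = 0) (h : (Matrix (Fin n) (Fin n) R)ˣ) : Prop :=
  ∃ (a : ℕ) (f : ℤ[X]), h = u ^ a * gqu u E q hq f

theorem gqNF_mul (u : (Matrix (Fin n) (Fin n) R)ˣ) (E : Matrix (Fin n) (Fin n) R) (q : R)
    (hq : q * q = 0) (a b : ℕ) (f g : ℤ[X]) :
    (u ^ a * gqu u E q hq f) * (u ^ b * gqu u E q hq g) =
      u ^ (a + b) * gqu u E q hq (X ^ b * f + g) := by
  rw [← gqu_mul, ← mul_assoc, mul_assoc (u ^ a), gqx_conj_pow, pow_add]
  group

theorem gqNF_inv (u : (Matrix (Fin n) (Fin n) R)ˣ) (E : Matrix (Fin n) (Fin n) R) (q : R)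
    (hq : q * q = 0) (N : ℕ) (hN0 : 0 < N)
    (hN : u ^ N = 1) {h : (Matrix (Fin n) (Fin n) R)ˣ} (hh : gqNF u E q hq h) :
    gqNF u E q hq h⁻¹ := by
  obtain ⟨a, f, rfl⟩ := hh
  have h1 : (u ^ a)⁻¹ = u ^ ((N - 1) * a) := by
    rw [inv_eq_iff_mul_eq_one, ← pow_add]
    have : a + (N - 1) * a = N * a := by
      obtain ⟨M, rfl⟩ : ∃ M, N = M + 1 := ⟨N - 1, by omega⟩
      rw [Nat.add_sub_cancel]; ring
    rw [this, pow_mul, hN, one_pow]
  refine ⟨(N - 1) * a, X ^ ((N - 1) * a) * (-f), ?_⟩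
  rw [_root_.mul_inv_rev, gqu_inv, h1, gqx_conj_pow]

theorem gq_comm (u : (Matrix (Fin n) (Fin n) R)ˣ) (E : Matrix (Fin n) (Fin n) R) (q : R)
    (hq : q * q = 0) (N : ℕ) (hN0 : 0 < N)
    (hN : u ^ N = 1) {h1 h2 : (Matrix (Fin n) (Fin n) R)ˣ} (hh1 : gqNF u E q hq h1)
    (hh2 : gqNF u E q hq h2) :
    ∃ w : ℤ[X], h1 * h2 * h1⁻¹ * h2⁻¹ = gqu u E q hq ((X - 1) * w) := by
  obtain ⟨a, f, rfl⟩ := hh1
  obtain ⟨b, g, rfl⟩ := hh2
  obtain ⟨r, hr⟩ : (X - 1 : ℤ[X]) ∣ X ^ b - 1 := by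
    simpa using sub_dvd_pow_sub_pow (X : ℤ[X]) 1 b
  obtain ⟨s, hs⟩ : (X - 1 : ℤ[X]) ∣ X ^ a - 1 := by
    simpa using sub_dvd_pow_sub_pow (X : ℤ[X]) 1 a
  have e1 := gqNF_mul u E q hq a b f g
  have e2 := gqNF_mul u E q hq b a g f
  refine ⟨X ^ ((N - 1) * (a + b)) * (r * f - s * g), ?_⟩
  set A := u ^ a * gqu u E q hq f
  set B := u ^ b * gqu u E q hq g
  have e3 : A * B * A⁻¹ * B⁻¹ = (A * B) * (B * A)⁻¹ := by group
  rw [e3, e1, e2, _root_.mul_inv_rev, add_comm b a]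
  have e4 : u ^ (a + b) * gqu u E q hq (X ^ b * f + g) *
      ((gqu u E q hq (X ^ a * g + f))⁻¹ * (u ^ (a + b))⁻¹) =
      u ^ (a + b) * (gqu u E q hq (X ^ b * f + g) * (gqu u E q hq (X ^ a * g + f))⁻¹) *
        (u ^ (a + b))⁻¹ := by group
  rw [e4, gqu_inv, gqu_mul, gqx_conj' u E q hq N hN0 hN]
  congr 1
  have e5 : X ^ b * f + g + -(X ^ a * g + f) = (X ^ b - 1) * f - (X ^ a - 1) * g := by ring
  rw [e5, hr, hs]
  ring

theorem gq_geom (u : (Matrix (Fin n) (Fin n) R)ˣ) (E : Matrix (Fin n) (Fin n) R) (q : R)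
    (hq : q * q = 0) (l : ℕ) :
    (u * gqu u E q hq 1) ^ l = u ^ l * gqu u E q hq (∑ i ∈ Finset.range l, X ^ i) := by
  induction l with
  | zero => rw [pow_zero, pow_zero, Finset.range_zero, Finset.sum_empty, gqu_zero, one_mul]
  | succ l ih =>
    rw [pow_succ, ih]
    have := gqNF_mul u E q hq l 1 (∑ i ∈ Finset.range l, X ^ i) 1
    rw [pow_one, pow_one] at this
    rw [this, geom_sum_succ]

theorem gqT_Xpow (u : (Matrix (Fin n) (Fin n) R)ˣ) (E : Matrix (Fin n) (Fin n) R) (a : ℕ) :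
    gqT u E (X ^ a) =
      ((u⁻¹ : (Matrix (Fin n) (Fin n) R)ˣ) : Matrix (Fin n) (Fin n) R) ^ a * E *
        (u : Matrix (Fin n) (Fin n) R) ^ a := by
  have h := gqT_pow u E 1 a
  rw [mul_one] at h
  rw [h]
  simp [gqT]

theorem gqT_sum {ι : Type*} (u : (Matrix (Fin n) (Fin n) R)ˣ) (E : Matrix (Fin n) (Fin n) R)
    (s : Finset ι) (f : ι → ℤ[X]) : gqT u E (∑ i ∈ s, f i) = ∑ i ∈ s, gqT u E (f i) := by
  simp [gqT]

theorem gqT_C (u : (Matrix (Fin n) (Fin n) R)ˣ) (E : Matrix (Fin n) (Fin n) R)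
    (c : ℤ) (f : ℤ[X]) : gqT u E (C c * f) = (c : R) • gqT u E f := by
  simp only [gqT, map_mul, aeval_C, Module.End.mul_apply]
  rw [Module.algebraMap_end_apply]
  ext i j
  simp

end gq

theorem good_poly_gen {p m n k : ℕ} (hp : p.Prime) (hk1 : 1 ≤ k) (hkm : k ≤ m) (hk : m ≤ 2 * k)
    (X X' E : Matrix (Fin n) (Fin n) (ZMod (p ^ m))) (h1 : X * X' = 1) (h2 : X' * X = 1)
    (hX : IsP p m n X) (hreg : IsRegular p (PGroup p m n)) :
    ∃ F : Polynomial ℤ, (p : ZMod (p ^ m)) ^ k •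
      ((∑ l ∈ Finset.range p, X' ^ l * E * X ^ l) - (p : ZMod (p ^ m)) • E -
        (p : ZMod (p ^ m)) • (F.sum fun j c => (c : ZMod (p ^ m)) •
          (X' ^ (j + 1) * E * X ^ (j + 1) - X' ^ j * E * X ^ j))) = 0 := by
  classical
  haveI : NeZero (p ^ m) := ⟨pow_ne_zero _ hp.ne_zero⟩
  have hm : 1 ≤ m := hk1.trans hkm
  set q : ZMod (p ^ m) := (p : ZMod (p ^ m)) ^ k with hq
  have hqq : q * q = 0 := by
    rw [hq, ← pow_add, ← Nat.cast_pow]
    rw [ZMod.natCast_eq_zero_iff]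
    exact pow_dvd_pow p (by omega)
  have hpq : (p : ZMod (p ^ m)) ∣ q := dvd_pow_self _ (by omega)
  obtain ⟨u, hux, huX⟩ := mem_of_isP hp hm X hX
  have huX' : ((u⁻¹ : (Matrix (Fin n) (Fin n) (ZMod (p ^ m)))ˣ) :
      Matrix (Fin n) (Fin n) (ZMod (p ^ m))) = X' := by
    calc ((u⁻¹ : (Matrix (Fin n) (Fin n) (ZMod (p ^ m)))ˣ) :
      Matrix (Fin n) (Fin n) (ZMod (p ^ m))) = (u⁻¹ : (Matrix (Fin n) (Fin n) (ZMod (p ^ m)))ˣ) *
        (X * X') := by rw [h1, mul_one]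
      _ = X' := by rw [← mul_assoc, ← huX, Units.inv_mul, one_mul]
  set N := Nat.card (Matrix (Fin n) (Fin n) (ZMod (p ^ m)))ˣ with hNd
  have hN0 : 0 < N := Nat.card_pos
  have hN : u ^ N = 1 := pow_card_eq_one'
  have huu : ∀ f, gqu u E q hqq f ∈ PGroup p m n := by
    intro f
    have hA : IsP p m n (1 + q • gqT u E f) := by
      refine ⟨fun i => ?_, fun i j hij => ?_⟩
      · rw [Matrix.add_apply, Matrix.one_apply_eq, add_sub_cancel_left, Matrix.smul_apply,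
          smul_eq_mul]
        exact Dvd.dvd.mul_right hpq _
      · rw [Matrix.add_apply, Matrix.one_apply_ne (ne_of_gt hij), zero_add, Matrix.smul_apply,
          smul_eq_mul]
        exact Dvd.dvd.mul_right hpq _
    obtain ⟨g, hg, hgA⟩ := mem_of_isP hp hm _ hA
    have : g = gqu u E q hqq f := Units.ext hgA
    rwa [← this]
  set x : PGroup p m n := ⟨u, hux⟩ with hx
  set y : PGroup p m n := ⟨gqu u E q hqq 1, huu 1⟩ with hy
  obtain ⟨l, hl, heq⟩ := hreg x y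
  -- elements of the closure are in normal form
  have hNF : ∀ h ∈ Subgroup.closure ({x, y} : Set (PGroup p m n)),
      gqNF u E q hqq (h : (Matrix (Fin n) (Fin n) (ZMod (p ^ m)))ˣ) := by
    intro h hh
    induction hh using Subgroup.closure_induction with
    | mem z hz =>
      rcases hz with rfl | hz
      · exact ⟨1, 0, by rw [gqu_zero, mul_one, pow_one]⟩
      · rw [Set.mem_singleton_iff] at hz
        subst hz
        exact ⟨0, 1, by rw [pow_zero, one_mul]⟩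
    | one => exact ⟨0, 0, by rw [gqu_zero, mul_one, pow_zero]; rfl⟩
    | mul a b _ _ iha ihb =>
      obtain ⟨a1, f1, h1⟩ := iha
      obtain ⟨a2, f2, h2⟩ := ihb
      refine ⟨a1 + a2, Polynomial.X ^ a2 * f1 + f2, ?_⟩
      rw [← gqNF_mul, ← h1, ← h2]
      rfl
    | inv a _ iha => exact gqNF_inv u E q hqq N hN0 hN iha
  let B : Subgroup (PGroup p m n) :=
    { carrier := {g | ∃ w : Polynomial ℤ, (g : (Matrix (Fin n) (Fin n) (ZMod (p ^ m)))ˣ) =
        gqu u E q hqq ((Polynomial.X - 1) * w)}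
      one_mem' := ⟨0, by rw [mul_zero, gqu_zero]; rfl⟩
      mul_mem' := by
        rintro a b ⟨w1, h1⟩ ⟨w2, h2⟩
        refine ⟨w1 + w2, ?_⟩
        rw [mul_add, ← gqu_mul, ← h1, ← h2]
        rfl
      inv_mem' := by
        rintro a ⟨w, h⟩
        refine ⟨-w, ?_⟩
        rw [mul_neg, ← gqu_inv, ← h]
        rfl }
  have hcom : ⁅Subgroup.closure ({x, y} : Set (PGroup p m n)),
      Subgroup.closure ({x, y} : Set (PGroup p m n))⁆ ≤ B := by
    rw [Subgroup.commutator_le]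
    intro g1 h1 g2 h2
    obtain ⟨w, hw⟩ := gq_comm u E q hqq N hN0 hN (hNF g1 h1) (hNF g2 h2)
    exact ⟨w, hw⟩
  have hprod : ∀ l : List (PGroup p m n), (∀ c ∈ l, c ∈ B) → ∃ F : Polynomial ℤ,
      (((l.map (fun c => c ^ p)).prod : PGroup p m n) :
        (Matrix (Fin n) (Fin n) (ZMod (p ^ m)))ˣ) =
        gqu u E q hqq ((p : Polynomial ℤ) * ((Polynomial.X - 1) * F)) := by
    intro l
    induction l with
    | nil =>
      intro _
      refine ⟨0, ?_⟩
      rw [mul_zero, mul_zero, gqu_zero]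
      rfl
    | cons c l ih =>
      intro hcl
      obtain ⟨F, hF⟩ := ih fun c' hc' => hcl c' (List.mem_cons_of_mem _ hc')
      obtain ⟨w, hw⟩ := hcl c List.mem_cons_self
      refine ⟨w + F, ?_⟩
      rw [List.map_cons, List.prod_cons, Subgroup.coe_mul, Subgroup.coe_pow, hF, hw, gqu_pow,
        gqu_mul]
      congr 1
      ring
  obtain ⟨F, hF⟩ := hprod l fun c hc => hcom (hl c hc)
  have h3 := congrArg (fun g : PGroup p m n =>
    (g : (Matrix (Fin n) (Fin n) (ZMod (p ^ m)))ˣ)) heq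
  simp only [Subgroup.coe_mul, Subgroup.coe_pow] at h3
  rw [hF] at h3
  change (u * gqu u E q hqq 1) ^ p = u ^ p * (gqu u E q hqq 1) ^ p *
    gqu u E q hqq ((p : Polynomial ℤ) * ((Polynomial.X - 1) * F)) at h3
  rw [gq_geom, gqu_pow, mul_assoc, gqu_mul, mul_right_inj, mul_one] at h3
  refine ⟨F, ?_⟩
  have h4 := congrArg (fun g : (Matrix (Fin n) (Fin n) (ZMod (p ^ m)))ˣ =>
    (g : Matrix (Fin n) (Fin n) (ZMod (p ^ m)))) h3
  change (1 + q • gqT u E _) = (1 + q • gqT u E _) at h4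
  rw [add_right_inj] at h4
  have e1 : gqT u E (∑ i ∈ Finset.range p, Polynomial.X ^ i) =
      ∑ l ∈ Finset.range p, X' ^ l * E * X ^ l := by
    rw [gqT_sum]
    apply Finset.sum_congr rfl
    intro l _
    rw [gqT_Xpow, huX', huX]
  have e2 : gqT u E ((p : Polynomial ℤ)) = (p : ZMod (p ^ m)) • E := by
    have := gqT_C u E (p : ℤ) 1
    simp only [mul_one] at this
    have h0 : gqT u E 1 = E := by simp [gqT]
    rw [h0] at this
    simpa using this
  have e3 : gqT u E ((p : Polynomial ℤ) * ((Polynomial.X - 1) * F)) =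
      (p : ZMod (p ^ m)) • (F.sum fun j c => (c : ZMod (p ^ m)) •
          (X' ^ (j + 1) * E * X ^ (j + 1) - X' ^ j * E * X ^ j)) := by
    have h5 := gqT_C u E (p : ℤ) ((Polynomial.X - 1) * F)
    have h9 : (Polynomial.C ((p : ℤ)) : Polynomial ℤ) = (p : Polynomial ℤ) := by simp
    rw [h9, Int.cast_natCast] at h5
    rw [h5]
    congr 1
    have h6 : (Polynomial.X - 1) * F = ∑ j ∈ F.support,
        (Polynomial.C (F.coeff j) * (Polynomial.X ^ (j + 1) + (-1 : Polynomial ℤ) * Polynomial.X ^ j)) := by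
      conv_lhs => rw [F.as_sum_support_C_mul_X_pow]
      rw [Finset.mul_sum]
      apply Finset.sum_congr rfl
      intro j _
      ring
    rw [h6, gqT_sum, Polynomial.sum_def]
    apply Finset.sum_congr rfl
    intro j _
    rw [gqT_C]
    congr 1
    have h7 := gqT_C u E (-1 : ℤ) (Polynomial.X ^ j)
    rw [gqT_add]
    have h8 : (-1 : Polynomial ℤ) = Polynomial.C (-1 : ℤ) := by simp
    rw [h8, h7, gqT_Xpow, gqT_Xpow, huX', huX]
    push_cast
    rw [neg_one_smul, sub_eq_add_neg]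
  rw [gqT_add, e1, e2, e3] at h4
  rw [smul_sub, smul_sub, h4, smul_add]
  abel

end Pool.Agent.Helper431.PN
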