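import Mathlib
import Pool.Agent.Helper431.PN.Base
import Pool.Agent.Helper431.PN.M5a
import Pool.Agent.Helper431.PN.E1

namespace Pool.Agent.Helper431.PN

section gb
open Polynomial Matrix

variable {n : ℕ} {R : Type*} [CommRing R]

theorem gb_form (u : (Matrix (Fin n) (Fin n) R)ˣ) (E : Matrix (Fin n) (Fin n) R)
    (hz : ∀ f g : ℤ[X], gqT u E f * gqT u E g = 0) (f g : ℤ[X]) :
    (1 + gqT u E f) * (1 + gqT u E g) = 1 + gqT u E (f + g) := by
  have h1 := hz f g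
  have h2 : (1 + gqT u E f) * (1 + gqT u E g) =
      1 + gqT u E f + gqT u E g + (gqT u E f) * (gqT u E g) := by
    generalize gqT u E f = A
    generalize gqT u E g = B
    noncomm_ring
  rw [h2, h1, gqT_add, add_zero, add_assoc]

/-- the unit of a polynomial -/
noncomputable def gbu (u : (Matrix (Fin n) (Fin n) R)ˣ) (E : Matrix (Fin n) (Fin n) R) 
    (hz : ∀ f g : ℤ[X], gqT u E f * gqT u E g = 0) (f : ℤ[X]) : (Matrix (Fin n) (Fin n) R)ˣ where
  val := 1 + gqT u E f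
  inv := 1 + gqT u E (-f)
  val_inv := by rw [gb_form u E hz, add_neg_cancel, gqT_zero, add_zero]
  inv_val := by rw [gb_form u E hz, neg_add_cancel, gqT_zero, add_zero]

theorem gbu_mul (u : (Matrix (Fin n) (Fin n) R)ˣ) (E : Matrix (Fin n) (Fin n) R) 
    (hz : ∀ f g : ℤ[X], gqT u E f * gqT u E g = 0) (f g : ℤ[X]) :
    gbu u E hz f * gbu u E hz g = gbu u E hz (f + g) := Units.ext (gb_form u E hz f g)

theorem gbu_zero (u : (Matrix (Fin n) (Fin n) R)ˣ) (E : Matrix (Fin n) (Fin n) R) 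
    (hz : ∀ f g : ℤ[X], gqT u E f * gqT u E g = 0) : gbu u E hz 0 = 1 := by
  apply Units.ext
  change 1 + gqT u E 0 = 1
  rw [gqT_zero, add_zero]

theorem gbu_inv (u : (Matrix (Fin n) (Fin n) R)ˣ) (E : Matrix (Fin n) (Fin n) R) 
    (hz : ∀ f g : ℤ[X], gqT u E f * gqT u E g = 0) (f : ℤ[X]) :
    (gbu u E hz f)⁻¹ = gbu u E hz (-f) := by
  rw [inv_eq_iff_mul_eq_one, gbu_mul, add_neg_cancel, gbu_zero]

theorem gbu_pow (u : (Matrix (Fin n) (Fin n) R)ˣ) (E : Matrix (Fin n) (Fin n) R) 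
    (hz : ∀ f g : ℤ[X], gqT u E f * gqT u E g = 0) (f : ℤ[X]) (l : ℕ) :
    (gbu u E hz f) ^ l = gbu u E hz (l * f) := by
  induction l with
  | zero => rw [pow_zero, Nat.cast_zero, zero_mul, gbu_zero]
  | succ l ih =>
    rw [pow_succ, ih, gbu_mul]
    congr 1
    push_cast
    ring

theorem gbx_conj (u : (Matrix (Fin n) (Fin n) R)ˣ) (E : Matrix (Fin n) (Fin n) R) 
    (hz : ∀ f g : ℤ[X], gqT u E f * gqT u E g = 0) (f : ℤ[X]) :
    gbu u E hz f * u = u * gbu u E hz (X * f) := by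
  apply Units.ext
  change (1 + gqT u E f) * (u : Matrix (Fin n) (Fin n) R) =
    (u : Matrix (Fin n) (Fin n) R) * (1 + gqT u E (X * f))
  rw [gqT_X, add_mul, mul_add, one_mul, mul_one]
  congr 1
  rw [← mul_assoc, ← mul_assoc, Units.mul_inv, one_mul]

theorem gbx_conj_pow (u : (Matrix (Fin n) (Fin n) R)ˣ) (E : Matrix (Fin n) (Fin n) R) 
    (hz : ∀ f g : ℤ[X], gqT u E f * gqT u E g = 0) (f : ℤ[X]) (a : ℕ) :
    gbu u E hz f * u ^ a = u ^ a * gbu u E hz (X ^ a * f) := by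
  induction a generalizing f with
  | zero => rw [pow_zero, pow_zero, one_mul, one_mul, mul_one]
  | succ a ih =>
    rw [pow_succ', ← mul_assoc, gbx_conj, mul_assoc, ih, ← mul_assoc, ← pow_succ', ← mul_assoc,
      ← pow_succ]

theorem gbu_per (u : (Matrix (Fin n) (Fin n) R)ˣ) (E : Matrix (Fin n) (Fin n) R) 
    (hz : ∀ f g : ℤ[X], gqT u E f * gqT u E g = 0) (N : ℕ) (hN : u ^ N = 1)
    (f : ℤ[X]) (c : ℕ) : gbu u E hz (X ^ (N * c) * f) = gbu u E hz f := by
  apply Units.ext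
  change 1 + gqT u E (X ^ (N * c) * f) = 1 + gqT u E f
  have h1 : ((u⁻¹ : (Matrix (Fin n) (Fin n) R)ˣ) : Matrix (Fin n) (Fin n) R) ^ (N * c) = 1 := by
    rw [← Units.val_pow_eq_pow_val, inv_pow, pow_mul, hN, one_pow, inv_one, Units.val_one]
  have h2 : (u : Matrix (Fin n) (Fin n) R) ^ (N * c) = 1 := by
    rw [← Units.val_pow_eq_pow_val, pow_mul, hN, one_pow, Units.val_one]
  rw [gqT_pow, h1, h2, one_mul, mul_one]

theorem gbx_conj' (u : (Matrix (Fin n) (Fin n) R)ˣ) (E : Matrix (Fin n) (Fin n) R) 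
    (hz : ∀ f g : ℤ[X], gqT u E f * gqT u E g = 0) (N : ℕ) (hN0 : 0 < N)
    (hN : u ^ N = 1) (f : ℤ[X]) (c : ℕ) :
    u ^ c * gbu u E hz f * (u ^ c)⁻¹ = gbu u E hz (X ^ ((N - 1) * c) * f) := by
  rw [mul_inv_eq_iff_eq_mul, gbx_conj_pow, ← mul_assoc, ← pow_add]
  have : c + (N - 1) * c = N * c := by
    obtain ⟨M, rfl⟩ : ∃ M, N = M + 1 := ⟨N - 1, by omega⟩
    rw [Nat.add_sub_cancel]; ring
  rw [this, gbu_per u E hz N hN]

/-- normal form -/
def gbNF (u : (Matrix (Fin n) (Fin n) R)ˣ) (E : Matrix (Fin n) (Fin n) R) 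
    (hz : ∀ f g : ℤ[X], gqT u E f * gqT u E g = 0) (h : (Matrix (Fin n) (Fin n) R)ˣ) : Prop :=
  ∃ (a : ℕ) (f : ℤ[X]), h = u ^ a * gbu u E hz f

theorem gbNF_mul (u : (Matrix (Fin n) (Fin n) R)ˣ) (E : Matrix (Fin n) (Fin n) R) 
    (hz : ∀ f g : ℤ[X], gqT u E f * gqT u E g = 0) (a b : ℕ) (f g : ℤ[X]) :
    (u ^ a * gbu u E hz f) * (u ^ b * gbu u E hz g) =
      u ^ (a + b) * gbu u E hz (X ^ b * f + g) := by
  rw [← gbu_mul, ← mul_assoc, mul_assoc (u ^ a), gbx_conj_pow, pow_add]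
  group

theorem gbNF_inv (u : (Matrix (Fin n) (Fin n) R)ˣ) (E : Matrix (Fin n) (Fin n) R) 
    (hz : ∀ f g : ℤ[X], gqT u E f * gqT u E g = 0) (N : ℕ) (hN0 : 0 < N)
    (hN : u ^ N = 1) {h : (Matrix (Fin n) (Fin n) R)ˣ} (hh : gbNF u E hz h) :
    gbNF u E hz h⁻¹ := by
  obtain ⟨a, f, rfl⟩ := hh
  have h1 : (u ^ a)⁻¹ = u ^ ((N - 1) * a) := by
    rw [inv_eq_iff_mul_eq_one, ← pow_add]
    have : a + (N - 1) * a = N * a := by
      obtain ⟨M, rfl⟩ : ∃ M, N = M + 1 := ⟨N - 1, by omega⟩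
      rw [Nat.add_sub_cancel]; ring
    rw [this, pow_mul, hN, one_pow]
  refine ⟨(N - 1) * a, X ^ ((N - 1) * a) * (-f), ?_⟩
  rw [_root_.mul_inv_rev, gbu_inv, h1, gbx_conj_pow]

theorem gb_comm (u : (Matrix (Fin n) (Fin n) R)ˣ) (E : Matrix (Fin n) (Fin n) R) 
    (hz : ∀ f g : ℤ[X], gqT u E f * gqT u E g = 0) (N : ℕ) (hN0 : 0 < N)
    (hN : u ^ N = 1) {h1 h2 : (Matrix (Fin n) (Fin n) R)ˣ} (hh1 : gbNF u E hz h1)
    (hh2 : gbNF u E hz h2) :
    ∃ w : ℤ[X], h1 * h2 * h1⁻¹ * h2⁻¹ = gbu u E hz ((X - 1) * w) := by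
  obtain ⟨a, f, rfl⟩ := hh1
  obtain ⟨b, g, rfl⟩ := hh2
  obtain ⟨r, hr⟩ : (X - 1 : ℤ[X]) ∣ X ^ b - 1 := by
    simpa using sub_dvd_pow_sub_pow (X : ℤ[X]) 1 b
  obtain ⟨s, hs⟩ : (X - 1 : ℤ[X]) ∣ X ^ a - 1 := by
    simpa using sub_dvd_pow_sub_pow (X : ℤ[X]) 1 a
  have e1 := gbNF_mul u E hz a b f g
  have e2 := gbNF_mul u E hz b a g f
  refine ⟨X ^ ((N - 1) * (a + b)) * (r * f - s * g), ?_⟩
  set A := u ^ a * gbu u E hz f
  set B := u ^ b * gbu u E hz g
  have e3 : A * B * A⁻¹ * B⁻¹ = (A * B) * (B * A)⁻¹ := by group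
  rw [e3, e1, e2, _root_.mul_inv_rev, add_comm b a]
  have e4 : u ^ (a + b) * gbu u E hz (X ^ b * f + g) *
      ((gbu u E hz (X ^ a * g + f))⁻¹ * (u ^ (a + b))⁻¹) =
      u ^ (a + b) * (gbu u E hz (X ^ b * f + g) * (gbu u E hz (X ^ a * g + f))⁻¹) *
        (u ^ (a + b))⁻¹ := by group
  rw [e4, gbu_inv, gbu_mul, gbx_conj' u E hz N hN0 hN]
  congr 1
  have e5 : X ^ b * f + g + -(X ^ a * g + f) = (X ^ b - 1) * f - (X ^ a - 1) * g := by ring
  rw [e5, hr, hs]
  ring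

theorem gb_geom (u : (Matrix (Fin n) (Fin n) R)ˣ) (E : Matrix (Fin n) (Fin n) R) 
    (hz : ∀ f g : ℤ[X], gqT u E f * gqT u E g = 0) (l : ℕ) :
    (u * gbu u E hz 1) ^ l = u ^ l * gbu u E hz (∑ i ∈ Finset.range l, X ^ i) := by
  induction l with
  | zero => rw [pow_zero, pow_zero, Finset.range_zero, Finset.sum_empty, gbu_zero, one_mul]
  | succ l ih =>
    rw [pow_succ, ih]
    have := gbNF_mul u E hz l 1 (∑ i ∈ Finset.range l, X ^ i) 1
    rw [pow_one, pow_one] at this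
    rw [this, geom_sum_succ]

end gb

theorem good_poly_block {p m n : ℕ} (hp : p.Prime) (hm : 1 ≤ m)
    (X X' E : Matrix (Fin n) (Fin n) (ZMod (p ^ m))) (h1 : X * X' = 1) (h2 : X' * X = 1)
    (hX : IsP p m n X) (r : ℕ) (hE : ∀ i j, E i j ≠ 0 → (i : ℕ) < r ∧ r ≤ (j : ℕ))
    (hXb : ∀ i j : Fin n, r ≤ (i : ℕ) → (j : ℕ) < r → X i j = 0)
    (hXb' : ∀ i j : Fin n, r ≤ (i : ℕ) → (j : ℕ) < r → X' i j = 0)
    (hreg : IsRegular p (PGroup p m n)) :
    ∃ F : Polynomial ℤ,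
      (∑ l ∈ Finset.range p, X' ^ l * E * X ^ l) - (p : ZMod (p ^ m)) • E -
        (p : ZMod (p ^ m)) • (F.sum fun j c => (c : ZMod (p ^ m)) •
          (X' ^ (j + 1) * E * X ^ (j + 1) - X' ^ j * E * X ^ j)) = 0 := by
  classical
  haveI : NeZero (p ^ m) := ⟨pow_ne_zero _ hp.ne_zero⟩
  obtain ⟨u, hux, huX⟩ := mem_of_isP hp hm X hX
  have huX' : ((u⁻¹ : (Matrix (Fin n) (Fin n) (ZMod (p ^ m)))ˣ) :
      Matrix (Fin n) (Fin n) (ZMod (p ^ m))) = X' := by
    calc ((u⁻¹ : (Matrix (Fin n) (Fin n) (ZMod (p ^ m)))ˣ) :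
      Matrix (Fin n) (Fin n) (ZMod (p ^ m))) = (u⁻¹ : (Matrix (Fin n) (Fin n) (ZMod (p ^ m)))ˣ) *
        (X * X') := by rw [h1, mul_one]
      _ = X' := by rw [← mul_assoc, ← huX, Units.inv_mul, one_mul]
  have hblk : ∀ f : Polynomial ℤ, ∀ i j, gqT u E f i j ≠ 0 → (i : ℕ) < r ∧ r ≤ (j : ℕ) := by
    have hmon : ∀ a : ℕ, ∀ i j, gqT u E (Polynomial.X ^ a) i j ≠ 0 → (i : ℕ) < r ∧ r ≤ (j : ℕ) := by
      intro a
      induction a with
      | zero =>
        intro i j hij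
        rw [gqT_Xpow] at hij
        simp only [pow_zero, one_mul, mul_one] at hij
        exact hE i j hij
      | succ a ih =>
        intro i j hij
        rw [pow_succ', gqT_X, huX, huX', Matrix.mul_apply] at hij
        obtain ⟨k, -, hk⟩ := Finset.exists_ne_zero_of_sum_ne_zero hij
        rw [Matrix.mul_apply, Finset.sum_mul] at hk
        obtain ⟨k', -, hk'⟩ := Finset.exists_ne_zero_of_sum_ne_zero hk
        have h3 : gqT u E (Polynomial.X ^ a) k' k ≠ 0 := by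
          intro h; rw [h] at hk'; simp at hk'
        have h4 : X' i k' ≠ 0 := by
          intro h; rw [h] at hk'; simp at hk'
        have h5 : X k j ≠ 0 := by
          intro h; rw [h] at hk'; simp at hk'
        obtain ⟨h6, h7⟩ := ih k' k h3
        constructor
        · by_contra hc
          push Not at hc
          exact h4 (hXb' i k' hc h6)
        · by_contra hc
          push Not at hc
          exact h5 (hXb k j h7 hc)
    intro f i j hij
    have h6 : f = ∑ l ∈ f.support, (Polynomial.C (f.coeff l) * Polynomial.X ^ l) :=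
      f.as_sum_support_C_mul_X_pow
    rw [h6, gqT_sum, Matrix.sum_apply] at hij
    obtain ⟨l, -, hl⟩ := Finset.exists_ne_zero_of_sum_ne_zero hij
    rw [gqT_C, Matrix.smul_apply, smul_eq_mul] at hl
    exact hmon l i j (right_ne_zero_of_mul hl)
  have hz : ∀ f g : Polynomial ℤ, gqT u E f * gqT u E g = 0 := by
    intro f g
    ext i j
    rw [Matrix.mul_apply, Matrix.zero_apply]
    apply Finset.sum_eq_zero
    intro k _
    by_contra hc
    have h3 := hblk f i k (left_ne_zero_of_mul hc)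
    have h4 := hblk g k j (right_ne_zero_of_mul hc)
    omega
  set N := Nat.card (Matrix (Fin n) (Fin n) (ZMod (p ^ m)))ˣ with hNd
  have hN0 : 0 < N := Nat.card_pos
  have hN : u ^ N = 1 := pow_card_eq_one'
  have huu : ∀ f, gbu u E hz f ∈ PGroup p m n := by
    intro f
    have hA : IsP p m n (1 + gqT u E f) := by
      refine ⟨fun i => ?_, fun i j hij => ?_⟩
      · have h3 : gqT u E f i i = 0 := by
          by_contra hc
          have := hblk f i i hc
          omega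
        rw [Matrix.add_apply, Matrix.one_apply_eq, add_sub_cancel_left, h3]
        exact dvd_zero _
      · have h3 : gqT u E f i j = 0 := by
          by_contra hc
          have := hblk f i j hc
          have h4 : (j : ℕ) < i := hij
          omega
        rw [Matrix.add_apply, Matrix.one_apply_ne (ne_of_gt hij), zero_add, h3]
        exact dvd_zero _
    obtain ⟨g, hg, hgA⟩ := mem_of_isP hp hm _ hA
    have : g = gbu u E hz f := Units.ext hgA
    rwa [← this]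
  set x : PGroup p m n := ⟨u, hux⟩ with hx
  set y : PGroup p m n := ⟨gbu u E hz 1, huu 1⟩ with hy
  obtain ⟨l, hl, heq⟩ := hreg x y
  -- elements of the closure are in normal form
  have hNF : ∀ h ∈ Subgroup.closure ({x, y} : Set (PGroup p m n)),
      gbNF u E hz (h : (Matrix (Fin n) (Fin n) (ZMod (p ^ m)))ˣ) := by
    intro h hh
    induction hh using Subgroup.closure_induction with
    | mem z hz =>
      rcases hz with rfl | hz
      · exact ⟨1, 0, by rw [gbu_zero, mul_one, pow_one]⟩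
      · rw [Set.mem_singleton_iff] at hz
        subst hz
        exact ⟨0, 1, by rw [pow_zero, one_mul]⟩
    | one => exact ⟨0, 0, by rw [gbu_zero, mul_one, pow_zero]; rfl⟩
    | mul a b _ _ iha ihb =>
      obtain ⟨a1, f1, h1⟩ := iha
      obtain ⟨a2, f2, h2⟩ := ihb
      refine ⟨a1 + a2, Polynomial.X ^ a2 * f1 + f2, ?_⟩
      rw [← gbNF_mul, ← h1, ← h2]
      rfl
    | inv a _ iha => exact gbNF_inv u E hz N hN0 hN iha
  let B : Subgroup (PGroup p m n) :=
    { carrier := {g | ∃ w : Polynomial ℤ, (g : (Matrix (Fin n) (Fin n) (ZMod (p ^ m)))ˣ) =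
        gbu u E hz ((Polynomial.X - 1) * w)}
      one_mem' := ⟨0, by rw [mul_zero, gbu_zero]; rfl⟩
      mul_mem' := by
        rintro a b ⟨w1, h1⟩ ⟨w2, h2⟩
        refine ⟨w1 + w2, ?_⟩
        rw [mul_add, ← gbu_mul, ← h1, ← h2]
        rfl
      inv_mem' := by
        rintro a ⟨w, h⟩
        refine ⟨-w, ?_⟩
        rw [mul_neg, ← gbu_inv, ← h]
        rfl }
  have hcom : ⁅Subgroup.closure ({x, y} : Set (PGroup p m n)),
      Subgroup.closure ({x, y} : Set (PGroup p m n))⁆ ≤ B := by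
    rw [Subgroup.commutator_le]
    intro g1 h1 g2 h2
    obtain ⟨w, hw⟩ := gb_comm u E hz N hN0 hN (hNF g1 h1) (hNF g2 h2)
    exact ⟨w, hw⟩
  have hprod : ∀ l : List (PGroup p m n), (∀ c ∈ l, c ∈ B) → ∃ F : Polynomial ℤ,
      (((l.map (fun c => c ^ p)).prod : PGroup p m n) :
        (Matrix (Fin n) (Fin n) (ZMod (p ^ m)))ˣ) =
        gbu u E hz ((p : Polynomial ℤ) * ((Polynomial.X - 1) * F)) := by
    intro l
    induction l with
    | nil =>
      intro _
      refine ⟨0, ?_⟩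
      rw [mul_zero, mul_zero, gbu_zero]
      rfl
    | cons c l ih =>
      intro hcl
      obtain ⟨F, hF⟩ := ih fun c' hc' => hcl c' (List.mem_cons_of_mem _ hc')
      obtain ⟨w, hw⟩ := hcl c List.mem_cons_self
      refine ⟨w + F, ?_⟩
      rw [List.map_cons, List.prod_cons, Subgroup.coe_mul, Subgroup.coe_pow, hF, hw, gbu_pow,
        gbu_mul]
      congr 1
      ring
  obtain ⟨F, hF⟩ := hprod l fun c hc => hcom (hl c hc)
  have h3 := congrArg (fun g : PGroup p m n =>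
    (g : (Matrix (Fin n) (Fin n) (ZMod (p ^ m)))ˣ)) heq
  simp only [Subgroup.coe_mul, Subgroup.coe_pow] at h3
  rw [hF] at h3
  change (u * gbu u E hz 1) ^ p = u ^ p * (gbu u E hz 1) ^ p *
    gbu u E hz ((p : Polynomial ℤ) * ((Polynomial.X - 1) * F)) at h3
  rw [gb_geom, gbu_pow, mul_assoc, gbu_mul, mul_right_inj, mul_one] at h3
  refine ⟨F, ?_⟩
  have h4 := congrArg (fun g : (Matrix (Fin n) (Fin n) (ZMod (p ^ m)))ˣ =>
    (g : Matrix (Fin n) (Fin n) (ZMod (p ^ m)))) h3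
  change (1 + gqT u E _) = (1 + gqT u E _) at h4
  rw [add_right_inj] at h4
  have e1 : gqT u E (∑ i ∈ Finset.range p, Polynomial.X ^ i) =
      ∑ l ∈ Finset.range p, X' ^ l * E * X ^ l := by
    rw [gqT_sum]
    apply Finset.sum_congr rfl
    intro l _
    rw [gqT_Xpow, huX', huX]
  have e2 : gqT u E ((p : Polynomial ℤ)) = (p : ZMod (p ^ m)) • E := by
    have := gqT_C u E (p : ℤ) 1
    simp only [mul_one] at this
    have h0 : gqT u E 1 = E := by simp [gqT]
    rw [h0] at this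
    simpa using this
  have e3 : gqT u E ((p : Polynomial ℤ) * ((Polynomial.X - 1) * F)) =
      (p : ZMod (p ^ m)) • (F.sum fun j c => (c : ZMod (p ^ m)) •
          (X' ^ (j + 1) * E * X ^ (j + 1) - X' ^ j * E * X ^ j)) := by
    have h5 := gqT_C u E (p : ℤ) ((Polynomial.X - 1) * F)
    have h9 : (Polynomial.C ((p : ℤ)) : Polynomial ℤ) = (p : Polynomial ℤ) := by simp
    rw [h9, Int.cast_natCast] at h5
    rw [h5]
    congr 1
    have h6 : (Polynomial.X - 1) * F = ∑ j ∈ F.support,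
        (Polynomial.C (F.coeff j) * (Polynomial.X ^ (j + 1) + (-1 : Polynomial ℤ) * Polynomial.X ^ j)) := by
      conv_lhs => rw [F.as_sum_support_C_mul_X_pow]
      rw [Finset.mul_sum]
      apply Finset.sum_congr rfl
      intro j _
      ring
    rw [h6, gqT_sum, Polynomial.sum_def]
    apply Finset.sum_congr rfl
    intro j _
    rw [gqT_C]
    congr 1
    have h7 := gqT_C u E (-1 : ℤ) (Polynomial.X ^ j)
    rw [gqT_add]
    have h8 : (-1 : Polynomial ℤ) = Polynomial.C (-1 : ℤ) := by simp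
    rw [h8, h7, gqT_Xpow, gqT_Xpow, huX', huX]
    push_cast
    rw [neg_one_smul, sub_eq_add_neg]
  rw [gqT_add, e1, e2, e3] at h4
  rw [h4]
  abel

end Pool.Agent.Helper431.PN
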