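import Mathlib
import Pool.Agent.Helper431.PN.Base
import Pool.Agent.Helper431.PN.B1

namespace Pool.Agent.Helper431.PN






/-- the expression of `good_poly_block` -/
noncomputable def q5G {R : Type*} [CommRing R] {n : ℕ} (p : ℕ) (F : Polynomial ℤ)
    (X X' E : Matrix (Fin n) (Fin n) R) : Matrix (Fin n) (Fin n) R :=
  (∑ l ∈ Finset.range p, X' ^ l * E * X ^ l) - (p : R) • E -
        (p : R) • (F.sum fun j c => (c : R) •
          (X' ^ (j + 1) * E * X ^ (j + 1) - X' ^ j * E * X ^ j))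

theorem q5G_map {R S : Type*} [CommRing R] [CommRing S] {n : ℕ} (p : ℕ) (F : Polynomial ℤ)
    (X X' E : Matrix (Fin n) (Fin n) R) (g : R →+* S) :
    g.mapMatrix (q5G p F X X' E) =
      q5G p F (g.mapMatrix X) (g.mapMatrix X') (g.mapMatrix E) := by
  have hs : ∀ (a : R) (M : Matrix (Fin n) (Fin n) R),
      g.mapMatrix (a • M) = g a • g.mapMatrix M := by
    intro a M
    ext i j
    simp
  unfold q5G
  rw [Polynomial.sum_def, Polynomial.sum_def]
  simp only [hs, map_sub, map_mul, map_pow, map_sum, map_natCast, map_intCast]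

/-- the uniformizer matrix -/
def q5Pi (n : ℕ) {R : Type*} [CommRing R] (c : R) : Matrix (Fin n) (Fin n) R :=
  Matrix.of fun i j => if (i : ℕ) + 1 = j then 1 else if (i : ℕ) + 1 = n ∧ (j : ℕ) = 0 then c else 0

theorem q5Pi_map {R S : Type*} [CommRing R] [CommRing S] (n : ℕ) (g : R →+* S) (c : R) :
    g.mapMatrix (q5Pi n c) = q5Pi n (g c) := by
  ext i j
  simp only [q5Pi, RingHom.mapMatrix_apply, Matrix.map_apply, Matrix.of_apply]
  split_ifs <;> simp

theorem q5_right {K : Type*} [Field K] {n : ℕ} (β c : K) (h : β ^ n = c) :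
    Matrix.mulVec (q5Pi n c) (fun i : Fin n => β ^ (i : ℕ)) =
      β • (fun i : Fin n => β ^ (i : ℕ)) := by
  funext i
  show ∑ j : Fin n, q5Pi n c i j * β ^ (j : ℕ) = β * β ^ (i : ℕ)
  have hin := i.2
  by_cases hi : (i : ℕ) + 1 = n
  · rw [Finset.sum_eq_single (⟨0, by omega⟩ : Fin n)]
    · simp only [q5Pi, Matrix.of_apply]
      rw [if_neg (by omega), if_pos ⟨hi, trivial⟩, pow_zero, mul_one, ← pow_succ', hi, h]
    · intro j _ hj
      have hjn := j.2
      simp only [q5Pi, Matrix.of_apply]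
      rw [if_neg (by omega), if_neg, zero_mul]
      rintro ⟨_, h1⟩
      apply hj
      apply Fin.ext
      exact h1
    · intro h
      exact absurd (Finset.mem_univ _) h
  · rw [Finset.sum_eq_single (⟨(i : ℕ) + 1, by omega⟩ : Fin n)]
    · simp only [q5Pi, Matrix.of_apply]
      rw [if_pos trivial, one_mul, ← pow_succ']
    · intro j _ hj
      simp only [q5Pi, Matrix.of_apply]
      rw [if_neg, if_neg (by omega), zero_mul]
      intro h1
      apply hj
      apply Fin.ext
      exact h1.symm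
    · intro h
      exact absurd (Finset.mem_univ _) h

theorem q5_sum {K : Type*} [NormedField K] (hna : IsNonarchimedean (fun x : K => ‖x‖))
    {ι : Type*} (s : Finset ι) (f : ι → K) (C : ℝ) (hC : 0 ≤ C) (h : ∀ i ∈ s, ‖f i‖ ≤ C) :
    ‖∑ i ∈ s, f i‖ ≤ C := by
  classical
  induction s using Finset.induction_on with
  | empty => simpa using hC
  | insert a s ha ih =>
    rw [Finset.sum_insert ha]
    refine (hna _ _).trans (max_le ?_ ?_)
    · exact h a (Finset.mem_insert_self _ _)
    · exact ih fun i hi => h i (Finset.mem_insert_of_mem hi)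

theorem q5_unit {p n : ℕ} [Fact p.Prime] :
    IsUnit (1 + q5Pi n (p : ℤ_[p])).det := by
  by_contra hu
  have h1 : (1 + q5Pi n (p : ℤ_[p])).det ∈ IsLocalRing.maximalIdeal ℤ_[p] := by
    rw [IsLocalRing.mem_maximalIdeal]
    exact hu
  rw [← PadicInt.ker_toZMod, RingHom.mem_ker, RingHom.map_det, map_add, map_one, q5Pi_map] at h1
  have h2 : (1 + q5Pi n (PadicInt.toZMod (p : ℤ_[p]))).det = 1 := by
    have hp0 : PadicInt.toZMod (p : ℤ_[p]) = 0 := by
      rw [map_natCast, ZMod.natCast_self]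
    rw [hp0, Matrix.det_of_isUpperTriangular]
    · refine Finset.prod_eq_one fun i _ => ?_
      rw [Matrix.add_apply, Matrix.one_apply_eq]
      simp [q5Pi]
    · intro i j hij
      have hji : j < i := hij
      have hij' : (j : ℕ) < i := hji
      show (1 : Matrix (Fin n) (Fin n) (ZMod p)) i j + q5Pi n (0 : ZMod p) i j = 0
      rw [Matrix.one_apply_ne (ne_of_gt hji)]
      simp only [q5Pi, Matrix.of_apply]
      rw [if_neg (by omega)]
      simp
  rw [h2] at h1
  exact one_ne_zero h1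

/-- `1 + N` -/
def q5U (r : ℕ) (R : Type*) [CommRing R] : Matrix (Fin r) (Fin r) R :=
  1 + Matrix.of fun i j : Fin r => if (i : ℕ) + 1 = j then (1 : R) else 0

/-- `(1 + N)⁻¹` -/
def q5V (r : ℕ) (R : Type*) [CommRing R] : Matrix (Fin r) (Fin r) R :=
  Matrix.of fun i j : Fin r => if (i : ℕ) ≤ j then (-1 : R) ^ ((j : ℕ) - i) else 0

theorem q5U_map {R S : Type*} [CommRing R] [CommRing S] (r : ℕ) (g : R →+* S) :
    g.mapMatrix (q5U r R) = q5U r S := by
  unfold q5U
  rw [map_add, map_one]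
  congr 1
  ext i j
  simp only [RingHom.mapMatrix_apply, Matrix.map_apply, Matrix.of_apply]
  split_ifs <;> simp

theorem q5V_map {R S : Type*} [CommRing R] [CommRing S] (r : ℕ) (g : R →+* S) :
    g.mapMatrix (q5V r R) = q5V r S := by
  unfold q5V
  ext i j
  simp only [RingHom.mapMatrix_apply, Matrix.map_apply, Matrix.of_apply]
  split_ifs <;> simp

theorem q5_N_mul {R : Type*} [CommRing R] {r : ℕ} (w : Fin r → R) (i : Fin r) :
    Matrix.mulVec (Matrix.of fun i j : Fin r => if (i : ℕ) + 1 = j then (1 : R) else 0) w i =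
      if h : (i : ℕ) + 1 < r then w ⟨(i : ℕ) + 1, h⟩ else 0 := by
  show ∑ j : Fin r, (Matrix.of fun i j : Fin r => if (i : ℕ) + 1 = j then (1 : R) else 0) i j * w j
    = _
  split_ifs with h
  · rw [Finset.sum_eq_single (⟨(i : ℕ) + 1, h⟩ : Fin r)]
    · simp
    · intro j _ hj
      rw [Matrix.of_apply, if_neg, zero_mul]
      intro h1
      apply hj
      apply Fin.ext
      exact h1.symm
    · intro h
      exact absurd (Finset.mem_univ _) h
  · refine Finset.sum_eq_zero fun j _ => ?_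
    have := j.2
    rw [Matrix.of_apply, if_neg (by omega), zero_mul]

theorem q5_UV {R : Type*} [CommRing R] (r : ℕ) : q5U r R * q5V r R = 1 := by
  ext i j
  have h0 : (q5U r R * q5V r R) i j = Matrix.mulVec (q5U r R) (fun k => q5V r R k j) i := rfl
  rw [h0]
  unfold q5U
  rw [Matrix.add_mulVec, Matrix.one_mulVec, Pi.add_apply, q5_N_mul]
  simp only [q5V, Matrix.of_apply, Matrix.one_apply, Fin.ext_iff]
  have hi := i.2
  have hj := j.2
  split_ifs with h1 h2 h3 h4 h5 h6 h7 h8 h9 <;> first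
    | omega
    | (exfalso; omega)
    | skip
  all_goals first
    | (simp; done)
    | (have e1 : (j : ℕ) - i = ((j : ℕ) - (i + 1)) + 1 := by omega
       rw [e1, pow_succ]; ring)
    | (have e1 : (j : ℕ) - i = 0 := by omega
       rw [e1]; simp)

theorem q5_VU {R : Type*} [CommRing R] (r : ℕ) : q5V r R * q5U r R = 1 :=
  mul_eq_one_comm.1 (q5_UV r)

theorem q5_Upow {R : Type*} [CommRing R] {r : ℕ} (j : ℕ) (i : Fin r) :
    Matrix.mulVec (q5U r R ^ j) (fun i : Fin r => if (i : ℕ) + 1 = r then (1 : R) else 0) i =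
      (Nat.choose j (r - 1 - (i : ℕ)) : R) := by
  induction j generalizing i with
  | zero =>
    have hi := i.2
    rw [pow_zero, Matrix.one_mulVec]
    split_ifs with h
    · have : r - 1 - (i : ℕ) = 0 := by omega
      rw [this]; simp
    · have : 0 < r - 1 - (i : ℕ) := by omega
      rw [Nat.choose_eq_zero_of_lt this]; simp
  | succ j ih =>
    have hi := i.2
    rw [pow_succ', ← Matrix.mulVec_mulVec]
    have e : Matrix.mulVec (q5U r R ^ j) (fun i : Fin r => if (i : ℕ) + 1 = r then (1 : R) else 0) =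
        fun i : Fin r => (Nat.choose j (r - 1 - (i : ℕ)) : R) := funext ih
    rw [e]
    conv_lhs => unfold q5U
    rw [Matrix.add_mulVec, Matrix.one_mulVec, Pi.add_apply, q5_N_mul]
    split_ifs with h
    · have e2 : r - 1 - (i : ℕ) = (r - 1 - ((i : ℕ) + 1)) + 1 := by omega
      simp only
      rw [e2, Nat.choose_succ_succ]
      push_cast
      ring
    · have e2 : r - 1 - (i : ℕ) = 0 := by omega
      rw [e2]; simp

/-- block matrices -/
def q5B {R : Type*} [CommRing R] {r u : ℕ} (A : Matrix (Fin r) (Fin r) R)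
    (B : Matrix (Fin r) (Fin u) R) (D : Matrix (Fin u) (Fin u) R) :
    Matrix (Fin (r + u)) (Fin (r + u)) R :=
  Matrix.reindexAlgEquiv ℤ R finSumFinEquiv (Matrix.fromBlocks A B 0 D)

theorem q5B_mul {R : Type*} [CommRing R] {r u : ℕ} (A A' : Matrix (Fin r) (Fin r) R)
    (B B' : Matrix (Fin r) (Fin u) R) (D D' : Matrix (Fin u) (Fin u) R) :
    q5B A B D * q5B A' B' D' = q5B (A * A') (A * B' + B * D') (D * D') := by
  unfold q5B
  rw [← map_mul, Matrix.fromBlocks_multiply]
  simp

theorem q5B_one {R : Type*} [CommRing R] {r u : ℕ} :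
    q5B (1 : Matrix (Fin r) (Fin r) R) 0 (1 : Matrix (Fin u) (Fin u) R) = 1 := by
  unfold q5B
  rw [Matrix.fromBlocks_one, map_one]

theorem q5B_pow {R : Type*} [CommRing R] {r u : ℕ} (A : Matrix (Fin r) (Fin r) R)
    (D : Matrix (Fin u) (Fin u) R) (j : ℕ) : (q5B A 0 D) ^ j = q5B (A ^ j) 0 (D ^ j) := by
  induction j with
  | zero => rw [pow_zero, pow_zero, pow_zero, q5B_one]
  | succ j ih => rw [pow_succ, ih, q5B_mul, pow_succ, pow_succ]; simp

theorem q5B_ll {R : Type*} [CommRing R] {r u : ℕ} (A : Matrix (Fin r) (Fin r) R)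
    (B : Matrix (Fin r) (Fin u) R) (D : Matrix (Fin u) (Fin u) R) (i j : Fin r) :
    q5B A B D (Fin.castAdd u i) (Fin.castAdd u j) = A i j := by
  simp [q5B, Matrix.coe_reindexAlgEquiv]

theorem q5B_lr {R : Type*} [CommRing R] {r u : ℕ} (A : Matrix (Fin r) (Fin r) R)
    (B : Matrix (Fin r) (Fin u) R) (D : Matrix (Fin u) (Fin u) R) (i : Fin r) (j : Fin u) :
    q5B A B D (Fin.castAdd u i) (Fin.natAdd r j) = B i j := by
  simp [q5B, Matrix.coe_reindexAlgEquiv]

theorem q5B_rl {R : Type*} [CommRing R] {r u : ℕ} (A : Matrix (Fin r) (Fin r) R)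
    (B : Matrix (Fin r) (Fin u) R) (D : Matrix (Fin u) (Fin u) R) (i : Fin u) (j : Fin r) :
    q5B A B D (Fin.natAdd r i) (Fin.castAdd u j) = 0 := by
  simp [q5B, Matrix.coe_reindexAlgEquiv]

theorem q5B_rr {R : Type*} [CommRing R] {r u : ℕ} (A : Matrix (Fin r) (Fin r) R)
    (B : Matrix (Fin r) (Fin u) R) (D : Matrix (Fin u) (Fin u) R) (i j : Fin u) :
    q5B A B D (Fin.natAdd r i) (Fin.natAdd r j) = D i j := by
  simp [q5B, Matrix.coe_reindexAlgEquiv]

theorem q5B_map {R S : Type*} [CommRing R] [CommRing S] {r u : ℕ} (g : R →+* S)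
    (A : Matrix (Fin r) (Fin r) R)
    (B : Matrix (Fin r) (Fin u) R) (D : Matrix (Fin u) (Fin u) R) :
    g.mapMatrix (q5B A B D) = q5B (g.mapMatrix A) (B.map g) (g.mapMatrix D) := by
  ext i j
  refine Fin.addCases (fun i => ?_) (fun i => ?_) i <;>
    refine Fin.addCases (fun j => ?_) (fun j => ?_) j
  · rw [q5B_ll, RingHom.mapMatrix_apply, Matrix.map_apply, q5B_ll]; rfl
  · rw [q5B_lr, RingHom.mapMatrix_apply, Matrix.map_apply, q5B_lr]; rfl
  · rw [q5B_rl, RingHom.mapMatrix_apply, Matrix.map_apply, q5B_rl, map_zero]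
  · rw [q5B_rr, RingHom.mapMatrix_apply, Matrix.map_apply, q5B_rr]; rfl

/-- the corner matrix unit -/
def q5E (r u : ℕ) (R : Type*) [CommRing R] : Matrix (Fin r) (Fin u) R :=
  Matrix.of fun i j => if (i : ℕ) + 1 = r ∧ (j : ℕ) = 0 then 1 else 0

theorem q5E_map {R S : Type*} [CommRing R] [CommRing S] (r u : ℕ) (g : R →+* S) :
    (q5E r u R).map g = q5E r u S := by
  ext i j
  simp only [q5E, Matrix.map_apply, Matrix.of_apply]
  split_ifs <;> simp

theorem q5E_vec {K : Type*} [Field K] {r u : ℕ} (hu : 1 ≤ u) (β : K) :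
    Matrix.mulVec (q5E r u K) (fun i : Fin u => β ^ (i : ℕ)) =
      fun i : Fin r => if (i : ℕ) + 1 = r then 1 else 0 := by
  funext i
  show ∑ j : Fin u, q5E r u K i j * β ^ (j : ℕ) = _
  rw [Finset.sum_eq_single (⟨0, by omega⟩ : Fin u)]
  · simp only [q5E, Matrix.of_apply, pow_zero, mul_one, and_true]
  · intro j _ hj
    simp only [q5E, Matrix.of_apply]
    rw [if_neg, zero_mul]
    rintro ⟨_, h1⟩
    apply hj
    apply Fin.ext
    exact h1
  · intro h
    exact absurd (Finset.mem_univ _) h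

/-- the functional -/
noncomputable def q5L {K : Type*} [Field K] {r u : ℕ} (i0 : Fin r) (β : K) :
    Matrix (Fin (r + u)) (Fin (r + u)) K →ₗ[K] K :=
  { toFun := fun M => ∑ j : Fin u, M (Fin.castAdd u i0) (Fin.natAdd r j) * β ^ (j : ℕ)
    map_add' := by
      intro M N
      simp [add_mul, Finset.sum_add_distrib]
    map_smul' := by
      intro c M
      simp [Finset.mul_sum, mul_assoc] }

theorem q5L_pow {K : Type*} [Field K] {r u : ℕ} (hu : 1 ≤ u) (i0 : Fin r) (β c : K)
    (hβ : β ^ u = c)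
    (V' : Matrix (Fin u) (Fin u) K) (U' : Matrix (Fin r) (Fin r) K) (j : ℕ) :
    q5L i0 β ((q5B (q5U r K) 0 V') ^ j * q5B 0 (q5E r u K) 0 * (q5B U' 0 (1 + q5Pi u c)) ^ j) =
      (Nat.choose j (r - 1 - (i0 : ℕ)) : K) * (1 + β) ^ j := by
  have hr : Matrix.mulVec (1 + q5Pi u c) (fun i : Fin u => β ^ (i : ℕ)) =
      (1 + β) • (fun i : Fin u => β ^ (i : ℕ)) := by
    rw [Matrix.add_mulVec, Matrix.one_mulVec, add_smul, one_smul]
    congr 1
    exact q5_right β c hβ
  have hrj : ∀ j, Matrix.mulVec ((1 + q5Pi u c) ^ j) (fun i : Fin u => β ^ (i : ℕ)) =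
      (1 + β) ^ j • (fun i : Fin u => β ^ (i : ℕ)) := by
    intro j
    induction j with
    | zero => simp
    | succ j ih =>
      rw [pow_succ', ← Matrix.mulVec_mulVec, ih, Matrix.mulVec_smul, hr, smul_smul, pow_succ]
  have h1 : (q5B (q5U r K) 0 V') ^ j * q5B 0 (q5E r u K) 0 * (q5B U' 0 (1 + q5Pi u c)) ^ j =
      q5B 0 (q5U r K ^ j * q5E r u K * (1 + q5Pi u c) ^ j) 0 := by
    rw [q5B_pow, q5B_pow, q5B_mul, q5B_mul]
    simp
  rw [h1]
  show ∑ k : Fin u, q5B 0 (q5U r K ^ j * q5E r u K * (1 + q5Pi u c) ^ j) 0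
    (Fin.castAdd u i0) (Fin.natAdd r k) * β ^ (k : ℕ) = _
  simp only [q5B_lr]
  have h2 : ∀ M : Matrix (Fin r) (Fin u) K, ∑ k : Fin u, M i0 k * β ^ (k : ℕ) =
      Matrix.mulVec M (fun i : Fin u => β ^ (i : ℕ)) i0 := fun M => rfl
  rw [h2, ← Matrix.mulVec_mulVec, hrj, Matrix.mulVec_smul, ← Matrix.mulVec_mulVec, q5E_vec hu,
    Pi.smul_apply, q5_Upow, smul_eq_mul, mul_comm]

/-- the polynomial side -/
noncomputable def q5T {K : Type*} [Field K] (l : ℕ) (β : K) : Polynomial K →ₗ[K] K :=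
  ((1 + β) ^ l) • ((Polynomial.leval (1 + β)).comp (Polynomial.hasseDeriv l))

theorem q5T_pow {K : Type*} [Field K] (l : ℕ) (β : K) (j : ℕ) :
    q5T l β (Polynomial.X ^ j) = (Nat.choose j l : K) * (1 + β) ^ j := by
  unfold q5T
  rw [LinearMap.smul_apply, LinearMap.comp_apply, Polynomial.X_pow_eq_monomial,
    Polynomial.hasseDeriv_monomial, Polynomial.leval_apply, Polynomial.eval_monomial, smul_eq_mul]
  by_cases h : l ≤ j
  · have e : (1 + β) ^ j = (1 + β) ^ l * (1 + β) ^ (j - l) := by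
      rw [← pow_add]; congr 1; omega
    rw [e]; ring
  · rw [Nat.choose_eq_zero_of_lt (by omega)]; simp

theorem q5T_comp {K : Type*} [Field K] (l : ℕ) (β : K) (G : Polynomial K) :
    (1 + β) ^ l * (Polynomial.hasseDeriv l (G.comp (1 + Polynomial.X))).eval β = q5T l β G := by
  unfold q5T
  rw [LinearMap.smul_apply, LinearMap.comp_apply, Polynomial.leval_apply, smul_eq_mul]
  congr 1
  rw [← Polynomial.taylor_coeff, ← Polynomial.taylor_coeff]
  have : G.comp (1 + Polynomial.X) = Polynomial.taylor 1 G := by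
    rw [Polynomial.taylor_apply, Polynomial.C_1, add_comm]
  rw [this, Polynomial.taylor_taylor, add_comm]

/-- TARGET -/
theorem block_eval {p m r u : ℕ} [Fact p.Prime] (hm : 1 ≤ m) (hr : 1 ≤ r) (hu : 1 ≤ u)
    (hreg : IsRegular p (PGroup p m (r + u)))
    {K : Type} [NormedField K] (hna : IsNonarchimedean (fun x : K => ‖x‖))
    (φ : ℤ_[p] →+* K) (hφ : ∀ x, ‖φ x‖ = ‖x‖) :
    ∃ F : Polynomial ℤ, ∀ l < r, ∀ β : K, β ^ u = p →
      ‖(Polynomial.hasseDeriv l ((∑ i ∈ Finset.range p, (1 + Polynomial.X) ^ i -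
        Polynomial.C (p : ℤ) - Polynomial.C (p : ℤ) * Polynomial.X *
          F.comp (1 + Polynomial.X) : Polynomial ℤ).map (Int.castRingHom K))).eval β‖ ≤
        ‖(p : K)‖ ^ m := by
  have hp : p.Prime := Fact.out
  set V : Matrix (Fin u) (Fin u) ℤ_[p] := 1 + q5Pi u (p : ℤ_[p]) with hVdef
  have hun : IsUnit V.det := q5_unit
  have hVV : V * V⁻¹ = 1 := Matrix.mul_nonsing_inv V hun
  have hVV' : V⁻¹ * V = 1 := Matrix.nonsing_inv_mul V hun
  generalize hX'def : V⁻¹ = V' at hVV hVV'
  let X : Matrix (Fin (r + u)) (Fin (r + u)) ℤ_[p] := q5B (q5V r ℤ_[p]) 0 V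
  let X' : Matrix (Fin (r + u)) (Fin (r + u)) ℤ_[p] := q5B (q5U r ℤ_[p]) 0 V'
  let E : Matrix (Fin (r + u)) (Fin (r + u)) ℤ_[p] := q5B 0 (q5E r u ℤ_[p]) 0
  have hXX : X * X' = 1 := by
    show q5B _ _ _ * q5B _ _ _ = 1
    rw [q5B_mul, q5_VU, hVV]
    simp [q5B_one]
  have hXX' : X' * X = 1 := by
    show q5B _ _ _ * q5B _ _ _ = 1
    rw [q5B_mul, q5_UV, hVV']
    simp [q5B_one]
  let f := (PadicInt.toZModPow (p := p) m).mapMatrix (m := Fin (r + u))
  have hfX0 : f X = q5B (q5V r (ZMod (p ^ m))) 0 (1 + q5Pi u (p : ZMod (p ^ m))) := by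
    show (PadicInt.toZModPow (p := p) m).mapMatrix (q5B _ _ _) = _
    rw [q5B_map, q5V_map, hVdef, map_add, map_one, q5Pi_map, map_natCast]
    simp
  have hfX'0 : f X' = q5B (q5U r (ZMod (p ^ m))) 0
      ((PadicInt.toZModPow (p := p) m).mapMatrix V') := by
    show (PadicInt.toZModPow (p := p) m).mapMatrix (q5B _ _ _) = _
    rw [q5B_map, q5U_map]
    simp
  have hfE0 : f E = q5B 0 (q5E r u (ZMod (p ^ m))) 0 := by
    show (PadicInt.toZModPow (p := p) m).mapMatrix (q5B _ _ _) = _
    rw [q5B_map, q5E_map]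
    simp
  have hfX : IsP p m (r + u) (f X) := by
    rw [hfX0]
    constructor
    · intro i
      refine Fin.addCases (fun i => ?_) (fun i => ?_) i
      · rw [q5B_ll]
        simp [q5V]
      · rw [q5B_rr, Matrix.add_apply, Matrix.one_apply_eq]
        simp only [q5Pi, Matrix.of_apply]
        rw [if_neg (by omega)]
        split_ifs
        · simp
        · simp
    · intro i j
      refine Fin.addCases (fun i => ?_) (fun i => ?_) i <;>
        refine Fin.addCases (fun j => ?_) (fun j => ?_) j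
      · intro hij
        have hij' : (j : ℕ) < i := hij
        rw [q5B_ll]
        simp only [q5V, Matrix.of_apply]
        rw [if_neg (by omega)]
        exact dvd_zero _
      · intro hij
        exfalso
        have hij' : r + (j : ℕ) < (i : ℕ) := hij
        have := i.2
        omega
      · intro _
        rw [q5B_rl]
        exact dvd_zero _
      · intro hij
        have hij' : r + (j : ℕ) < r + (i : ℕ) := hij
        have hne : i ≠ j := by
          intro h
          rw [h] at hij'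
          omega
        rw [q5B_rr, Matrix.add_apply, Matrix.one_apply_ne hne, zero_add]
        simp only [q5Pi, Matrix.of_apply]
        rw [if_neg (by omega)]
        split_ifs
        · exact dvd_refl _
        · exact dvd_zero _
  have hf1 : f X * f X' = 1 := by rw [← map_mul, hXX, map_one]
  have hf2 : f X' * f X = 1 := by rw [← map_mul, hXX', map_one]
  have hblk : ∀ (A : Matrix (Fin r) (Fin r) (ZMod (p ^ m))) (B : Matrix (Fin r) (Fin u) _)
      (D : Matrix (Fin u) (Fin u) _) (i j : Fin (r + u)), r ≤ (i : ℕ) → (j : ℕ) < r →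
      q5B A B D i j = 0 := by
    intro A B D i j
    refine Fin.addCases (fun i => ?_) (fun i => ?_) i <;>
      refine Fin.addCases (fun j => ?_) (fun j => ?_) j
    · intro h1 h2
      have h3 : r ≤ (i : ℕ) := h1
      have := i.2
      omega
    · intro h1 h2
      have h3 : r ≤ (i : ℕ) := h1
      have := i.2
      omega
    · intro _ _
      exact q5B_rl _ _ _ _ _
    · intro h1 h2
      have h3 : r + (j : ℕ) < r := h2
      omega
  have hEE : ∀ i j, f E i j ≠ 0 → (i : ℕ) < r ∧ r ≤ (j : ℕ) := by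
    rw [hfE0]
    intro i j
    refine Fin.addCases (fun i => ?_) (fun i => ?_) i <;>
      refine Fin.addCases (fun j => ?_) (fun j => ?_) j
    · intro h
      rw [q5B_ll] at h
      exact absurd rfl h
    · intro _
      refine ⟨?_, ?_⟩
      · show (i : ℕ) < r
        exact i.2
      · show r ≤ r + (j : ℕ)
        omega
    · intro h
      rw [q5B_rl] at h
      exact absurd rfl h
    · intro h
      rw [q5B_rr] at h
      exact absurd rfl h
  obtain ⟨F, hF⟩ := good_poly_block hp hm (f X) (f X') (f E) hf1 hf2 hfX r hEE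
    (by rw [hfX0]; exact hblk _ _ _) (by rw [hfX'0]; exact hblk _ _ _) hreg
  refine ⟨F, fun l hl β hβ => ?_⟩
  have hF' : f (q5G p F X X' E) = 0 := by
    show (PadicInt.toZModPow (p := p) m).mapMatrix _ = 0
    rw [q5G_map]
    exact hF
  have hdiv : ∀ i j, ∃ c : ℤ_[p], q5G p F X X' E i j = (p : ℤ_[p]) ^ m * c := by
    intro i j
    have h1 : PadicInt.toZModPow m (q5G p F X X' E i j) = 0 := by
      have := congrFun (congrFun hF' i) j
      exact this
    have h2 : q5G p F X X' E i j ∈ RingHom.ker (PadicInt.toZModPow (p := p) m) := h1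
    rw [PadicInt.ker_toZModPow, Ideal.mem_span_singleton] at h2
    obtain ⟨c, hc⟩ := h2
    exact ⟨c, hc⟩
  have hpn : ‖(p : K)‖ = ‖(p : ℤ_[p])‖ := by
    rw [← hφ, map_natCast]
  have hp1 : ‖(p : K)‖ < 1 := by
    rw [hpn, PadicInt.norm_p]
    exact inv_lt_one_of_one_lt₀ (by exact_mod_cast hp.one_lt)
  have hβlt : ‖β‖ < 1 := by
    by_contra h
    push Not at h
    have h1 : 1 ≤ ‖β‖ ^ u := one_le_pow₀ h
    rw [← norm_pow, hβ] at h1
    linarith
  have hβ1 : ‖β‖ ≤ 1 := hβlt.le
  have h1β : 1 ≤ ‖1 + β‖ := by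
    by_contra h
    push Not at h
    have h2 := hna (1 + β) (-β)
    simp only [add_neg_cancel_right, norm_one, norm_neg] at h2
    have h3 : max ‖1 + β‖ ‖β‖ < 1 := max_lt h hβlt
    linarith
  let i0 : Fin r := ⟨r - 1 - l, by omega⟩
  have hi0 : r - 1 - (i0 : ℕ) = l := by
    show r - 1 - (r - 1 - l) = l
    omega
  let g := φ.mapMatrix (m := Fin (r + u))
  have hgX : g X = q5B (q5V r K) 0 (1 + q5Pi u (p : K)) := by
    show φ.mapMatrix (q5B _ _ _) = _
    rw [q5B_map, q5V_map, hVdef, map_add, map_one, q5Pi_map, map_natCast]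
    simp
  have hgX' : g X' = q5B (q5U r K) 0 (φ.mapMatrix V') := by
    show φ.mapMatrix (q5B _ _ _) = _
    rw [q5B_map, q5U_map]
    simp
  have hgE : g E = q5B 0 (q5E r u K) 0 := by
    show φ.mapMatrix (q5B _ _ _) = _
    rw [q5B_map, q5E_map]
    simp
  have hP : ∀ j, q5L i0 β ((g X') ^ j * g E * (g X) ^ j) =
      q5T l β (Polynomial.X ^ j) := by
    intro j
    rw [hgX, hgX', hgE, q5L_pow hu i0 β (p : K) hβ, hi0, q5T_pow]
  have hP0 : q5L i0 β (g E) = q5T l β 1 := by
    have := hP 0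
    simpa using this
  have hgG : g (q5G p F X X' E) = q5G p F (g X) (g X') (g E) := by
    show φ.mapMatrix _ = _
    rw [q5G_map]
  have hLG : q5L i0 β (q5G p F (g X) (g X') (g E)) =
      q5T l β ((∑ i ∈ Finset.range p, Polynomial.X ^ i) - Polynomial.C (p : K) -
        Polynomial.C (p : K) * (Polynomial.X - 1) * F.map (Int.castRingHom K)) := by
    unfold q5G
    rw [map_sub, map_sub, map_smul, map_smul, map_sum, hP0, Polynomial.sum_def, map_sum,
      map_sub, map_sub, map_sum]
    simp only [hP, map_smul, map_sub]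
    congr 1
    · congr 1
      rw [← map_smul]
      congr 1
      rw [Polynomial.smul_eq_C_mul, mul_one]
    · simp only [← map_smul, ← map_sub, ← map_sum]
      congr 1
      have e1 : F.map (Int.castRingHom K) = ∑ x ∈ F.support,
          Polynomial.C ((F.coeff x : ℤ) : K) * Polynomial.X ^ x := by
        conv_lhs => rw [F.as_sum_support_C_mul_X_pow]
        rw [Polynomial.map_sum]
        simp
      rw [e1, Finset.mul_sum, Finset.smul_sum]
      refine Finset.sum_congr rfl fun x _ => ?_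
      rw [Polynomial.smul_eq_C_mul, Polynomial.smul_eq_C_mul]
      ring
  have hbound : ‖q5L i0 β (g (q5G p F X X' E))‖ ≤ ‖(p : K)‖ ^ m := by
    refine q5_sum hna Finset.univ
      (fun j : Fin u => g (q5G p F X X' E) (Fin.castAdd u i0) (Fin.natAdd r j) * β ^ (j : ℕ))
      (‖(p : K)‖ ^ m) (by positivity) fun j _ => ?_
    rw [norm_mul]
    have hrj : ‖β ^ (j : ℕ)‖ ≤ 1 := by
      rw [norm_pow]
      exact pow_le_one₀ (norm_nonneg _) hβ1
    have h3 : ∀ i j, ‖g (q5G p F X X' E) i j‖ ≤ ‖(p : K)‖ ^ m := by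
      intro i j
      obtain ⟨c, hc⟩ := hdiv i j
      show ‖φ (q5G p F X X' E i j)‖ ≤ _
      rw [hc, map_mul, map_pow, map_natCast, norm_mul, norm_pow, hφ]
      have := PadicInt.norm_le_one c
      have h4 : 0 ≤ ‖(p : K)‖ ^ m := by positivity
      nlinarith
    calc _ ≤ ‖(p : K)‖ ^ m * 1 :=
          mul_le_mul (h3 _ _) hrj (norm_nonneg _) (by positivity)
      _ = ‖(p : K)‖ ^ m := mul_one _
  rw [hgG, hLG, ← q5T_comp] at hbound
  have hcomp : (((∑ i ∈ Finset.range p, Polynomial.X ^ i) - Polynomial.C (p : K) -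
        Polynomial.C (p : K) * (Polynomial.X - 1) * F.map (Int.castRingHom K)).comp
          (1 + Polynomial.X)) =
      (∑ i ∈ Finset.range p, (1 + Polynomial.X) ^ i -
        Polynomial.C (p : ℤ) - Polynomial.C (p : ℤ) * Polynomial.X *
          F.comp (1 + Polynomial.X) : Polynomial ℤ).map (Int.castRingHom K) := by
    rw [Polynomial.map_sub, Polynomial.map_sub, Polynomial.map_mul, Polynomial.map_mul,
      Polynomial.map_comp, Polynomial.sub_comp, Polynomial.sub_comp, Polynomial.mul_comp,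
      Polynomial.mul_comp, Polynomial.sub_comp, Polynomial.map_sum]
    have hs : (∑ i ∈ Finset.range p, (Polynomial.X : Polynomial K) ^ i).comp (1 + Polynomial.X) =
        ∑ i ∈ Finset.range p, (1 + Polynomial.X) ^ i := by
      have := map_sum (Polynomial.compRingHom (1 + Polynomial.X : Polynomial K))
        (fun i => (Polynomial.X : Polynomial K) ^ i) (Finset.range p)
      simpa using this
    rw [hs]
    simp
  rw [hcomp, norm_mul, norm_pow] at hbound
  refine le_trans ?_ hbound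
  have h5 : 1 ≤ ‖1 + β‖ ^ l := one_le_pow₀ h1β
  exact le_mul_of_one_le_left (norm_nonneg _) h5

end Pool.Agent.Helper431.PN
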