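import Mathlib
import Pool.Agent.Helper431.PN.Base

namespace Pool.Agent.Helper431.PN

theorem nb_sub {K : Type} [NormedField K] (hna : IsNonarchimedean (fun x : K => ‖x‖))
    (a b : K) : ‖a - b‖ ≤ max ‖a‖ ‖b‖ := by
  have h := hna a (-b)
  simp only [norm_neg] at h
  rw [sub_eq_add_neg]
  exact h

theorem nb_one {K : Type} [NormedField K] (hna : IsNonarchimedean (fun x : K => ‖x‖))
    (a b : K) (ha : ‖a‖ = 1) (hb : ‖b‖ < 1) : ‖a + b‖ = 1 := by
  have h1 : ‖a + b‖ ≤ max ‖a‖ ‖b‖ := hna a b
  have h2 : ‖(a + b) - b‖ ≤ max ‖a + b‖ ‖b‖ := nb_sub hna _ _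
  rw [add_sub_cancel_right, ha] at h2
  rw [ha, max_eq_left hb.le] at h1
  rcases le_max_iff.1 h2 with h | h
  · exact le_antisymm h1 h
  · exact absurd h (not_le.2 hb)

theorem nb_eval {K : Type} [NormedField K] (hna : IsNonarchimedean (fun x : K => ‖x‖))
    (P : Polynomial K) (hP : ∀ i, ‖P.coeff i‖ ≤ 1) (x : K) (hx : ‖x‖ ≤ 1) : ‖P.eval x‖ ≤ 1 := by
  rw [Polynomial.eval_eq_sum_range]
  refine Finset.sum_induction _ (fun y : K => ‖y‖ ≤ 1) ?_ ?_ ?_
  · intro a b ha hb
    exact (hna a b).trans (max_le ha hb)
  · simp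
  · intro i _
    rw [norm_mul, norm_pow]
    exact mul_le_one₀ (hP i) (by positivity) (pow_le_one₀ (norm_nonneg _) hx)

theorem nb_hasse {K : Type} [NormedField K] (a : K) (P : Polynomial K) (l : ℕ) :
    Polynomial.hasseDeriv (l + 1) ((Polynomial.X - Polynomial.C a) * P) =
      (Polynomial.X - Polynomial.C a) * Polynomial.hasseDeriv (l + 1) P +
        Polynomial.hasseDeriv l P := by
  rw [Polynomial.hasseDeriv_mul, Finset.Nat.sum_antidiagonal_succ]
  congr 1
  · simp [Polynomial.hasseDeriv_zero]
  · rw [Finset.sum_eq_single (0, l)]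
    · have : Polynomial.hasseDeriv (0 + 1) (Polynomial.X - Polynomial.C a) = 1 := by
        simp [Polynomial.hasseDeriv_one]
      rw [this, one_mul]
    · rintro ⟨u, v⟩ huv hne
      have hu : u ≠ 0 := by
        rintro rfl
        apply hne
        have := Finset.HasAntidiagonal.mem_antidiagonal.1 huv
        simp only [zero_add] at this
        rw [this]
      have : Polynomial.hasseDeriv (u + 1) (Polynomial.X - Polynomial.C a) = 0 := by
        apply Polynomial.hasseDeriv_eq_zero_of_lt_natDegree
        rw [Polynomial.natDegree_X_sub_C]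
        omega
      rw [this, zero_mul]
    · intro h
      exact absurd (Finset.HasAntidiagonal.mem_antidiagonal.2 (by simp)) h

theorem nb_div {K : Type} [NormedField K] (hna : IsNonarchimedean (fun x : K => ‖x‖))
    (a : K) (ha : ‖a‖ < 1) (H : Polynomial K) (hH : ∀ i, ‖H.coeff i‖ ≤ 1) (N : ℕ)
    (hN : ‖H.coeff (N + 1)‖ = 1) :
    ∃ H' : Polynomial K, H = Polynomial.C (H.eval a) + (Polynomial.X - Polynomial.C a) * H' ∧
      (∀ i, ‖H'.coeff i‖ ≤ 1) ∧ ‖H'.coeff N‖ = 1 := by
  refine ⟨H /ₘ (Polynomial.X - Polynomial.C a), ?_, ?_⟩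
  · rw [← Polynomial.modByMonic_X_sub_C_eq_C_eval]
    exact (Polynomial.modByMonic_add_div H (Polynomial.X - Polynomial.C a)).symm
  · set H' := H /ₘ (Polynomial.X - Polynomial.C a) with hH'
    have hrel : H = Polynomial.C (H.eval a) + (Polynomial.X - Polynomial.C a) * H' := by
      rw [← Polynomial.modByMonic_X_sub_C_eq_C_eval]
      exact (Polynomial.modByMonic_add_div H (Polynomial.X - Polynomial.C a)).symm
    have hco : ∀ i, H'.coeff i = H.coeff (i + 1) + a * H'.coeff (i + 1) := by
      intro i
      have h1 : H.coeff (i + 1) = (Polynomial.C (H.eval a) +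
          (Polynomial.X - Polynomial.C a) * H').coeff (i + 1) := by rw [← hrel]
      rw [Polynomial.coeff_add, Polynomial.coeff_C_succ, sub_mul, Polynomial.coeff_sub,
        Polynomial.coeff_X_mul, Polynomial.coeff_C_mul] at h1
      rw [h1]; ring
    have hb : ∀ d i, H'.natDegree < i + d → ‖H'.coeff i‖ ≤ 1 := by
      intro d
      induction d with
      | zero =>
        intro i hi
        rw [Polynomial.coeff_eq_zero_of_natDegree_lt (by simpa using hi)]
        simp
      | succ d ih =>
        intro i hi
        rw [hco i]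
        refine (hna _ _).trans (max_le (hH _) ?_)
        show ‖a * H'.coeff (i + 1)‖ ≤ 1
        rw [norm_mul]
        exact mul_le_one₀ ha.le (norm_nonneg _) (ih (i + 1) (by omega))
    have hb' : ∀ i, ‖H'.coeff i‖ ≤ 1 := fun i => hb (H'.natDegree + 1) i (by omega)
    refine ⟨hb', ?_⟩
    rw [hco N]
    refine nb_one hna _ _ hN ?_
    rw [norm_mul]
    calc ‖a‖ * ‖H'.coeff (N + 1)‖ ≤ ‖a‖ * 1 := mul_le_mul_of_nonneg_left (hb' _) (norm_nonneg _)
      _ < 1 := by rw [mul_one]; exact ha

/-- TARGET -/
theorem newton_bound {K : Type} [NormedField K] (hna : IsNonarchimedean (fun x : K => ‖x‖))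
    {u : ℕ} (β : Fin u → K) (c : ℝ) (hc0 : 0 < c) (hc1 : c < 1) (hβ : ∀ i, ‖β i‖ = c)
    (hd : ∀ i j, i ≠ j → ‖β i - β j‖ = c) (N : ℕ) (k : Fin u → ℕ) (hk : ∑ i, k i = N + 1)
    (H : Polynomial K) (hH : ∀ i, ‖H.coeff i‖ ≤ 1) (hN : ‖H.coeff N‖ = 1) (ε : ℝ)
    (h : ∀ j l, l < k j → c ^ l * ‖(Polynomial.hasseDeriv l H).eval (β j)‖ ≤ ε) :
    c ^ N ≤ ε := by
  induction N generalizing k H ε with
  | zero =>
    have hj : ∃ j, 1 ≤ k j := by
      by_contra hcon
      push Not at hcon
      have : ∑ i, k i = 0 := Finset.sum_eq_zero (fun i _ => by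
        have := hcon i
        omega)
      omega
    obtain ⟨j, hj⟩ := hj
    have h1 := h j 0 (by omega)
    rw [pow_zero, one_mul, Polynomial.hasseDeriv_zero] at h1
    have h1' : ‖H.eval (β j)‖ ≤ ε := h1
    have h2 : ‖H.eval (β j)‖ = 1 := by
      have h3 : H.eval (β j) = H.coeff 0 + (β j) * H.divX.eval (β j) := by
        conv_lhs => rw [← Polynomial.divX_mul_X_add H]
        rw [Polynomial.eval_add, Polynomial.eval_mul, Polynomial.eval_X, Polynomial.eval_C]
        ring
      rw [h3]
      refine nb_one hna _ _ hN ?_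
      rw [norm_mul, hβ j]
      have h4 : ‖H.divX.eval (β j)‖ ≤ 1 := by
        refine nb_eval hna _ (fun i => ?_) _ (by rw [hβ j]; exact hc1.le)
        rw [Polynomial.coeff_divX]
        exact hH _
      nlinarith [norm_nonneg (H.divX.eval (β j))]
    rw [pow_zero]
    linarith
  | succ N ih =>
    have hj : ∃ j, 1 ≤ k j := by
      by_contra hcon
      push Not at hcon
      have : ∑ i, k i = 0 := Finset.sum_eq_zero (fun i _ => by
        have := hcon i
        omega)
      omega
    obtain ⟨j0, hj0⟩ := hj
    obtain ⟨H', hrel, hb, hN'⟩ := nb_div hna (β j0) (by rw [hβ]; exact hc1) H hH N hN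
    have hev : ∀ l y, (Polynomial.hasseDeriv (l + 1) H).eval y =
        (y - β j0) * (Polynomial.hasseDeriv (l + 1) H').eval y +
          (Polynomial.hasseDeriv l H').eval y := by
      intro l y
      conv_lhs => rw [hrel]
      rw [map_add, Polynomial.hasseDeriv_C _ _ (Nat.succ_pos l), zero_add, nb_hasse]
      simp
    have hev0 : ∀ y, H.eval y = H.eval (β j0) + (y - β j0) * H'.eval y := by
      intro y
      conv_lhs => rw [hrel]
      simp
    have hk' : ∑ i, (Function.update k j0 (k j0 - 1)) i = N + 1 := by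
      have h1 : ∑ i, (Function.update k j0 (k j0 - 1)) i + 1 = ∑ i, k i := by
        rw [← Finset.add_sum_erase _ _ (Finset.mem_univ j0),
          ← Finset.add_sum_erase _ k (Finset.mem_univ j0)]
        rw [Function.update_self]
        have : ∑ x ∈ Finset.univ.erase j0, Function.update k j0 (k j0 - 1) x =
            ∑ x ∈ Finset.univ.erase j0, k x := by
          refine Finset.sum_congr rfl (fun x hx => ?_)
          rw [Function.update_of_ne (Finset.ne_of_mem_erase hx)]
        rw [this]
        omega
      omega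
    have key : c ^ N ≤ ε / c := by
      refine ih (Function.update k j0 (k j0 - 1)) hk' H' hb hN' (ε / c) ?_
      intro j l hl
      by_cases hjj : j = j0
      · subst hjj
        rw [Function.update_self] at hl
        have h1 := h j (l + 1) (by omega)
        rw [hev l (β j), sub_self, zero_mul, zero_add] at h1
        rw [le_div_iff₀ hc0]
        calc c ^ l * ‖Polynomial.eval (β j) (Polynomial.hasseDeriv l H')‖ * c
            = c ^ (l + 1) * ‖Polynomial.eval (β j) (Polynomial.hasseDeriv l H')‖ := by ring
          _ ≤ ε := h1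
      · rw [Function.update_of_ne hjj] at hl
        have hd' : ‖β j - β j0‖ = c := hd j j0 hjj
        induction l with
        | zero =>
          rw [pow_zero, one_mul, Polynomial.hasseDeriv_zero, le_div_iff₀ hc0]
          show ‖H'.eval (β j)‖ * c ≤ ε
          have h1 := h j 0 hl
          have h2 := h j0 0 (by omega)
          rw [pow_zero, one_mul, Polynomial.hasseDeriv_zero] at h1 h2
          have h1' : ‖H.eval (β j)‖ ≤ ε := h1
          have h2' : ‖H.eval (β j0)‖ ≤ ε := h2
          have h3 : (β j - β j0) * H'.eval (β j) = H.eval (β j) - H.eval (β j0) := by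
            rw [hev0 (β j)]; ring
          calc ‖H'.eval (β j)‖ * c = ‖(β j - β j0) * H'.eval (β j)‖ := by
                rw [norm_mul, hd', mul_comm]
            _ = ‖H.eval (β j) - H.eval (β j0)‖ := by rw [h3]
            _ ≤ max ‖H.eval (β j)‖ ‖H.eval (β j0)‖ := nb_sub hna _ _
            _ ≤ ε := max_le h1' h2'
        | succ l ihl =>
          have h1 := h j (l + 1) hl
          have h2 := ihl (by omega)
          have h3 : (β j - β j0) * (Polynomial.hasseDeriv (l + 1) H').eval (β j) =
              (Polynomial.hasseDeriv (l + 1) H).eval (β j) -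
                (Polynomial.hasseDeriv l H').eval (β j) := by
            rw [hev l (β j)]; ring
          have h4 : c * ‖(Polynomial.hasseDeriv (l + 1) H').eval (β j)‖ ≤
              max ‖(Polynomial.hasseDeriv (l + 1) H).eval (β j)‖
                ‖(Polynomial.hasseDeriv l H').eval (β j)‖ := by
            rw [← hd', ← norm_mul, h3]
            exact nb_sub hna _ _
          have hcl : 0 < c ^ l := by positivity
          calc c ^ (l + 1) * ‖(Polynomial.hasseDeriv (l + 1) H').eval (β j)‖
              = c ^ l * (c * ‖(Polynomial.hasseDeriv (l + 1) H').eval (β j)‖) := by ring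
            _ ≤ c ^ l * max ‖(Polynomial.hasseDeriv (l + 1) H).eval (β j)‖
                ‖(Polynomial.hasseDeriv l H').eval (β j)‖ :=
                mul_le_mul_of_nonneg_left h4 hcl.le
            _ ≤ ε / c := by
                rcases max_choice ‖(Polynomial.hasseDeriv (l + 1) H).eval (β j)‖
                  ‖(Polynomial.hasseDeriv l H').eval (β j)‖ with hm | hm
                · rw [hm, le_div_iff₀ hc0]
                  calc c ^ l * ‖(Polynomial.hasseDeriv (l + 1) H).eval (β j)‖ * c
                      = c ^ (l + 1) * ‖(Polynomial.hasseDeriv (l + 1) H).eval (β j)‖ := by ring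
                    _ ≤ ε := h1
                · rw [hm]
                  exact h2
    rw [le_div_iff₀ hc0] at key
    rw [pow_succ]
    exact key

end Pool.Agent.Helper431.PN
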