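import Mathlib
import Pool.Agent.Helper431.PN.Base
import Pool.Agent.Helper431.PN.E1

namespace Pool.Agent.Helper431.PN







/-- the expression of `good_poly_gen` -/
noncomputable def e2G {R : Type*} [CommRing R] {n : ℕ} (p k : ℕ) (F : Polynomial ℤ)
    (X X' E : Matrix (Fin n) (Fin n) R) : Matrix (Fin n) (Fin n) R :=
  (p : R) ^ k •
      ((∑ l ∈ Finset.range p, X' ^ l * E * X ^ l) - (p : R) • E -
        (p : R) • (F.sum fun j c => (c : R) •
          (X' ^ (j + 1) * E * X ^ (j + 1) - X' ^ j * E * X ^ j)))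

theorem e2G_map {R S : Type*} [CommRing R] [CommRing S] {n : ℕ} (p k : ℕ) (F : Polynomial ℤ)
    (X X' E : Matrix (Fin n) (Fin n) R) (g : R →+* S) :
    g.mapMatrix (e2G p k F X X' E) =
      e2G p k F (g.mapMatrix X) (g.mapMatrix X') (g.mapMatrix E) := by
  have hs : ∀ (a : R) (M : Matrix (Fin n) (Fin n) R),
      g.mapMatrix (a • M) = g a • g.mapMatrix M := by
    intro a M
    ext i j
    simp
  unfold e2G
  rw [Polynomial.sum_def, Polynomial.sum_def]
  simp only [hs, map_sub, map_mul, map_pow, map_sum, map_natCast, map_intCast]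

theorem e2G_eval {K : Type*} [Field K] {n : ℕ} (p k : ℕ) (F : Polynomial ℤ)
    (X X' E : Matrix (Fin n) (Fin n) K) (l r : Fin n → K) (a b ρ : K)
    (hl : Matrix.vecMul l X' = a⁻¹ • l) (hr : Matrix.mulVec X r = b • r)
    (hE : dotProduct l (Matrix.mulVec E r) = 1) (hρ : ρ = a⁻¹ * b) :
    dotProduct l (Matrix.mulVec (e2G p k F X X' E) r) =
      (p : K) ^ k * ((∑ l ∈ Finset.range p, ρ ^ l) - p - p * (ρ - 1) * Polynomial.aeval ρ F) := by
  let Φ : Matrix (Fin n) (Fin n) K →ₗ[K] K :=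
    { toFun := fun M => dotProduct l (Matrix.mulVec M r)
      map_add' := by intro M N; rw [Matrix.add_mulVec, dotProduct_add]
      map_smul' := by
        intro c M
        rw [Matrix.smul_mulVec, dotProduct_smul]
        rfl }
  have hΦ : ∀ M, dotProduct l (Matrix.mulVec M r) = Φ M := fun M => rfl
  have hlj : ∀ j, Matrix.vecMul l (X' ^ j) = (a⁻¹) ^ j • l := by
    intro j
    induction j with
    | zero => simp
    | succ j ih =>
      rw [pow_succ, ← Matrix.vecMul_vecMul, ih, Matrix.smul_vecMul, hl, smul_smul, pow_succ]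
  have hrj : ∀ j, Matrix.mulVec (X ^ j) r = b ^ j • r := by
    intro j
    induction j with
    | zero => simp
    | succ j ih =>
      rw [pow_succ', ← Matrix.mulVec_mulVec, ih, Matrix.mulVec_smul, hr, smul_smul, pow_succ]
  have hP : ∀ j, Φ (X' ^ j * E * X ^ j) = ρ ^ j := by
    intro j
    rw [← hΦ, ← Matrix.mulVec_mulVec, ← Matrix.mulVec_mulVec, Matrix.dotProduct_mulVec, hlj, hrj,
      Matrix.mulVec_smul, dotProduct_smul, smul_dotProduct, hE, hρ, mul_pow]
    simp only [smul_eq_mul]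
    ring
  have hE' : Φ E = 1 := hE
  rw [hΦ]
  unfold e2G
  rw [map_smul, map_sub, map_sub, map_smul, map_smul, map_sum, hE', Polynomial.sum_def, map_sum]
  simp only [hP, map_smul, map_sub, smul_eq_mul]
  rw [Polynomial.aeval_def, Polynomial.eval₂_eq_sum, Polynomial.sum_def]
  congr 1
  have : ∑ x ∈ F.support, ((F.coeff x : ℤ) : K) * (ρ ^ (x + 1) - ρ ^ x) =
      (ρ - 1) * ∑ n ∈ F.support, (algebraMap ℤ K) (F.coeff n) * ρ ^ n := by
    rw [Finset.mul_sum]
    refine Finset.sum_congr rfl fun i _ => ?_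
    rw [eq_intCast (algebraMap ℤ K)]
    ring
  rw [this]
  ring

/-- the uniformizer matrix -/
def e2Pi (n : ℕ) {R : Type*} [CommRing R] (c : R) : Matrix (Fin n) (Fin n) R :=
  Matrix.of fun i j => if (i : ℕ) + 1 = j then 1 else if (i : ℕ) + 1 = n ∧ (j : ℕ) = 0 then c else 0

/-- the corner matrix unit -/
def e2E (n : ℕ) (R : Type*) [CommRing R] : Matrix (Fin n) (Fin n) R :=
  Matrix.of fun i j => if (i : ℕ) + 1 = n ∧ (j : ℕ) = 0 then 1 else 0

theorem e2Pi_map {R S : Type*} [CommRing R] [CommRing S] (n : ℕ) (g : R →+* S) (c : R) :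
    g.mapMatrix (e2Pi n c) = e2Pi n (g c) := by
  ext i j
  simp only [e2Pi, RingHom.mapMatrix_apply, Matrix.map_apply, Matrix.of_apply]
  split_ifs <;> simp

theorem e2E_map {R S : Type*} [CommRing R] [CommRing S] (n : ℕ) (g : R →+* S) :
    g.mapMatrix (e2E n R) = e2E n S := by
  ext i j
  simp only [e2E, RingHom.mapMatrix_apply, Matrix.map_apply, Matrix.of_apply]
  split_ifs <;> simp

theorem e2_left {K : Type*} [Field K] {n : ℕ} (hn : 2 ≤ n) (α c : K) (h : α ^ n = c) :
    Matrix.vecMul (fun i : Fin n => α ^ (n - 1 - (i : ℕ))) (e2Pi n c) =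
      α • (fun i : Fin n => α ^ (n - 1 - (i : ℕ))) := by
  funext j
  show ∑ i : Fin n, α ^ (n - 1 - (i : ℕ)) * e2Pi n c i j = α * α ^ (n - 1 - (j : ℕ))
  by_cases hj : (j : ℕ) = 0
  · rw [Finset.sum_eq_single (⟨n - 1, by omega⟩ : Fin n)]
    · simp only [e2Pi, Matrix.of_apply]
      rw [if_neg (by omega), if_pos ⟨by omega, hj⟩, hj, Nat.sub_self, pow_zero, one_mul, Nat.sub_zero,
        ← pow_succ', ← h]
      congr 1
      omega
    · intro i _ hi
      simp only [e2Pi, Matrix.of_apply]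
      rw [if_neg (by omega), if_neg, mul_zero]
      rintro ⟨h1, _⟩
      apply hi
      apply Fin.ext
      show (i : ℕ) = n - 1
      omega
    · intro h
      exact absurd (Finset.mem_univ _) h
  · have hjn := j.2
    rw [Finset.sum_eq_single (⟨(j : ℕ) - 1, by omega⟩ : Fin n)]
    · simp only [e2Pi, Matrix.of_apply]
      rw [if_pos (by omega), mul_one, ← pow_succ']
      congr 1
      omega
    · intro i _ hi
      simp only [e2Pi, Matrix.of_apply]
      rw [if_neg, if_neg (by omega), mul_zero]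
      intro h1
      apply hi
      apply Fin.ext
      show (i : ℕ) = (j : ℕ) - 1
      omega
    · intro h
      exact absurd (Finset.mem_univ _) h

theorem e2_right {K : Type*} [Field K] {n : ℕ} (hn : 2 ≤ n) (β c : K) (h : β ^ n = c) :
    Matrix.mulVec (e2Pi n c) (fun i : Fin n => β ^ (i : ℕ)) =
      β • (fun i : Fin n => β ^ (i : ℕ)) := by
  funext i
  show ∑ j : Fin n, e2Pi n c i j * β ^ (j : ℕ) = β * β ^ (i : ℕ)
  have hin := i.2
  by_cases hi : (i : ℕ) + 1 = n
  · rw [Finset.sum_eq_single (⟨0, by omega⟩ : Fin n)]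
    · simp only [e2Pi, Matrix.of_apply]
      rw [if_neg (by omega), if_pos ⟨hi, trivial⟩, pow_zero, mul_one, ← pow_succ', hi, h]
    · intro j _ hj
      have hjn := j.2
      simp only [e2Pi, Matrix.of_apply]
      rw [if_neg (by omega), if_neg, zero_mul]
      rintro ⟨_, h1⟩
      apply hj
      apply Fin.ext
      exact h1
    · intro h
      exact absurd (Finset.mem_univ _) h
  · rw [Finset.sum_eq_single (⟨(i : ℕ) + 1, by omega⟩ : Fin n)]
    · simp only [e2Pi, Matrix.of_apply]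
      rw [if_pos trivial, one_mul, ← pow_succ']
    · intro j _ hj
      simp only [e2Pi, Matrix.of_apply]
      rw [if_neg, if_neg (by omega), zero_mul]
      intro h1
      apply hj
      apply Fin.ext
      exact h1.symm
    · intro h
      exact absurd (Finset.mem_univ _) h

theorem e2_corner {K : Type*} [Field K] {n : ℕ} (hn : 2 ≤ n) (α β : K) :
    dotProduct (fun i : Fin n => α ^ (n - 1 - (i : ℕ)))
      (Matrix.mulVec (e2E n K) (fun i : Fin n => β ^ (i : ℕ))) = 1 := by
  have h1 : Matrix.mulVec (e2E n K) (fun i : Fin n => β ^ (i : ℕ)) =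
      fun i : Fin n => if (i : ℕ) + 1 = n then 1 else 0 := by
    funext i
    show ∑ j : Fin n, e2E n K i j * β ^ (j : ℕ) = _
    rw [Finset.sum_eq_single (⟨0, by omega⟩ : Fin n)]
    · simp only [e2E, Matrix.of_apply, pow_zero, mul_one, and_true]
    · intro j _ hj
      simp only [e2E, Matrix.of_apply]
      rw [if_neg, zero_mul]
      rintro ⟨_, h1⟩
      apply hj
      apply Fin.ext
      exact h1
    · intro h
      exact absurd (Finset.mem_univ _) h
  rw [h1]
  show ∑ i : Fin n, α ^ (n - 1 - (i : ℕ)) * (if (i : ℕ) + 1 = n then 1 else 0) = 1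
  rw [Finset.sum_eq_single (⟨n - 1, by omega⟩ : Fin n)]
  · rw [if_pos (show n - 1 + 1 = n by omega), mul_one]
    show α ^ (n - 1 - (n - 1)) = 1
    rw [Nat.sub_self, pow_zero]
  · intro i _ hi
    rw [if_neg, mul_zero]
    intro h1
    apply hi
    apply Fin.ext
    show (i : ℕ) = n - 1
    omega
  · intro h
    exact absurd (Finset.mem_univ _) h

theorem e2_sum {K : Type*} [NormedField K] (hna : IsNonarchimedean (fun x : K => ‖x‖))
    {ι : Type*} (s : Finset ι) (f : ι → K) (C : ℝ) (hC : 0 ≤ C) (h : ∀ i ∈ s, ‖f i‖ ≤ C) :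
    ‖∑ i ∈ s, f i‖ ≤ C := by
  classical
  induction s using Finset.induction_on with
  | empty => simpa using hC
  | insert a s ha ih =>
    rw [Finset.sum_insert ha]
    refine (hna _ _).trans (max_le ?_ ?_)
    · exact h a (Finset.mem_insert_self _ _)
    · exact ih fun i hi => h i (Finset.mem_insert_of_mem hi)

theorem e2_unit {p n : ℕ} [Fact p.Prime] (hn : 2 ≤ n) :
    IsUnit (1 + e2Pi n (p : ℤ_[p])).det := by
  by_contra hu
  have h1 : (1 + e2Pi n (p : ℤ_[p])).det ∈ IsLocalRing.maximalIdeal ℤ_[p] := by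
    rw [IsLocalRing.mem_maximalIdeal]
    exact hu
  rw [← PadicInt.ker_toZMod, RingHom.mem_ker, RingHom.map_det, map_add, map_one, e2Pi_map] at h1
  have h2 : (1 + e2Pi n (PadicInt.toZMod (p : ℤ_[p]))).det = 1 := by
    have hp0 : PadicInt.toZMod (p : ℤ_[p]) = 0 := by
      rw [map_natCast, ZMod.natCast_self]
    rw [hp0, Matrix.det_of_isUpperTriangular]
    · refine Finset.prod_eq_one fun i _ => ?_
      rw [Matrix.add_apply, Matrix.one_apply_eq]
      simp [e2Pi]
    · intro i j hij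
      have hji : j < i := hij
      have hij' : (j : ℕ) < i := hji
      show (1 : Matrix (Fin n) (Fin n) (ZMod p)) i j + e2Pi n (0 : ZMod p) i j = 0
      rw [Matrix.one_apply_ne (ne_of_gt hji)]
      simp only [e2Pi, Matrix.of_apply]
      rw [if_neg (by omega)]
      simp
  rw [h2] at h1
  exact one_ne_zero h1

/-- TARGET -/
theorem good_poly_eval {p m n k : ℕ} [Fact p.Prime] (hn : 2 ≤ n) (hk1 : 1 ≤ k) (hkm : k ≤ m)
    (hk : m ≤ 2 * k) (hreg : IsRegular p (PGroup p m n))
    {K : Type} [NormedField K] (hna : IsNonarchimedean (fun x : K => ‖x‖))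
    (φ : ℤ_[p] →+* K) (hφ : ∀ x, ‖φ x‖ = ‖x‖) :
    ∃ F : Polynomial ℤ, ∀ α β ρ : K, α ^ n = p → β ^ n = p → ρ * (1 + α) = 1 + β →
      ‖(∑ l ∈ Finset.range p, ρ ^ l) - p - p * (ρ - 1) * Polynomial.aeval ρ F‖ ≤
        ‖(p : K)‖ ^ (m - k) := by
  have hp : p.Prime := Fact.out
  set X : Matrix (Fin n) (Fin n) ℤ_[p] := 1 + e2Pi n (p : ℤ_[p]) with hXdef
  have hu : IsUnit X.det := e2_unit hn
  have hXX : X * X⁻¹ = 1 := Matrix.mul_nonsing_inv X hu
  have hXX' : X⁻¹ * X = 1 := Matrix.nonsing_inv_mul X hu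
  generalize hX'def : X⁻¹ = X' at hXX hXX'
  let f := (PadicInt.toZModPow (p := p) m).mapMatrix (m := Fin n)
  have hfX : IsP p m n (f X) := by
    have e1 : ∀ i j, f X i j = (1 : Matrix (Fin n) (Fin n) (ZMod (p ^ m))) i j +
        e2Pi n (p : ZMod (p ^ m)) i j := by
      intro i j
      have : f X = 1 + e2Pi n (p : ZMod (p ^ m)) := by
        show (PadicInt.toZModPow (p := p) m).mapMatrix X = _
        rw [hXdef, map_add, map_one, e2Pi_map, map_natCast]
      rw [this, Matrix.add_apply]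
    constructor
    · intro i
      rw [e1, Matrix.one_apply_eq]
      have : e2Pi n (p : ZMod (p ^ m)) i i = 0 := by
        simp only [e2Pi, Matrix.of_apply]
        rw [if_neg (by omega), if_neg (by omega)]
      rw [this]
      simp
    · intro i j hij
      have hij' : (j : ℕ) < i := hij
      rw [e1, Matrix.one_apply_ne (ne_of_gt hij), zero_add]
      simp only [e2Pi, Matrix.of_apply]
      rw [if_neg (by omega)]
      split_ifs
      · exact dvd_refl _
      · exact dvd_zero _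
  have hf1 : f X * f X' = 1 := by rw [← map_mul, hXX, map_one]
  have hf2 : f X' * f X = 1 := by rw [← map_mul, hXX', map_one]
  obtain ⟨F, hF⟩ := good_poly_gen hp hk1 hkm hk (f X) (f X') (f (e2E n ℤ_[p])) hf1 hf2 hfX hreg
  refine ⟨F, fun α β ρ hα hβ hρ => ?_⟩
  have hF' : f (e2G p k F X X' (e2E n ℤ_[p])) = 0 := by
    show (PadicInt.toZModPow (p := p) m).mapMatrix _ = 0
    rw [e2G_map]
    exact hF
  have hdiv : ∀ i j, ∃ c : ℤ_[p], e2G p k F X X' (e2E n ℤ_[p]) i j = (p : ℤ_[p]) ^ m * c := by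
    intro i j
    have h1 : PadicInt.toZModPow m (e2G p k F X X' (e2E n ℤ_[p]) i j) = 0 := by
      have := congrFun (congrFun hF' i) j
      exact this
    have h2 : e2G p k F X X' (e2E n ℤ_[p]) i j ∈ RingHom.ker (PadicInt.toZModPow (p := p) m) := h1
    rw [PadicInt.ker_toZModPow, Ideal.mem_span_singleton] at h2
    obtain ⟨c, hc⟩ := h2
    exact ⟨c, hc⟩
  have hpn : ‖(p : K)‖ = ‖(p : ℤ_[p])‖ := by
    rw [← hφ, map_natCast]
  have hp1 : ‖(p : K)‖ ≤ 1 := by rw [hpn]; exact PadicInt.norm_le_one _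
  have hp0 : 0 < ‖(p : K)‖ := by
    rw [hpn, norm_pos_iff]
    exact_mod_cast hp.ne_zero
  have hle : ∀ γ : K, γ ^ n = p → ‖γ‖ ≤ 1 := by
    intro γ hγ
    by_contra h
    push Not at h
    have h1 : 1 < ‖γ‖ ^ n := one_lt_pow₀ h (by omega)
    rw [← norm_pow, hγ] at h1
    linarith
  have hα1 := hle α hα
  have hβ1 := hle β hβ
  let l : Fin n → K := fun i => α ^ (n - 1 - (i : ℕ))
  let r : Fin n → K := fun i => β ^ (i : ℕ)
  let g := φ.mapMatrix (m := Fin n)
  have hgX : g X = 1 + e2Pi n (p : K) := by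
    show φ.mapMatrix X = _
    rw [hXdef, map_add, map_one, e2Pi_map, map_natCast]
  have hl : Matrix.vecMul l (g X) = (1 + α) • l := by
    rw [hgX, Matrix.vecMul_add, Matrix.vecMul_one, add_smul, one_smul]
    congr 1
    exact e2_left hn α (p : K) hα
  have hr : Matrix.mulVec (g X) r = (1 + β) • r := by
    rw [hgX, Matrix.add_mulVec, Matrix.one_mulVec, add_smul, one_smul]
    congr 1
    exact e2_right hn β (p : K) hβ
  have hg1 : g X * g X' = 1 := by rw [← map_mul, hXX, map_one]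
  have hll : (1 + α) • Matrix.vecMul l (g X') = l := by
    rw [← Matrix.smul_vecMul, ← hl, Matrix.vecMul_vecMul, hg1, Matrix.vecMul_one]
  have hα0 : 1 + α ≠ 0 := by
    intro h0
    rw [h0, zero_smul] at hll
    have := congrFun hll (⟨n - 1, by omega⟩ : Fin n)
    have h2 : l (⟨n - 1, by omega⟩ : Fin n) = 1 := by
      show α ^ (n - 1 - (n - 1)) = 1
      rw [Nat.sub_self, pow_zero]
    rw [h2] at this
    exact zero_ne_one this
  have hl' : Matrix.vecMul l (g X') = (1 + α)⁻¹ • l := by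
    conv_rhs => rw [← hll]
    rw [smul_smul, inv_mul_cancel₀ hα0, one_smul]
  have hρ' : ρ = (1 + α)⁻¹ * (1 + β) := by
    rw [← hρ]
    field_simp
  have hev := e2G_eval p k F (g X) (g X') (e2E n K) l r (1 + α) (1 + β) ρ hl' hr
    (e2_corner hn α β) hρ'
  have hgG : g (e2G p k F X X' (e2E n ℤ_[p])) = e2G p k F (g X) (g X') (e2E n K) := by
    show φ.mapMatrix _ = _
    rw [e2G_map, e2E_map]
  have hbound : ‖dotProduct l (Matrix.mulVec (e2G p k F (g X) (g X') (e2E n K)) r)‖ ≤
      ‖(p : K)‖ ^ m := by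
    rw [← hgG]
    refine e2_sum hna _ _ _ (by positivity) fun i _ => ?_
    rw [norm_mul]
    have hli : ‖l i‖ ≤ 1 := by
      show ‖α ^ (n - 1 - (i : ℕ))‖ ≤ 1
      rw [norm_pow]
      exact pow_le_one₀ (norm_nonneg _) hα1
    have h2 : ‖Matrix.mulVec (g (e2G p k F X X' (e2E n ℤ_[p]))) r i‖ ≤ ‖(p : K)‖ ^ m := by
      refine e2_sum hna Finset.univ
        (fun j => g (e2G p k F X X' (e2E n ℤ_[p])) i j * r j) (‖(p : K)‖ ^ m) (by positivity)
        fun j _ => ?_
      rw [norm_mul]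
      have hrj : ‖r j‖ ≤ 1 := by
        show ‖β ^ (j : ℕ)‖ ≤ 1
        rw [norm_pow]
        exact pow_le_one₀ (norm_nonneg _) hβ1
      have h3 : ‖g (e2G p k F X X' (e2E n ℤ_[p])) i j‖ ≤ ‖(p : K)‖ ^ m := by
        obtain ⟨c, hc⟩ := hdiv i j
        show ‖φ (e2G p k F X X' (e2E n ℤ_[p]) i j)‖ ≤ _
        rw [hc, map_mul, map_pow, map_natCast, norm_mul, norm_pow, hφ]
        have := PadicInt.norm_le_one c
        have h4 : 0 ≤ ‖(p : K)‖ ^ m := by positivity
        nlinarith
      calc ‖g (e2G p k F X X' (e2E n ℤ_[p])) i j‖ * ‖r j‖ ≤ ‖(p : K)‖ ^ m * 1 :=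
            mul_le_mul h3 hrj (norm_nonneg _) (by positivity)
        _ = ‖(p : K)‖ ^ m := mul_one _
    calc ‖l i‖ * ‖Matrix.mulVec (g (e2G p k F X X' (e2E n ℤ_[p]))) r i‖ ≤ 1 * ‖(p : K)‖ ^ m :=
          mul_le_mul hli h2 (norm_nonneg _) zero_le_one
      _ = ‖(p : K)‖ ^ m := one_mul _
  rw [hev, norm_mul, norm_pow] at hbound
  have hpk : 0 < ‖(p : K)‖ ^ k := by positivity
  have hsplit : ‖(p : K)‖ ^ m = ‖(p : K)‖ ^ k * ‖(p : K)‖ ^ (m - k) := by
    rw [← pow_add]
    congr 1
    omega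
  rw [hsplit] at hbound
  exact le_of_mul_le_mul_left hbound hpk

end Pool.Agent.Helper431.PN
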