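import Mathlib
import Pool.Agent.Helper431.PN.Base

namespace Pool.Agent.Helper431.PN

open Polynomial in
/-- TARGET -/
theorem poly_coeff {p : ℕ} [Fact p.Prime] (μ : Fin (p - 1) → ℤ_[p]) (hμ : Function.Injective μ)
    (hμp : ∀ i, (p : ℤ_[p]) ∣ μ i) :
    ∃ κ : ℕ, ∀ G : Polynomial ℤ_[p], (∀ i, (p : ℤ_[p]) ^ κ ∣ G.eval (μ i)) →
      (p : ℤ_[p]) ∣ G.coeff (p - 2) := by
  have hp2 : 2 ≤ p := (Fact.out : p.Prime).two_le
  set V := Matrix.vandermonde μ with hV
  have hdet : V.det ≠ 0 := Matrix.det_vandermonde_ne_zero_iff.2 hμ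
  obtain ⟨k, hk⟩ := FiniteMultiplicity.of_prime_left (PadicInt.prime_p (p := p)) hdet
  refine ⟨k + 1, fun G hG => ?_⟩
  -- the kernel of the reduction
  have hker : ∀ x : ℤ_[p], PadicInt.toZMod x = 0 ↔ (p : ℤ_[p]) ∣ x := by
    intro x
    rw [← RingHom.mem_ker, PadicInt.ker_toZMod, PadicInt.maximalIdeal_eq_span_p,
      Ideal.mem_span_singleton]
  set P : Polynomial ℤ_[p] := ∏ i : Fin (p - 1), (X - C (μ i)) with hP
  have hPm : P.Monic := monic_prod_X_sub_C _ _
  have hPd : P.natDegree = p - 1 := by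
    rw [hP, natDegree_finsetProd_X_sub_C_eq_card, Finset.card_univ, Fintype.card_fin]
  have hP1 : P ≠ 1 := by
    intro h
    rw [h, natDegree_one] at hPd
    omega
  have hPe : ∀ i, P.eval (μ i) = 0 := by
    intro i
    rw [hP, eval_prod]
    apply Finset.prod_eq_zero (Finset.mem_univ i)
    simp
  set R := G %ₘ P with hR
  have hRd : R.natDegree < p - 1 := by
    rw [← hPd]
    exact natDegree_modByMonic_lt G hPm hP1
  have hdiv : R + P * (G /ₘ P) = G := modByMonic_add_div G P
  have hRe : ∀ i, R.eval (μ i) = G.eval (μ i) := by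
    intro i
    have h := congrArg (eval (μ i)) hdiv
    rw [eval_add, eval_mul, hPe i, zero_mul, add_zero] at h
    exact h
  have hVR : ∀ i, (V.mulVec (fun j : Fin (p - 1) => R.coeff j)) i = G.eval (μ i) := by
    intro i
    rw [← hRe i, eval_eq_sum_range' hRd, Finset.sum_range]
    change ∑ j : Fin (p - 1), V i j * R.coeff j = _
    refine Finset.sum_congr rfl fun j _ => ?_
    rw [hV, Matrix.vandermonde_apply, mul_comm]
  have hdetR : ∀ j : Fin (p - 1), V.det * R.coeff j =
      ∑ i, V.adjugate j i * G.eval (μ i) := by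
    intro j
    have h1 : (V.adjugate.mulVec (V.mulVec (fun j : Fin (p - 1) => R.coeff j))) j =
        V.det * R.coeff j := by
      rw [Matrix.mulVec_mulVec, Matrix.adjugate_mul, Matrix.smul_mulVec, Matrix.one_mulVec]
      rfl
    rw [← h1]
    change ∑ i, V.adjugate j i * (V.mulVec (fun j : Fin (p - 1) => R.coeff j)) i = _
    refine Finset.sum_congr rfl fun i _ => ?_
    rw [hVR i]
  have hRp : ∀ j : Fin (p - 1), (p : ℤ_[p]) ∣ R.coeff j := by
    intro j
    by_contra hnd
    have h1 : (p : ℤ_[p]) ^ (k + 1) ∣ V.det * R.coeff j := by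
      rw [hdetR j]
      exact Finset.dvd_sum fun i _ => Dvd.dvd.mul_left (hG i) _
    exact hk (PadicInt.prime_p.pow_dvd_of_dvd_mul_right _ hnd h1)
  have hRmap : R.map (PadicInt.toZMod (p := p)) = 0 := by
    ext j
    rw [coeff_map, coeff_zero, hker]
    by_cases hj : j < p - 1
    · exact hRp ⟨j, hj⟩
    · rw [coeff_eq_zero_of_natDegree_lt (by omega)]
      exact dvd_zero _
  have hPmap : P.map (PadicInt.toZMod (p := p)) = X ^ (p - 1) := by
    rw [hP, Polynomial.map_prod]
    have h1 : ∀ i : Fin (p - 1), ((X - C (μ i) : Polynomial ℤ_[p]).map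
        (PadicInt.toZMod (p := p))) = X := by
      intro i
      rw [Polynomial.map_sub, map_X, map_C, (hker _).2 (hμp i), C_0, sub_zero]
    rw [Finset.prod_congr rfl fun i _ => h1 i, Finset.prod_const, Finset.card_univ,
      Fintype.card_fin]
  rw [← hker, ← coeff_map, ← hdiv, Polynomial.map_add, Polynomial.map_mul, hRmap, hPmap, zero_add,
    coeff_X_pow_mul', if_neg (by omega)]

end Pool.Agent.Helper431.PN
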