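import Mathlib
import Pool.Agent.Helper431.PN.Base

namespace Pool.Agent.Helper431.PN

theorem exists_pairs_aux (i j k l : ℕ) (h1 : j < l) (h2 : k ≠ l) :
    2 ^ j + 2 ^ k ≠ 2 ^ l + 2 ^ i := by
  intro h
  have a1 : 2 ^ (j + 1) ≤ 2 ^ l := Nat.pow_le_pow_right (by norm_num) h1
  have a0 : 2 ^ (j + 1) = 2 * 2 ^ j := by rw [pow_succ]; ring
  have pi : 0 < 2 ^ i := by positivity
  have pj : 0 < 2 ^ j := by positivity
  rcases lt_or_gt_of_ne h2 with h3 | h3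
  · have a2 : 2 ^ (k + 1) ≤ 2 ^ l := Nat.pow_le_pow_right (by norm_num) h3
    have a3 : 2 ^ (k + 1) = 2 * 2 ^ k := by rw [pow_succ]; ring
    omega
  · have a2 : 2 ^ (l + 1) ≤ 2 ^ k := Nat.pow_le_pow_right (by norm_num) h3
    have a3 : 2 ^ (l + 1) = 2 * 2 ^ l := by rw [pow_succ]; ring
    have a4 : i < k := by
      by_contra hc
      push Not at hc
      have a5 : 2 ^ k ≤ 2 ^ i := Nat.pow_le_pow_right (by norm_num) hc
      omega
    have a6 : 2 ^ (i + 1) ≤ 2 ^ k := Nat.pow_le_pow_right (by norm_num) a4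
    have a7 : 2 ^ (i + 1) = 2 * 2 ^ i := by rw [pow_succ]; ring
    omega

theorem exists_pairs_inj (i j k l : ℕ) (h1 : i ≠ j) (h2 : k ≠ l)
    (h : 2 ^ j + 2 ^ k = 2 ^ l + 2 ^ i) : j = l ∧ i = k := by
  have e : j = l := by
    rcases lt_trichotomy j l with h3 | h3 | h3
    · exact absurd h (exists_pairs_aux i j k l h3 h2)
    · exact h3
    · exact absurd h.symm (exists_pairs_aux k l i j h3 h1)
  refine ⟨e, ?_⟩
  rw [e] at h
  have : 2 ^ k = 2 ^ i := by omega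
  exact (Nat.pow_right_injective (le_refl 2) this).symm

/-- TARGET -/
theorem exists_pairs {p n : ℕ} [Fact p.Prime] (hpn : p ≤ n ^ 2 - n + 1) :
    ∃ (lam : Fin n → (ℤ_[p])ˣ) (s : Fin (p - 1) → Fin n × Fin n),
      (∀ i, (p : ℤ_[p]) ∣ (lam i : ℤ_[p]) - 1) ∧ (∀ i, (s i).1 ≠ (s i).2) ∧
      (∀ i, lam (s i).2 ≠ lam (s i).1) ∧
      Function.Injective (fun i => lam (s i).2 * (lam (s i).1)⁻¹) := by
  have hp : p.Prime := Fact.out
  have hu : IsUnit ((1 : ℤ_[p]) + (p : ℤ_[p])) := by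
    rcases IsLocalRing.isUnit_or_isUnit_one_sub_self (-(p : ℤ_[p])) with h | h
    · exact absurd (by simpa using h.neg) PadicInt.prime_p.not_unit
    · simpa [sub_neg_eq_add] using h
  obtain ⟨u, hu'⟩ := hu
  have hinj : Function.Injective (fun k : ℤ => u ^ k) := by
    rw [injective_zpow_iff_not_isOfFinOrder, isOfFinOrder_iff_pow_eq_one]
    rintro ⟨k, hk, hk1⟩
    have h1 : ((1 : ℤ_[p]) + (p : ℤ_[p])) ^ k = 1 := by
      rw [← hu', ← Units.val_pow_eq_pow_val, hk1]; rfl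
    have h2 : (((1 + p) ^ k : ℕ) : ℤ_[p]) = ((1 : ℕ) : ℤ_[p]) := by
      push_cast; exact h1
    have h3 : (1 + p) ^ k = 1 := Nat.cast_injective h2
    have h4 : 1 < (1 + p) ^ k := Nat.one_lt_pow (by omega) (by have := hp.pos; omega)
    omega
  have hcard : p - 1 ≤ (Finset.univ : Finset (Fin n)).offDiag.card := by
    rw [Finset.offDiag_card, Finset.card_univ, Fintype.card_fin, ← sq]
    omega
  let e := (Finset.univ : Finset (Fin n)).offDiag.equivFin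
  let s : Fin (p - 1) → Fin n × Fin n := fun i => (e.symm (Fin.castLE hcard i)).1
  have hs : ∀ i, (s i).1 ≠ (s i).2 := by
    intro i
    have := (e.symm (Fin.castLE hcard i)).2
    rw [Finset.mem_offDiag] at this
    exact this.2.2
  have hsinj : Function.Injective s := by
    intro a b hab
    have h1 : e.symm (Fin.castLE hcard a) = e.symm (Fin.castLE hcard b) := Subtype.ext hab
    have h2 := e.symm.injective h1
    exact Fin.castLE_injective hcard h2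
  refine ⟨fun i => u ^ (2 ^ (i : ℕ)), s, ?_, hs, ?_, ?_⟩
  · intro i
    have h := sub_dvd_pow_sub_pow ((1 : ℤ_[p]) + (p : ℤ_[p])) 1 (2 ^ (i : ℕ))
    rw [one_pow, add_sub_cancel_left] at h
    rw [Units.val_pow_eq_pow_val, hu']
    exact h
  · intro i h
    have h' : u ^ ((2 ^ ((s i).2 : ℕ) : ℕ) : ℤ) = u ^ ((2 ^ ((s i).1 : ℕ) : ℕ) : ℤ) := by
      rw [zpow_natCast, zpow_natCast]; exact h
    have h2 := hinj h'
    have h3 : (2 ^ ((s i).2 : ℕ) : ℕ) = (2 ^ ((s i).1 : ℕ) : ℕ) := by exact_mod_cast h2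
    have h4 := Nat.pow_right_injective (le_refl 2) h3
    exact hs i (Fin.ext h4).symm
  · intro a b hab
    have hz : ∀ c, u ^ (2 ^ ((s c).2 : ℕ)) * (u ^ (2 ^ ((s c).1 : ℕ)))⁻¹
        = u ^ (((2 ^ ((s c).2 : ℕ) : ℕ) : ℤ) - ((2 ^ ((s c).1 : ℕ) : ℕ) : ℤ)) := by
      intro c
      rw [zpow_sub, zpow_natCast, zpow_natCast]
    have hab' : u ^ (2 ^ ((s a).2 : ℕ)) * (u ^ (2 ^ ((s a).1 : ℕ)))⁻¹
        = u ^ (2 ^ ((s b).2 : ℕ)) * (u ^ (2 ^ ((s b).1 : ℕ)))⁻¹ := hab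
    rw [hz a, hz b] at hab'
    have h2 := hinj hab'
    have h3 : 2 ^ ((s a).2 : ℕ) + 2 ^ ((s b).1 : ℕ) = 2 ^ ((s b).2 : ℕ) + 2 ^ ((s a).1 : ℕ) := by
      have : (((2 ^ ((s a).2 : ℕ) : ℕ) : ℤ)) + ((2 ^ ((s b).1 : ℕ) : ℕ) : ℤ)
          = ((2 ^ ((s b).2 : ℕ) : ℕ) : ℤ) + ((2 ^ ((s a).1 : ℕ) : ℕ) : ℤ) := by linarith
      exact_mod_cast this
    have h4 := exists_pairs_inj ((s a).1 : ℕ) ((s a).2 : ℕ) ((s b).1 : ℕ) ((s b).2 : ℕ)
      (fun h => hs a (Fin.ext h)) (fun h => hs b (Fin.ext h)) h3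
    apply hsinj
    exact Prod.ext (Fin.ext h4.2) (Fin.ext h4.1)

end Pool.Agent.Helper431.PN
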