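import Mathlib
import Pool.Agent.Helper431.PN.Base
import Pool.Agent.Helper431.PN.M5a

namespace Pool.Agent.Helper431.PN






section gp
open Polynomial Matrix

variable {n : ℕ} {R : Type*} [CommRing R]

/-- ratio -/
def gpr (lam : Fin n → Rˣ) (i j : Fin n) : R := ((lam j * (lam i)⁻¹ : Rˣ) : R)

/-- matrix of a polynomial -/
noncomputable def gpT (lam : Fin n → Rˣ) (f : ℤ[X]) : Matrix (Fin n) (Fin n) R :=
  Matrix.of fun i j => if i = j then 0 else aeval (gpr lam i j) f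

theorem gpT_add (lam : Fin n → Rˣ) (f g : ℤ[X]) : gpT lam (f + g) = gpT lam f + gpT lam g := by
  ext i j
  simp only [gpT, Matrix.of_apply, Matrix.add_apply, map_add]
  split_ifs <;> simp

theorem gpT_zero (lam : Fin n → Rˣ) : gpT lam (0 : ℤ[X]) = 0 := by
  ext i j
  simp [gpT]

theorem gp_form (lam : Fin n → Rˣ) (q : R) (hq : q * q = 0) (f g : ℤ[X]) :
    (1 + q • gpT lam f) * (1 + q • gpT lam g) = 1 + q • gpT lam (f + g) := by
  have h1 : (q • gpT lam f) * (q • gpT lam g) = 0 := by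
    rw [Matrix.smul_mul, Matrix.mul_smul, smul_smul, hq, zero_smul]
  have h2 : (1 + q • gpT lam f) * (1 + q • gpT lam g) =
      1 + q • gpT lam f + q • gpT lam g + (q • gpT lam f) * (q • gpT lam g) := by
    generalize q • gpT lam f = A
    generalize q • gpT lam g = B
    noncomm_ring
  rw [h2, h1, gpT_add, smul_add, add_zero, add_assoc]

/-- the unit of a polynomial -/
noncomputable def gpu (lam : Fin n → Rˣ) (q : R) (hq : q * q = 0) (f : ℤ[X]) :
    (Matrix (Fin n) (Fin n) R)ˣ where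
  val := 1 + q • gpT lam f
  inv := 1 + q • gpT lam (-f)
  val_inv := by rw [gp_form lam q hq, add_neg_cancel, gpT_zero, smul_zero, add_zero]
  inv_val := by rw [gp_form lam q hq, neg_add_cancel, gpT_zero, smul_zero, add_zero]

theorem gpu_mul (lam : Fin n → Rˣ) (q : R) (hq : q * q = 0) (f g : ℤ[X]) :
    gpu lam q hq f * gpu lam q hq g = gpu lam q hq (f + g) := Units.ext (gp_form lam q hq f g)

theorem gpu_zero (lam : Fin n → Rˣ) (q : R) (hq : q * q = 0) : gpu lam q hq 0 = 1 := by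
  apply Units.ext
  change 1 + q • gpT lam 0 = 1
  rw [gpT_zero, smul_zero, add_zero]

theorem gpu_inv (lam : Fin n → Rˣ) (q : R) (hq : q * q = 0) (f : ℤ[X]) :
    (gpu lam q hq f)⁻¹ = gpu lam q hq (-f) := by
  rw [inv_eq_iff_mul_eq_one, gpu_mul, add_neg_cancel, gpu_zero]

theorem gpu_pow (lam : Fin n → Rˣ) (q : R) (hq : q * q = 0) (f : ℤ[X]) (l : ℕ) :
    (gpu lam q hq f) ^ l = gpu lam q hq (l * f) := by
  induction l with
  | zero => rw [pow_zero, Nat.cast_zero, zero_mul, gpu_zero]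
  | succ l ih =>
    rw [pow_succ, ih, gpu_mul]
    congr 1
    push_cast
    ring

/-- the diagonal unit -/
def gpx (lam : Fin n → Rˣ) : (Matrix (Fin n) (Fin n) R)ˣ where
  val := diagonal fun i => (lam i : R)
  inv := diagonal fun i => ((lam i)⁻¹ : Rˣ)
  val_inv := by
    rw [diagonal_mul_diagonal, ← diagonal_one]
    congr 1
    funext i
    exact (lam i).mul_inv
  inv_val := by
    rw [diagonal_mul_diagonal, ← diagonal_one]
    congr 1
    funext i
    exact (lam i).inv_mul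

theorem gpx_conj (lam : Fin n → Rˣ) (q : R) (hq : q * q = 0) (f : ℤ[X]) :
    gpu lam q hq f * gpx lam = gpx lam * gpu lam q hq (X * f) := by
  apply Units.ext
  change (1 + q • gpT lam f) * (diagonal fun i => (lam i : R)) =
    (diagonal fun i => (lam i : R)) * (1 + q • gpT lam (X * f))
  rw [add_mul, mul_add, one_mul, mul_one, Matrix.smul_mul, Matrix.mul_smul]
  congr 2
  ext i j
  rw [Matrix.mul_diagonal, Matrix.diagonal_mul]
  simp only [gpT, Matrix.of_apply]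
  split_ifs with h
  · rw [mul_zero, zero_mul]
  · rw [map_mul, aeval_X, gpr, Units.val_mul]
    have : (lam i : R) * ((lam i)⁻¹ : Rˣ) = 1 := (lam i).mul_inv
    linear_combination (-(lam j : R) * aeval ((lam j : R) * ((lam i)⁻¹ : Rˣ)) f) * this

theorem gpx_conj_pow (lam : Fin n → Rˣ) (q : R) (hq : q * q = 0) (f : ℤ[X]) (a : ℕ) :
    gpu lam q hq f * gpx lam ^ a = gpx lam ^ a * gpu lam q hq (X ^ a * f) := by
  induction a generalizing f with
  | zero => rw [pow_zero, pow_zero, one_mul, one_mul, mul_one]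
  | succ a ih =>
    rw [pow_succ', ← mul_assoc, gpx_conj, mul_assoc, ih, ← mul_assoc, ← pow_succ', ← mul_assoc,
      ← pow_succ]

theorem gpu_per (lam : Fin n → Rˣ) (q : R) (hq : q * q = 0) (N : ℕ) (hN : ∀ u : Rˣ, u ^ N = 1)
    (f : ℤ[X]) (c : ℕ) : gpu lam q hq (X ^ (N * c) * f) = gpu lam q hq f := by
  apply Units.ext
  change 1 + q • gpT lam (X ^ (N * c) * f) = 1 + q • gpT lam f
  congr 2
  ext i j
  simp only [gpT, Matrix.of_apply]
  split_ifs
  · rfl
  · rw [map_mul, map_pow, aeval_X, pow_mul]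
    have : (gpr lam i j) ^ N = 1 := by
      rw [gpr, ← Units.val_pow_eq_pow_val, hN, Units.val_one]
    rw [this, one_pow, one_mul]

theorem gpx_pow (lam : Fin n → Rˣ) (N : ℕ) (hN : ∀ u : Rˣ, u ^ N = 1) : gpx lam ^ N = 1 := by
  apply Units.ext
  rw [Units.val_pow_eq_pow_val]
  change (diagonal fun i => (lam i : R)) ^ N = 1
  rw [Matrix.diagonal_pow, ← diagonal_one]
  congr 1
  funext i
  rw [Pi.pow_apply, ← Units.val_pow_eq_pow_val, hN, Units.val_one]

theorem gpx_conj' (lam : Fin n → Rˣ) (q : R) (hq : q * q = 0) (N : ℕ) (hN0 : 0 < N)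
    (hN : ∀ u : Rˣ, u ^ N = 1) (f : ℤ[X]) (c : ℕ) :
    gpx lam ^ c * gpu lam q hq f * (gpx lam ^ c)⁻¹ = gpu lam q hq (X ^ ((N - 1) * c) * f) := by
  rw [mul_inv_eq_iff_eq_mul, gpx_conj_pow, ← mul_assoc, ← pow_add]
  have : c + (N - 1) * c = N * c := by
    obtain ⟨M, rfl⟩ : ∃ M, N = M + 1 := ⟨N - 1, by omega⟩
    rw [Nat.add_sub_cancel]; ring
  rw [this, gpu_per lam q hq N hN]

/-- normal form -/
def gpNF (lam : Fin n → Rˣ) (q : R) (hq : q * q = 0) (h : (Matrix (Fin n) (Fin n) R)ˣ) : Prop :=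
  ∃ (a : ℕ) (f : ℤ[X]), h = gpx lam ^ a * gpu lam q hq f

theorem gpNF_mul (lam : Fin n → Rˣ) (q : R) (hq : q * q = 0) (a b : ℕ) (f g : ℤ[X]) :
    (gpx lam ^ a * gpu lam q hq f) * (gpx lam ^ b * gpu lam q hq g) =
      gpx lam ^ (a + b) * gpu lam q hq (X ^ b * f + g) := by
  rw [← gpu_mul, ← mul_assoc, mul_assoc (gpx lam ^ a), gpx_conj_pow, pow_add]
  group

theorem gpNF_inv (lam : Fin n → Rˣ) (q : R) (hq : q * q = 0) (N : ℕ) (hN0 : 0 < N)
    (hN : ∀ u : Rˣ, u ^ N = 1) {h : (Matrix (Fin n) (Fin n) R)ˣ} (hh : gpNF lam q hq h) :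
    gpNF lam q hq h⁻¹ := by
  obtain ⟨a, f, rfl⟩ := hh
  have h1 : (gpx lam ^ a)⁻¹ = gpx lam ^ ((N - 1) * a) := by
    rw [inv_eq_iff_mul_eq_one, ← pow_add]
    have : a + (N - 1) * a = N * a := by
      obtain ⟨M, rfl⟩ : ∃ M, N = M + 1 := ⟨N - 1, by omega⟩
      rw [Nat.add_sub_cancel]; ring
    rw [this, pow_mul, gpx_pow lam N hN, one_pow]
  refine ⟨(N - 1) * a, X ^ ((N - 1) * a) * (-f), ?_⟩
  rw [_root_.mul_inv_rev, gpu_inv, h1, gpx_conj_pow]

theorem gp_comm (lam : Fin n → Rˣ) (q : R) (hq : q * q = 0) (N : ℕ) (hN0 : 0 < N)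
    (hN : ∀ u : Rˣ, u ^ N = 1) {h1 h2 : (Matrix (Fin n) (Fin n) R)ˣ} (hh1 : gpNF lam q hq h1)
    (hh2 : gpNF lam q hq h2) : ∃ w : ℤ[X], h1 * h2 * h1⁻¹ * h2⁻¹ = gpu lam q hq ((X - 1) * w) := by
  obtain ⟨a, f, rfl⟩ := hh1
  obtain ⟨b, g, rfl⟩ := hh2
  obtain ⟨r, hr⟩ : (X - 1 : ℤ[X]) ∣ X ^ b - 1 := by
    simpa using sub_dvd_pow_sub_pow (X : ℤ[X]) 1 b
  obtain ⟨s, hs⟩ : (X - 1 : ℤ[X]) ∣ X ^ a - 1 := by
    simpa using sub_dvd_pow_sub_pow (X : ℤ[X]) 1 a
  have e1 := gpNF_mul lam q hq a b f g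
  have e2 := gpNF_mul lam q hq b a g f
  refine ⟨X ^ ((N - 1) * (a + b)) * (r * f - s * g), ?_⟩
  set A := gpx lam ^ a * gpu lam q hq f
  set B := gpx lam ^ b * gpu lam q hq g
  have e3 : A * B * A⁻¹ * B⁻¹ = (A * B) * (B * A)⁻¹ := by group
  rw [e3, e1, e2, _root_.mul_inv_rev, add_comm b a]
  have e4 : gpx lam ^ (a + b) * gpu lam q hq (X ^ b * f + g) *
      ((gpu lam q hq (X ^ a * g + f))⁻¹ * (gpx lam ^ (a + b))⁻¹) =
      gpx lam ^ (a + b) * (gpu lam q hq (X ^ b * f + g) * (gpu lam q hq (X ^ a * g + f))⁻¹) *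
        (gpx lam ^ (a + b))⁻¹ := by group
  rw [e4, gpu_inv, gpu_mul, gpx_conj' lam q hq N hN0 hN]
  congr 1
  have e5 : X ^ b * f + g + -(X ^ a * g + f) = (X ^ b - 1) * f - (X ^ a - 1) * g := by ring
  rw [e5, hr, hs]
  ring

theorem gp_geom (lam : Fin n → Rˣ) (q : R) (hq : q * q = 0) (l : ℕ) :
    (gpx lam * gpu lam q hq 1) ^ l = gpx lam ^ l * gpu lam q hq (∑ i ∈ Finset.range l, X ^ i) := by
  induction l with
  | zero => rw [pow_zero, pow_zero, Finset.range_zero, Finset.sum_empty, gpu_zero, one_mul]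
  | succ l ih =>
    rw [pow_succ, ih]
    have := gpNF_mul lam q hq l 1 (∑ i ∈ Finset.range l, X ^ i) 1
    rw [pow_one, pow_one] at this
    rw [this, geom_sum_succ]

end gp

/-- TARGET -/
theorem good_poly {p m n k : ℕ} (hp : p.Prime) (hk1 : 1 ≤ k) (hkm : k ≤ m) (hk : m ≤ 2 * k)
    (lam : Fin n → (ZMod (p ^ m))ˣ)
    (hlam : ∀ i, (p : ZMod (p ^ m)) ∣ (lam i : ZMod (p ^ m)) - 1)
    (hreg : IsRegular p (PGroup p m n)) :
    ∃ F : Polynomial ℤ, ∀ i j : Fin n, i ≠ j →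
      (p : ZMod (p ^ m)) ^ k *
        ((∑ l ∈ Finset.range p, ((lam j * (lam i)⁻¹ : (ZMod (p ^ m))ˣ) : ZMod (p ^ m)) ^ l) - p -
          p * (((lam j * (lam i)⁻¹ : (ZMod (p ^ m))ˣ) : ZMod (p ^ m)) - 1) *
            Polynomial.aeval ((lam j * (lam i)⁻¹ : (ZMod (p ^ m))ˣ) : ZMod (p ^ m)) F) = 0 := by
  classical
  haveI : NeZero (p ^ m) := ⟨pow_ne_zero _ hp.ne_zero⟩
  have hm : 1 ≤ m := hk1.trans hkm
  set q : ZMod (p ^ m) := (p : ZMod (p ^ m)) ^ k with hq
  have hqq : q * q = 0 := by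
    rw [hq, ← pow_add, ← Nat.cast_pow]
    rw [ZMod.natCast_eq_zero_iff]
    exact pow_dvd_pow p (by omega)
  have hpq : (p : ZMod (p ^ m)) ∣ q := dvd_pow_self _ (by omega)
  set N := Fintype.card (ZMod (p ^ m))ˣ with hNd
  have hN0 : 0 < N := Fintype.card_pos
  have hN : ∀ u : (ZMod (p ^ m))ˣ, u ^ N = 1 := fun u => pow_card_eq_one
  have hux : gpx lam ∈ PGroup p m n := by
    have hA : IsP p m n (Matrix.diagonal fun i => (lam i : ZMod (p ^ m))) := by
      refine ⟨fun i => by rw [Matrix.diagonal_apply_eq]; exact hlam i, fun i j hij => ?_⟩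
      rw [Matrix.diagonal_apply_ne _ (ne_of_gt hij)]
      exact dvd_zero _
    obtain ⟨g, hg, hgA⟩ := mem_of_isP hp hm _ hA
    have : g = gpx lam := Units.ext hgA
    rwa [← this]
  have huu : ∀ f, gpu lam q hqq f ∈ PGroup p m n := by
    intro f
    have hA : IsP p m n (1 + q • gpT lam f) := by
      refine ⟨fun i => ?_, fun i j hij => ?_⟩
      · simp [gpT]
      · rw [Matrix.add_apply, Matrix.one_apply_ne (ne_of_gt hij), zero_add, Matrix.smul_apply,
          smul_eq_mul]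
        exact Dvd.dvd.mul_right hpq _
    obtain ⟨g, hg, hgA⟩ := mem_of_isP hp hm _ hA
    have : g = gpu lam q hqq f := Units.ext hgA
    rwa [← this]
  set x : PGroup p m n := ⟨gpx lam, hux⟩ with hx
  set y : PGroup p m n := ⟨gpu lam q hqq 1, huu 1⟩ with hy
  obtain ⟨l, hl, heq⟩ := hreg x y
  -- elements of the closure are in normal form
  have hNF : ∀ h ∈ Subgroup.closure ({x, y} : Set (PGroup p m n)),
      gpNF lam q hqq (h : (Matrix (Fin n) (Fin n) (ZMod (p ^ m)))ˣ) := by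
    intro h hh
    induction hh using Subgroup.closure_induction with
    | mem z hz =>
      rcases hz with rfl | hz
      · exact ⟨1, 0, by rw [gpu_zero, mul_one, pow_one]⟩
      · rw [Set.mem_singleton_iff] at hz
        subst hz
        exact ⟨0, 1, by rw [pow_zero, one_mul]⟩
    | one => exact ⟨0, 0, by rw [gpu_zero, mul_one, pow_zero]; rfl⟩
    | mul a b _ _ iha ihb =>
      obtain ⟨a1, f1, h1⟩ := iha
      obtain ⟨a2, f2, h2⟩ := ihb
      refine ⟨a1 + a2, Polynomial.X ^ a2 * f1 + f2, ?_⟩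
      rw [← gpNF_mul, ← h1, ← h2]
      rfl
    | inv a _ iha => exact gpNF_inv lam q hqq N hN0 hN iha
  let B : Subgroup (PGroup p m n) :=
    { carrier := {g | ∃ w : Polynomial ℤ, (g : (Matrix (Fin n) (Fin n) (ZMod (p ^ m)))ˣ) =
        gpu lam q hqq ((Polynomial.X - 1) * w)}
      one_mem' := ⟨0, by rw [mul_zero, gpu_zero]; rfl⟩
      mul_mem' := by
        rintro a b ⟨w1, h1⟩ ⟨w2, h2⟩
        refine ⟨w1 + w2, ?_⟩
        rw [mul_add, ← gpu_mul, ← h1, ← h2]
        rfl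
      inv_mem' := by
        rintro a ⟨w, h⟩
        refine ⟨-w, ?_⟩
        rw [mul_neg, ← gpu_inv, ← h]
        rfl }
  have hcom : ⁅Subgroup.closure ({x, y} : Set (PGroup p m n)),
      Subgroup.closure ({x, y} : Set (PGroup p m n))⁆ ≤ B := by
    rw [Subgroup.commutator_le]
    intro g1 h1 g2 h2
    obtain ⟨w, hw⟩ := gp_comm lam q hqq N hN0 hN (hNF g1 h1) (hNF g2 h2)
    exact ⟨w, hw⟩
  have hprod : ∀ l : List (PGroup p m n), (∀ c ∈ l, c ∈ B) → ∃ F : Polynomial ℤ,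
      (((l.map (fun c => c ^ p)).prod : PGroup p m n) :
        (Matrix (Fin n) (Fin n) (ZMod (p ^ m)))ˣ) =
        gpu lam q hqq ((p : Polynomial ℤ) * ((Polynomial.X - 1) * F)) := by
    intro l
    induction l with
    | nil =>
      intro _
      refine ⟨0, ?_⟩
      rw [mul_zero, mul_zero, gpu_zero]
      rfl
    | cons c l ih =>
      intro hcl
      obtain ⟨F, hF⟩ := ih fun c' hc' => hcl c' (List.mem_cons_of_mem _ hc')
      obtain ⟨w, hw⟩ := hcl c List.mem_cons_self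
      refine ⟨w + F, ?_⟩
      rw [List.map_cons, List.prod_cons, Subgroup.coe_mul, Subgroup.coe_pow, hF, hw, gpu_pow,
        gpu_mul]
      congr 1
      ring
  obtain ⟨F, hF⟩ := hprod l fun c hc => hcom (hl c hc)
  have h1 := congrArg (fun g : PGroup p m n =>
    (g : (Matrix (Fin n) (Fin n) (ZMod (p ^ m)))ˣ)) heq
  simp only [Subgroup.coe_mul, Subgroup.coe_pow] at h1
  rw [hF] at h1
  change (gpx lam * gpu lam q hqq 1) ^ p = gpx lam ^ p * (gpu lam q hqq 1) ^ p *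
    gpu lam q hqq ((p : Polynomial ℤ) * ((Polynomial.X - 1) * F)) at h1
  rw [gp_geom, gpu_pow, mul_assoc, gpu_mul, mul_right_inj, mul_one] at h1
  refine ⟨F, fun i j hij => ?_⟩
  have h2 := congrArg (fun g : (Matrix (Fin n) (Fin n) (ZMod (p ^ m)))ˣ =>
    (g : Matrix (Fin n) (Fin n) (ZMod (p ^ m))) i j) h1
  change (1 + q • gpT lam _) i j = (1 + q • gpT lam _) i j at h2
  rw [Matrix.add_apply, Matrix.add_apply, Matrix.smul_apply, Matrix.smul_apply,
    add_right_inj, smul_eq_mul, smul_eq_mul] at h2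
  simp only [gpT, Matrix.of_apply, if_neg hij] at h2
  rw [map_sum] at h2
  simp only [map_add, map_mul, map_pow, map_sub, Polynomial.aeval_X, map_one, map_natCast] at h2
  change q * ((∑ l ∈ Finset.range p, (gpr lam i j) ^ l) - p - p * ((gpr lam i j) - 1) *
    Polynomial.aeval (gpr lam i j) F) = 0
  linear_combination h2

end Pool.Agent.Helper431.PN
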