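import Mathlib
import Pool.Agent.Helper431.PN.Base
import Pool.Agent.Helper431.PN.I1
import Pool.Agent.Helper431.PN.I2
import Pool.Agent.Helper431.PN.I3

namespace Pool.Agent.Helper431.PN

/-- sum of powers of 1+μ in a domain -/
theorem sum_pow_one_add {R : Type*} [CommRing R] [IsDomain R] (p : ℕ) (hp : 2 ≤ p) (μ : R)
    (hμ : μ ≠ 0) :
    ∑ l ∈ Finset.range p, (1 + μ) ^ l =
      p + μ * ∑ j ∈ Finset.range (p - 1), (p.choose (j + 2) : R) * μ ^ j := by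
  have h1 : μ * ∑ l ∈ Finset.range p, (1 + μ) ^ l = (1 + μ) ^ p - 1 := by
    have := mul_geom_sum (1 + μ) p
    simpa using this
  apply mul_left_cancel₀ hμ
  rw [h1]
  obtain ⟨q, rfl⟩ : ∃ q, p = q + 2 := ⟨p - 2, by omega⟩
  have h2 : (1 + μ) ^ (q + 2) = ∑ j ∈ Finset.range (q + 2 + 1), μ ^ j * ((q + 2).choose j : R) := by
    rw [add_comm, add_pow]
    simp
  rw [h2, Finset.sum_range_succ', Finset.sum_range_succ']
  have h3 : q + 2 - 1 = q + 1 := by omega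
  rw [h3, mul_add, Finset.mul_sum, Finset.mul_sum]
  have h4 : ∑ k ∈ Finset.range (q + 1), μ ^ (k + 1 + 1) * ((q + 2).choose (k + 1 + 1) : R) =
      ∑ i ∈ Finset.range (q + 1), μ * (μ * (((q + 2).choose (i + 2) : R) * μ ^ i)) := by
    apply Finset.sum_congr rfl
    intro i _
    have : i + 1 + 1 = i + 2 := rfl
    rw [this, pow_succ, pow_succ]; ring
  rw [h4]
  simp
  ring

theorem pow_dvd_of_mul {p : ℕ} [Fact p.Prime] {a b : ℤ_[p]} {κ ν : ℕ}
    (ha : ¬ (p : ℤ_[p]) ^ ν ∣ a) (h : (p : ℤ_[p]) ^ (κ + ν) ∣ a * b) : (p : ℤ_[p]) ^ κ ∣ b := by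
  have hp : Prime (p : ℤ_[p]) := PadicInt.prime_p
  have ha0 : a ≠ 0 := by rintro rfl; exact ha (dvd_zero _)
  have hf : FiniteMultiplicity (p : ℤ_[p]) a := FiniteMultiplicity.of_not_isUnit hp.not_isUnit ha0
  obtain ⟨c, hc, hcd⟩ := hf.exists_eq_pow_mul_and_not_dvd
  set t := multiplicity (p : ℤ_[p]) a with ht
  have htν : t < ν := by
    by_contra hcon
    push Not at hcon
    apply ha
    rw [hc]
    exact Dvd.dvd.mul_right (pow_dvd_pow _ hcon) _
  have h1 : (p : ℤ_[p]) ^ t * (p : ℤ_[p]) ^ (κ + (ν - t)) ∣ (p : ℤ_[p]) ^ t * (c * b) := by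
    rw [← pow_add, ← mul_assoc, ← hc]
    have : t + (κ + (ν - t)) = κ + ν := by omega
    rw [this]; exact h
  have h2 : (p : ℤ_[p]) ^ (κ + (ν - t)) ∣ c * b :=
    (mul_dvd_mul_iff_left (pow_ne_zero _ hp.ne_zero)).1 h1
  have h3 := hp.pow_dvd_of_dvd_mul_left _ hcd h2
  exact (pow_dvd_pow _ (by omega)).trans h3

theorem exists_not_dvd {p : ℕ} [Fact p.Prime] {ι : Type} [Finite ι] (μ : ι → ℤ_[p])
    (h0 : ∀ i, μ i ≠ 0) : ∃ ν : ℕ, ∀ i, ¬ (p : ℤ_[p]) ^ ν ∣ μ i := by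
  have hp : Prime (p : ℤ_[p]) := PadicInt.prime_p
  have h1 : ∀ i, ∃ ν : ℕ, ¬ (p : ℤ_[p]) ^ ν ∣ μ i := by
    intro i
    have hf : FiniteMultiplicity (p : ℤ_[p]) (μ i) :=
      FiniteMultiplicity.of_not_isUnit hp.not_isUnit (h0 i)
    obtain ⟨k, hk⟩ := hf
    exact ⟨k + 1, hk⟩
  choose f hf using h1
  obtain ⟨N, hN⟩ := Finite.exists_le f
  exact ⟨N, fun i hd => hf i ((pow_dvd_pow _ (hN i)).trans hd)⟩

open Polynomial in
/-- I4 -/
theorem irregular_dir {p n : ℕ} (hp : p.Prime) (hpn : p ≤ n ^ 2 - n + 1) :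
    ∃ M, ∀ m, M ≤ m → ¬ IsRegular p (PGroup p m n) := by
  have : Fact p.Prime := ⟨hp⟩
  have hP : Prime (p : ℤ_[p]) := PadicInt.prime_p
  obtain ⟨lam, s, hl, hne, hlne, hinj⟩ := exists_pairs hpn
  let ρ : Fin (p - 1) → (ℤ_[p])ˣ := fun i => lam (s i).2 * (lam (s i).1)⁻¹
  let μ : Fin (p - 1) → ℤ_[p] := fun i => (ρ i : ℤ_[p]) - 1
  have hμinj : Function.Injective μ := by
    intro i j hij
    apply hinj
    apply Units.ext
    have : (ρ i : ℤ_[p]) = ρ j := by simpa [μ] using hij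
    exact this
  have hμp : ∀ i, (p : ℤ_[p]) ∣ μ i := by
    intro i
    have e : μ i = ((lam (s i).2 : ℤ_[p]) - 1 - ((lam (s i).1 : ℤ_[p]) - 1)) *
        (((lam (s i).1)⁻¹ : (ℤ_[p])ˣ) : ℤ_[p]) := by
      have h1 : (lam (s i).1 : ℤ_[p]) * (((lam (s i).1)⁻¹ : (ℤ_[p])ˣ) : ℤ_[p]) = 1 := by
        rw [← Units.val_mul, mul_inv_cancel, Units.val_one]
      simp only [μ, ρ, Units.val_mul]
      linear_combination h1
    rw [e]
    exact Dvd.dvd.mul_right (dvd_sub (hl _) (hl _)) _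
  have hμ0 : ∀ i, μ i ≠ 0 := by
    intro i h0
    apply hlne i
    have h1 : (ρ i : ℤ_[p]) = 1 := sub_eq_zero.1 h0
    have h2 : ρ i = 1 := Units.ext (by simpa using h1)
    exact mul_inv_eq_one.1 h2
  obtain ⟨κ, hκ⟩ := poly_coeff μ hμinj hμp
  obtain ⟨ν, hν⟩ := exists_not_dvd μ hμ0
  refine ⟨2 * (κ + ν) + 2, fun m hm hreg => ?_⟩
  let k := (m + 1) / 2
  have hk1 : 1 ≤ k := by simp only [k]; omega
  have hkm : k ≤ m := by simp only [k]; omega
  have hk2 : m ≤ 2 * k := by simp only [k]; omega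
  have hmk : κ + ν ≤ m - k := by simp only [k]; omega
  let φ : ℤ_[p] →+* ZMod (p ^ m) := PadicInt.toZModPow m
  let lamb : Fin n → (ZMod (p ^ m))ˣ := fun i => Units.map φ.toMonoidHom (lam i)
  have hlamb : ∀ i, (lamb i : ZMod (p ^ m)) = φ (lam i) := fun i => rfl
  have hlb : ∀ i, (p : ZMod (p ^ m)) ∣ (lamb i : ZMod (p ^ m)) - 1 := by
    intro i
    have := map_dvd φ (hl i)
    simpa [hlamb] using this
  obtain ⟨F, hF⟩ := good_poly hp hk1 hkm hk2 lamb hlb hreg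
  let h : Polynomial ℤ_[p] := ∑ j ∈ Finset.range (p - 1), C ((p.choose (j + 2) : ℕ) : ℤ_[p]) * X ^ j
  let G : Polynomial ℤ_[p] := h - C (p : ℤ_[p]) * (F.map (Int.castRingHom ℤ_[p])).comp (X + 1)
  have hG : ∀ i, (p : ℤ_[p]) ^ κ ∣ G.eval (μ i) := by
    intro i
    have hρ : ((lamb (s i).2 * (lamb (s i).1)⁻¹ : (ZMod (p ^ m))ˣ) : ZMod (p ^ m)) =
        φ (ρ i : ℤ_[p]) := by
      have : lamb (s i).2 * (lamb (s i).1)⁻¹ = Units.map φ.toMonoidHom (ρ i) := by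
        simp only [lamb, ρ, map_mul, map_inv]
      rw [this]; rfl
    have h1 := hF (s i).1 (s i).2 (hne i)
    rw [hρ] at h1
    have haev : Polynomial.aeval (φ (ρ i : ℤ_[p])) F =
        φ ((F.map (Int.castRingHom ℤ_[p])).eval (ρ i : ℤ_[p])) := by
      rw [Polynomial.eval_map, Polynomial.hom_eval₂, Polynomial.aeval_def]
      congr 1
      exact Subsingleton.elim _ _
    have h2 : φ ((p : ℤ_[p]) ^ k * ((∑ l ∈ Finset.range p, (ρ i : ℤ_[p]) ^ l) - p -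
        p * ((ρ i : ℤ_[p]) - 1) * (F.map (Int.castRingHom ℤ_[p])).eval (ρ i : ℤ_[p]))) = 0 := by
      rw [haev] at h1
      simpa using h1
    have h3 : (p : ℤ_[p]) ^ m ∣ (p : ℤ_[p]) ^ k * ((∑ l ∈ Finset.range p, (ρ i : ℤ_[p]) ^ l) - p -
        p * ((ρ i : ℤ_[p]) - 1) * (F.map (Int.castRingHom ℤ_[p])).eval (ρ i : ℤ_[p])) := by
      have : _ ∈ RingHom.ker (PadicInt.toZModPow (p := p) m) := h2
      rw [PadicInt.ker_toZModPow, Ideal.mem_span_singleton] at this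
      exact this
    have h4 : (∑ l ∈ Finset.range p, (ρ i : ℤ_[p]) ^ l) - p -
        p * ((ρ i : ℤ_[p]) - 1) * (F.map (Int.castRingHom ℤ_[p])).eval (ρ i : ℤ_[p]) =
        μ i * G.eval (μ i) := by
      have e1 : (ρ i : ℤ_[p]) = 1 + μ i := by simp [μ]
      have e2 := sum_pow_one_add p hp.two_le (μ i) (hμ0 i)
      rw [e1, e2]
      have e3 : h.eval (μ i) = ∑ j ∈ Finset.range (p - 1), ((p.choose (j + 2) : ℕ) : ℤ_[p]) * μ i ^ j := by
        simp [h, Polynomial.eval_finsetSum]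
      have e4 : G.eval (μ i) = h.eval (μ i) -
          p * (F.map (Int.castRingHom ℤ_[p])).eval (1 + μ i) := by
        simp [G, add_comm]
      rw [e4, e3]
      ring
    rw [h4] at h3
    have h5 : (p : ℤ_[p]) ^ (κ + ν) ∣ μ i * G.eval (μ i) := by
      have h6 : (p : ℤ_[p]) ^ k * (p : ℤ_[p]) ^ (m - k) ∣ (p : ℤ_[p]) ^ k * (μ i * G.eval (μ i)) := by
        rw [← pow_add]
        have : k + (m - k) = m := by omega
        rw [this]; exact h3
      exact (pow_dvd_pow _ hmk).trans ((mul_dvd_mul_iff_left (pow_ne_zero _ hP.ne_zero)).1 h6)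
    exact pow_dvd_of_mul (hν i) h5
  have hc := hκ G hG
  have hcoef : h.coeff (p - 2) = 1 := by
    simp only [h, Polynomial.finsetSum_coeff, Polynomial.coeff_C_mul, Polynomial.coeff_X_pow]
    rw [Finset.sum_eq_single (p - 2)]
    · have : p - 2 + 2 = p := by have := hp.two_le; omega
      simp [this]
    · intro b _ hb
      simp [Ne.symm hb]
    · intro hb
      exfalso; apply hb
      rw [Finset.mem_range]; have := hp.two_le; omega
  have hGc : G.coeff (p - 2) = 1 - p * ((F.map (Int.castRingHom ℤ_[p])).comp (X + 1)).coeff (p - 2) := by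
    simp only [G, Polynomial.coeff_sub, hcoef, Polynomial.coeff_C_mul]
  rw [hGc] at hc
  have h1 : (p : ℤ_[p]) ∣ 1 := by
    have := dvd_add hc (Dvd.intro _ rfl :
      (p : ℤ_[p]) ∣ p * ((F.map (Int.castRingHom ℤ_[p])).comp (X + 1)).coeff (p - 2))
    simpa using this
  exact hP.not_isUnit (isUnit_of_dvd_one h1)

end Pool.Agent.Helper431.PN
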