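import Mathlib
import Pool.Agent.Helper431.PN.Base

namespace Pool.Agent.Helper431.PN

theorem norm_geom_aux {K : Type} [NormedField K] (hna : IsNonarchimedean (fun x : K => ‖x‖))
    {u : K} (hu : ‖u‖ = 1) (m : ℕ) : ‖∑ j ∈ Finset.range m, u ^ j‖ ≤ 1 := by
  induction m with
  | zero => simp
  | succ m ih =>
    rw [Finset.sum_range_succ]
    refine (hna _ _).trans ?_
    refine max_le ih ?_
    simp [norm_pow, hu]

theorem norm_pow_sub_aux {K : Type} [NormedField K] (hna : IsNonarchimedean (fun x : K => ‖x‖))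
    {u : K} (hu : ‖u‖ = 1) (i : ℕ) : ‖u ^ i - 1‖ ≤ ‖u - 1‖ := by
  have h : u ^ i - 1 = (∑ j ∈ Finset.range i, u ^ j) * (u - 1) := (geom_sum_mul u i).symm
  rw [h, norm_mul]
  have := norm_geom_aux hna hu i
  nlinarith [norm_nonneg (u - 1), norm_nonneg (∑ j ∈ Finset.range i, u ^ j)]

theorem norm_sum_sub_aux {K : Type} [NormedField K] (hna : IsNonarchimedean (fun x : K => ‖x‖))
    {u : K} (hu : ‖u‖ = 1) (m : ℕ) : ‖∑ i ∈ Finset.range m, (u ^ i - 1)‖ ≤ ‖u - 1‖ := by
  induction m with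
  | zero => simp
  | succ m ih =>
    rw [Finset.sum_range_succ]
    exact (hna _ _).trans (max_le ih (norm_pow_sub_aux hna hu m))

/-- TARGET -/
theorem root_sub_norm {K : Type} [NormedField K] (hna : IsNonarchimedean (fun x : K => ‖x‖))
    {n : ℕ} (hn : 1 ≤ n) (hnorm : ‖(n : K)‖ = 1) {z w : K} (hz : z ^ n = 1) (hw : w ^ n = 1)
    (hzw : z ≠ w) : ‖z - w‖ = 1 := by
  have hn0 : n ≠ 0 := by omega
  have hnz : ‖z‖ = 1 := by
    have : ‖z‖ ^ n = 1 := by rw [← norm_pow, hz, norm_one]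
    exact (pow_eq_one_iff_of_nonneg (norm_nonneg _) hn0).1 this
  have hnw : ‖w‖ = 1 := by
    have : ‖w‖ ^ n = 1 := by rw [← norm_pow, hw, norm_one]
    exact (pow_eq_one_iff_of_nonneg (norm_nonneg _) hn0).1 this
  have hw0 : w ≠ 0 := by
    intro h; rw [h, norm_zero] at hnw; exact zero_ne_one hnw
  set u := z / w with hu
  have hun : ‖u‖ = 1 := by rw [hu, norm_div, hnz, hnw, div_one]
  have hupow : u ^ n = 1 := by rw [hu, div_pow, hz, hw, div_one]
  have hu1 : u ≠ 1 := by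
    intro h
    apply hzw
    rw [hu, div_eq_one_iff_eq hw0] at h
    exact h
  have hfac : z - w = w * (u - 1) := by
    rw [hu]; field_simp
  have hnorm2 : ‖z - w‖ = ‖u - 1‖ := by
    rw [hfac, norm_mul, hnw, one_mul]
  rw [hnorm2]
  have hle : ‖u - 1‖ ≤ 1 := by
    have := hna u (-1)
    simp only [norm_neg, norm_one, hun, max_self] at this
    rwa [← sub_eq_add_neg] at this
  by_contra hne
  have hlt : ‖u - 1‖ < 1 := lt_of_le_of_ne hle hne
  have hgeo : ∑ i ∈ Finset.range n, u ^ i = 0 := by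
    have h1 : (∑ i ∈ Finset.range n, u ^ i) * (u - 1) = 0 := by
      rw [geom_sum_mul, hupow, sub_self]
    exact (mul_eq_zero.1 h1).resolve_right (sub_ne_zero.2 hu1)
  have hsum : ∑ i ∈ Finset.range n, (u ^ i - 1) = -(n : K) := by
    rw [Finset.sum_sub_distrib, hgeo]
    simp
  have h2 := norm_sum_sub_aux hna hun n
  rw [hsum, norm_neg, hnorm] at h2
  linarith

end Pool.Agent.Helper431.PN
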