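import Mathlib
import Pool.Agent.Helper431.PN.Base

namespace Pool.Agent.Helper431.PN

/-- the unit ball as a subring -/
def frob_norm_O (K : Type) [NormedField K] (hna : IsNonarchimedean (fun x : K => ‖x‖)) :
    Subring K where
  carrier := {x | ‖x‖ ≤ 1}
  mul_mem' := by
    intro a b ha hb
    change ‖a * b‖ ≤ 1
    rw [norm_mul]
    exact mul_le_one₀ ha (norm_nonneg _) hb
  one_mem' := by
    change ‖(1 : K)‖ ≤ 1
    rw [norm_one]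
  add_mem' := by
    intro a b ha hb
    exact (hna a b).trans (max_le ha hb)
  zero_mem' := by
    change ‖(0 : K)‖ ≤ 1
    rw [norm_zero]
    exact zero_le_one
  neg_mem' := by
    intro a ha
    change ‖-a‖ ≤ 1
    rw [norm_neg]
    exact ha

theorem frob_norm_add {p : ℕ} (hp : p.Prime) {K : Type} [NormedField K]
    (hna : IsNonarchimedean (fun x : K => ‖x‖)) (m : ℕ) (x y : K) (hx : ‖x‖ ≤ 1) (hy : ‖y‖ ≤ 1) :
    ‖x + y‖ ≤ 1 ∧ ∃ r : K, ‖r‖ ≤ 1 ∧ (x + y) ^ p ^ m = x ^ p ^ m + y ^ p ^ m + p * r := by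
  refine ⟨(hna x y).trans (max_le hx hy), ?_⟩
  let x' : frob_norm_O K hna := ⟨x, hx⟩
  let y' : frob_norm_O K hna := ⟨y, hy⟩
  obtain ⟨r, hr⟩ := exists_add_pow_prime_pow_eq hp x' y' m
  refine ⟨((x' * y' * r : frob_norm_O K hna) : K), (x' * y' * r).2, ?_⟩
  have h := congrArg (fun z : frob_norm_O K hna => (z : K)) hr
  push_cast at h ⊢
  rw [mul_assoc, mul_assoc] at h
  rw [mul_assoc]
  exact h

theorem frob_norm_root {n q : ℕ} (hq : ∃ k, q = 1 + n * k) {K : Type} [NormedField K] {z : K}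
    (h : z ^ n = 1) : z ^ q = z := by
  obtain ⟨k, rfl⟩ := hq
  rw [pow_add, pow_mul, h, one_pow, mul_one, pow_one]

theorem frob_norm_one {n : ℕ} (hn : 1 ≤ n) {K : Type} [NormedField K] {z : K}
    (h : z ^ n = 1) : ‖z‖ ≤ 1 := by
  have h1 : ‖z‖ ^ n = 1 := by rw [← norm_pow, h, norm_one]
  exact ((pow_eq_one_iff_of_nonneg (norm_nonneg z) (by omega)).1 h1).le

/-- TARGET -/
theorem frob_norm {p n : ℕ} (hp : p.Prime) (hp2 : p ≠ 2) {K : Type} [NormedField K]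
    (hna : IsNonarchimedean (fun x : K => ‖x‖)) (hn : 1 ≤ n) (hpn : ¬ p ∣ n)
    {z1 z2 z3 z4 : K} (h1 : z1 ^ n = 1) (h2 : z2 ^ n = 1) (h3 : z3 ^ n = 1) (h4 : z4 ^ n = 1)
    (hS : ‖z1 + z2 - z3 - z4‖ < 1) : ‖z1 + z2 - z3 - z4‖ ≤ ‖(p : K)‖ := by
  obtain ⟨m, hm⟩ : ∃ m, m = n.totient := ⟨_, rfl⟩
  have hm1 : 1 ≤ m := by
    rw [hm]
    exact Nat.totient_pos.2 (by omega)
  have hcop : Nat.Coprime p n := (Nat.Prime.coprime_iff_not_dvd hp).2 hpn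
  have hmod : p ^ m ≡ 1 [MOD n] := by
    rw [hm]
    exact Nat.ModEq.pow_totient hcop
  have hq1 : 1 ≤ p ^ m := Nat.one_le_pow _ _ hp.pos
  have hqk : ∃ k, p ^ m = 1 + n * k := by
    obtain ⟨k, hk⟩ := (Nat.modEq_iff_dvd' hq1).1 hmod.symm
    exact ⟨k, by omega⟩
  have hq2 : 2 ≤ p ^ m := by
    calc
      2 ≤ p := hp.two_le
      _ = p ^ 1 := (pow_one p).symm
      _ ≤ p ^ m := Nat.pow_le_pow_right hp.pos hm1
  have hodd : Odd (p ^ m) := (hp.odd_of_ne_two hp2).pow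
  have e1 := frob_norm_root hqk h1
  have e2 := frob_norm_root hqk h2
  have e3 := frob_norm_root hqk h3
  have e4 := frob_norm_root hqk h4
  have n1 := frob_norm_one hn h1
  have n2 := frob_norm_one hn h2
  have n3 : ‖-z3‖ ≤ 1 := by rw [norm_neg]; exact frob_norm_one hn h3
  have n4 : ‖-z4‖ ≤ 1 := by rw [norm_neg]; exact frob_norm_one hn h4
  obtain ⟨a1, r1, hr1, s1⟩ := frob_norm_add hp hna m z1 z2 n1 n2
  obtain ⟨a2, r2, hr2, s2⟩ := frob_norm_add hp hna m (z1 + z2) (-z3) a1 n3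
  obtain ⟨a3, r3, hr3, s3⟩ := frob_norm_add hp hna m (z1 + z2 + -z3) (-z4) a2 n4
  obtain ⟨S, hSdef⟩ : ∃ S, S = z1 + z2 - z3 - z4 := ⟨_, rfl⟩
  rw [← hSdef] at hS ⊢
  have hS' : S = z1 + z2 + -z3 + -z4 := by rw [hSdef]; ring
  have hSq : S ^ p ^ m = S + p * (r1 + (r2 + r3)) := by
    rw [hS', s3, s2, s1, hodd.neg_pow, hodd.neg_pow, e1, e2, e3, e4]
    ring
  have hr : ‖r1 + (r2 + r3)‖ ≤ 1 :=
    (hna r1 (r2 + r3)).trans (max_le hr1 ((hna r2 r3).trans (max_le hr2 hr3)))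
  by_contra hcon
  have hcon' : ‖(p : K)‖ < ‖S‖ := not_le.1 hcon
  have hS0 : 0 < ‖S‖ := lt_of_le_of_lt (norm_nonneg _) hcon'
  have hpow : ‖S ^ p ^ m‖ < ‖S‖ := by
    rw [norm_pow]
    calc
      ‖S‖ ^ p ^ m ≤ ‖S‖ ^ 2 := pow_le_pow_of_le_one (norm_nonneg _) hS.le hq2
      _ = ‖S‖ * ‖S‖ := sq _
      _ < ‖S‖ * 1 := mul_lt_mul_of_pos_left hS hS0
      _ = ‖S‖ := mul_one _
  have hpr : ‖-(p * (r1 + (r2 + r3)))‖ < ‖S‖ := by
    rw [norm_neg, norm_mul]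
    exact lt_of_le_of_lt (mul_le_of_le_one_right (norm_nonneg _) hr) hcon'
  have hSeq : S = S ^ p ^ m + -(p * (r1 + (r2 + r3))) := by
    rw [hSq]
    ring
  have hfin : ‖S‖ ≤ max ‖S ^ p ^ m‖ ‖-(p * (r1 + (r2 + r3)))‖ := by
    conv_lhs => rw [hSeq]
    exact hna _ _
  exact absurd hfin (not_le.2 (max_lt hpow hpr))

end Pool.Agent.Helper431.PN
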