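import Mathlib
import Pool.Agent.Helper431.PN.Base
import Pool.Agent.Helper431.PN.KA
import Pool.Agent.Helper431.PN.KB

namespace Pool.Agent.Helper431.PN



/-- TARGET -/
theorem rho_dist {p n : ℕ} (hp : p.Prime) (hp2 : p ≠ 2) {K : Type} [NormedField K]
    (hna : IsNonarchimedean (fun x : K => ‖x‖)) (hn : 2 ≤ n) (hpn : ¬ p ∣ n)
    (hpK : ‖(p : K)‖ < 1) (hpK0 : (p : K) ≠ 0) {π : K} (hπ : π ^ n = p)
    {z1 z2 z3 z4 : K} (h1 : z1 ^ n = 1) (h2 : z2 ^ n = 1) (h3 : z3 ^ n = 1) (h4 : z4 ^ n = 1)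
    (h12 : z1 ≠ z2) (hne : ¬ (z1 = z3 ∧ z2 = z4)) :
    ‖π‖ ^ 2 ≤ ‖(1 + π * z2) / (1 + π * z1) - (1 + π * z4) / (1 + π * z3)‖ ∧
    (‖z2 + z3 - z4 - z1‖ = 1 →
      ‖π‖ ≤ ‖(1 + π * z2) / (1 + π * z1) - (1 + π * z4) / (1 + π * z3)‖) := by
  haveI : IsUltrametricDist K := IsUltrametricDist.isUltrametricDist_of_isNonarchimedean_norm hna
  have hn0 : n ≠ 0 := by omega
  have hadd : ∀ x y : K, ‖x + y‖ ≤ max ‖x‖ ‖y‖ := fun x y => hna x y
  have hsub : ∀ x y : K, ‖x - y‖ ≤ max ‖x‖ ‖y‖ := fun x y => by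
    rw [sub_eq_add_neg, ← norm_neg y]; exact hadd x (-y)
  have hdom : ∀ x y : K, ‖y‖ < ‖x‖ → ‖x + y‖ = ‖x‖ := by
    intro x y h
    refine le_antisymm ((hadd x y).trans (max_le le_rfl h.le)) ?_
    have h1 := hsub (x + y) y
    rw [add_sub_cancel_right] at h1
    rcases le_max_iff.1 h1 with h2 | h2
    · exact h2
    · exact absurd h2 (not_le.2 h)
  have hnorm : ‖(n : K)‖ = 1 := by
    have hcop : IsCoprime (n : ℤ) (p : ℤ) := by
      rw [Nat.isCoprime_iff_coprime]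
      exact ((Nat.Prime.coprime_iff_not_dvd hp).2 hpn).symm
    obtain ⟨a, b, hab⟩ := hcop
    have h1 : (a : K) * n + b * p = 1 := by exact_mod_cast congrArg (fun t : ℤ => (t : K)) hab
    have ha : ‖(a : K)‖ ≤ 1 := IsUltrametricDist.norm_intCast_le_one K a
    have hb : ‖(b : K)‖ ≤ 1 := IsUltrametricDist.norm_intCast_le_one K b
    have hn' : ‖(n : K)‖ ≤ 1 := IsUltrametricDist.norm_natCast_le_one K n
    have h2 := hadd ((a : K) * n) (b * p)
    rw [h1, norm_one, norm_mul, norm_mul] at h2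
    rcases le_max_iff.1 h2 with h3 | h3
    · refine le_antisymm hn' ?_
      calc (1:ℝ) ≤ ‖(a:K)‖ * ‖(n:K)‖ := h3
        _ ≤ 1 * ‖(n:K)‖ := mul_le_mul_of_nonneg_right ha (norm_nonneg _)
        _ = _ := one_mul _
    · exfalso
      have : ‖(b:K)‖ * ‖(p:K)‖ ≤ 1 * ‖(p:K)‖ := mul_le_mul_of_nonneg_right hb (norm_nonneg _)
      linarith
  set c := ‖π‖ with hc
  have hcn : c ^ n = ‖(p : K)‖ := by rw [hc, ← norm_pow, hπ]
  have hπ0 : π ≠ 0 := by
    rintro rfl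
    rw [zero_pow hn0] at hπ
    exact hpK0 hπ.symm
  have hc0 : 0 < c := norm_pos_iff.2 hπ0
  have hc1 : c < 1 := by
    by_contra h
    have := one_le_pow₀ (not_lt.1 h) (n := n)
    rw [hcn] at this
    linarith
  have hz : ∀ z : K, z ^ n = 1 → ‖z‖ = 1 := by
    intro z hz
    have h1 : ‖z‖ ^ n = 1 := by rw [← norm_pow, hz, norm_one]
    exact (pow_eq_one_iff_of_nonneg (norm_nonneg _) hn0).1 h1
  have n1 := hz z1 h1
  have n2 := hz z2 h2
  have n3 := hz z3 h3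
  have n4 := hz z4 h4
  have hone : ∀ z : K, ‖z‖ = 1 → ‖1 + π * z‖ = 1 := by
    intro z hz
    rw [hdom 1 (π * z) (by rw [norm_mul, hz, mul_one, norm_one]; exact hc1), norm_one]
  have d1 := hone z1 n1
  have d3 := hone z3 n3
  have e1 : 1 + π * z1 ≠ 0 := by intro h; rw [h, norm_zero] at d1; exact zero_ne_one d1
  have e3 : 1 + π * z3 ≠ 0 := by intro h; rw [h, norm_zero] at d3; exact zero_ne_one d3
  have hdiff : (1 + π * z2) / (1 + π * z1) - (1 + π * z4) / (1 + π * z3)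
      = (π * (z2 + z3 - z4 - z1) + π ^ 2 * (z2 * z3 - z4 * z1)) /
        ((1 + π * z1) * (1 + π * z3)) := by
    rw [div_sub_div _ _ e1 e3]
    congr 1
    ring
  rw [hdiff, norm_div, norm_mul, d1, d3, mul_one, div_one]
  have hQ1 : ‖z2 * z3 - z4 * z1‖ ≤ 1 := by
    refine (hsub _ _).trans ?_
    rw [norm_mul, norm_mul, n1, n2, n3, n4]; simp
  have hc2 : c ^ 2 < c := by nlinarith
  have hbig : ‖z2 + z3 - z4 - z1‖ = 1 →
      ‖π * (z2 + z3 - z4 - z1) + π ^ 2 * (z2 * z3 - z4 * z1)‖ = c := by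
    intro hS
    rw [hdom, norm_mul, hS, mul_one]
    rw [norm_mul, norm_mul, hS, mul_one, norm_pow]
    calc c ^ 2 * ‖z2 * z3 - z4 * z1‖ ≤ c ^ 2 * 1 := mul_le_mul_of_nonneg_left hQ1 (by positivity)
      _ < c := by rw [mul_one]; exact hc2
  refine ⟨?_, fun hS => (hbig hS).ge⟩
  have hS1 : ‖z2 + z3 - z4 - z1‖ ≤ 1 := by
    refine (hsub _ _).trans (max_le ((hsub _ _).trans (max_le ((hadd _ _).trans ?_) n4.le)) n1.le)
    rw [n2, n3, max_self]
  rcases hS1.eq_or_lt with hS | hS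
  · rw [hbig hS]; exact hc2.le
  · have hSp := frob_norm hp hp2 hna (by omega : 1 ≤ n) hpn h2 h3 h4 h1 hS
    have hSc : ‖z2 + z3 - z4 - z1‖ ≤ c ^ 2 := by
      refine hSp.trans ?_
      rw [← hcn]
      exact pow_le_pow_of_le_one hc0.le hc1.le hn
    have hQne : z2 * z3 ≠ z4 * z1 := by
      intro hQ
      have k1 : (z2 - z4) * (z2 - z1) = z2 * (z2 + z3 - z4 - z1) := by
        linear_combination (-1 : K) * hQ
      have k2 : ‖z2 - z1‖ = 1 := root_sub_norm hna (by omega) hnorm h2 h1 (Ne.symm h12)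
      have k3 : ‖z2 - z4‖ < 1 := by
        have := congrArg (fun t => ‖t‖) k1
        simp only [norm_mul, k2, n2, mul_one, one_mul] at this
        rw [this]; exact hS
      have k4 : z2 = z4 := by
        by_contra hne'
        rw [root_sub_norm hna (by omega) hnorm h2 h4 hne'] at k3
        exact lt_irrefl _ k3
      have hz2 : z2 ≠ 0 := by
        rintro rfl
        rw [norm_zero] at n2
        exact zero_ne_one n2
      have k5 : z1 = z3 := by
        rw [← k4] at hQ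
        exact (mul_left_cancel₀ hz2 hQ).symm
      exact hne ⟨k5, k4⟩
    have hQn : ‖z2 * z3 - z4 * z1‖ = 1 :=
      root_sub_norm hna (by omega) hnorm (by rw [mul_pow, h2, h3, one_mul])
        (by rw [mul_pow, h4, h1, one_mul]) hQne
    rw [add_comm, hdom]
    · rw [norm_mul, hQn, mul_one, norm_pow]
    · rw [norm_mul, norm_mul, hQn, mul_one, norm_pow]
      calc c * ‖z2 + z3 - z4 - z1‖ ≤ c * c ^ 2 := mul_le_mul_of_nonneg_left hSc hc0.le
        _ < c ^ 2 := by nlinarith [pow_pos hc0 2]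

end Pool.Agent.Helper431.PN
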