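import Mathlib
import Pool.Agent.Helper431.PN.Base
import Pool.Agent.Helper431.PN.KA
import Pool.Agent.Helper431.PN.KC

namespace Pool.Agent.Helper431.PN



/-- TARGET -/
theorem rho_prod {p n N : ℕ} (hp : p.Prime) (hp2 : p ≠ 2) {K : Type} [NormedField K]
    (hna : IsNonarchimedean (fun x : K => ‖x‖)) (hn : 2 ≤ n) (hpn : ¬ p ∣ n)
    (hpK : ‖(p : K)‖ < 1) (hpK0 : (p : K) ≠ 0) {π : K} (hπ : π ^ n = p)
    (ζ : Fin n → K) (hζ : ∀ i, ζ i ^ n = 1) (hζi : Function.Injective ζ)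
    (s : Fin N → Fin n × Fin n) (hs : Function.Injective s) (hsne : ∀ a, (s a).1 ≠ (s a).2)
    (a : Fin N) :
    ‖π‖ ^ (N - 1 + (n - 1)) ≤ ∏ b ∈ Finset.univ.erase a,
      ‖(1 + π * ζ (s a).2) / (1 + π * ζ (s a).1) -
        (1 + π * ζ (s b).2) / (1 + π * ζ (s b).1)‖ := by
  classical
  haveI : IsUltrametricDist K :=
    IsUltrametricDist.isUltrametricDist_of_forall_norm_add_le_max_norm (fun x y => hna x y)
  have hn0 : n ≠ 0 := by omega
  have hmax : ∀ x y : K, ‖x + y‖ ≤ max ‖x‖ ‖y‖ := fun x y => hna x y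
  -- norms
  have hc0 : 0 ≤ ‖π‖ := norm_nonneg _
  have hc1 : ‖π‖ ≤ 1 := by
    have h1 : ‖π‖ ^ n < 1 := by rw [← norm_pow, hπ]; exact hpK
    exact (pow_le_one_iff_of_nonneg hc0 hn0).1 h1.le
  have hζ1 : ∀ i, ‖ζ i‖ = 1 := by
    intro i
    have h1 : ‖ζ i‖ ^ n = 1 := by rw [← norm_pow, hζ i, norm_one]
    exact (pow_eq_one_iff_of_nonneg (norm_nonneg _) hn0).1 h1
  have hnn : ‖(n : K)‖ = 1 := by
    have hcop : IsCoprime (n : ℤ) (p : ℤ) := by
      rw [Int.isCoprime_iff_gcd_eq_one]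
      have : Nat.Coprime n p := ((Nat.Prime.coprime_iff_not_dvd hp).2 hpn).symm
      simpa [Int.gcd_natCast_natCast] using this
    obtain ⟨u, v, huv⟩ := hcop
    have huv' : (u : K) * (n : K) + (v : K) * (p : K) = 1 := by exact_mod_cast congrArg (Int.cast : ℤ → K) huv
    have hle : ‖(n : K)‖ ≤ 1 := IsUltrametricDist.norm_natCast_le_one K n
    by_contra hne
    have hlt : ‖(n : K)‖ < 1 := lt_of_le_of_ne hle hne
    have h1 : ‖(u : K) * (n : K)‖ < 1 := by
      rw [norm_mul]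
      have := IsUltrametricDist.norm_intCast_le_one K u
      nlinarith [norm_nonneg (u : K), norm_nonneg (n : K)]
    have h2 : ‖(v : K) * (p : K)‖ < 1 := by
      rw [norm_mul]
      have := IsUltrametricDist.norm_intCast_le_one K v
      nlinarith [norm_nonneg (v : K), norm_nonneg (p : K)]
    have h3 : ‖(1 : K)‖ < 1 := by
      rw [← huv']
      exact lt_of_le_of_lt (hna _ _) (max_lt h1 h2)
    rw [norm_one] at h3
    exact lt_irrefl _ h3
  have hclose : ∀ i j, ‖ζ i - ζ j‖ < 1 → i = j := by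
    intro i j h
    by_contra hij
    have := root_sub_norm hna (by omega : 1 ≤ n) hnn (hζ i) (hζ j) (fun e => hij (hζi e))
    linarith
  have hsub : ∀ x y : K, ‖x‖ < 1 → ‖y‖ < 1 → ‖x - y‖ < 1 := by
    intro x y hx hy
    rw [sub_eq_add_neg]
    exact lt_of_le_of_lt (hmax _ _) (max_lt hx (by rwa [norm_neg]))
  set i := (s a).1 with hi
  set j := (s a).2 with hj
  set E : Finset (Fin N) := Finset.univ.erase a with hE
  set Bad : Finset (Fin N) :=
    E.filter (fun b => ‖ζ j + ζ (s b).1 - ζ (s b).2 - ζ i‖ ≠ 1) with hBad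
  have hbadlt : ∀ b, ‖ζ j + ζ (s b).1 - ζ (s b).2 - ζ i‖ ≠ 1 →
      ‖ζ j + ζ (s b).1 - ζ (s b).2 - ζ i‖ < 1 := by
    intro b hb
    refine lt_of_le_of_ne ?_ hb
    have h1 : ‖ζ j + ζ (s b).1‖ ≤ 1 := (hna _ _).trans (max_le (hζ1 _).le (hζ1 _).le)
    have h2 : ‖ζ j + ζ (s b).1 - ζ (s b).2‖ ≤ 1 := by
      rw [sub_eq_add_neg]
      exact (hmax _ _).trans (max_le h1 (by rw [norm_neg]; exact (hζ1 _).le))
    rw [sub_eq_add_neg]
    exact (hmax _ _).trans (max_le h2 (by rw [norm_neg]; exact (hζ1 _).le))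
  have hcard : Bad.card ≤ n - 1 := by
    have himg : Bad.image (fun b => (s b).1) ⊆ Finset.univ.erase i := by
      intro k hk
      rw [Finset.mem_image] at hk
      obtain ⟨b, hb, rfl⟩ := hk
      rw [hBad, Finset.mem_filter, hE, Finset.mem_erase] at hb
      rw [Finset.mem_erase]
      refine ⟨fun hki => ?_, Finset.mem_univ _⟩
      have h1 := hbadlt b hb.2
      rw [hki] at h1
      have h2 : ‖ζ j - ζ (s b).2‖ < 1 := by
        have : ζ j + ζ i - ζ (s b).2 - ζ i = ζ j - ζ (s b).2 := by ring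
        rwa [this] at h1
      have h3 := hclose _ _ h2
      apply hb.1.1
      apply hs
      exact Prod.ext hki h3.symm
    have hinj : Set.InjOn (fun b => (s b).1) (Bad : Set (Fin N)) := by
      intro b hb b' hb' hbb
      have hb2 := (Finset.mem_filter.1 (Finset.mem_coe.1 hb)).2
      have hb2' := (Finset.mem_filter.1 (Finset.mem_coe.1 hb')).2
      have h1 := hbadlt b hb2
      have h1' := hbadlt b' hb2'
      have hbb' : (s b).1 = (s b').1 := hbb
      have h2 := hsub _ _ h1' h1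
      have h3 : ζ j + ζ (s b').1 - ζ (s b').2 - ζ i - (ζ j + ζ (s b).1 - ζ (s b).2 - ζ i) =
          ζ (s b).2 - ζ (s b').2 := by
        rw [hbb']; ring
      rw [h3] at h2
      exact hs (Prod.ext hbb' (hclose _ _ h2))
    rw [← Finset.card_image_of_injOn hinj]
    refine (Finset.card_le_card himg).trans ?_
    rw [Finset.card_erase_of_mem (Finset.mem_univ _), Finset.card_univ, Fintype.card_fin]
  have hfac : ∀ b ∈ E, ‖π‖ ^ (1 + if ‖ζ j + ζ (s b).1 - ζ (s b).2 - ζ i‖ ≠ 1 then 1 else 0) ≤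
      ‖(1 + π * ζ j) / (1 + π * ζ i) - (1 + π * ζ (s b).2) / (1 + π * ζ (s b).1)‖ := by
    intro b hb
    rw [hE, Finset.mem_erase] at hb
    have hd := rho_dist hp hp2 hna hn hpn hpK hpK0 hπ (hζ i) (hζ j) (hζ (s b).1) (hζ (s b).2)
      (fun e => hsne a (hζi e)) (by
        rintro ⟨e1, e2⟩
        exact hb.1 (hs (Prod.ext (hζi e1).symm (hζi e2).symm)))
    split_ifs with h
    · exact hd.1
    · push Not at h
      rw [add_zero, pow_one]
      exact hd.2 h
  have hprod : ∏ b ∈ E, ‖π‖ ^ (1 + if ‖ζ j + ζ (s b).1 - ζ (s b).2 - ζ i‖ ≠ 1 then 1 else 0) ≤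
      ∏ b ∈ E, ‖(1 + π * ζ j) / (1 + π * ζ i) - (1 + π * ζ (s b).2) / (1 + π * ζ (s b).1)‖ :=
    Finset.prod_le_prod (fun b _ => pow_nonneg hc0 _) hfac
  refine le_trans ?_ hprod
  rw [Finset.prod_pow_eq_pow_sum, Finset.sum_add_distrib, Finset.sum_const, smul_eq_mul, mul_one,
    ← Finset.card_filter]
  have hEc : E.card = N - 1 := by
    rw [hE, Finset.card_erase_of_mem (Finset.mem_univ _), Finset.card_univ, Fintype.card_fin]
  rw [hEc]
  exact pow_le_pow_of_le_one hc0 hc1 (by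
    have : (E.filter (fun b => ‖ζ j + ζ (s b).1 - ζ (s b).2 - ζ i‖ ≠ 1)).card ≤ n - 1 := hcard
    omega)

end Pool.Agent.Helper431.PN
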