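import Mathlib
import Pool.Agent.Helper431.PN.Base

namespace Pool.Agent.Helper431.PN

/-- the ring of elements of norm at most one -/
def inO {K : Type} [NormedField K] (hna : IsNonarchimedean (fun x : K => ‖x‖)) : Subring K where
  carrier := {x | ‖x‖ ≤ 1}
  mul_mem' := by
    intro a b ha hb
    change ‖a * b‖ ≤ 1
    rw [norm_mul]
    exact mul_le_one₀ ha (norm_nonneg _) hb
  one_mem' := by
    change ‖(1 : K)‖ ≤ 1
    rw [norm_one]
  add_mem' := by
    intro a b ha hb
    exact (hna a b).trans (max_le ha hb)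
  zero_mem' := by
    change ‖(0 : K)‖ ≤ 1
    rw [norm_zero]
    exact zero_le_one
  neg_mem' := by
    intro a ha
    change ‖-a‖ ≤ 1
    rw [norm_neg]
    exact ha

/-- its maximal ideal -/
def inM {K : Type} [NormedField K] (hna : IsNonarchimedean (fun x : K => ‖x‖)) :
    Ideal (inO hna) where
  carrier := {x | ‖(x : K)‖ < 1}
  add_mem' := by
    intro a b ha hb
    exact (hna a b).trans_lt (max_lt ha hb)
  zero_mem' := by
    change ‖(0 : K)‖ < 1
    rw [norm_zero]
    exact zero_lt_one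
  smul_mem' := by
    intro c x hx
    change ‖(c : K) * (x : K)‖ < 1
    rw [norm_mul]
    have hc : ‖(c : K)‖ ≤ 1 := c.2
    have hx' : ‖(x : K)‖ < 1 := hx
    calc ‖(c : K)‖ * ‖(x : K)‖ ≤ 1 * ‖(x : K)‖ :=
          mul_le_mul_of_nonneg_right hc (norm_nonneg _)
      _ < 1 := by rwa [one_mul]

open Polynomial in
/-- TARGET -/
theorem interp {p : ℕ} (hp2 : 2 ≤ p) {K : Type} [NormedField K]
    (hna : IsNonarchimedean (fun x : K => ‖x‖)) (δ : Fin (p - 1) → K) (hδ : ∀ a, ‖δ a‖ < 1)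
    (hinj : Function.Injective δ) (G : Polynomial K) (hG : ∀ i, ‖G.coeff i‖ ≤ 1)
    (hG2 : ‖G.coeff (p - 2)‖ = 1) :
    ∃ a, ∏ b ∈ Finset.univ.erase a, ‖δ a - δ b‖ ≤ ‖G.eval (δ a)‖ := by
  have hU : IsUltrametricDist K := IsUltrametricDist.isUltrametricDist_of_isNonarchimedean_norm hna
  have hker : ∀ x : inO hna, Ideal.Quotient.mk (inM hna) x = 0 ↔ ‖(x : K)‖ < 1 := fun x =>
    Ideal.Quotient.eq_zero_iff_mem
  obtain ⟨δ', hδ'⟩ : ∃ δ' : Fin (p - 1) → inO hna, ∀ a, (δ' a : K) = δ a :=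
    ⟨fun a => ⟨δ a, (hδ a).le⟩, fun a => rfl⟩
  obtain ⟨P, hP⟩ : ∃ P : (inO hna)[X], P = ∏ i : Fin (p - 1), (X - C (δ' i)) := ⟨_, rfl⟩
  have hPm : P.Monic := by rw [hP]; exact monic_prod_X_sub_C _ _
  have hPd : P.natDegree = p - 1 := by
    rw [hP, natDegree_finsetProd_X_sub_C_eq_card, Finset.card_univ, Fintype.card_fin]
  have hP1 : P ≠ 1 := by
    intro h
    rw [h, natDegree_one] at hPd
    omega
  have hcoeffs : (↑G.coeffs : Set K) ⊆ inO hna := by
    intro x hx
    obtain ⟨n, -, rfl⟩ := mem_coeffs_iff.1 (Finset.mem_coe.1 hx)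
    exact hG n
  obtain ⟨G', hG'⟩ : ∃ G' : (inO hna)[X], G'.map (inO hna).subtype = G :=
    ⟨G.toSubring (inO hna) hcoeffs, map_toSubring G (inO hna) hcoeffs⟩
  obtain ⟨R, hR⟩ : ∃ R, R = G' %ₘ P := ⟨_, rfl⟩
  have hRd : R.natDegree < p - 1 := by
    rw [← hPd, hR]
    exact natDegree_modByMonic_lt G' hPm hP1
  have hdiv : R + P * (G' /ₘ P) = G' := by rw [hR]; exact modByMonic_add_div G' P
  have hPe : ∀ i, (P.map (inO hna).subtype).eval (δ i) = 0 := by
    intro i
    rw [hP, Polynomial.map_prod, eval_prod]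
    apply Finset.prod_eq_zero (Finset.mem_univ i)
    rw [Polynomial.map_sub, map_X, map_C, eval_sub, eval_X, eval_C]
    change δ i - (δ' i : K) = 0
    rw [hδ', sub_self]
  obtain ⟨R', hR'⟩ : ∃ R' : K[X], R' = R.map (inO hna).subtype := ⟨_, rfl⟩
  have hRe : ∀ i, R'.eval (δ i) = G.eval (δ i) := by
    intro i
    have h := congrArg (fun q : (inO hna)[X] => (q.map (inO hna).subtype).eval (δ i)) hdiv
    rw [Polynomial.map_add, Polynomial.map_mul, eval_add, eval_mul, hPe i, zero_mul, add_zero,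
      hG', ← hR'] at h
    exact h
  have hR'd : R'.degree < ((Finset.univ : Finset (Fin (p - 1))).card : WithBot ℕ) := by
    rw [Finset.card_univ, Fintype.card_fin, hR']
    refine lt_of_le_of_lt (degree_map_le) ?_
    refine lt_of_le_of_lt degree_le_natDegree ?_
    exact_mod_cast hRd
  have hsum := Lagrange.coeff_eq_sum (s := (Finset.univ : Finset (Fin (p - 1)))) (v := δ)
    hinj.injOn hR'd
  rw [Finset.card_univ, Fintype.card_fin] at hsum
  have hPmap : P.map (Ideal.Quotient.mk (inM hna)) = X ^ (p - 1) := by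
    rw [hP, Polynomial.map_prod]
    have h1 : ∀ i : Fin (p - 1), ((X - C (δ' i) : (inO hna)[X]).map
        (Ideal.Quotient.mk (inM hna))) = X := by
      intro i
      have h2 : ‖(δ' i : K)‖ < 1 := by rw [hδ']; exact hδ i
      rw [Polynomial.map_sub, map_X, map_C, (hker _).2 h2, C_0, sub_zero]
    rw [Finset.prod_congr rfl fun i _ => h1 i, Finset.prod_const, Finset.card_univ,
      Fintype.card_fin]
  have hcoef : Ideal.Quotient.mk (inM hna) (R.coeff (p - 2)) =
      Ideal.Quotient.mk (inM hna) (G'.coeff (p - 2)) := by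
    have h := congrArg (fun q : (inO hna)[X] =>
      (q.map (Ideal.Quotient.mk (inM hna))).coeff (p - 2)) hdiv
    rw [Polynomial.map_add, Polynomial.map_mul, hPmap, coeff_add, coeff_X_pow_mul',
      if_neg (by omega), add_zero, coeff_map, coeff_map] at h
    exact h
  have hRn : 1 ≤ ‖R'.coeff (p - 2)‖ := by
    by_contra hlt
    rw [not_le] at hlt
    have h1 : Ideal.Quotient.mk (inM hna) (R.coeff (p - 2)) = 0 := by
      rw [hker]
      rw [hR', coeff_map] at hlt
      exact hlt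
    rw [h1] at hcoef
    have h2 := (hker _).1 hcoef.symm
    have h3 : ((G'.coeff (p - 2) : inO hna) : K) = G.coeff (p - 2) := by
      rw [← hG', coeff_map]
      rfl
    rw [h3, hG2] at h2
    exact lt_irrefl _ h2
  have hne : (Finset.univ : Finset (Fin (p - 1))).Nonempty := ⟨⟨0, by omega⟩, Finset.mem_univ _⟩
  obtain ⟨a, -, ha⟩ := IsUltrametricDist.exists_norm_finsetSum_le_of_nonempty hne
    (fun i => (R'.eval (δ i)) / ∏ j ∈ Finset.univ.erase i, (δ i - δ j))
  rw [← hsum] at ha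
  refine ⟨a, ?_⟩
  have h4 : p - 1 - 1 = p - 2 := by omega
  rw [h4, hRe, norm_div, norm_prod] at ha
  have hpos : 0 < ∏ b ∈ Finset.univ.erase a, ‖δ a - δ b‖ := by
    refine Finset.prod_pos fun b hb => norm_pos_iff.2 (sub_ne_zero.2 fun h => ?_)
    exact (Finset.mem_erase.1 hb).1 (hinj h).symm
  have h5 := hRn.trans ha
  rwa [le_div_iff₀ hpos, one_mul] at h5

end Pool.Agent.Helper431.PN
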