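import Mathlib
import Pool.Agent.Helper431.PN.Base

namespace Pool.Agent.Helper431.PN

/-- TARGET -/
theorem exists_roots {K : Type} [Field K] [IsAlgClosed K] [CharZero K] {n : ℕ} (hn : 1 ≤ n) :
    ∃ ζ : Fin n → K, Function.Injective ζ ∧ ∀ i, ζ i ^ n = 1 := by
  have : NeZero (n : K) := ⟨by exact_mod_cast (by omega : n ≠ 0)⟩
  have : NeZero n := ⟨by omega⟩
  obtain ⟨z, hz⟩ := HasEnoughRootsOfUnity.exists_primitiveRoot K n
  refine ⟨fun i => z ^ (i : ℕ), ?_, ?_⟩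
  · intro i j hij
    exact Fin.ext (hz.pow_inj i.2 j.2 hij)
  · intro i
    rw [← pow_mul, mul_comm, pow_mul, hz.pow_eq_one, one_pow]

end Pool.Agent.Helper431.PN
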