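import Mathlib
import Pool.Agent.Helper431.PN.Base

namespace Pool.Agent.Helper431.PN

/-- TARGET -/
theorem exists_field (p : ℕ) [Fact p.Prime] :
    ∃ (K : Type) (_ : NormedField K) (φ : ℤ_[p] →+* K), IsNonarchimedean (fun x : K => ‖x‖) ∧
      (∀ x, ‖φ x‖ = ‖x‖) ∧ IsAlgClosed K ∧ CharZero K := by
  refine ⟨PadicAlgCl p, PadicAlgCl.normedField p,
    (algebraMap ℚ_[p] (PadicAlgCl p)).comp PadicInt.Coe.ringHom, PadicAlgCl.isNonarchimedean p,
    ?_, AlgebraicClosure.isAlgClosed ℚ_[p], PadicAlgCl.charZero p⟩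
  intro x
  exact PadicAlgCl.norm_extends p (x : ℚ_[p])

end Pool.Agent.Helper431.PN
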