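import Mathlib
import Pool.Agent.Helper431.PN.Base
import Pool.Agent.Helper431.PN.I4
import Pool.Agent.Helper431.PN.KA
import Pool.Agent.Helper431.PN.KD
import Pool.Agent.Helper431.PN.KE
import Pool.Agent.Helper431.PN.KF
import Pool.Agent.Helper431.PN.KG
import Pool.Agent.Helper431.PN.E2

namespace Pool.Agent.Helper431.PN

theorem norm_int_le_one {K : Type} [NormedField K] (hna : IsNonarchimedean (fun x : K => ‖x‖))
    (z : ℤ) : ‖(z : K)‖ ≤ 1 := by
  have h1 : ∀ k : ℕ, ‖(k : K)‖ ≤ 1 := by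
    intro k
    induction k with
    | zero => simp
    | succ k ih =>
      rw [Nat.cast_succ]
      exact (hna _ _).trans (max_le ih (by simp))
  rcases Int.natAbs_eq z with h | h
  · rw [h]; simpa using h1 z.natAbs
  · rw [h]; simpa using h1 z.natAbs

/-- enumeration of off-diagonal pairs -/
theorem exists_s {N n : ℕ} (h : N ≤ n ^ 2 - n) :
    ∃ s : Fin N → Fin n × Fin n, Function.Injective s ∧ ∀ a, (s a).1 ≠ (s a).2 := by
  classical
  let S : Finset (Fin n × Fin n) := Finset.univ.offDiag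
  have hS : S.card = n ^ 2 - n := by
    simp only [S, Finset.offDiag_card, Finset.card_univ, Fintype.card_fin]
    rw [pow_two]
  have hc : Fintype.card (Fin N) ≤ Fintype.card S := by
    rw [Fintype.card_fin, Fintype.card_coe, hS]; exact h
  obtain ⟨f⟩ := Function.Embedding.nonempty_of_card_le hc
  refine ⟨fun a => (f a).1, fun a b hab => f.injective (Subtype.ext hab), fun a => ?_⟩
  have := (f a).2
  simp only [S, Finset.mem_offDiag] at this
  exact this.2.2

open Polynomial in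
theorem irregular_coprime {p m n : ℕ} (hp : p.Prime) (hp2 : p ≠ 2) (hn : 2 ≤ n) (hpn : ¬ p ∣ n)
    (hle : p ≤ n ^ 2 - n + 1) (hm : p + n - 1 ≤ n * (m / 2)) :
    ¬ IsRegular p (PGroup p m n) := by
  intro hreg
  have : Fact p.Prime := ⟨hp⟩
  have hp3 : 3 ≤ p := by
    have := hp.two_le; omega
  have hm2 : 1 ≤ m / 2 := by
    by_contra h
    have h0 : m / 2 = 0 := by omega
    rw [h0, mul_zero] at hm
    omega
  obtain ⟨K, _, φ, hna, hφ, _, _⟩ := exists_field p
  obtain ⟨F, hF⟩ := good_poly_eval (m := m) (k := m - m / 2) hn (by omega) (by omega) (by omega)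
    hreg hna φ hφ
  have hmk : m - (m - m / 2) = m / 2 := by omega
  rw [hmk] at hF
  obtain ⟨ζ, hζi, hζ⟩ := exists_roots (K := K) (n := n) (by omega)
  obtain ⟨π, hπ⟩ := IsAlgClosed.exists_pow_nat_eq (p : K) (n := n) (by omega)
  have hpK0 : (p : K) ≠ 0 := Nat.cast_ne_zero.2 hp.ne_zero
  have hpK : ‖(p : K)‖ < 1 := by
    have h1 := hφ (p : ℤ_[p])
    rw [map_natCast, PadicInt.norm_p] at h1
    rw [h1]
    exact inv_lt_one_of_one_lt₀ (by exact_mod_cast hp.one_lt)
  set c : ℝ := ‖π‖ with hc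
  have hcn : c ^ n = ‖(p : K)‖ := by rw [hc, ← norm_pow, hπ]
  have hc0 : 0 < c := by
    rw [hc, norm_pos_iff]
    rintro rfl
    rw [zero_pow (by omega)] at hπ
    exact hpK0 hπ.symm
  have hc1 : c < 1 := by
    by_contra h
    push Not at h
    have := one_le_pow₀ h (n := n)
    rw [hcn] at this
    linarith
  have hnn : ‖(n : K)‖ = 1 := by
    have hco : Nat.Coprime p n := (Nat.Prime.coprime_iff_not_dvd hp).2 hpn
    have h1 := Nat.gcd_eq_gcd_ab p n
    rw [hco] at h1
    have h2 : (1 : K) = (p : K) * ((Nat.gcdA p n : ℤ) : K) + (n : K) * ((Nat.gcdB p n : ℤ) : K) := by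
      exact_mod_cast congrArg (Int.cast : ℤ → K) h1
    have h3 : ‖(n : K)‖ ≤ 1 := by simpa using norm_int_le_one hna (n : ℤ)
    have h4 := hna ((p : K) * ((Nat.gcdA p n : ℤ) : K)) ((n : K) * ((Nat.gcdB p n : ℤ) : K))
    simp only [← h2, norm_one, norm_mul] at h4
    have h5 : ‖(p : K)‖ * ‖((Nat.gcdA p n : ℤ) : K)‖ < 1 := by
      calc ‖(p : K)‖ * ‖((Nat.gcdA p n : ℤ) : K)‖ ≤ ‖(p : K)‖ * 1 :=
            mul_le_mul_of_nonneg_left (norm_int_le_one hna _) (norm_nonneg _)
        _ < 1 := by rw [mul_one]; exact hpK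
    rcases le_max_iff.1 h4 with h6 | h6
    · linarith
    · have h7 : ‖(n : K)‖ * ‖((Nat.gcdB p n : ℤ) : K)‖ ≤ ‖(n : K)‖ * 1 :=
        mul_le_mul_of_nonneg_left (norm_int_le_one hna _) (norm_nonneg _)
      linarith
  have hζn : ∀ i, ‖ζ i‖ = 1 := by
    intro i
    have h1 : ‖ζ i‖ ^ n = 1 := by rw [← norm_pow, hζ i, norm_one]
    exact (pow_eq_one_iff_of_nonneg (norm_nonneg _) (by omega)).1 h1
  have hα : ∀ i, (π * ζ i) ^ n = p := by
    intro i; rw [mul_pow, hζ i, hπ, mul_one]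
  have hαn : ∀ i, ‖π * ζ i‖ = c := by
    intro i; rw [norm_mul, hζn i, mul_one]
  have h1α : ∀ i, ‖1 + π * ζ i‖ = 1 := by
    intro i
    have h1 : ‖1 + π * ζ i‖ ≤ 1 := (hna _ _).trans (max_le (by simp) (by change ‖π * ζ i‖ ≤ 1; rw [hαn]; exact hc1.le))
    have h2 : (1 : ℝ) ≤ max ‖1 + π * ζ i‖ ‖-(π * ζ i)‖ := by
      have := hna (1 + π * ζ i) (-(π * ζ i))
      simpa using this
    rw [norm_neg, hαn] at h2
    rcases le_max_iff.1 h2 with h3 | h3
    · exact le_antisymm h1 h3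
    · linarith
  have h1α0 : ∀ i, 1 + π * ζ i ≠ 0 := by
    intro i h
    have := h1α i
    rw [h, norm_zero] at this
    exact zero_ne_one this
  obtain ⟨s, hsi, hsne⟩ := exists_s (N := p - 1) (n := n) (by omega)
  let ρ : Fin (p - 1) → K := fun a => (1 + π * ζ (s a).2) / (1 + π * ζ (s a).1)
  let δ : Fin (p - 1) → K := fun a => ρ a - 1
  have hδn : ∀ a, ‖δ a‖ = c := by
    intro a
    have e : δ a = π * (ζ (s a).2 - ζ (s a).1) / (1 + π * ζ (s a).1) := by
      simp only [δ, ρ]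
      rw [eq_div_iff (h1α0 _), sub_mul, div_mul_cancel₀ _ (h1α0 _)]
      ring
    have h1 : ‖ζ (s a).2 - ζ (s a).1‖ = 1 :=
      root_sub_norm hna (by omega : 1 ≤ n) hnn (hζ _) (hζ _) (fun h => hsne a (hζi h).symm)
    rw [e, norm_div, norm_mul, h1, h1α, mul_one, div_one]
  have hρi : ∀ a, ‖ρ a‖ ≤ 1 := by
    intro a
    simp only [ρ]
    rw [norm_div, h1α, h1α, div_one]
  have hprod : ∀ a, c ^ (p - 1 - 1 + (n - 1)) ≤ ∏ b ∈ Finset.univ.erase a, ‖δ a - δ b‖ := by
    intro a
    have h1 := rho_prod hp hp2 hna hn hpn hpK hpK0 hπ ζ hζ hζi s hsi hsne a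
    refine h1.trans (le_of_eq ?_)
    apply Finset.prod_congr rfl
    intro b _
    congr 1
    simp only [δ, ρ]
    ring
  have hδi : Function.Injective δ := by
    intro a b hab
    by_contra hne
    have h1 := hprod a
    have h2 : ∏ b ∈ Finset.univ.erase a, ‖δ a - δ b‖ = 0 := by
      apply Finset.prod_eq_zero (i := b)
      · exact Finset.mem_erase.2 ⟨Ne.symm hne, Finset.mem_univ _⟩
      · rw [hab, sub_self, norm_zero]
    rw [h2] at h1
    exact absurd h1 (not_le.2 (pow_pos hc0 _))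
  let h : Polynomial K := ∑ j ∈ Finset.range (p - 1), C ((p.choose (j + 2) : ℕ) : K) * X ^ j
  let G : Polynomial K := h - C (p : K) * (F.map (Int.castRingHom K)).comp (X + 1)
  have hcomp : (F.map (Int.castRingHom K)).comp (X + 1) =
      (F.comp (X + 1)).map (Int.castRingHom K) := by
    rw [Polynomial.map_comp]; simp
  have hhc : ∀ i, ∃ z : ℕ, h.coeff i = (z : K) := by
    intro i
    simp only [h, Polynomial.finsetSum_coeff, Polynomial.coeff_C_mul, Polynomial.coeff_X_pow]
    refine ⟨∑ j ∈ Finset.range (p - 1), (p.choose (j + 2)) * (if i = j then 1 else 0), ?_⟩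
    push_cast
    rfl
  have hGc : ∀ i, ‖G.coeff i‖ ≤ 1 := by
    intro i
    obtain ⟨z, hz⟩ := hhc i
    have : G.coeff i = (((z : ℤ) - p * (F.comp (X + 1)).coeff i : ℤ) : K) := by
      simp only [G, Polynomial.coeff_sub, Polynomial.coeff_C_mul, hz, hcomp, Polynomial.coeff_map]
      push_cast
      simp
    rw [this]
    exact norm_int_le_one hna _
  have hcoef : h.coeff (p - 2) = 1 := by
    simp only [h, Polynomial.finsetSum_coeff, Polynomial.coeff_C_mul, Polynomial.coeff_X_pow]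
    rw [Finset.sum_eq_single (p - 2)]
    · have : p - 2 + 2 = p := by have := hp.two_le; omega
      simp [this]
    · intro b _ hb
      simp [Ne.symm hb]
    · intro hb
      exfalso; apply hb
      rw [Finset.mem_range]; have := hp.two_le; omega
  have hG2 : ‖G.coeff (p - 2)‖ = 1 := by
    have e1 : G.coeff (p - 2) = 1 + -((p : K) * (((F.comp (X + 1)).coeff (p - 2) : ℤ) : K)) := by
      simp only [G, Polynomial.coeff_sub, Polynomial.coeff_C_mul, hcoef, hcomp, Polynomial.coeff_map]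
      simp [sub_eq_add_neg]
    have h2 : ‖-((p : K) * (((F.comp (X + 1)).coeff (p - 2) : ℤ) : K))‖ < 1 := by
      rw [norm_neg, norm_mul]
      calc ‖(p : K)‖ * ‖(((F.comp (X + 1)).coeff (p - 2) : ℤ) : K)‖ ≤ ‖(p : K)‖ * 1 :=
            mul_le_mul_of_nonneg_left (norm_int_le_one hna _) (norm_nonneg _)
        _ < 1 := by rw [mul_one]; exact hpK
    apply le_antisymm (hGc _)
    have h3 := hna (G.coeff (p - 2)) ((p : K) * (((F.comp (X + 1)).coeff (p - 2) : ℤ) : K))
    have h4 : G.coeff (p - 2) + (p : K) * (((F.comp (X + 1)).coeff (p - 2) : ℤ) : K) = 1 := by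
      rw [e1]; ring
    simp only [h4, norm_one] at h3
    rcases le_max_iff.1 h3 with h5 | h5
    · exact h5
    · rw [norm_neg] at h2; linarith
  obtain ⟨a, ha⟩ := interp (p := p) (by omega) hna δ (fun a => by rw [hδn]; exact hc1) hδi G hGc hG2
  have hδ0 : δ a ≠ 0 := by
    intro h0
    have := hδn a
    rw [h0, norm_zero] at this
    linarith
  have hρδ : ρ a = 1 + δ a := by simp [δ]
  have h3 := hF (π * ζ (s a).1) (π * ζ (s a).2) (ρ a) (hα _) (hα _)
    (by simp only [ρ]; exact div_mul_cancel₀ _ (h1α0 _))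
  have h4 : (∑ l ∈ Finset.range p, ρ a ^ l) - p - p * (ρ a - 1) * Polynomial.aeval (ρ a) F =
      δ a * G.eval (δ a) := by
    have e2 := sum_pow_one_add p hp.two_le (δ a) hδ0
    have e3 : h.eval (δ a) = ∑ j ∈ Finset.range (p - 1), ((p.choose (j + 2) : ℕ) : K) * δ a ^ j := by
      simp [h, Polynomial.eval_finsetSum]
    have e4 : G.eval (δ a) = h.eval (δ a) - p * Polynomial.aeval (1 + δ a) F := by
      have e5 : (F.map (Int.castRingHom K)).eval (1 + δ a) = Polynomial.aeval (1 + δ a) F := by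
        rw [Polynomial.eval_map, Polynomial.aeval_def]
        congr 1
      rw [← e5]
      simp [G, add_comm]
    rw [hρδ, e2, e4, e3]
    ring
  rw [h4, norm_mul, hδn, ← hcn, ← pow_mul] at h3
  have h5 : c * c ^ (p - 1 - 1 + (n - 1)) ≤ c ^ (n * (m / 2)) :=
    (mul_le_mul_of_nonneg_left ((hprod a).trans ha) hc0.le).trans h3
  rw [← pow_succ'] at h5
  have h6 : n * (m / 2) ≤ p - 1 - 1 + (n - 1) + 1 := (pow_le_pow_iff_right_of_lt_one₀ hc0 hc1).1 h5
  omega

end Pool.Agent.Helper431.PN
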