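import Mathlib
import Pool.Agent.Helper431.PN.Base
import Pool.Agent.Helper431.PN.E4
import Pool.Agent.Helper431.PN.B2
import Pool.Agent.Helper431.PN.B3

namespace Pool.Agent.Helper431.PN



theorem exists_mult {u r N : ℕ} (h : N ≤ u * r) : ∃ k : Fin u → ℕ, ∑ i, k i = N ∧ ∀ i, k i ≤ r := by
  induction u generalizing N with
  | zero =>
    refine ⟨fun _ => 0, ?_, fun i => i.elim0⟩
    simp at h ⊢
    exact h.symm
  | succ u ih =>
    obtain ⟨k, hk, hkr⟩ := ih (N := N - min N r) (by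
      rw [add_mul, one_mul] at h
      omega)
    refine ⟨Fin.cons (min N r) k, ?_, ?_⟩
    · rw [Fin.sum_univ_succ]
      simp only [Fin.cons_zero, Fin.cons_succ]
      rw [hk]; omega
    · intro i
      refine Fin.cases ?_ ?_ i
      · simp
      · intro j; simpa using hkr j

open Polynomial in
/-- (1+X)^i sums: coefficient facts -/
theorem HZ_coeff {p : ℕ} (hp : p.Prime) (F : ℤ[X]) :
    ∃ z : ℤ, (∑ i ∈ Finset.range p, (1 + X) ^ i - C (p : ℤ) - C (p : ℤ) * X *
          F.comp (1 + X) : ℤ[X]).coeff (p - 1) = 1 + p * z := by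
  have h1 : (∑ i ∈ Finset.range p, (1 + X) ^ i : ℤ[X]).coeff (p - 1) = 1 := by
    rw [Polynomial.finsetSum_coeff]
    have hpr : p = (p - 1) + 1 := by have := hp.two_le; omega
    rw [Finset.sum_eq_single (p - 1)]
    · rw [add_comm, Polynomial.coeff_X_add_one_pow]; simp
    · intro b hb hne
      rw [add_comm, Polynomial.coeff_X_add_one_pow]
      have : b < p - 1 := by
        rw [Finset.mem_range] at hb; omega
      rw [Nat.choose_eq_zero_of_lt this]; simp
    · intro hb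
      exfalso; apply hb
      rw [Finset.mem_range]; have := hp.two_le; omega
  refine ⟨-(if p - 1 = 0 then 1 else 0) - (X * F.comp (1 + X) : ℤ[X]).coeff (p - 1), ?_⟩
  rw [Polynomial.coeff_sub, Polynomial.coeff_sub, h1, Polynomial.coeff_C, mul_assoc,
    Polynomial.coeff_C_mul]
  split_ifs <;> ring

open Polynomial in
theorem irregular_block {p m r u : ℕ} (hp : p.Prime) (hm : 1 ≤ m) (hr : 1 ≤ r)
    (hpu : ¬ p ∣ u) (h1 : p ≤ u * r) (h2 : p ≤ u * m) :
    ¬ IsRegular p (PGroup p m (r + u)) := by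
  intro hreg
  have : Fact p.Prime := ⟨hp⟩
  have hu : 1 ≤ u := by
    rcases Nat.eq_zero_or_pos u with h | h
    · subst h; simp at hpu
    · exact h
  obtain ⟨K, _, φ, hna, hφ, _, _⟩ := exists_field p
  obtain ⟨F, hF⟩ := block_eval hm hr hu hreg hna φ hφ
  obtain ⟨ζ, hζi, hζ⟩ := exists_roots (K := K) (n := u) hu
  obtain ⟨π, hπ⟩ := IsAlgClosed.exists_pow_nat_eq (p : K) (n := u) (by omega)
  have hpK0 : (p : K) ≠ 0 := Nat.cast_ne_zero.2 hp.ne_zero
  have hpK : ‖(p : K)‖ < 1 := by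
    have h1 := hφ (p : ℤ_[p])
    rw [map_natCast, PadicInt.norm_p] at h1
    rw [h1]
    exact inv_lt_one_of_one_lt₀ (by exact_mod_cast hp.one_lt)
  set c : ℝ := ‖π‖ with hc
  have hcn : c ^ u = ‖(p : K)‖ := by rw [hc, ← norm_pow, hπ]
  have hc0 : 0 < c := by
    rw [hc, norm_pos_iff]
    rintro rfl
    rw [zero_pow (by omega)] at hπ
    exact hpK0 hπ.symm
  have hc1 : c < 1 := by
    by_contra h
    push Not at h
    have := one_le_pow₀ h (n := u)
    rw [hcn] at this
    linarith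
  have hnn : ‖(u : K)‖ = 1 := by
    have hco : Nat.Coprime p u := (Nat.Prime.coprime_iff_not_dvd hp).2 hpu
    have h1 := Nat.gcd_eq_gcd_ab p u
    rw [hco] at h1
    have h2 : (1 : K) = (p : K) * ((Nat.gcdA p u : ℤ) : K) + (u : K) * ((Nat.gcdB p u : ℤ) : K) := by
      exact_mod_cast congrArg (Int.cast : ℤ → K) h1
    have h3 : ‖(u : K)‖ ≤ 1 := by simpa using norm_int_le_one hna (u : ℤ)
    have h4 := hna ((p : K) * ((Nat.gcdA p u : ℤ) : K)) ((u : K) * ((Nat.gcdB p u : ℤ) : K))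
    simp only [← h2, norm_one, norm_mul] at h4
    have h5 : ‖(p : K)‖ * ‖((Nat.gcdA p u : ℤ) : K)‖ < 1 := by
      calc ‖(p : K)‖ * ‖((Nat.gcdA p u : ℤ) : K)‖ ≤ ‖(p : K)‖ * 1 :=
            mul_le_mul_of_nonneg_left (norm_int_le_one hna _) (norm_nonneg _)
        _ < 1 := by rw [mul_one]; exact hpK
    rcases le_max_iff.1 h4 with h6 | h6
    · linarith
    · have h7 : ‖(u : K)‖ * ‖((Nat.gcdB p u : ℤ) : K)‖ ≤ ‖(u : K)‖ * 1 :=
        mul_le_mul_of_nonneg_left (norm_int_le_one hna _) (norm_nonneg _)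
      linarith
  have hζn : ∀ i, ‖ζ i‖ = 1 := by
    intro i
    have h1 : ‖ζ i‖ ^ u = 1 := by rw [← norm_pow, hζ i, norm_one]
    exact (pow_eq_one_iff_of_nonneg (norm_nonneg _) (by omega)).1 h1
  have hα : ∀ i, (π * ζ i) ^ u = p := by
    intro i; rw [mul_pow, hζ i, hπ, mul_one]
  have hαn : ∀ i, ‖π * ζ i‖ = c := by
    intro i; rw [norm_mul, hζn i, mul_one]
  obtain ⟨k, hk, hkr⟩ := exists_mult h1
  set HZ : ℤ[X] := ∑ i ∈ Finset.range p, (1 + X) ^ i - C (p : ℤ) - C (p : ℤ) * X *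
          F.comp (1 + X) with hHZ
  obtain ⟨z, hz⟩ := HZ_coeff hp F
  rw [← hHZ] at hz
  have hc' : ∀ i, ‖(HZ.map (Int.castRingHom K)).coeff i‖ ≤ 1 := by
    intro i
    rw [Polynomial.coeff_map]
    exact norm_int_le_one hna _
  have hN : ‖(HZ.map (Int.castRingHom K)).coeff (p - 1)‖ = 1 := by
    rw [Polynomial.coeff_map, hz]
    have e1 : (Int.castRingHom K) (1 + p * z) = 1 + (p : K) * (z : K) := by simp
    rw [e1]
    have h2 : ‖-((p : K) * (z : K))‖ < 1 := by
      rw [norm_neg, norm_mul]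
      calc ‖(p : K)‖ * ‖(z : K)‖ ≤ ‖(p : K)‖ * 1 :=
            mul_le_mul_of_nonneg_left (norm_int_le_one hna _) (norm_nonneg _)
        _ < 1 := by rw [mul_one]; exact hpK
    apply le_antisymm
    · have := hc' (p - 1)
      rw [Polynomial.coeff_map, hz, e1] at this
      exact this
    · have h3 := hna (1 + (p : K) * (z : K)) (-((p : K) * (z : K)))
      have h4 : 1 + (p : K) * (z : K) + -((p : K) * (z : K)) = 1 := by ring
      simp only [h4, norm_one] at h3
      rcases le_max_iff.1 h3 with h5 | h5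
      · exact h5
      · linarith
  have hfin := newton_bound hna (fun i => π * ζ i) c hc0 hc1 hαn (by
    intro i j hij
    rw [← mul_sub, norm_mul, root_sub_norm hna hu hnn (hζ i) (hζ j) (fun h => hij (hζi h)), mul_one])
    (p - 1) k (by rw [hk]; have := hp.two_le; omega) (HZ.map (Int.castRingHom K)) hc' hN
    (c ^ (u * m)) (by
      intro j l hl
      have h3 := hF l (lt_of_lt_of_le hl (hkr j)) (π * ζ j) (hα j)
      rw [← hcn, ← pow_mul] at h3
      calc c ^ l * _ ≤ 1 * c ^ (u * m) :=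
            mul_le_mul (pow_le_one₀ hc0.le hc1.le) h3 (norm_nonneg _) zero_le_one
        _ = c ^ (u * m) := one_mul _)
  have h6 : u * m ≤ p - 1 := (pow_le_pow_iff_right_of_lt_one₀ hc0 hc1).1 hfin
  have := hp.two_le
  omega

end Pool.Agent.Helper431.PN
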