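import Mathlib
import Pool.Agent.Helper431.PN.Base

namespace Pool.Agent.Helper431.PN





theorem em_reg {p : ℕ} {G H : Type*} [Group G] [Group H] (f : G →* H)
    (hf : Function.Injective f) (h : IsRegular p H) : IsRegular p G := by
  intro x y
  obtain ⟨l, hl1, hl2⟩ := h (f x) (f y)
  have hK : ⁅Subgroup.closure ({f x, f y} : Set H), Subgroup.closure ({f x, f y} : Set H)⁆ =
      Subgroup.map f ⁅Subgroup.closure ({x, y} : Set G), Subgroup.closure ({x, y} : Set G)⁆ := by
    rw [Subgroup.map_commutator, MonoidHom.map_closure, Set.image_pair]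
  have key : ∀ l : List H, (∀ c ∈ l, c ∈ Subgroup.map f
      ⁅Subgroup.closure ({x, y} : Set G), Subgroup.closure ({x, y} : Set G)⁆) →
      ∃ l' : List G, (∀ c ∈ l', c ∈
        ⁅Subgroup.closure ({x, y} : Set G), Subgroup.closure ({x, y} : Set G)⁆) ∧ l'.map f = l := by
    intro l
    induction l with
    | nil => intro _; exact ⟨[], by simp, rfl⟩
    | cons a t ih =>
      intro hc
      obtain ⟨t', ht1, ht2⟩ := ih (fun c hct => hc c (List.mem_cons_of_mem _ hct))
      obtain ⟨a', ha1, ha2⟩ := Subgroup.mem_map.1 (hc a List.mem_cons_self)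
      refine ⟨a' :: t', ?_, by rw [List.map_cons, ha2, ht2]⟩
      intro c hct
      rcases List.mem_cons.1 hct with rfl | hct
      · exact ha1
      · exact ht1 c hct
  obtain ⟨l', h1, h2⟩ := key l (fun c hc => hK ▸ hl1 c hc)
  refine ⟨l', h1, hf ?_⟩
  rw [map_pow, map_mul, hl2, map_mul, map_mul, map_pow, map_pow, map_list_prod, ← h2, List.map_map,
    List.map_map]
  congr 3
  funext c
  simp

/-- the index equivalence -/
def emE {n n' : ℕ} (hn : n' ≤ n) : Fin n' ⊕ Fin (n - n') ≃ Fin n :=
  finSumFinEquiv.trans (finCongr (by omega))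

theorem emE_inl {n n' : ℕ} (hn : n' ≤ n) (a : Fin n') : ((emE hn (Sum.inl a) : Fin n) : ℕ) = a := by
  simp [emE]

/-- the block embedding -/
def emG {R : Type*} [CommRing R] {n n' : ℕ} (hn : n' ≤ n) :
    Matrix (Fin n') (Fin n') R →* Matrix (Fin n) (Fin n) R where
  toFun A := (Matrix.fromBlocks A 0 0 (1 : Matrix (Fin (n - n')) (Fin (n - n')) R)).submatrix
    (emE hn).symm (emE hn).symm
  map_one' := by
    rw [Matrix.fromBlocks_one, Matrix.submatrix_one_equiv]
  map_mul' A B := by
    rw [Matrix.submatrix_mul_equiv, Matrix.fromBlocks_multiply]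
    simp

theorem emG_inj {R : Type*} [CommRing R] {n n' : ℕ} (hn : n' ≤ n) :
    Function.Injective (emG (R := R) hn) := by
  intro A B h
  ext i j
  have := congrFun (congrFun h (emE hn (Sum.inl i))) (emE hn (Sum.inl j))
  simpa [emG] using this

theorem emG_isP {p m n n' : ℕ} (hn : n' ≤ n) (A : Matrix (Fin n') (Fin n') (ZMod (p ^ m)))
    (hA : IsP p m n' A) : IsP p m n (emG hn A) := by
  constructor
  · intro i
    obtain ⟨s, rfl⟩ := (emE hn).surjective i
    rcases s with a | a
    · have : emG hn A (emE hn (Sum.inl a)) (emE hn (Sum.inl a)) = A a a := by simp [emG]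
      rw [this]
      exact hA.1 a
    · have : emG hn A (emE hn (Sum.inr a)) (emE hn (Sum.inr a)) = 1 := by simp [emG]
      rw [this, sub_self]
      exact dvd_zero _
  · intro i j hij
    obtain ⟨s, rfl⟩ := (emE hn).surjective i
    obtain ⟨t, rfl⟩ := (emE hn).surjective j
    rcases s with a | a <;> rcases t with b | b
    · have : emG hn A (emE hn (Sum.inl a)) (emE hn (Sum.inl b)) = A a b := by simp [emG]
      rw [this]
      apply hA.2 a b
      rw [Fin.lt_def, emE_inl, emE_inl] at hij
      exact hij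
    · have : emG hn A (emE hn (Sum.inl a)) (emE hn (Sum.inr b)) = 0 := by simp [emG]
      rw [this]
      exact dvd_zero _
    · have : emG hn A (emE hn (Sum.inr a)) (emE hn (Sum.inl b)) = 0 := by simp [emG]
      rw [this]
      exact dvd_zero _
    · have hab : a ≠ b := by
        rintro rfl
        exact lt_irrefl _ hij
      have : emG hn A (emE hn (Sum.inr a)) (emE hn (Sum.inr b)) = 0 := by
        simp [emG, Matrix.one_apply_ne hab]
      rw [this]
      exact dvd_zero _

/-- the group embedding -/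
def emF {p m n n' : ℕ} (hn : n' ≤ n) : PGroup p m n' →* PGroup p m n :=
  ((Units.map (emG (R := ZMod (p ^ m)) hn)).comp (PGroup p m n').subtype).codRestrict
    (PGroup p m n) (by
      rintro ⟨u, hu1, hu2⟩
      refine ⟨emG_isP hn _ hu1, ?_⟩
      have : (((Units.map (emG (R := ZMod (p ^ m)) hn)) u)⁻¹ :
          (Matrix (Fin n) (Fin n) (ZMod (p ^ m)))ˣ) =
          (Units.map (emG (R := ZMod (p ^ m)) hn)) u⁻¹ := (map_inv _ _).symm
      show IsP p m n ((((Units.map (emG (R := ZMod (p ^ m)) hn)) u)⁻¹ :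
          (Matrix (Fin n) (Fin n) (ZMod (p ^ m)))ˣ) : Matrix (Fin n) (Fin n) (ZMod (p ^ m)))
      rw [this]
      exact emG_isP hn _ hu2)

/-- TARGET -/
theorem isRegular_embed {p m n n' : ℕ} (hn : n' ≤ n) (h : IsRegular p (PGroup p m n)) :
    IsRegular p (PGroup p m n') := by
  refine em_reg (emF hn) ?_ h
  intro a b hab
  apply Subtype.ext
  apply Units.ext
  apply emG_inj hn
  have := congrArg (fun z : PGroup p m n =>
    ((z : (Matrix (Fin n) (Fin n) (ZMod (p ^ m)))ˣ) : Matrix (Fin n) (Fin n) (ZMod (p ^ m)))) hab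
  exact this


end Pool.Agent.Helper431.PN
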