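import Mathlib
import Pool.Agent.Helper431.PN.Base
import Pool.Agent.Helper431.PN.G1

namespace Pool.Agent.Helper431.PN




theorem pow_sub_24083 (p : ℕ) (H : Type) [Group H] : ∃ N : Subgroup H, N.Normal ∧
    ∀ w, w ∈ N ↔ ∃ l : List H, (∀ c ∈ l, c ∈ commutator H) ∧ w = (l.map (fun c => c ^ p)).prod := by
  refine ⟨{ carrier := {w | ∃ l : List H, (∀ c ∈ l, c ∈ commutator H) ∧
              w = (l.map (fun c => c ^ p)).prod}
            mul_mem' := ?_, one_mem' := ?_, inv_mem' := ?_ }, ⟨?_⟩, fun w => Iff.rfl⟩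
  · rintro a b ⟨l, hl, rfl⟩ ⟨m, hm, rfl⟩
    refine ⟨l ++ m, ?_, ?_⟩
    · intro c hc
      rcases List.mem_append.1 hc with h | h
      · exact hl c h
      · exact hm c h
    · rw [List.map_append, List.prod_append]
  · exact ⟨[], by simp, by simp⟩
  · rintro a ⟨l, hl, rfl⟩
    refine ⟨(l.map (fun c => c⁻¹)).reverse, ?_, ?_⟩
    · intro c hc
      rw [List.mem_reverse, List.mem_map] at hc
      obtain ⟨d, hd, rfl⟩ := hc
      exact (commutator H).inv_mem (hl d hd)
    · rw [List.prod_inv_reverse, List.map_reverse, List.map_map, List.map_map]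
      congr 2
      apply List.map_congr_left
      intro c _
      simp
  · rintro a ⟨l, hl, rfl⟩ g
    refine ⟨l.map (fun c => g * c * g⁻¹), ?_, ?_⟩
    · intro c hc
      rw [List.mem_map] at hc
      obtain ⟨d, hd, rfl⟩ := hc
      exact Subgroup.Normal.conj_mem inferInstance d (hl d hd) g
    · induction l with
      | nil => simp
      | cons c l ih =>
        have ih' := ih (fun d hd => hl d (List.mem_cons_of_mem _ hd))
        simp only [List.map_cons, List.prod_cons] at ih' ⊢
        rw [← ih', conj_pow]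
        group

/-- TARGET -/
theorem regular_of_lcs {p : ℕ} (hp : p.Prime) {P : Type} [Group P]
    (h : (⊤ : Subgroup P).lowerCentralSeries (p - 1) = ⊥) : IsRegular p P := by
  intro x y
  obtain ⟨H, hH⟩ : ∃ H : Subgroup P, H = Subgroup.closure ({x, y} : Set P) := ⟨_, rfl⟩
  have hx : x ∈ H := by
    rw [hH]
    exact Subgroup.subset_closure (by simp)
  have hy : y ∈ H := by
    rw [hH]
    exact Subgroup.subset_closure (by simp)
  obtain ⟨x1, hx1⟩ : ∃ x1 : H, (x1 : P) = x := ⟨⟨x, hx⟩, rfl⟩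
  obtain ⟨y1, hy1⟩ : ∃ y1 : H, (y1 : P) = y := ⟨⟨y, hy⟩, rfl⟩
  have hcomH : (commutator H).map H.subtype = ⁅H, H⁆ := Subgroup.map_subtype_commutator H
  obtain ⟨N, hNn, hN⟩ := pow_sub_24083 p H
  let Q : Type := H ⧸ N
  let π : H →* Q := QuotientGroup.mk' N
  have hπs : Function.Surjective π := QuotientGroup.mk'_surjective _
  have hcomQ : commutator Q = (commutator H).map π := by
    rw [commutator_def, commutator_def, Subgroup.map_commutator, ← MonoidHom.range_eq_map,
      MonoidHom.range_eq_top.2 hπs]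
  have hexp : ∀ c ∈ commutator Q, c ^ p = 1 := by
    intro c hc
    rw [hcomQ] at hc
    obtain ⟨h, hh, rfl⟩ := hc
    rw [← map_pow]
    show π (h ^ p) = 1
    have h2 : h ^ p ∈ N := by
      rw [hN]
      exact ⟨[h], by simpa using hh, by simp⟩
    exact (QuotientGroup.eq_one_iff _).2 h2
  have hHl : (⊤ : Subgroup H).lowerCentralSeries (p - 1) = ⊥ := by
    have h1 := lowerCentralSeries_map_subtype_le H (p - 1)
    rw [h, le_bot_iff] at h1
    exact (Subgroup.map_eq_bot_iff_of_injective _ H.subtype_injective).1 h1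
  have hcl : (⊤ : Subgroup Q).lowerCentralSeries (p - 1) = ⊥ := by
    have h1 : ((⊤ : Subgroup H).lowerCentralSeries (p - 1)).map π =
        ((⊤ : Subgroup H).map π).lowerCentralSeries (p - 1) :=
      Subgroup.map_lowerCentralSeries ..
    rw [hHl, Subgroup.map_bot, ← MonoidHom.range_eq_map, MonoidHom.range_eq_top.2 hπs] at h1
    exact h1.symm
  have h1 := hall_class_lt hp hcl hexp (π x1) (π y1)
  rw [← map_mul, ← map_pow, ← map_pow, ← map_pow, ← map_mul] at h1
  have h2 : (x1 ^ p * y1 ^ p)⁻¹ * (x1 * y1) ^ p ∈ N := QuotientGroup.eq.1 h1.symm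
  obtain ⟨l, hl, he⟩ := (hN _).1 h2
  refine ⟨l.map (fun c : H => (c : P)), ?_, ?_⟩
  · intro c hc
    rw [List.mem_map] at hc
    obtain ⟨d, hd, rfl⟩ := hc
    rw [← hH, ← hcomH]
    exact ⟨d, hl d hd, rfl⟩
  · have h3 : H.subtype ((l.map (fun c : H => c ^ p)).prod) =
        ((l.map (fun c : H => (c : P))).map (fun c : P => c ^ p)).prod := by
      rw [map_list_prod, List.map_map, List.map_map]
      rfl
    rw [← h3, ← he]
    have h4 : H.subtype ((x1 ^ p * y1 ^ p)⁻¹ * (x1 * y1) ^ p) =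
        (x ^ p * y ^ p)⁻¹ * (x * y) ^ p := by
      rw [← hx1, ← hy1]
      rfl
    rw [h4]
    group


end Pool.Agent.Helper431.PN
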