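import Mathlib
import Pool.Agent.Helper431.PN.Base
import Pool.Agent.Helper431.PN.M5a

namespace Pool.Agent.Helper431.PN






/-- divisibility condition for an entry -/
def LBE (p m n : ℕ) (e i j : ℤ) (x : ZMod (p ^ m)) : Prop :=
  ∃ α : ℕ, (p : ZMod (p ^ m)) ^ α ∣ x ∧ e ≤ (α : ℤ) * n + j - i

theorem LBE_zero {p m n : ℕ} (hn : 1 ≤ n) (e i j : ℤ) : LBE p m n e i j 0 := by
  refine ⟨(e - j + i).toNat, dvd_zero _, ?_⟩
  have h1 : e - j + i ≤ ((e - j + i).toNat : ℤ) := Int.self_le_toNat _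
  have h2 : (0 : ℤ) ≤ ((e - j + i).toNat : ℤ) := Int.natCast_nonneg _
  have h3 : (1 : ℤ) ≤ n := by exact_mod_cast hn
  nlinarith

theorem LBE_add {p m n : ℕ} {e i j : ℤ} {x y : ZMod (p ^ m)} (hx : LBE p m n e i j x)
    (hy : LBE p m n e i j y) : LBE p m n e i j (x + y) := by
  obtain ⟨α, h1, h2⟩ := hx
  obtain ⟨β, h3, h4⟩ := hy
  rcases le_total α β with h | h
  · exact ⟨α, dvd_add h1 ((pow_dvd_pow _ h).trans h3), h2⟩
  · exact ⟨β, dvd_add ((pow_dvd_pow _ h).trans h1) h3, h4⟩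

theorem LBE_neg {p m n : ℕ} {e i j : ℤ} {x : ZMod (p ^ m)} (hx : LBE p m n e i j x) :
    LBE p m n e i j (-x) := by
  obtain ⟨α, h1, h2⟩ := hx
  exact ⟨α, (dvd_neg).2 h1, h2⟩

theorem LBE_mul {p m n : ℕ} {e f i j k : ℤ} {x y : ZMod (p ^ m)} (hx : LBE p m n e i k x)
    (hy : LBE p m n f k j y) : LBE p m n (e + f) i j (x * y) := by
  obtain ⟨α, h1, h2⟩ := hx
  obtain ⟨β, h3, h4⟩ := hy
  refine ⟨α + β, ?_, ?_⟩
  · rw [pow_add]
    exact mul_dvd_mul h1 h3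
  · push_cast
    nlinarith

/-- the filtration of the matrix ring -/
def LBJ (p m n : ℕ) (e : ℤ) (A : Matrix (Fin n) (Fin n) (ZMod (p ^ m))) : Prop :=
  ∀ i j : Fin n, LBE p m n e ((i : ℕ) : ℤ) ((j : ℕ) : ℤ) (A i j)

theorem LBJ_zero {p m n : ℕ} (e : ℤ) : LBJ p m n e 0 := by
  intro i j
  exact LBE_zero (by have := i.2; omega) _ _ _

theorem LBJ_add {p m n : ℕ} {e : ℤ} {A B : Matrix (Fin n) (Fin n) (ZMod (p ^ m))}
    (hA : LBJ p m n e A) (hB : LBJ p m n e B) : LBJ p m n e (A + B) := by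
  intro i j
  exact LBE_add (hA i j) (hB i j)

theorem LBJ_neg {p m n : ℕ} {e : ℤ} {A : Matrix (Fin n) (Fin n) (ZMod (p ^ m))}
    (hA : LBJ p m n e A) : LBJ p m n e (-A) := by
  intro i j
  exact LBE_neg (hA i j)

theorem LBJ_sub {p m n : ℕ} {e : ℤ} {A B : Matrix (Fin n) (Fin n) (ZMod (p ^ m))}
    (hA : LBJ p m n e A) (hB : LBJ p m n e B) : LBJ p m n e (A - B) := by
  rw [sub_eq_add_neg]
  exact LBJ_add hA (LBJ_neg hB)

theorem LBJ_mul {p m n : ℕ} {e f : ℤ} {A B : Matrix (Fin n) (Fin n) (ZMod (p ^ m))}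
    (hA : LBJ p m n e A) (hB : LBJ p m n f B) : LBJ p m n (e + f) (A * B) := by
  intro i j
  rw [Matrix.mul_apply]
  refine Finset.sum_induction _ (fun x => LBE p m n (e + f) ((i : ℕ) : ℤ) ((j : ℕ) : ℤ) x)
    (fun x y hx hy => LBE_add hx hy) (LBE_zero (by have := i.2; omega) _ _ _) ?_
  intro k _
  exact LBE_mul (hA i k) (hB k j)

theorem LBJ_zero_of_isP {p m n : ℕ} {A : Matrix (Fin n) (Fin n) (ZMod (p ^ m))}
    (hA : IsP p m n A) : LBJ p m n 0 A := by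
  intro i j
  rcases le_or_gt i j with h | h
  · refine ⟨0, by simp, ?_⟩
    have : ((i : ℕ) : ℤ) ≤ ((j : ℕ) : ℤ) := by exact_mod_cast h
    simp
    exact_mod_cast h
  · refine ⟨1, by simpa using hA.2 i j h, ?_⟩
    have h1 : ((i : ℕ) : ℤ) < n := by exact_mod_cast i.2
    have h2 : (0 : ℤ) ≤ ((j : ℕ) : ℤ) := Int.natCast_nonneg _
    push_cast
    linarith

theorem LBJ_one_of_isJ {p m n : ℕ} {A : Matrix (Fin n) (Fin n) (ZMod (p ^ m))}
    (hA : IsJ p m n A) : LBJ p m n 1 A := by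
  intro i j
  rcases le_or_gt j i with h | h
  · refine ⟨1, by simpa using hA i j h, ?_⟩
    have h1 : ((i : ℕ) : ℤ) + 1 ≤ n := by exact_mod_cast i.2
    have h2 : (0 : ℤ) ≤ ((j : ℕ) : ℤ) := Int.natCast_nonneg _
    push_cast
    linarith
  · refine ⟨0, by simp, ?_⟩
    have : ((i : ℕ) : ℤ) + 1 ≤ ((j : ℕ) : ℤ) := by exact_mod_cast h
    push_cast
    linarith

theorem LBJ_top {p m n : ℕ} {A : Matrix (Fin n) (Fin n) (ZMod (p ^ m))}
    (hA : LBJ p m n ((m : ℤ) * n) A) : A = 0 := by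
  ext i j
  obtain ⟨α, h1, h2⟩ := hA i j
  have hi : (0 : ℤ) ≤ ((i : ℕ) : ℤ) := Int.natCast_nonneg _
  have hj : ((j : ℕ) : ℤ) < n := by exact_mod_cast j.2
  have hmα : m ≤ α := by
    by_contra hcon
    push Not at hcon
    have h3 : (α : ℤ) + 1 ≤ m := by exact_mod_cast hcon
    have h4 : (0 : ℤ) < n := by linarith [Int.natCast_nonneg (j : ℕ)]
    nlinarith
  have h5 : (p : ZMod (p ^ m)) ^ m = 0 := by
    rw [← Nat.cast_pow, ZMod.natCast_self]
  have h6 : (p : ZMod (p ^ m)) ^ m ∣ A i j := (pow_dvd_pow _ hmα).trans h1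
  rw [h5, zero_dvd_iff] at h6
  rw [h6]
  rfl

/-- the matrix of a group element -/
def LBmt {p m n : ℕ} (g : PGroup p m n) : Matrix (Fin n) (Fin n) (ZMod (p ^ m)) :=
  ((g : (Matrix (Fin n) (Fin n) (ZMod (p ^ m)))ˣ) : Matrix (Fin n) (Fin n) (ZMod (p ^ m)))

theorem LBmt_mul {p m n : ℕ} (g h : PGroup p m n) : LBmt (g * h) = LBmt g * LBmt h := rfl

theorem LBmt_one {p m n : ℕ} : LBmt (1 : PGroup p m n) = 1 := rfl

theorem LBmt_inv_mul {p m n : ℕ} (g : PGroup p m n) : LBmt g⁻¹ * LBmt g = 1 := by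
  rw [← LBmt_mul, inv_mul_cancel, LBmt_one]

theorem LBmt_mul_inv {p m n : ℕ} (g : PGroup p m n) : LBmt g * LBmt g⁻¹ = 1 := by
  rw [← LBmt_mul, mul_inv_cancel, LBmt_one]

theorem LBmt_isP {p m n : ℕ} (g : PGroup p m n) : IsP p m n (LBmt g) := g.2.1

/-- the filtration of the group -/
def LBG (p m n : ℕ) (e : ℤ) : Subgroup (PGroup p m n) where
  carrier := {g | LBJ p m n e (LBmt g - 1)}
  one_mem' := by
    show LBJ p m n e (LBmt 1 - 1)
    rw [LBmt_one, sub_self]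
    exact LBJ_zero e
  mul_mem' := by
    intro g h hg hh
    show LBJ p m n e (LBmt (g * h) - 1)
    have e1 : LBmt (g * h) - 1 = (LBmt g - 1) * LBmt h + (LBmt h - 1) := by
      rw [LBmt_mul, Matrix.sub_mul, Matrix.one_mul]; abel
    rw [e1]
    have h1 := LBJ_mul hg (LBJ_zero_of_isP (LBmt_isP h))
    rw [add_zero] at h1
    exact LBJ_add h1 hh
  inv_mem' := by
    intro g hg
    show LBJ p m n e (LBmt g⁻¹ - 1)
    have e1 : LBmt g⁻¹ - 1 = -((LBmt g - 1) * LBmt g⁻¹) := by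
      rw [Matrix.sub_mul, LBmt_mul_inv, Matrix.one_mul]; abel
    rw [e1]
    have h1 := LBJ_mul hg (LBJ_zero_of_isP (LBmt_isP g⁻¹))
    rw [add_zero] at h1
    exact LBJ_neg h1

theorem LBG_comm {p m n : ℕ} {e f : ℤ} {g h : PGroup p m n} (hg : g ∈ LBG p m n e)
    (hh : h ∈ LBG p m n f) : g * h * g⁻¹ * h⁻¹ ∈ LBG p m n (e + f) := by
  have hg' : LBJ p m n e (LBmt g - 1) := hg
  have hh' : LBJ p m n f (LBmt h - 1) := hh
  show LBJ p m n (e + f) (LBmt (g * h * g⁻¹ * h⁻¹) - 1)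
  have e1 : LBmt (g * h * g⁻¹ * h⁻¹) - 1 = ((LBmt g - 1) * (LBmt h - 1) - (LBmt h - 1) * (LBmt g - 1)) *
      (LBmt g⁻¹ * LBmt h⁻¹) := by
    have e2 : (LBmt g - 1) * (LBmt h - 1) - (LBmt h - 1) * (LBmt g - 1) =
        LBmt g * LBmt h - LBmt h * LBmt g := by noncomm_ring
    rw [e2, LBmt_mul, LBmt_mul, LBmt_mul, Matrix.sub_mul]
    have e3 : LBmt h * LBmt g * (LBmt g⁻¹ * LBmt h⁻¹) = 1 := by
      calc LBmt h * LBmt g * (LBmt g⁻¹ * LBmt h⁻¹) =
            LBmt h * (LBmt g * LBmt g⁻¹) * LBmt h⁻¹ := by simp only [Matrix.mul_assoc]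
        _ = 1 := by rw [LBmt_mul_inv, Matrix.mul_one, LBmt_mul_inv]
    rw [e3]
    simp only [Matrix.mul_assoc]
  rw [e1]
  have h1 := LBJ_mul hg' hh'
  have h2 := LBJ_mul hh' hg'
  rw [add_comm f e] at h2
  have h3 := LBJ_mul (LBJ_zero_of_isP (LBmt_isP g⁻¹)) (LBJ_zero_of_isP (LBmt_isP h⁻¹))
  have h4 := LBJ_mul (LBJ_sub h1 h2) h3
  rw [add_zero, add_zero] at h4
  exact h4

/-- TARGET -/
theorem lcs_PGroup {p m n : ℕ} (hp : p.Prime) (hm : 1 ≤ m) (hn : 1 ≤ n) :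
    (⊤ : Subgroup (PGroup p m n)).lowerCentralSeries (m * n - 1) = ⊥ := by
  have htop : ∀ g : PGroup p m n, g ∈ LBG p m n 1 := by
    intro g
    show LBJ p m n 1 (LBmt g - 1)
    exact LBJ_one_of_isJ ((isP_iff p m n _).1 (LBmt_isP g))
  have hmain : ∀ k : ℕ, (⊤ : Subgroup (PGroup p m n)).lowerCentralSeries k ≤
      LBG p m n ((k : ℤ) + 1) := by
    intro k
    induction k with
    | zero =>
      intro g _
      have := htop g
      simpa using this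
    | succ k ih =>
      rw [Subgroup.lowerCentralSeries_succ, Subgroup.commutator_le]
      intro g hg h _
      have h1 := LBG_comm (ih hg) (htop h)
      push_cast
      exact h1
  rw [eq_bot_iff]
  intro g hg
  rw [Subgroup.mem_bot]
  have h1 : LBJ p m n (((m * n - 1 : ℕ) : ℤ) + 1) (LBmt g - 1) := hmain _ hg
  have h2 : (((m * n - 1 : ℕ) : ℤ) + 1) = (m : ℤ) * n := by
    have : 1 ≤ m * n := Nat.one_le_iff_ne_zero.2 (by positivity)
    push_cast [Nat.cast_sub this]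
    ring
  rw [h2] at h1
  have h3 : LBmt g = 1 := sub_eq_zero.1 (LBJ_top h1)
  apply Subtype.ext
  apply Units.ext
  exact h3

end Pool.Agent.Helper431.PN
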