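import Mathlib
import Pool.Agent.Helper431.PN.Base
import Pool.Agent.Helper431.PN.E1

namespace Pool.Agent.Helper431.PN






/-- TARGET -/
theorem irregular_two {m n : ℕ} (hn : 2 ≤ n) (hm : 4 ≤ m) : ¬ IsRegular 2 (PGroup 2 m n) := by
  intro hreg
  obtain ⟨k, hk⟩ : ∃ k, k = (m + 1) / 2 := ⟨_, rfl⟩
  have hk1 : 1 ≤ k := by omega
  have hkm : k + 2 ≤ m := by omega
  have hk2 : m ≤ 2 * k := by omega
  obtain ⟨d, hd⟩ : ∃ d : Fin n → ZMod (2 ^ m), d = fun i => if i.val = 0 then -1 else 1 := ⟨_, rfl⟩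
  have hdd : ∀ i, d i * d i = 1 := by
    intro i
    rw [hd]
    by_cases h : i.val = 0 <;> simp [h]
  obtain ⟨X, hX⟩ : ∃ X, X = Matrix.diagonal d := ⟨_, rfl⟩
  obtain ⟨i0, hi0⟩ : ∃ i0 : Fin n, i0 = ⟨0, by omega⟩ := ⟨_, rfl⟩
  obtain ⟨i1, hi1⟩ : ∃ i1 : Fin n, i1 = ⟨1, by omega⟩ := ⟨_, rfl⟩
  have hd0 : d i0 = -1 := by rw [hd, hi0]; simp
  have hd1 : d i1 = 1 := by rw [hd, hi1]; simp
  have hXX : X * X = 1 := by
    rw [hX, Matrix.diagonal_mul_diagonal]
    rw [show (fun i => d i * d i) = fun _ => 1 from funext hdd]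
    exact Matrix.diagonal_one
  have hXP : IsP 2 m n X := by
    constructor
    · intro i
      rw [hX, Matrix.diagonal_apply_eq, hd]
      by_cases h : i.val = 0
      · simp only [h, if_true]
        exact ⟨-1, by push_cast; ring⟩
      · simp only [h, if_false, sub_self]
        exact dvd_zero _
    · intro i j hij
      rw [hX, Matrix.diagonal_apply_ne _ (ne_of_gt hij)]
      exact dvd_zero _
  obtain ⟨F, hF⟩ := good_poly_gen Nat.prime_two hk1 (by omega) hk2 X X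
    (Matrix.single i0 i1 1) hXX hXX hXP hreg
  have hent : ∀ l : ℕ, (X ^ l * Matrix.single i0 i1 1 * X ^ l : Matrix (Fin n) (Fin n) (ZMod (2 ^ m))) i0 i1 = (-1) ^ l := by
    intro l
    rw [hX, Matrix.diagonal_pow, Matrix.mul_diagonal, Matrix.diagonal_mul, Pi.pow_apply,
      Pi.pow_apply, hd0, hd1, one_pow, Matrix.single_apply_same, mul_one, mul_one]
  obtain ⟨t, ht⟩ : ∃ t : ℤ, t = F.sum fun j c => c * (-1) ^ j := ⟨_, rfl⟩
  have hsum : (F.sum fun j c => (c : ZMod (2 ^ m)) •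
      (X ^ (j + 1) * Matrix.single i0 i1 1 * X ^ (j + 1) -
        X ^ j * Matrix.single i0 i1 1 * X ^ j) : Matrix (Fin n) (Fin n) (ZMod (2 ^ m))) i0 i1 = -2 * (t : ZMod (2 ^ m)) := by
    rw [ht, Polynomial.sum_def, Polynomial.sum_def, Matrix.sum_apply, Int.cast_sum, Finset.mul_sum]
    refine Finset.sum_congr rfl fun j _ => ?_
    rw [Matrix.smul_apply, Matrix.sub_apply, hent, hent, smul_eq_mul, pow_succ]
    push_cast
    ring
  have h := congrFun (congrFun hF i0) i1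
  rw [Matrix.smul_apply, Matrix.sub_apply, Matrix.sub_apply, Matrix.smul_apply, Matrix.smul_apply,
    Matrix.zero_apply, hsum, Matrix.sum_apply, Finset.sum_congr rfl (fun l _ => hent l),
    Matrix.single_apply_same, Finset.sum_range_succ, Finset.sum_range_one] at h
  simp only [smul_eq_mul] at h
  have h2 : (((2 : ℤ) ^ k * (-2 + 4 * t) : ℤ) : ZMod (2 ^ m)) = 0 := by
    rw [← h]
    push_cast
    ring
  rw [ZMod.intCast_zmod_eq_zero_iff_dvd] at h2
  push_cast at h2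
  have h3 : (2 : ℤ) ^ (k + 1) * 2 ∣ (2 : ℤ) ^ (k + 1) * (2 * t - 1) := by
    have e1 : (2 : ℤ) ^ (k + 1) * 2 ∣ 2 ^ m := by
      rw [← pow_succ]
      exact pow_dvd_pow 2 hkm
    have e2 : (2 : ℤ) ^ k * (-2 + 4 * t) = (2 : ℤ) ^ (k + 1) * (2 * t - 1) := by
      rw [pow_succ]
      ring
    rw [← e2]
    exact e1.trans h2
  have h4 := (mul_dvd_mul_iff_left (pow_ne_zero (k + 1) (two_ne_zero : (2 : ℤ) ≠ 0))).1 h3
  omega

end Pool.Agent.Helper431.PN
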