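import Mathlib
import Pool.Agent.Helper431.PN.Base
import Pool.Agent.Helper431.PN.E4
import Pool.Agent.Helper431.PN.EMB
import Pool.Agent.Helper431.PN.P2
import Pool.Agent.Helper431.PN.LB1
import Pool.Agent.Helper431.PN.LB2
import Pool.Agent.Helper431.PN.Mono
import Pool.Agent.Helper431.PN.N3

namespace Pool.Agent.Helper431.PN

theorem two_le_of_le {p n : ℕ} (hp : p.Prime) (hle : p ≤ n ^ 2 - n + 1) : 2 ≤ n := by
  by_contra h
  have h2 := hp.two_le
  have : n = 0 ∨ n = 1 := by omega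
  rcases this with rfl | rfl <;> simp at hle <;> omega

theorem irregular_explicit {p m n : ℕ} (hp : p.Prime) (hle : p ≤ n ^ 2 - n + 1)
    (hm : 2 * ((p + n - 2) / n) + 2 ≤ m) : ¬ IsRegular p (PGroup p m n) := by
  have hn : 2 ≤ n := two_le_of_le hp hle
  have hp2 := hp.two_le
  have ht1 : 1 ≤ (p + n - 2) / n := (Nat.one_le_div_iff (by omega)).2 (by omega)
  have ht2 : p + n - 2 < n * ((p + n - 2) / n + 1) := Nat.lt_mul_div_succ _ (by omega)
  rcases eq_or_ne p 2 with h2 | h2
  · subst h2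
    exact irregular_two hn (by omega)
  by_cases hd : p ∣ n
  · have hpn : p ≤ n := Nat.le_of_dvd (by omega) hd
    intro hreg
    have h3 : 3 ≤ p := by omega
    obtain ⟨k, rfl⟩ : ∃ k, n = k + 1 := ⟨n - 1, by omega⟩
    refine irregular_coprime (n := k) (m := m) hp h2 (by omega) ?_ ?_ ?_
      (isRegular_embed (Nat.le_succ k) hreg)
    · intro h
      have := (Nat.dvd_add_right h).1 hd
      exact hp.one_lt.ne' (Nat.dvd_one.1 this)
    · have h4 : p ≤ k + 1 := hpn
      have h5 : k ^ 2 - k = k * (k - 1) := by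
        rw [pow_two, Nat.mul_sub, mul_one]
      rw [h5]
      obtain ⟨j, rfl⟩ : ∃ j, k = j + 2 := ⟨k - 2, by omega⟩
      have : j + 2 - 1 = j + 1 := by omega
      rw [this]
      nlinarith
    · have h6 : 2 ≤ m / 2 := by omega
      have h7 : k * 2 ≤ k * (m / 2) := Nat.mul_le_mul_left k h6
      omega
  · refine irregular_coprime hp h2 hn hd hle ?_
    have h6 : (p + n - 2) / n + 1 ≤ m / 2 := by omega
    have h7 : n * ((p + n - 2) / n + 1) ≤ n * (m / 2) := Nat.mul_le_mul_left n h6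
    omega

theorem regular_low {p m n : ℕ} (hp : p.Prime) (hm : 1 ≤ m) (hn : 1 ≤ n) (h : m * n ≤ p) :
    IsRegular p (PGroup p m n) := by
  apply regular_of_lcs hp
  have h1 := lcs_PGroup (p := p) hp hm hn
  have h2 : (⊤ : Subgroup (PGroup p m n)).lowerCentralSeries (p - 1) ≤
      (⊤ : Subgroup (PGroup p m n)).lowerCentralSeries (m * n - 1) :=
    Subgroup.lowerCentralSeries_antitone _ (by omega)
  rw [h1] at h2
  exact le_bot_iff.1 h2

theorem threshold {p n : ℕ} (hp : p.Prime) (hle : p ≤ n ^ 2 - n + 1) :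
    ∃ M : ℕ, p < M * n ∧ M ≤ 2 * ((p + n - 2) / n) + 2 ∧
      ∀ m, 1 ≤ m → (IsRegular p (PGroup p m n) ↔ m < M) := by
  classical
  have hn : 2 ≤ n := two_le_of_le hp hle
  have hex : ∃ m, 1 ≤ m ∧ ¬ IsRegular p (PGroup p m n) :=
    ⟨2 * ((p + n - 2) / n) + 2, by omega, irregular_explicit hp hle le_rfl⟩
  have h1 := Nat.find_spec hex
  refine ⟨Nat.find hex, ?_, ?_, fun m hm => ?_⟩
  · by_contra hcon
    push Not at hcon
    exact h1.2 (regular_low hp h1.1 (by omega) hcon)
  · exact Nat.find_min' hex ⟨by omega, irregular_explicit hp hle le_rfl⟩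
  constructor
  · intro hr
    by_contra hlt
    push Not at hlt
    exact h1.2 (isRegular_mono hp h1.1 hlt hr)
  · intro hlt
    by_contra hr
    exact Nat.find_min hex hlt ⟨hm, hr⟩

end Pool.Agent.Helper431.PN
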