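import Mathlib
import Pool.Agent.Helper431.PN.Base
import Pool.Agent.Helper431.PN.B4
import Pool.Agent.Helper431.PN.E5

namespace Pool.Agent.Helper431.PN

theorem irregular_mnm {p m n : ℕ} (hp : p.Prime) (hm : 2 ≤ m) (h : p ≤ m * (n - m)) :
    ¬ IsRegular p (PGroup p m n) := by
  have hp2 := hp.two_le
  have hmn : m ≤ n := by
    by_contra hc
    have : n - m = 0 := by omega
    rw [this, mul_zero] at h
    omega
  obtain ⟨u, rfl⟩ : ∃ u, n = m + u := ⟨n - m, by omega⟩
  rw [Nat.add_sub_cancel_left] at h
  by_cases hd : p ∣ u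
  · have hu : u ≠ 0 := by
      rintro rfl
      omega
    have hpu : p ≤ u := Nat.le_of_dvd (by omega) hd
    intro hreg
    obtain ⟨k, rfl⟩ : ∃ k, u = k + 1 := ⟨u - 1, by omega⟩
    have hkm : p ≤ k * m := by
      have h1 : k * 2 ≤ k * m := Nat.mul_le_mul_left k hm
      omega
    refine irregular_block (r := m) (u := k) (m := m) hp (by omega) (by omega) ?_ hkm hkm
      (isRegular_embed (by omega) hreg)
    intro h2
    have := (Nat.dvd_add_right h2).1 hd
    exact hp.one_lt.ne' (Nat.dvd_one.1 this)
  · rw [mul_comm] at h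
    exact irregular_block hp (by omega) (by omega) hd h h

end Pool.Agent.Helper431.PN
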